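import Mathlib

/-!
# MP_ae5b4e_an, project MERO: definitions

Projective involutions on the tangent lines of a conic which depend on the point of the conic
through a function `k` with countably many singularities.  In an affine coordinate `x` of the conic
consecutive vertices satisfy `1 / (x⁺ - x) + 1 / (x⁻ - x) = k x`.
-/

noncomputable section

namespace Pool.Agent.MP_ae5b4e_an_MERO

open Complex Set Filter Topology Metric

/-- `f` and `g` agree near `z` (except possibly at `z`) outside a countable set -/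
def EqC (f g : ℂ → ℂ) (z : ℂ) : Prop :=
  ∃ Z : Set ℂ, Z.Countable ∧ ∀ᶠ w in 𝓝[≠] z, w ∉ Z → f w = g w

/-- The function `k` is in normal form: wherever it agrees, outside a countable set, with a
meromorphic germ, it is meromorphic in normal form. -/
def Nrm (k : ℂ → ℂ) : Prop :=
  ∀ z, (∃ g : ℂ → ℂ, MeromorphicAt g z ∧ EqC k g z) → MeromorphicNFAt k z

/-- the function `k` is analytic outside a countable set -/
def CSing (k : ℂ → ℂ) : Prop := {z | ¬ AnalyticAt ℂ k z}.Countable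

/-- `k` is not meromorphic at infinity -/
def SingInf (k : ℂ → ℂ) : Prop := ¬ MeromorphicAt (fun w => k w⁻¹) 0

/-- the horizontal strip -/
def St (a b : ℝ) : Set ℂ := {t | a < t.im ∧ t.im < b}

/-- A family of curves `F(·, ρ)`, `|ρ| < c`, of period `1`, whose points `F(t + j ρ, ρ)` are the
vertices of polygons. -/
structure Dat (k : ℂ → ℂ) (F : ℂ × ℂ → ℂ) (c : ℝ) : Prop where
  pos : 0 < c
  an : AnalyticOnNhd ℂ F (St (-c) c ×ˢ ball 0 c)
  per : ∀ p ∈ St (-c) c ×ˢ ball (0:ℂ) c, F (p.1 + 1, p.2) = F p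
  inj : ∀ s t : ℝ, F (s, 0) = F (t, 0) → ∃ n : ℤ, s = t + n
  reg : ∀ p ∈ St (-c) c ×ˢ ball (0:ℂ) c, AnalyticAt ℂ k (F p)
  sep : ∀ p ∈ St (-c) c ×ˢ ball (0:ℂ) c, p.2 ≠ 0 → (p.1 + p.2) ∈ St (-c) c →
    F (p.1 + p.2, p.2) ≠ F p
  fe : ∀ p ∈ St (-c) c ×ˢ ball (0:ℂ) c, p.2 ≠ 0 → (p.1 + p.2) ∈ St (-c) c →
    (p.1 - p.2) ∈ St (-c) c →
    (F (p.1 + p.2, p.2) - F p)⁻¹ + (F (p.1 - p.2, p.2) - F p)⁻¹ = k (F p)

/-- the family `F` continues analytically to the height `h` -/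
def Ext (F : ℂ × ℂ → ℂ) (c h : ℝ) : Prop :=
  ∃ r, 0 < r ∧ r ≤ c ∧ ∃ G : ℂ × ℂ → ℂ, AnalyticOnNhd ℂ G (St (-c) h ×ˢ ball 0 r) ∧
    EqOn G F (St (-c) c ×ˢ ball 0 r)

/-- `G` is a continuation of `F` to the height `h` -/
structure IsExt (F : ℂ × ℂ → ℂ) (c h r : ℝ) (G : ℂ × ℂ → ℂ) : Prop where
  r0 : 0 < r
  rc : r ≤ c
  an : AnalyticOnNhd ℂ G (St (-c) h ×ˢ ball 0 r)
  eq : EqOn G F (St (-c) c ×ˢ ball 0 r)

/-- a regular point of the line `Im t = h₁` -/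
def RegB (F : ℂ × ℂ → ℂ) (c h₁ : ℝ) : Prop :=
  ∃ (b : ℂ) (δ : ℝ) (g : ℂ × ℂ → ℂ) (t₁ : ℂ), b.im = h₁ ∧ 0 < δ ∧
    AnalyticOnNhd ℂ g (ball b δ ×ˢ ball 0 δ) ∧ t₁ ∈ ball b δ ∧ t₁ ∈ St (-c) h₁ ∧
    ∀ h r G, IsExt F c h r G → t₁.im < h → G =ᶠ[𝓝 (t₁, 0)] g

/-- Fourier coefficient at the height `y` -/
def fo (f : ℂ → ℂ) (y : ℝ) (m : ℤ) : ℂ :=
  ∫ s in (0:ℝ)..1, f (s + y * I) * exp (-(2 * Real.pi * I * m * (s + y * I)))

/-- the differential equation of the limit curve, `k (f t) = - f'' / f' ^ 2`, near `t` -/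
def ODEAt (k f : ℂ → ℂ) (t : ℂ) : Prop :=
  EqC (fun s => k (f s)) (fun s => -(deriv (deriv f) s) / (deriv f s) ^ 2) t

lemma isOpen_St (a b : ℝ) : IsOpen (St a b) :=
  (isOpen_lt continuous_const continuous_im).inter (isOpen_lt continuous_im continuous_const)

lemma convex_St (a b : ℝ) : Convex ℝ (St a b) := by
  have h : St a b = im ⁻¹' Ioo a b := by
    ext z
    simp [St]
  rw [h]
  exact (convex_Ioo a b).is_linear_preimage (f := im) ⟨fun _ _ => rfl, by simp⟩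

lemma mem_St {a b : ℝ} {t : ℂ} : t ∈ St a b ↔ a < t.im ∧ t.im < b := Iff.rfl

end Pool.Agent.MP_ae5b4e_an_MERO
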