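import Mathlib
import Pool.Agent.Lib.MP_ae5b4e_an_MERO.Defs

/-!
# MP_ae5b4e_an, project MERO, module CN: countable exceptional sets
-/

noncomputable section

namespace Pool.Agent.MP_ae5b4e_an_MERO

open Complex Set Filter Topology Metric

namespace CN

/-- two points of a convex open set can be joined by two segments which avoid a countable set -/
theorem exists_via {V C : Set ℂ} (hV : IsOpen V) (hc : Convex ℝ V) (hC : C.Countable) {a b : ℂ}
    (ha : a ∈ V \ C) (hb : b ∈ V \ C) (hab : a ≠ b) :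
    ∃ z, segment ℝ a z ⊆ V \ C ∧ segment ℝ b z ⊆ V \ C := by
  have h : 1 < Module.rank ℝ ℂ := by
    rw [Complex.rank_real_complex]
    exact Nat.one_lt_ofNat
  let c := (2 : ℝ)⁻¹ • (a + b)
  let x := (2 : ℝ)⁻¹ • (b - a)
  have Ia : c - x = a := by
    simp only [c, x]
    module
  have Ib : c + x = b := by
    simp only [c, x]
    module
  have x_ne_zero : x ≠ 0 := by simpa [x] using sub_ne_zero.2 hab.symm
  obtain ⟨y, hy⟩ : ∃ y, LinearIndependent ℝ ![x, y] :=
    exists_linearIndependent_pair_of_one_lt_rank h x_ne_zero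
  have A : Set.Countable {t : ℝ | (segment ℝ (c + x) (c + t • y) ∩ C).Nonempty} := by
    apply countable_ofPred_nonempty_of_disjoint _ (fun t ↦ inter_subset_right) hC
    intro t t' htt'
    apply disjoint_iff_inter_eq_empty.2
    have N : {c + x} ∩ C = ∅ := by
      simpa only [singleton_inter_eq_empty, mem_compl_iff, Ib] using hb.2
    rw [inter_assoc, inter_comm C, inter_assoc, inter_self, ← inter_assoc, ← subset_empty_iff, ← N]
    apply inter_subset_inter_left
    apply Eq.subset
    apply segment_inter_eq_endpoint_of_linearIndependent_of_ne hy htt'.symm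
  have B : Set.Countable {t : ℝ | (segment ℝ (c - x) (c + t • y) ∩ C).Nonempty} := by
    apply countable_ofPred_nonempty_of_disjoint _ (fun t ↦ inter_subset_right) hC
    intro t t' htt'
    apply disjoint_iff_inter_eq_empty.2
    have N : {c - x} ∩ C = ∅ := by
      simpa only [singleton_inter_eq_empty, mem_compl_iff, Ia] using ha.2
    rw [inter_assoc, inter_comm C, inter_assoc, inter_self, ← inter_assoc, ← subset_empty_iff, ← N]
    apply inter_subset_inter_left
    rw [sub_eq_add_neg _ x]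
    apply Eq.subset
    apply segment_inter_eq_endpoint_of_linearIndependent_of_ne _ htt'.symm
    convert! hy.units_smul ![-1, 1]
    simp [← List.ofFn_inj]
  have hcV : c ∈ V := by
    have := hc ha.1 hb.1 (show (0:ℝ) ≤ 2⁻¹ by norm_num) (show (0:ℝ) ≤ 2⁻¹ by norm_num)
      (by norm_num)
    rwa [← smul_add] at this
  have hcont : Continuous fun t : ℝ => c + t • y := by fun_prop
  have hopen : IsOpen {t : ℝ | c + t • y ∈ V} := hV.preimage hcont
  have hmem : (0 : ℝ) ∈ {t : ℝ | c + t • y ∈ V} := by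
    change c + (0:ℝ) • y ∈ V
    rw [zero_smul, add_zero]
    exact hcV
  obtain ⟨t, htV, ht⟩ := ((A.union B).dense_compl ℝ).inter_open_nonempty _ hopen ⟨0, hmem⟩
  simp only [compl_union, mem_inter_iff, mem_compl_iff, mem_ofPred_eq,
    not_nonempty_iff_eq_empty] at ht
  refine ⟨c + t • y, fun w hw => ⟨hc.segment_subset ha.1 htV hw, fun hwC => ?_⟩,
    fun w hw => ⟨hc.segment_subset hb.1 htV hw, fun hwC => ?_⟩⟩
  · rw [← Ia] at hw
    exact notMem_empty w (ht.2 ▸ (⟨hw, hwC⟩ : w ∈ segment ℝ (c - x) (c + t • y) ∩ C))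
  · rw [← Ib] at hw
    exact notMem_empty w (ht.1 ▸ (⟨hw, hwC⟩ : w ∈ segment ℝ (c + x) (c + t • y) ∩ C))

/-- a subset without accumulation points in a set containing it is countable -/
theorem countable_of_eventually {D S : Set ℂ} (hS : S ⊆ D)
    (h : ∀ t ∈ D, ∀ᶠ s in 𝓝[≠] t, s ∉ S) : S.Countable := by
  refine (HereditarilyLindelofSpace.isLindelof S).countable_of_isDiscrete ?_
  rw [isDiscrete_iff_nhdsNE]
  intro t ht
  have h1 : Sᶜ ∈ 𝓝[≠] t := h t (hS ht)
  rw [Filter.mem_iff_inf_principal_compl, compl_compl] at h1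
  exact h1

end CN

theorem isPreconnected_diff {V C : Set ℂ} (hV : IsOpen V) (hc : Convex ℝ V) (hC : C.Countable) :
    IsPreconnected (V \ C) := by
  refine isPreconnected_of_forall_pair fun a ha b hb => ?_
  rcases eq_or_ne a b with rfl | hab
  · exact ⟨{a}, singleton_subset_iff.2 ha, mem_singleton a, mem_singleton a,
      isPreconnected_singleton⟩
  · obtain ⟨z, h1, h2⟩ := CN.exists_via hV hc hC ha hb hab
    refine ⟨segment ℝ a z ∪ segment ℝ b z, union_subset h1 h2, Or.inl (left_mem_segment ℝ a z),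
      Or.inr (left_mem_segment ℝ b z), ?_⟩
    exact IsPreconnected.union z (right_mem_segment ℝ a z) (right_mem_segment ℝ b z)
      (convex_segment a z).isPreconnected (convex_segment b z).isPreconnected

set_option linter.unusedVariables false in
theorem mero_ident {D : Set ℂ} (hDo : IsOpen D) (hD : IsPreconnected D) {f g : ℂ → ℂ}
    (hf : MeromorphicOn f D) (hg : MeromorphicOn g D) {t₀ : ℂ} (h0 : t₀ ∈ D)
    (h : ∃ᶠ t in 𝓝[≠] t₀, f t = g t) {t : ℂ} (ht : t ∈ D) : f =ᶠ[𝓝[≠] t] g := by
  have hfg : MeromorphicOn (f - g) D := hf.sub hg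
  have h1 : meromorphicOrderAt (f - g) t₀ = ⊤ := by
    rw [meromorphicOrderAt_eq_top_iff]
    rcases (hfg t₀ h0).eventually_eq_zero_or_eventually_ne_zero with h2 | h2
    · exact h2
    · exfalso
      refine h ?_
      filter_upwards [h2] with s hs hfs
      exact hs (sub_eq_zero.2 hfs)
  have h2 : meromorphicOrderAt (f - g) t = ⊤ := by
    by_contra hne
    exact hfg.meromorphicOrderAt_ne_top_of_isPreconnected hD ht h0 hne h1
  rw [meromorphicOrderAt_eq_top_iff] at h2
  filter_upwards [h2] with s hs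
  exact sub_eq_zero.1 hs

/-- a relatively closed, nonempty, countable subset of an open set has an isolated point -/
theorem exists_isolated {V C : Set ℂ} (hV : IsOpen V) (hVC : IsOpen (V \ C)) (hC : C.Countable)
    (hne : (V ∩ C).Nonempty) : ∃ t ∈ V ∩ C, ∀ᶠ s in 𝓝[≠] t, s ∈ V \ C := by
  by_contra hcon
  push Not at hcon
  have hpre : Preperfect (V ∩ C) := by
    intro t ht
    rw [accPt_iff_frequently_nhdsNE]
    have h1 := hcon t ht
    have h2 : ∀ᶠ s in 𝓝[≠] t, s ∈ V := nhdsWithin_le_nhds (hV.mem_nhds ht.1)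
    refine (h1.and_eventually h2).mono fun s hs => ⟨hs.2, ?_⟩
    by_contra hsC
    exact hs.1 ⟨hs.2, hsC⟩
  obtain ⟨t₀, ht₀⟩ := hne
  obtain ⟨r, hr, hrV⟩ := Metric.nhds_basis_closedBall.mem_iff.1 (hV.mem_nhds ht₀.1)
  have hp : Perfect (closure (ball t₀ r ∩ (V ∩ C))) :=
    (hpre.open_inter isOpen_ball).perfect_closure
  have hsub : closure (ball t₀ r ∩ (V ∩ C)) ⊆ closedBall t₀ r ∩ (V \ C)ᶜ := by
    refine closure_minimal ?_ (isClosed_closedBall.inter hVC.isClosed_compl)
    rintro s ⟨hs1, hs2⟩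
    exact ⟨ball_subset_closedBall hs1, fun hs3 => hs3.2 hs2.2⟩
  have hsubC : closure (ball t₀ r ∩ (V ∩ C)) ⊆ C := by
    intro s hs
    have h1 := hsub hs
    by_contra hsC
    exact h1.2 ⟨hrV h1.1, hsC⟩
  obtain ⟨F, hF, -, hinj⟩ := hp.exists_nat_bool_injection
    ⟨t₀, subset_closure ⟨mem_ball_self hr, ht₀⟩⟩
  have hcount : (range F).Countable := hC.mono (hF.trans hsubC)
  have h2 : Cardinal.mk (ℕ → Bool) = Cardinal.continuum := by simp
  have : Countable (ℕ → Bool) := by
    rw [← Set.countable_univ_iff]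
    rw [← image_univ] at hcount
    exact countable_of_injective_of_countable_image hinj.injOn hcount
  have h1 : Cardinal.mk (ℕ → Bool) ≤ Cardinal.aleph0 := Cardinal.mk_le_aleph0_iff.2 this
  rw [h2] at h1
  exact absurd h1 (not_le.2 Cardinal.aleph0_lt_continuum)

/-- preimages of countable sets under nonconstant meromorphic functions are countable -/
theorem countable_preimage {D : Set ℂ} (hDo : IsOpen D) (hD : IsPreconnected D) {f : ℂ → ℂ}
    (hf : MeromorphicOn f D) (hnc : ∃ t ∈ D, ∀ c, ¬ ∀ᶠ s in 𝓝[≠] t, f s = c) {A : Set ℂ}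
    (hA : A.Countable) : {t ∈ D | f t ∈ A}.Countable := by
  obtain ⟨t₁, ht₁, hnc⟩ := hnc
  have hU : {t ∈ D | f t ∈ A} = ⋃ a ∈ A, {t ∈ D | f t = a} := by
    ext t
    simp only [mem_iUnion, mem_ofPred_eq]
    constructor
    · rintro ⟨h1, h2⟩
      exact ⟨f t, h2, h1, rfl⟩
    · rintro ⟨a, ha, h1, rfl⟩
      exact ⟨h1, ha⟩
  rw [hU]
  refine hA.biUnion fun a _ => ?_
  refine CN.countable_of_eventually (D := D) (fun t ht => ht.1) fun t ht => ?_
  by_contra hcon
  rw [not_eventually] at hcon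
  refine hnc a (mero_ident hDo hD hf (MeromorphicOn.const a) ht ?_ ht₁)
  refine hcon.mono fun s hs => ?_
  rw [not_not] at hs
  exact hs.2

/-- meromorphic functions which agree near one point agree outside a countable set -/
theorem countable_ne {D : Set ℂ} (hDo : IsOpen D) (hD : IsPreconnected D) {f g : ℂ → ℂ}
    (hf : MeromorphicOn f D) (hg : MeromorphicOn g D) {t₀ : ℂ} (h0 : t₀ ∈ D)
    (h : ∃ᶠ t in 𝓝[≠] t₀, f t = g t) : {t ∈ D | f t ≠ g t}.Countable := by
  refine CN.countable_of_eventually (D := D) (fun t ht => ht.1) fun t ht => ?_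
  filter_upwards [mero_ident hDo hD hf hg h0 h ht] with s hs hs'
  exact hs'.2 hs

end Pool.Agent.MP_ae5b4e_an_MERO
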