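import Pool.Agent.Lib.MP_ae5b4e_an_MERO.Defs

/-!
# MP_ae5b4e_an, project MERO, module NR: the normal form of the function `k`
-/

noncomputable section

namespace Pool.Agent.MP_ae5b4e_an_MERO

open Complex Set Filter Topology Metric

namespace Normal

/-- `k` agrees near `z`, outside a countable set, with a meromorphic germ -/
def Rem (k : ℂ → ℂ) (z : ℂ) : Prop := ∃ g : ℂ → ℂ, MeromorphicAt g z ∧ EqC k g z

open Classical in
/-- the normal form -/
def nf (k : ℂ → ℂ) (z : ℂ) : ℂ :=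
  if h : Rem k z then toMeromorphicNFAt h.choose z z else 0

theorem frequently_notMem {Z : Set ℂ} (hZ : Z.Countable) (z : ℂ) : ∃ᶠ w in 𝓝[≠] z, w ∉ Z := by
  have h1 : (Z ∪ {z}).Countable := hZ.union (countable_singleton z)
  have h2 : Dense (Z ∪ {z})ᶜ := h1.dense_compl ℝ
  have h3 : ∃ᶠ w in 𝓝 z, w ∈ (Z ∪ {z})ᶜ := mem_closure_iff_frequently.1 (h2 z)
  rw [frequently_nhdsWithin_iff]
  refine h3.mono fun w hw => ?_
  simp only [mem_compl_iff, mem_union, mem_singleton_iff, not_or] at hw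
  exact ⟨hw.1, hw.2⟩

theorem eventuallyEq_of_eqC {k g g' : ℂ → ℂ} {z : ℂ} (hg : MeromorphicAt g z)
    (hg' : MeromorphicAt g' z) (h : EqC k g z) (h' : EqC k g' z) : g =ᶠ[𝓝[≠] z] g' := by
  obtain ⟨Z, hZ, h1⟩ := h
  obtain ⟨Z', hZ', h2⟩ := h'
  refine (hg.frequently_eq_iff_eventuallyEq hg').1 ?_
  refine ((frequently_notMem (hZ.union hZ') z).and_eventually (h1.and h2)).mono ?_
  rintro w ⟨hw, hw1, hw2⟩
  simp only [mem_union, not_or] at hw
  rw [← hw1 hw.1, ← hw2 hw.2]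

theorem nf_eq {k g : ℂ → ℂ} {z : ℂ} (hg : MeromorphicAt g z) (h : EqC k g z) :
    nf k z = toMeromorphicNFAt g z z := by
  have hR : Rem k z := ⟨g, hg, h⟩
  have h1 := hR.choose_spec
  have h2 := toMeromorphicNFAt_eventuallyEq_nhds_congr (eventuallyEq_of_eqC h1.1 hg h1.2 h)
  have h3 : nf k z = toMeromorphicNFAt hR.choose z z := by
    unfold nf
    rw [dif_pos hR]
  rw [h3]
  exact h2.eq_of_nhds

theorem eqC_near {k g : ℂ → ℂ} {z : ℂ} (h : EqC k g z) : ∀ᶠ w in 𝓝[≠] z, EqC k g w := by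
  obtain ⟨Z, hZ, h1⟩ := h
  have h2 := eventually_eventually_nhdsWithin.2 h1
  filter_upwards [h2, self_mem_nhdsWithin] with w hw hwz
  refine ⟨Z, hZ, ?_⟩
  have h3 : 𝓝[{z}ᶜ] w = 𝓝 w := IsOpen.nhdsWithin_eq isOpen_compl_singleton hwz
  rw [h3] at hw
  exact hw.filter_mono nhdsWithin_le_nhds

theorem nf_near {k g : ℂ → ℂ} {z : ℂ} (hg : MeromorphicAt g z) (h : EqC k g z) :
    nf k =ᶠ[𝓝 z] toMeromorphicNFAt g z := by
  have h1 : ∀ᶠ w in 𝓝[≠] z, nf k w = toMeromorphicNFAt g z w := by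
    filter_upwards [eqC_near h, hg.eventually_analyticAt, self_mem_nhdsWithin] with w hw1 hw2 hw3
    rw [nf_eq hw2.meromorphicAt hw1, toMeromorphicNFAt_eq_self.2 hw2.meromorphicNFAt]
    exact hg.eqOn_compl_singleton_toMeromorphicNFAt hw3
  rw [eventually_nhdsWithin_iff] at h1
  filter_upwards [h1] with w hw
  by_cases hwz : w = z
  · subst hwz
    exact nf_eq hg h
  · exact hw hwz

theorem nf_meromorphicNFAt {k g : ℂ → ℂ} {z : ℂ} (hg : MeromorphicAt g z) (h : EqC k g z) :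
    MeromorphicNFAt (nf k) z := by
  rw [meromorphicNFAt_congr (nf_near hg h)]
  exact meromorphicNFAt_toMeromorphicNFAt

theorem eqC_refl (k : ℂ → ℂ) (z : ℂ) : EqC k k z :=
  ⟨∅, countable_empty, Eventually.of_forall fun _ _ => rfl⟩

theorem nf_of_analyticAt {k : ℂ → ℂ} {z : ℂ} (hk : AnalyticAt ℂ k z) : nf k =ᶠ[𝓝 z] k := by
  have h1 := nf_near hk.meromorphicAt (eqC_refl k z)
  rwa [toMeromorphicNFAt_eq_self.2 hk.meromorphicNFAt] at h1

end Normal

theorem exists_nrm {k : ℂ → ℂ} (hA : CSing k) :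
    ∃ k' : ℂ → ℂ, Nrm k' ∧ CSing k' ∧ ∀ z, AnalyticAt ℂ k z → k' =ᶠ[𝓝 z] k := by
  refine ⟨Normal.nf k, ?_, ?_, fun z hz => Normal.nf_of_analyticAt hz⟩
  · rintro z ⟨g, hg, Z, hZ, h1⟩
    refine Normal.nf_meromorphicNFAt hg ⟨Z ∪ {z | ¬ AnalyticAt ℂ k z}, hZ.union hA, ?_⟩
    filter_upwards [h1] with w hw hw2
    simp only [mem_union, mem_ofPred_eq, not_or, not_not] at hw2
    rw [← hw hw2.1]
    exact (Normal.nf_of_analyticAt hw2.2).eq_of_nhds.symm
  · refine hA.mono ?_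
    intro z hz hk
    exact hz ((analyticAt_congr (Normal.nf_of_analyticAt hk)).2 hk)

end Pool.Agent.MP_ae5b4e_an_MERO
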