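import Mathlib
import Pool.Agent.Lib.MP_ae5b4e_an_MERO.Defs
import Pool.Agent.Lib.MP_ae5b4e_an_MERO.Normal

/-!
# MP_ae5b4e_an, project MERO, module CH: change of the chart of the conic
-/

noncomputable section

namespace Pool.Agent.MP_ae5b4e_an_MERO

open Complex Set Filter Topology Metric

namespace Chart

/-- the function `k` in the coordinate `u = 1 / (x - e)` -/
def k0 (k : ℂ → ℂ) (e : ℂ) (u : ℂ) : ℂ := -(k (e + u⁻¹) + 2 * u) / u ^ 2

theorem analyticAt_k0 {k : ℂ → ℂ} {e u : ℂ} (hu : u ≠ 0) (hk : AnalyticAt ℂ k (e + u⁻¹)) :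
    AnalyticAt ℂ (k0 k e) u := by
  have h1 : AnalyticAt ℂ (fun u : ℂ => e + u⁻¹) u :=
    analyticAt_const.add (analyticAt_id.inv hu)
  have h2 : AnalyticAt ℂ (fun u : ℂ => k (e + u⁻¹)) u := AnalyticAt.fun_comp hk h1
  have h3 : AnalyticAt ℂ (fun u : ℂ => -(k (e + u⁻¹) + 2 * u)) u :=
    (h2.add (analyticAt_const.mul analyticAt_id)).neg
  exact h3.div (analyticAt_id.pow 2) (pow_ne_zero 2 hu)

theorem cSing_k0 {k : ℂ → ℂ} (hA : CSing k) (e : ℂ) : CSing (k0 k e) := by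
  have hinj : Function.Injective fun u : ℂ => e + u⁻¹ :=
    (add_right_injective e).comp inv_injective
  have h1 : ((fun u : ℂ => e + u⁻¹) ⁻¹' {z | ¬ AnalyticAt ℂ k z}).Countable :=
    hA.preimage_of_injOn hinj.injOn
  have h2 : ({0} ∪ (fun u : ℂ => e + u⁻¹) ⁻¹' {z | ¬ AnalyticAt ℂ k z}).Countable :=
    (countable_singleton 0).union h1
  apply h2.mono
  intro u hu
  rcases eq_or_ne u 0 with h0 | h0
  · exact Or.inl h0
  · exact Or.inr fun h => hu (analyticAt_k0 h0 h)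

theorem k0_eq (k : ℂ → ℂ) {e x : ℂ} (hx : x ≠ e) :
    k x = -2 / (x - e) - k0 k e (x - e)⁻¹ / (x - e) ^ 2 := by
  have h : x - e ≠ 0 := sub_ne_zero.2 hx
  rw [k0, inv_inv, add_sub_cancel]
  field_simp
  ring

end Chart

open Chart in
theorem chart {k : ℂ → ℂ} (hA : CSing k) (hk : Nrm k) {F : ℂ × ℂ → ℂ} {c : ℝ} (hD : Dat k F c)
    {e : ℂ} (he : ¬ MeromorphicAt k e) :
    ∃ (k' : ℂ → ℂ) (F' : ℂ × ℂ → ℂ), CSing k' ∧ Nrm k' ∧ SingInf k' ∧ Dat k' F' c := by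
  obtain ⟨k', hN, hC, hk'⟩ := exists_nrm (cSing_k0 hA e)
  have hFe : ∀ p ∈ St (-c) c ×ˢ ball (0:ℂ) c, F p ≠ e := by
    intro p hp h
    apply he
    rw [← h]
    exact (hD.reg p hp).meromorphicAt
  have hFe' : ∀ p ∈ St (-c) c ×ˢ ball (0:ℂ) c, F p - e ≠ 0 :=
    fun p hp => sub_ne_zero.2 (hFe p hp)
  have hinv : ∀ p q : ℂ × ℂ, (F p - e)⁻¹ = (F q - e)⁻¹ → F p = F q := by
    intro p q h
    have h1 := inv_injective h
    exact sub_left_injective h1
  have hk1 : ∀ x, x ≠ e → AnalyticAt ℂ k x → AnalyticAt ℂ (k0 k e) (x - e)⁻¹ := by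
    intro x hx h
    apply analyticAt_k0 (inv_ne_zero (sub_ne_zero.2 hx))
    rw [inv_inv, add_sub_cancel]
    exact h
  have hk2 : ∀ x, x ≠ e → AnalyticAt ℂ k x → k' (x - e)⁻¹ = k0 k e (x - e)⁻¹ :=
    fun x hx h => (hk' _ (hk1 x hx h)).eq_of_nhds
  refine ⟨k', fun p => (F p - e)⁻¹, hC, hN, ?_, ?_⟩
  · -- infinity is singular
    intro h
    apply he
    apply MeromorphicNFAt.meromorphicAt
    apply hk e
    refine ⟨fun x => -2 / (x - e) - k' (x - e)⁻¹ / (x - e) ^ 2, ?_, ?_⟩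
    · have h1 : AnalyticAt ℂ (fun x : ℂ => x - e) e := analyticAt_id.sub analyticAt_const
      have h2 : MeromorphicAt (fun x : ℂ => k' (x - e)⁻¹) e := by
        have h3 : MeromorphicAt (fun w => k' w⁻¹) ((fun x : ℂ => x - e) e) := by
          simpa using h
        exact MeromorphicAt.comp_analyticAt (g := fun x : ℂ => x - e) h3 h1
      exact ((MeromorphicAt.const (-2) e).div h1.meromorphicAt).sub
        (h2.div (h1.meromorphicAt.pow 2))
    · refine ⟨{z | ¬ AnalyticAt ℂ k z}, hA, ?_⟩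
      filter_upwards [self_mem_nhdsWithin] with x hx hxZ
      have hx' : AnalyticAt ℂ k x := not_not.1 hxZ
      rw [k0_eq k hx, hk2 x hx hx']
  · constructor
    · exact hD.pos
    · intro p hp
      exact ((hD.an p hp).sub analyticAt_const).inv (hFe' p hp)
    · intro p hp
      rw [hD.per p hp]
    · intro s t h
      exact hD.inj s t (hinv _ _ h)
    · intro p hp
      exact (hk1 _ (hFe p hp) (hD.reg p hp)).congr (hk' _ (hk1 _ (hFe p hp) (hD.reg p hp))).symm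
    · intro p hp h0 h1 h2
      exact hD.sep p hp h0 h1 (hinv _ _ h2)
    · intro p hp h0 h1 h2
      change ((F (p.1 + p.2, p.2) - e)⁻¹ - (F p - e)⁻¹)⁻¹ +
        ((F (p.1 - p.2, p.2) - e)⁻¹ - (F p - e)⁻¹)⁻¹ = k' (F p - e)⁻¹
      have e1 := hFe' p hp
      have e2 := hFe' (p.1 + p.2, p.2) ⟨h1, hp.2⟩
      have e3 := hFe' (p.1 - p.2, p.2) ⟨h2, hp.2⟩
      have e4 : F (p.1 + p.2, p.2) - F p ≠ 0 := sub_ne_zero.2 (hD.sep p hp h0 h1)
      have e5 : F (p.1 - p.2, p.2) - F p ≠ 0 := by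
        have h3 := hD.sep (p.1 - p.2, p.2) ⟨h2, hp.2⟩ h0 (by
          change p.1 - p.2 + p.2 ∈ St (-c) c
          rw [sub_add_cancel]
          exact hp.1)
        have h4 : F (p.1 - p.2 + p.2, p.2) ≠ F (p.1 - p.2, p.2) := h3
        rw [sub_add_cancel] at h4
        exact sub_ne_zero.2 h4.symm
      have key : ∀ a b : ℂ, a - e ≠ 0 → b - e ≠ 0 → b - a ≠ 0 →
          ((b - e)⁻¹ - (a - e)⁻¹)⁻¹ = -(a - e) - (a - e) ^ 2 * (b - a)⁻¹ := by
        intro a b ha hb hab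
        have h3 : (b - e)⁻¹ - (a - e)⁻¹ = -(b - a) / ((b - e) * (a - e)) := by
          field_simp
          ring
        rw [h3, inv_div]
        field_simp
        ring
      rw [key _ _ e1 e2 e4, key _ _ e1 e3 e5, hk2 _ (hFe p hp) (hD.reg p hp), k0, inv_inv,
        add_sub_cancel, ← hD.fe p hp h0 h1 h2]
      field_simp
      ring

end Pool.Agent.MP_ae5b4e_an_MERO
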