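import Mathlib
import Pool.Agent.Lib.MP_ae5b4e_an_MERO.Defs

/-!
# MP_ae5b4e_an, project MERO: module LA

If `k ∘ f` agrees near `t`, outside a countable set, with a meromorphic germ, then `k` is
meromorphic at `f t` (also at infinity when `f` has a pole at `t`).
-/

namespace Pool.Agent.MP_ae5b4e_an_MERO

open Complex Set Filter Topology Metric

namespace LA

/-- points outside a countable set accumulate everywhere -/
lemma freq_compl {Z : Set ℂ} (hZ : Z.Countable) (u : ℂ) : ∃ᶠ w in 𝓝[≠] u, w ∉ Z := by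
  have h1 : (insert u Z).Countable := hZ.insert u
  have h2 : Dense (insert u Z)ᶜ := h1.dense_compl ℝ
  have h3 : ∃ᶠ w in 𝓝 u, w ∈ (insert u Z)ᶜ := mem_closure_iff_frequently.1 (h2 u)
  rw [frequently_nhdsWithin_iff]
  refine h3.mono fun w hw => ?_
  simp only [mem_compl_iff, mem_insert_iff, not_or] at hw
  exact ⟨hw.2, hw.1⟩

/-- a meromorphic germ that agrees with an analytic germ outside a countable set -/
lemma eventuallyEq_of_eqC {k g : ℂ → ℂ} {u : ℂ} (hk : MeromorphicAt k u) (hg : MeromorphicAt g u)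
    (h : EqC k g u) : k =ᶠ[𝓝[≠] u] g := by
  obtain ⟨Z, hZ, hE⟩ := h
  rcases (hk.sub hg).eventually_eq_zero_or_eventually_ne_zero with h0 | h0
  · filter_upwards [h0] with w hw
    simpa [sub_eq_zero] using hw
  · exfalso
    obtain ⟨w, hw1, hw2, hw3⟩ := ((freq_compl hZ u).and_eventually (h0.and hE)).exists
    exact hw2 (by simp [hw3 hw1])

lemma analyticAt_of_eqC {k g : ℂ → ℂ} {u : ℂ} (hk : MeromorphicNFAt k u) (hg : AnalyticAt ℂ g u)
    (h : EqC k g u) : AnalyticAt ℂ k u ∧ k u = g u := by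
  have h1 : k =ᶠ[𝓝[≠] u] g := eventuallyEq_of_eqC hk.meromorphicAt hg.meromorphicAt h
  have h2 : 0 ≤ meromorphicOrderAt k u := by
    rw [meromorphicOrderAt_congr h1]
    exact hg.meromorphicOrderAt_nonneg
  have h3 : AnalyticAt ℂ k u := hk.meromorphicOrderAt_nonneg_iff_analyticAt.1 h2
  refine ⟨h3, ?_⟩
  have h4 : Tendsto k (𝓝[≠] u) (𝓝 (k u)) := h3.continuousAt.tendsto.mono_left nhdsWithin_le_nhds
  have h5 : Tendsto g (𝓝[≠] u) (𝓝 (g u)) := hg.continuousAt.tendsto.mono_left nhdsWithin_le_nhds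
  exact tendsto_nhds_unique h4 (h5.congr' h1.symm)

/-- the derivative of a nonconstant analytic germ does not vanish nearby -/
lemma deriv_ne_zero {f : ℂ → ℂ} {t : ℂ} (hf : AnalyticAt ℂ f t)
    (hne : ¬ ∀ᶠ s in 𝓝 t, f s = f t) : ∀ᶠ s in 𝓝[≠] t, deriv f s ≠ 0 := by
  rcases hf.deriv.eventually_eq_zero_or_eventually_ne_zero with h0 | h0
  · exfalso
    apply hne
    have h1 : ∀ᶠ s in 𝓝 t, deriv f s = 0 ∧ AnalyticAt ℂ f s := h0.and hf.eventually_analyticAt
    obtain ⟨ε, hε, h2⟩ := Metric.eventually_nhds_iff_ball.1 h1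
    filter_upwards [ball_mem_nhds t hε] with s hs
    refine isOpen_ball.is_const_of_deriv_eq_zero (convex_ball t ε).isPreconnected
      (fun x hx => (h2 x hx).2.differentiableAt.differentiableWithinAt)
      (fun x hx => (h2 x hx).1) hs (mem_ball_self hε)
  · exact h0

/-- pushing forward by `f` near a point where `f' ≠ 0` -/
lemma push {k f g : ℂ → ℂ} {s : ℂ} {Z : Set ℂ} (hZ : Z.Countable) (hf : AnalyticAt ℂ f s)
    (hd : deriv f s ≠ 0) (hg : AnalyticAt ℂ g s) (hE : ∀ᶠ w in 𝓝 s, w ∉ Z → k (f w) = g w)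
    (hk : (∃ g : ℂ → ℂ, MeromorphicAt g (f s) ∧ EqC k g (f s)) → MeromorphicNFAt k (f s)) :
    AnalyticAt ℂ k (f s) ∧ k (f s) = g s := by
  set φ := hf.hasStrictDerivAt.localInverse _ _ _ hd with hφ
  have h1 : AnalyticAt ℂ φ (f s) := hf.analyticAt_localInverse hd
  have h2 : φ (f s) = s := HasStrictFDerivAt.localInverse_apply_image ..
  have h3 : ∀ᶠ u in 𝓝 (f s), f (φ u) = u :=
    hf.hasStrictDerivAt.eventually_right_inverse hd
  have h4 : AnalyticAt ℂ (fun u => g (φ u)) (f s) := by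
    have : AnalyticAt ℂ g (φ (f s)) := by rw [h2]; exact hg
    exact this.comp h1
  have h5 : Tendsto φ (𝓝 (f s)) (𝓝 s) := by
    have := h1.continuousAt.tendsto
    rwa [h2] at this
  have h6 : EqC k (fun u => g (φ u)) (f s) := by
    refine ⟨f '' Z, hZ.image f, ?_⟩
    have h7 := h5.eventually hE
    apply Filter.Eventually.filter_mono nhdsWithin_le_nhds
    filter_upwards [h3, h7] with u hu1 hu2 hu3
    have h8 : φ u ∉ Z := fun h => hu3 ⟨φ u, h, hu1⟩
    have h9 := hu2 h8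
    rwa [hu1] at h9
  have h10 := analyticAt_of_eqC (hk ⟨_, h4.meromorphicAt, h6⟩) h4 h6
  refine ⟨h10.1, ?_⟩
  rw [h10.2, h2]

/-- the common core of the two lemmas -/
theorem core {k f g : ℂ → ℂ} {t : ℂ}
    (hk : ∀ᶠ u in 𝓝[≠] (f t), (∃ g : ℂ → ℂ, MeromorphicAt g u ∧ EqC k g u) → MeromorphicNFAt k u)
    (hf : AnalyticAt ℂ f t) (hne : ¬ ∀ᶠ s in 𝓝 t, f s = f t) (hg : MeromorphicAt g t)
    (h : EqC (fun s => k (f s)) g t) : MeromorphicAt k (f t) := by
  obtain ⟨Z, hZ, hE⟩ := h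
  -- `f` maps punctured neighbourhoods to punctured neighbourhoods
  have hfne : ∀ᶠ s in 𝓝[≠] t, f s ≠ f t := by
    rcases (hf.sub (analyticAt_const (v := f t))).eventually_eq_zero_or_eventually_ne_zero
      with h0 | h0
    · exfalso
      apply hne
      filter_upwards [h0] with s hs
      simpa [sub_eq_zero] using hs
    · filter_upwards [h0] with s hs
      simpa [sub_eq_zero] using hs
  have hmap : Tendsto f (𝓝[≠] t) (𝓝[≠] (f t)) :=
    tendsto_nhdsWithin_iff.2 ⟨hf.continuousAt.tendsto.mono_left nhdsWithin_le_nhds, hfne⟩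
  have hE' : ∀ᶠ s in 𝓝[≠] t, ∀ᶠ w in 𝓝 s, w ∉ Z → k (f w) = g w := by
    have h1 := eventually_eventually_nhdsWithin.2 hE
    filter_upwards [h1, self_mem_nhdsWithin] with s hs hst
    rwa [(isOpen_compl_singleton).nhdsWithin_eq hst] at hs
  -- step 1
  have key : ∀ᶠ s in 𝓝[≠] t, AnalyticAt ℂ k (f s) ∧ k (f s) = g s := by
    have ha : ∀ᶠ s in 𝓝[≠] t, AnalyticAt ℂ f s :=
      hf.eventually_analyticAt.filter_mono nhdsWithin_le_nhds
    filter_upwards [hE', ha, deriv_ne_zero hf hne, hg.eventually_analyticAt, hmap.eventually hk]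
      with s h1 h2 h3 h4 h5
    exact push hZ h2 h3 h4 h1 h5
  -- Lipschitz bound
  obtain ⟨L, hL, hLip⟩ : ∃ L : ℝ, 0 < L ∧ ∀ᶠ s in 𝓝 t, ‖f s - f t‖ ≤ L * ‖s - t‖ := by
    obtain ⟨L, hL, h1⟩ := hf.differentiableAt.isBigO_sub.exists_pos
    exact ⟨L, hL, h1.bound⟩
  -- growth of `g`
  obtain ⟨M, C, hC, hgr⟩ : ∃ (M : ℕ) (C : ℝ), 0 < C ∧
      ∀ᶠ s in 𝓝 t, ‖(s - t) ^ M * g s‖ ≤ C := by
    obtain ⟨M, hM⟩ := hg
    refine ⟨M, ‖(t - t) ^ M • g t‖ + 1, by positivity, ?_⟩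
    have h1 := hM.continuousAt.norm.tendsto
    have h2 := h1.eventually (gt_mem_nhds (lt_add_one _))
    filter_upwards [h2] with s hs
    rw [← smul_eq_mul]
    exact hs.le
  -- open mapping
  have hopen : 𝓝 (f t) ≤ map f (𝓝 t) :=
    hf.eventually_constant_or_nhds_le_map_nhds.resolve_left hne
  have hall : ∀ᶠ s in 𝓝 t, s ≠ t → AnalyticAt ℂ k (f s) ∧
      ‖(f s - f t) ^ M * k (f s)‖ ≤ L ^ M * C := by
    have h1 := eventually_nhdsWithin_iff.1 key
    filter_upwards [h1, hLip, hgr] with s h1 h2 h3 hst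
    obtain ⟨h4, h5⟩ := h1 hst
    refine ⟨h4, ?_⟩
    rw [h5, norm_mul, norm_pow]
    rw [norm_mul, norm_pow] at h3
    calc ‖f s - f t‖ ^ M * ‖g s‖ ≤ (L * ‖s - t‖) ^ M * ‖g s‖ := by gcongr
      _ = L ^ M * (‖s - t‖ ^ M * ‖g s‖) := by ring
      _ ≤ L ^ M * C := by gcongr
  have hall2 : ∀ᶠ u in 𝓝 (f t), u ≠ f t → AnalyticAt ℂ k u ∧
      ‖(u - f t) ^ M * k u‖ ≤ L ^ M * C := by
    have h1 : ∀ᶠ u in map f (𝓝 t), ∃ s, f s = u ∧ (s ≠ t → AnalyticAt ℂ k (f s) ∧
        ‖(f s - f t) ^ M * k (f s)‖ ≤ L ^ M * C) := by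
      rw [eventually_map]
      filter_upwards [hall] with s hs
      exact ⟨s, rfl, hs⟩
    filter_upwards [hopen h1] with u hu hne'
    obtain ⟨s, rfl, hs⟩ := hu
    exact hs fun h => hne' (by rw [h])
  -- removable singularity
  refine ⟨M + 1, ?_⟩
  apply Complex.analyticAt_of_differentiable_on_punctured_nhds_of_continuousAt
  · rw [eventually_nhdsWithin_iff]
    filter_upwards [hall2] with u hu hne'
    have h1 := (hu hne').1
    fun_prop
  · have h0 : (f t - f t) ^ (M + 1) • k (f t) = 0 := by simp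
    rw [ContinuousAt, h0]
    apply squeeze_zero_norm' (a := fun u => ‖u - f t‖ * (L ^ M * C))
    · filter_upwards [hall2] with u hu
      by_cases hut : u = f t
      · subst hut
        simp
      · have h1 := (hu hut).2
        rw [smul_eq_mul, pow_succ', mul_assoc, norm_mul]
        gcongr
    · have h1 : Tendsto (fun u => ‖u - f t‖ * (L ^ M * C)) (𝓝 (f t))
          (𝓝 (‖f t - f t‖ * (L ^ M * C))) := by
        apply Continuous.tendsto
        fun_prop
      simpa using h1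

end LA

theorem lemmaA {k f : ℂ → ℂ} {t : ℂ} (hk : Nrm k) (hf : AnalyticAt ℂ f t)
    (hne : ¬ ∀ᶠ s in 𝓝 t, f s = f t)
    (h : ∃ g : ℂ → ℂ, MeromorphicAt g t ∧ EqC (fun s => k (f s)) g t) :
    MeromorphicNFAt k (f t) := by
  obtain ⟨g, hg, hE⟩ := h
  have h1 : MeromorphicAt k (f t) :=
    LA.core (Eventually.of_forall fun u => hk u) hf hne hg hE
  exact hk (f t) ⟨k, h1, ∅, countable_empty, Eventually.of_forall fun _ _ => rfl⟩

theorem lemmaA_pole {k f : ℂ → ℂ} {t : ℂ} (hk : Nrm k) (hf : MeromorphicAt f t)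
    (hp : Tendsto f (𝓝[≠] t) (Bornology.cobounded ℂ))
    (h : ∃ g : ℂ → ℂ, MeromorphicAt g t ∧ EqC (fun s => k (f s)) g t) :
    MeromorphicAt (fun w => k w⁻¹) 0 := by
  obtain ⟨g, hg, Z, hZ, hE⟩ := h
  set f1 : ℂ → ℂ := Function.update (fun s => (f s)⁻¹) t 0 with hf1
  have hft : f1 t = 0 := by simp [hf1]
  have hfe : f1 =ᶠ[𝓝[≠] t] fun s => (f s)⁻¹ := by
    filter_upwards [self_mem_nhdsWithin] with s hs
    simp [hf1, Function.update_of_ne hs]
  have hm : MeromorphicAt f1 t := hf.inv.congr hfe.symm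
  have hlim : Tendsto f1 (𝓝[≠] t) (𝓝 0) :=
    (tendsto_inv₀_cobounded.comp hp).congr' hfe.symm
  have hcont : ContinuousAt f1 t := by
    rw [continuousAt_iff_punctured_nhds, hft]
    exact hlim
  have han : AnalyticAt ℂ f1 t := hm.analyticAt hcont
  have hfne : ∀ᶠ s in 𝓝[≠] t, f s ≠ 0 := by
    have h1 := hp.eventually (Bornology.eventually_ne_cobounded (0 : ℂ))
    exact h1
  have hne : ¬ ∀ᶠ s in 𝓝 t, f1 s = f1 t := by
    intro h1
    have h2 : ∀ᶠ s in 𝓝[≠] t, f1 s = f1 t := h1.filter_mono nhdsWithin_le_nhds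
    obtain ⟨s, h3, h4, h5⟩ := (h2.and (hfe.and hfne)).exists
    rw [hft, h4] at h3
    exact h5 (inv_eq_zero.1 h3)
  have hE1 : EqC (fun s => (fun w => k w⁻¹) (f1 s)) g t := by
    refine ⟨Z, hZ, ?_⟩
    filter_upwards [hE, hfe] with s h1 h2 h3
    simp only [h2, inv_inv]
    exact h1 h3
  have hk1 : ∀ᶠ u in 𝓝[≠] (f1 t), (∃ g : ℂ → ℂ, MeromorphicAt g u ∧
      EqC (fun w => k w⁻¹) g u) → MeromorphicNFAt (fun w => k w⁻¹) u := by
    rw [hft]
    filter_upwards [self_mem_nhdsWithin] with u hu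
    rintro ⟨g', hg', Z', hZ', hE'⟩
    have hu0 : u ≠ 0 := hu
    have hinv : AnalyticAt ℂ (fun w : ℂ => w⁻¹) u := analyticAt_inv hu0
    have hinv' : AnalyticAt ℂ (fun w : ℂ => w⁻¹) u⁻¹ := analyticAt_inv (inv_ne_zero hu0)
    have hd : deriv (fun w : ℂ => w⁻¹) u ≠ 0 := by
      rw [deriv_inv]
      simp [hu0]
    have h1 : MeromorphicNFAt k u⁻¹ := by
      apply hk
      refine ⟨fun w => g' w⁻¹, ?_, (fun w : ℂ => w⁻¹) '' Z', hZ'.image _, ?_⟩
      · have h2 : MeromorphicAt g' ((fun w : ℂ => w⁻¹) u⁻¹) := by simpa using hg'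
        exact h2.comp_analyticAt hinv'
      · have h3 : Tendsto (fun w : ℂ => w⁻¹) (𝓝[≠] u⁻¹) (𝓝[≠] u) := by
          rw [tendsto_nhdsWithin_iff]
          constructor
          · have h4 := hinv'.continuousAt.tendsto
            rw [inv_inv] at h4
            exact h4.mono_left nhdsWithin_le_nhds
          · filter_upwards [self_mem_nhdsWithin] with w hw h5
            exact hw (by rw [mem_singleton_iff, ← inv_inj, inv_inv]; exact h5)
        filter_upwards [h3.eventually hE'] with w hw hwZ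
        have h6 : w⁻¹ ∉ Z' := fun h7 => hwZ ⟨w⁻¹, h7, by simp⟩
        have h8 := hw h6
        simpa using h8
    exact (meromorphicNFAt_comp_iff_of_deriv_ne_zero hinv hd).2 h1
  have h9 := LA.core hk1 han hne hg hE1
  rwa [hft] at h9

end Pool.Agent.MP_ae5b4e_an_MERO
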