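import Mathlib
import Pool.Agent.Lib.MP_ae5b4e_an_MERO.Defs
import Pool.Agent.Lib.MP_ae5b4e_an_MERO.Countable
import Pool.Agent.Lib.MP_ae5b4e_an_MERO.LemmaA

/-!
# MERO, module EA: the end of the proof
-/

noncomputable section

namespace Pool.Agent.MP_ae5b4e_an_MERO

open Complex Set Filter Topology Metric

namespace EndA

/-- the hypotheses of `end_contra` without the condition at infinity -/
structure EH (k f : ℂ → ℂ) (I : Set ℝ) : Prop where
  opn : IsOpen I
  conn : I.OrdConnected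
  zero : (0:ℝ) ∈ I
  csing : CSing k
  an : AnalyticOnNhd ℂ f (im ⁻¹' I)
  per : ∀ t : ℂ, t.im ∈ I → f (t + 1) = f t
  ode : ∀ t : ℂ, t.im ∈ I → AnalyticAt ℂ k (f t) →
      deriv f t ≠ 0 ∧ k (f t) = -(deriv (deriv f) t) / (deriv f t) ^ 2
  inj : ∀ s t : ℝ, f s = f t → ∃ n : ℤ, s = t + n
  nc : ∀ b : ℂ, b.im ∈ frontier I → ∀ g : ℂ → ℂ, AnalyticAt ℂ g b →
      ¬ ∀ᶠ t in 𝓝 b, t.im ∈ I → g t = f t

variable {k f : ℂ → ℂ} {I : Set ℝ}

theorem EH.convex (H : EH k f I) : Convex ℝ (im ⁻¹' I) :=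
  H.conn.convex.is_linear_preimage (f := im) ⟨fun _ _ => rfl, by simp⟩

theorem EH.isOpen (H : EH k f I) : IsOpen (im ⁻¹' I) := H.opn.preimage continuous_im

/-- a local continuation on an open convex set does not leave the domain -/
theorem EH.no_exit (H : EH k f I) {V : Set ℂ} (hV : IsOpen V) (hVc : Convex ℝ V) {t₀ : ℂ}
    (h0 : t₀ ∈ V) (h0' : t₀.im ∈ I) {φ : ℂ → ℂ} (hφ : AnalyticOnNhd ℂ φ V)
    (h : φ =ᶠ[𝓝 t₀] f) : ∀ t ∈ V, t.im ∈ I ∧ φ t = f t := by
  have hW : EqOn φ f (V ∩ im ⁻¹' I) :=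
    (hφ.mono inter_subset_left).eqOn_of_preconnected_of_eventuallyEq (H.an.mono inter_subset_right)
      (hVc.inter H.convex).isPreconnected ⟨h0, h0'⟩ h
  have hsub : V ⊆ im ⁻¹' I := by
    intro v hv
    by_contra hvI
    obtain ⟨b, hbV, hb⟩ : ∃ b ∈ V, b ∈ frontier (im ⁻¹' I) := by
      by_contra hno
      push Not at hno
      have hpc := hVc.isPreconnected (im ⁻¹' I) (closure (im ⁻¹' I))ᶜ H.isOpen
        isClosed_closure.isOpen_compl (fun w hw => ?_) ⟨t₀, h0, h0'⟩ ⟨v, hv, ?_⟩
      · obtain ⟨w, _, hw1, hw2⟩ := hpc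
        exact hw2 (subset_closure hw1)
      · by_cases hw1 : w ∈ im ⁻¹' I
        · exact Or.inl hw1
        · right
          intro hw2
          apply hno w hw
          rw [frontier, H.isOpen.interior_eq]
          exact ⟨hw2, hw1⟩
      · intro hv2
        apply hno v hv
        rw [frontier, H.isOpen.interior_eq]
        exact ⟨hv2, hvI⟩
    rw [Complex.frontier_preimage_im] at hb
    refine H.nc b hb φ (hφ b hbV) ?_
    filter_upwards [hV.mem_nhds hbV] with t ht htI
    exact hW ⟨ht, htI⟩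
  exact fun t ht => ⟨hsub ht, hW ⟨ht, hsub ht⟩⟩

theorem EH.perZ (H : EH k f I) (n : ℤ) (t : ℂ) (ht : t.im ∈ I) : f (t + n) = f t := by
  have hnat : ∀ (n : ℕ) (t : ℂ), t.im ∈ I → f (t + n) = f t := by
    intro n
    induction n with
    | zero => intro t _; simp
    | succ n ih =>
      intro t ht
      push_cast
      rw [← add_assoc, H.per _ (by simpa using ht), ih t ht]
  obtain ⟨m, rfl | rfl⟩ := n.eq_nat_or_neg
  · exact_mod_cast hnat m t ht
  · have h1 := hnat m (t + ((-(m:ℤ) : ℤ) : ℂ)) (by simpa using ht)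
    rw [← h1]
    push_cast
    congr 1
    ring

/-- the function is not constant -/
theorem EH.not_const (H : EH k f I) (c : ℂ) (h : ∀ t : ℂ, t.im ∈ I → f t = c) : False := by
  have h0 : f ((0:ℝ) : ℂ) = f ((1 / 2 : ℝ) : ℂ) := by
    rw [h _ (by simpa using H.zero), h _ (by simpa using H.zero)]
  obtain ⟨n, hn⟩ := H.inj _ _ h0
  have h1 : ((2 * n + 1 : ℤ) : ℝ) = 0 := by
    push_cast
    linarith
  have h2 : (2 * n + 1 : ℤ) = 0 := by exact_mod_cast h1
  omega

/-- an entire function of this kind is not doubly periodic -/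
theorem EH.no_double (H : EH k f univ) (c : ℂ) (hc : c.im ≠ 0) (h : ∀ t, f (t + c) = f t) :
    False := by
  have hper : ∀ (n : ℤ) (t : ℂ), f (t + n) = f t := by
    have hnat : ∀ (n : ℕ) (t : ℂ), f (t + n) = f t := by
      intro n
      induction n with
      | zero => intro t; simp
      | succ n ih =>
        intro t
        push_cast
        rw [← add_assoc, H.per _ (mem_univ _), ih]
    intro n t
    obtain ⟨m, rfl | rfl⟩ := n.eq_nat_or_neg
    · exact_mod_cast hnat m t
    · have h1 := hnat m (t + ((-(m:ℤ) : ℤ) : ℂ))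
      rw [← h1]
      push_cast
      congr 1
      ring
  have hper' : ∀ (n : ℤ) (t : ℂ), f (t + n * c) = f t := by
    have hnat : ∀ (n : ℕ) (t : ℂ), f (t + n * c) = f t := by
      intro n
      induction n with
      | zero => intro t; simp
      | succ n ih =>
        intro t
        push_cast
        rw [add_mul, one_mul, ← add_assoc, h, ih]
    intro n t
    obtain ⟨m, rfl | rfl⟩ := n.eq_nat_or_neg
    · exact_mod_cast hnat m t
    · have h1 := hnat m (t + ((-(m:ℤ) : ℤ) : ℂ) * c)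
      rw [← h1]
      push_cast
      congr 1
      ring
  have hdiff : Differentiable ℂ f := fun t => (H.an t (mem_univ _)).differentiableAt
  have hcont : Continuous fun p : ℝ × ℝ => f (p.1 + p.2 * c) :=
    hdiff.continuous.comp (by fun_prop)
  have hK : IsCompact (Icc (0:ℝ) 1 ×ˢ Icc (0:ℝ) 1) := isCompact_Icc.prod isCompact_Icc
  obtain ⟨M, hM⟩ := (hK.image hcont).isBounded.exists_norm_le
  have hbd : ∀ t, ‖f t‖ ≤ M := by
    intro t
    let β : ℝ := t.im / c.im
    let α : ℝ := t.re - β * c.re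
    have ht : t = α + β * c := by
      apply Complex.ext
      · simp [α]
      · simp only [add_im, ofReal_im, mul_im, ofReal_re, zero_mul, add_zero, zero_add, β]
        field_simp
    have h1 : f t = f ((Int.fract α : ℝ) + (Int.fract β : ℝ) * c) := by
      have h2 : t = (Int.fract α : ℝ) + (Int.fract β : ℝ) * c + (⌊β⌋ : ℤ) * c + (⌊α⌋ : ℤ) := by
        have e1 : (α : ℂ) = (Int.fract α : ℝ) + (⌊α⌋ : ℤ) := by
          have := Int.fract_add_floor α
          exact_mod_cast this.symm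
        have e2 : (β : ℂ) = (Int.fract β : ℝ) + (⌊β⌋ : ℤ) := by
          have := Int.fract_add_floor β
          exact_mod_cast this.symm
        calc t = α + β * c := ht
          _ = ((Int.fract α : ℝ) + (⌊α⌋ : ℤ)) + ((Int.fract β : ℝ) + (⌊β⌋ : ℤ)) * c := by
            rw [← e1, ← e2]
          _ = _ := by ring
      rw [h2, hper, hper']
    rw [h1]
    apply hM
    exact ⟨(Int.fract α, Int.fract β), ⟨⟨Int.fract_nonneg _, (Int.fract_lt_one _).le⟩,
      ⟨Int.fract_nonneg _, (Int.fract_lt_one _).le⟩⟩, rfl⟩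
  have hb : Bornology.IsBounded (range f) := by
    rw [isBounded_iff_forall_norm_le]
    exact ⟨M, by rintro _ ⟨t, rfl⟩; exact hbd t⟩
  exact H.not_const (f 0) fun t _ => hdiff.apply_eq_apply_of_bounded hb t 0

/-- a local coordinate in which the solutions of the differential equation are affine -/
theorem exists_chart {k : ℂ → ℂ} {z : ℂ} (hz : AnalyticAt ℂ k z) :
    ∃ (e : OpenPartialHomeomorph ℂ ℂ) (r : ℝ), 0 < r ∧ z ∈ e.source ∧ e z = 0 ∧
      ball 0 r ⊆ e.target ∧ (∀ w ∈ e.source, AnalyticAt ℂ k w) ∧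
      (∀ w ∈ e.source, AnalyticAt ℂ e w ∧ deriv e w ≠ 0 ∧ deriv (deriv e) w = k w * deriv e w) ∧
      ∀ v ∈ e.target, AnalyticAt ℂ e.symm v := by
  obtain ⟨R, hR, hkR⟩ := Metric.eventually_nhds_iff_ball.1 hz.eventually_analyticAt
  have hkd : DifferentiableOn ℂ k (ball z R) := fun w hw =>
    (hkR w hw).differentiableAt.differentiableWithinAt
  obtain ⟨K, hK⟩ := hkd.isExactOn_ball
  have hKd : DifferentiableOn ℂ (fun w => exp (K w)) (ball z R) := fun w hw =>
    (hK w hw).differentiableAt.cexp.differentiableWithinAt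
  obtain ⟨Φ, hΦ0, hΦ⟩ := hKd.isExactOn_ball.with_val_at z 0
  have hΦan : ∀ w ∈ ball z R, AnalyticAt ℂ Φ w := fun w hw =>
    DifferentiableOn.analyticAt (s := ball z R)
      (fun u hu => (hΦ u hu).differentiableAt.differentiableWithinAt) (isOpen_ball.mem_nhds hw)
  have hzR : z ∈ ball z R := mem_ball_self hR
  have hstr : HasStrictDerivAt Φ (exp (K z)) z := by
    have h1 := (hΦan z hzR).hasStrictDerivAt
    rwa [(hΦ z hzR).deriv] at h1
  let e₀ := (hstr.hasStrictFDerivAt_equiv (exp_ne_zero _)).toOpenPartialHomeomorph Φ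
  let e := e₀.restrOpen (ball z R) isOpen_ball
  have hcoe : ∀ w, e w = Φ w := fun w => rfl
  have hsrc : ∀ w ∈ e.source, w ∈ ball z R := by
    intro w hw
    exact hw.2
  have hzs : z ∈ e.source := ⟨(hstr.hasStrictFDerivAt_equiv
    (exp_ne_zero _)).mem_toOpenPartialHomeomorph_source, hzR⟩
  have hez : e z = 0 := by rw [hcoe, hΦ0]
  have h0t : (0:ℂ) ∈ e.target := by
    rw [← hez]
    exact e.map_source hzs
  obtain ⟨r, hr, hrt⟩ := Metric.isOpen_iff.1 e.open_target 0 h0t
  have hfun : (e : ℂ → ℂ) = Φ := rfl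
  have hder : ∀ w ∈ ball z R, deriv Φ w = exp (K w) := fun w hw => (hΦ w hw).deriv
  refine ⟨e, r, hr, hzs, hez, hrt, fun w hw => hkR w (hsrc w hw), fun w hw => ?_, fun v hv => ?_⟩
  · have hwR := hsrc w hw
    rw [hfun]
    refine ⟨hΦan w hwR, ?_, ?_⟩
    · rw [hder w hwR]
      exact exp_ne_zero _
    · have h1 : deriv Φ =ᶠ[𝓝 w] fun w => exp (K w) := by
        filter_upwards [isOpen_ball.mem_nhds hwR] with u hu using hder u hu
      rw [h1.deriv_eq, (hK w hwR).cexp.deriv, hder w hwR, mul_comm]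
  · have hd : DifferentiableOn ℂ e.symm e.target := by
      intro v hv
      have hsv := e.map_target hv
      have h1 : HasDerivAt e (exp (K (e.symm v))) (e.symm v) := by
        rw [hfun]
        exact hΦ _ (hsrc _ hsv)
      exact (HasDerivAt.of_local_left_inverse (e.symm.continuousAt hv) h1 (exp_ne_zero _)
        (e.eventually_right_inverse hv)).differentiableAt.differentiableWithinAt
    exact hd.analyticAt (e.open_target.mem_nhds hv)

/-- in the coordinate of `exists_chart` the curve is affine -/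
theorem EH.affine (H : EH k f I) {e : OpenPartialHomeomorph ℂ ℂ}
    (hk : ∀ w ∈ e.source, AnalyticAt ℂ k w)
    (he : ∀ w ∈ e.source, AnalyticAt ℂ e w ∧ deriv e w ≠ 0 ∧
      deriv (deriv e) w = k w * deriv e w) {t : ℂ} (ht : t.im ∈ I) (hs : f t ∈ e.source) :
    ∀ᶠ s in 𝓝 t, e (f s) = e (f t) + deriv e (f t) * deriv f t * (s - t) := by
  have hft := H.an t ht
  have h1 : ∀ᶠ s in 𝓝 t, s.im ∈ I ∧ f s ∈ e.source := by
    filter_upwards [H.isOpen.mem_nhds ht, hft.continuousAt (e.open_source.mem_nhds hs)]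
      with s h2 h3 using ⟨h2, h3⟩
  obtain ⟨δ, hδ, hδ'⟩ := Metric.eventually_nhds_iff_ball.1 h1
  -- the product of the derivatives is constant
  have hp : ∀ s ∈ ball t δ, HasDerivAt (fun s => deriv e (f s) * deriv f s) 0 s := by
    intro s hs'
    obtain ⟨hsI, hss⟩ := hδ' s hs'
    obtain ⟨he1, he2, he3⟩ := he _ hss
    obtain ⟨ho1, ho2⟩ := H.ode s hsI (hk _ hss)
    have hf1 := H.an s hsI
    have a1 : HasDerivAt (fun s => deriv e (f s)) (deriv (deriv e) (f s) * deriv f s) s :=
      (he1.deriv.differentiableAt.hasDerivAt).comp s hf1.differentiableAt.hasDerivAt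
    have a2 : HasDerivAt (deriv f) (deriv (deriv f) s) s :=
      hf1.deriv.differentiableAt.hasDerivAt
    have a3 := a1.mul a2
    have e0 : deriv (deriv e) (f s) * deriv f s * deriv f s + deriv e (f s) * deriv (deriv f) s
        = 0 := by
      rw [he3, ho2]
      field_simp
      ring
    rw [e0] at a3
    exact a3
  have hc : ∀ s ∈ ball t δ, deriv e (f s) * deriv f s = deriv e (f t) * deriv f t := by
    intro s hs'
    exact isOpen_ball.is_const_of_deriv_eq_zero (convex_ball t δ).isPreconnected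
      (fun u hu => (hp u hu).differentiableAt.differentiableWithinAt)
      (fun u hu => (hp u hu).deriv) hs' (mem_ball_self hδ)
  have hq : ∀ s ∈ ball t δ, HasDerivAt
      (fun s => e (f s) - deriv e (f t) * deriv f t * (s - t)) 0 s := by
    intro s hs'
    obtain ⟨hsI, hss⟩ := hδ' s hs'
    obtain ⟨he1, he2, he3⟩ := he _ hss
    have hf1 := H.an s hsI
    have a1 : HasDerivAt (fun s => e (f s)) (deriv e (f s) * deriv f s) s :=
      (he1.differentiableAt.hasDerivAt).comp s hf1.differentiableAt.hasDerivAt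
    have a2 : HasDerivAt (fun s => deriv e (f t) * deriv f t * (s - t))
        (deriv e (f t) * deriv f t * 1) s := ((hasDerivAt_id s).sub_const t).const_mul _
    have a3 := a1.sub a2
    rw [hc s hs', mul_one, sub_self] at a3
    exact a3
  filter_upwards [isOpen_ball.mem_nhds (mem_ball_self hδ)] with s hs'
  have h2 := isOpen_ball.is_const_of_deriv_eq_zero (convex_ball t δ).isPreconnected
      (fun u hu => (hq u hu).differentiableAt.differentiableWithinAt)
      (fun u hu => (hq u hu).deriv) hs' (mem_ball_self hδ)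
  have h3 : e (f s) - deriv e (f t) * deriv f t * (s - t) =
      e (f t) - deriv e (f t) * deriv f t * (t - t) := h2
  rw [sub_self, mul_zero, sub_zero] at h3
  rw [← h3]
  ring

/-- **(G), first part** -/
theorem EH.step (H : EH k f I) {t₁ t₂ : ℂ} (h1 : t₁.im ∈ I) (h2 : t₂.im ∈ I)
    (h12 : f t₁ = f t₂) (hk : AnalyticAt ℂ k (f t₁)) :
    ∃ a : ℂ, a ≠ 0 ∧ (a = deriv f t₁ / deriv f t₂) ∧
      ∀ t : ℂ, (t₂ + a * (t - t₁)).im ∈ I → t.im ∈ I ∧ f (t₂ + a * (t - t₁)) = f t := by
  obtain ⟨e, r, hr, hzs, hez, hrt, hka, hea, hsa⟩ := exists_chart hk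
  have hd1 := (H.ode t₁ h1 hk).1
  have hk2 : AnalyticAt ℂ k (f t₂) := h12 ▸ hk
  have hd2 := (H.ode t₂ h2 hk2).1
  refine ⟨deriv f t₁ / deriv f t₂, div_ne_zero hd1 hd2, rfl, ?_⟩
  set a := deriv f t₁ / deriv f t₂ with ha
  have hzs2 : f t₂ ∈ e.source := h12 ▸ hzs
  have hA1 := H.affine hka hea h1 hzs
  have hA2 := H.affine hka hea h2 hzs2
  let g : ℂ → ℂ := fun t => t₂ + a * (t - t₁)
  have hg1 : g t₁ = t₂ := by simp [g]
  have hgc : Continuous g := by fun_prop
  have hgt : Tendsto g (𝓝 t₁) (𝓝 t₂) := by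
    have := hgc.tendsto t₁
    rwa [hg1] at this
  have hloc : (fun t => f (g t)) =ᶠ[𝓝 t₁] f := by
    have hs1 : ∀ᶠ t in 𝓝 t₁, f t ∈ e.source :=
      (H.an t₁ h1).continuousAt (e.open_source.mem_nhds hzs)
    have hs2 : ∀ᶠ t in 𝓝 t₁, f (g t) ∈ e.source :=
      hgt.eventually ((H.an t₂ h2).continuousAt (e.open_source.mem_nhds hzs2))
    filter_upwards [hA1, hgt.eventually hA2, hs1, hs2] with t ht1 ht2 ht3 ht4
    apply e.injOn ht4 ht3
    rw [ht1, ht2, ← h12]
    have : g t - t₂ = a * (t - t₁) := by simp [g]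
    rw [this, ha]
    field_simp
  let V : Set ℂ := g ⁻¹' (im ⁻¹' I)
  have hV : IsOpen V := H.isOpen.preimage hgc
  have hVc : Convex ℝ V := by
    intro x hx y hy p q hp hq hpq
    have h3 : g (p • x + q • y) = p • g x + q • g y := by
      simp only [g, Complex.real_smul]
      have : (p:ℂ) + q = 1 := by exact_mod_cast hpq
      linear_combination (-(t₂ - a * t₁)) * this
    show g (p • x + q • y) ∈ im ⁻¹' I
    rw [h3]
    exact H.convex hx hy hp hq hpq
  have hφ : AnalyticOnNhd ℂ (fun t => f (g t)) V := by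
    intro t ht
    have hga : AnalyticAt ℂ g t := by fun_prop
    exact (H.an (g t) ht).fun_comp hga
  have h0 : t₁ ∈ V := by
    show (g t₁).im ∈ I
    rw [hg1]
    exact h2
  exact fun t ht => H.no_exit hV hVc h0 h1 hφ hloc t ht

/-- an affine symmetry of the domain -/
structure Sym (f : ℂ → ℂ) (I : Set ℝ) (t₁ t₂ a : ℂ) : Prop where
  ne : a ≠ 0
  dom : ∀ t : ℂ, (t₂ + a * (t - t₁)).im ∈ I ↔ t.im ∈ I
  eq : ∀ t : ℂ, t.im ∈ I → f (t₂ + a * (t - t₁)) = f t

theorem EH.sym (H : EH k f I) {t₁ t₂ : ℂ} (h1 : t₁.im ∈ I) (h2 : t₂.im ∈ I)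
    (h12 : f t₁ = f t₂) (hk : AnalyticAt ℂ k (f t₁)) : ∃ a, Sym f I t₁ t₂ a := by
  obtain ⟨a, ha, hae, h3⟩ := H.step h1 h2 h12 hk
  obtain ⟨b, hb, hbe, h4⟩ := H.step h2 h1 h12.symm (h12 ▸ hk)
  have hab : b * a = 1 := by
    rw [hae, hbe]
    have hd1 := (H.ode t₁ h1 hk).1
    have hd2 := (H.ode t₂ h2 (h12 ▸ hk)).1
    field_simp
  have h5 : ∀ t : ℂ, t.im ∈ I → (t₂ + a * (t - t₁)).im ∈ I := by
    intro t ht
    have h6 := (h4 (t₂ + a * (t - t₁)) ?_).1
    · exact h6
    · have : t₁ + b * (t₂ + a * (t - t₁) - t₂) = t := by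
        linear_combination (t - t₁) * hab
      rw [this]
      exact ht
  exact ⟨a, ha, fun t => ⟨fun h => (h3 t h).1, h5 t⟩, fun t ht => (h3 t (h5 t ht)).2⟩

/-- translations -/
theorem EH.transl (H : EH k f I) {c : ℂ} (h1 : ∀ t : ℂ, t.im ∈ I → (t + c).im ∈ I)
    (h2 : ∀ t : ℂ, t.im ∈ I → (t - c).im ∈ I) (h3 : ∀ t : ℂ, t.im ∈ I → f (t + c) = f t) :
    c.im = 0 := by
  by_contra hc
  have hn : ∀ n : ℕ, (n * c.im ∈ I) ∧ (-(n * c.im) ∈ I) := by
    intro n
    induction n with
    | zero => simpa using H.zero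
    | succ n ih =>
      constructor
      · have h4 := h1 (((n * c.im : ℝ) : ℂ) * Complex.I) (by simpa using ih.1)
        have e : ((((n * c.im : ℝ) : ℂ) * Complex.I) + c).im = ((n + 1 : ℕ) : ℝ) * c.im := by
          simp
          ring
        rwa [e] at h4
      · have h4 := h2 (((-(n * c.im) : ℝ) : ℂ) * Complex.I) (by simpa using ih.2)
        have e : ((((-(n * c.im) : ℝ) : ℂ) * Complex.I) - c).im = -(((n + 1 : ℕ) : ℝ) * c.im) := by
          simp
          ring
        rwa [e] at h4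
  have huniv : I = univ := by
    apply eq_univ_of_forall
    intro y
    obtain ⟨n, hn1⟩ := exists_nat_gt (|y| / |c.im|)
    have hc' : 0 < |c.im| := abs_pos.2 hc
    rw [div_lt_iff₀ hc'] at hn1
    have h5 : |y| < |n * c.im| := by
      rw [abs_mul, Nat.abs_cast]
      exact hn1
    have h6 := abs_lt.1 h5
    rcases le_total 0 (n * c.im) with h7 | h7
    · rw [abs_of_nonneg h7] at h6
      exact H.conn.out (hn n).2 (hn n).1 ⟨h6.1.le, h6.2.le⟩
    · rw [abs_of_nonpos h7] at h6
      exact H.conn.out (hn n).1 (hn n).2 ⟨by linarith [h6.1], by linarith [h6.2]⟩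
  subst huniv
  exact H.no_double c hc fun t => h3 t (mem_univ _)

/-- the multiplier is `1` or `-1` -/
theorem EH.sym_mult (H : EH k f I) {t₁ t₂ a : ℂ} (hS : Sym f I t₁ t₂ a) :
    a = 1 ∨ a = -1 := by
  have hgi : ∀ t : ℂ, t₂ + a * ((t₁ + a⁻¹ * (t - t₂)) - t₁) = t := by
    intro t
    have := hS.ne
    field_simp
    ring
  have hinv : ∀ t : ℂ, t.im ∈ I → (t₁ + a⁻¹ * (t - t₂)).im ∈ I := by
    intro t ht
    rw [← hS.dom, hgi]
    exact ht
  have hshift : ∀ t : ℂ, (t + 1).im = t.im := fun t => by simp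
  -- `a` is a period
  have hpa : ∀ t : ℂ, t.im ∈ I → (t + a).im ∈ I ∧ f (t + a) = f t := by
    intro t ht
    have h3 := hinv t ht
    have h4 : t₂ + a * ((t₁ + a⁻¹ * (t - t₂)) + 1 - t₁) = t + a := by
      linear_combination hgi t
    have h5 : ((t₁ + a⁻¹ * (t - t₂)) + 1).im ∈ I := by rw [hshift]; exact h3
    constructor
    · rw [← h4]
      exact (hS.dom _).2 h5
    · rw [← h4, hS.eq _ h5, H.per _ h3, ← hS.eq _ h3, hgi]
  have hpa' : ∀ t : ℂ, t.im ∈ I → (t - a).im ∈ I := by
    intro t ht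
    have h3 := hinv t ht
    have h4 : t₂ + a * ((t₁ + a⁻¹ * (t - t₂)) - 1 - t₁) = t - a := by
      linear_combination hgi t
    have h5 : ((t₁ + a⁻¹ * (t - t₂)) - 1).im ∈ I := by simpa using h3
    rw [← h4]
    exact (hS.dom _).2 h5
  -- `1 / a` is a period
  have hpb : ∀ t : ℂ, t.im ∈ I → (t + a⁻¹).im ∈ I → f (t + a⁻¹) = f t := by
    intro t ht hta
    rw [← hS.eq _ hta, ← hS.eq _ ht]
    have h4 : t₂ + a * (t + a⁻¹ - t₁) = t₂ + a * (t - t₁) + 1 := by
      have := hS.ne
      field_simp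
      ring
    rw [h4]
    exact H.per _ ((hS.dom t).2 ht)
  have him : a.im = 0 := H.transl (fun t ht => (hpa t ht).1) hpa' fun t ht => (hpa t ht).2
  have hre : a = (a.re : ℂ) := by
    apply Complex.ext <;> simp [him]
  have h0 : ((0:ℝ):ℂ).im ∈ I := by simpa using H.zero
  obtain ⟨n, hn⟩ := H.inj a.re 0 (by
    have h6 := (hpa _ h0).2
    rw [← hre]
    simpa using h6)
  obtain ⟨m, hm⟩ := H.inj a.re⁻¹ 0 (by
    have h6 := hpb _ h0 (by
      rw [hre, ← ofReal_inv, ← ofReal_add]
      simpa using H.zero)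
    rw [ofReal_inv, ← hre]
    simpa using h6)
  rw [zero_add] at hn hm
  have hne : a.re ≠ 0 := by
    intro h
    apply hS.ne
    rw [hre, h, ofReal_zero]
  have hnm : n * m = 1 := by
    have : ((n * m : ℤ) : ℝ) = 1 := by
      push_cast
      rw [← hn, ← hm]
      exact mul_inv_cancel₀ hne
    exact_mod_cast this
  rcases Int.eq_one_or_neg_one_of_mul_eq_one hnm with h | h
  · left
    rw [hre, hn, h]
    simp
  · right
    rw [hre, hn, h]
    simp

/-- **(G)** -/
theorem EH.pairs (H : EH k f I) : ∃ β : ℝ, ∀ t₁ t₂ : ℂ, t₁.im ∈ I → t₂.im ∈ I → f t₁ = f t₂ →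
    AnalyticAt ℂ k (f t₁) → t₂.im = t₁.im ∨ (t₂.im = β - t₁.im ∧ ∀ y ∈ I, β - y ∈ I) := by
  by_cases hex : ∃ s : ℂ, (∀ t : ℂ, t.im ∈ I → (s - t).im ∈ I) ∧
    ∀ t : ℂ, t.im ∈ I → f (s - t) = f t
  · obtain ⟨s, hs1, hs2⟩ := hex
    refine ⟨s.im, fun t₁ t₂ h1 h2 h12 hk => ?_⟩
    obtain ⟨a, hS⟩ := H.sym h1 h2 h12 hk
    rcases H.sym_mult hS with rfl | rfl
    · left
      have h3 : (t₂ - t₁).im = 0 := by
        apply H.transl
        · intro t ht
          have := (hS.dom t).2 ht
          have e : t₂ + 1 * (t - t₁) = t + (t₂ - t₁) := by ring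
          rwa [e] at this
        · intro t ht
          rw [← hS.dom]
          have e : t₂ + 1 * (t - (t₂ - t₁) - t₁) = t := by ring
          rwa [e]
        · intro t ht
          have := hS.eq t ht
          have e : t₂ + 1 * (t - t₁) = t + (t₂ - t₁) := by ring
          rwa [e] at this
      rw [sub_im] at h3
      linarith
    · right
      have hd : ∀ t : ℂ, t.im ∈ I → (t₁ + t₂ - t).im ∈ I := by
        intro t ht
        have := (hS.dom t).2 ht
        have e : t₂ + -1 * (t - t₁) = t₁ + t₂ - t := by ring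
        rwa [e] at this
      have he : ∀ t : ℂ, t.im ∈ I → f (t₁ + t₂ - t) = f t := by
        intro t ht
        have := hS.eq t ht
        have e : t₂ + -1 * (t - t₁) = t₁ + t₂ - t := by ring
        rwa [e] at this
      have h3 : (t₁ + t₂ - s).im = 0 := by
        apply H.transl
        · intro t ht
          have := hd _ (hs1 t ht)
          have e : t₁ + t₂ - (s - t) = t + (t₁ + t₂ - s) := by ring
          rwa [e] at this
        · intro t ht
          have := hs1 _ (hd t ht)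
          have e : s - (t₁ + t₂ - t) = t - (t₁ + t₂ - s) := by ring
          rwa [e] at this
        · intro t ht
          have := he _ (hs1 t ht)
          have e : t₁ + t₂ - (s - t) = t + (t₁ + t₂ - s) := by ring
          rw [e, hs2 t ht] at this
          exact this
      constructor
      · rw [sub_im, add_im] at h3
        linarith
      · intro y hy
        have := hs1 ((y : ℂ) * Complex.I) (by simpa using hy)
        simpa using this
  · refine ⟨0, fun t₁ t₂ h1 h2 h12 hk => ?_⟩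
    obtain ⟨a, hS⟩ := H.sym h1 h2 h12 hk
    rcases H.sym_mult hS with rfl | rfl
    · left
      have h3 : (t₂ - t₁).im = 0 := by
        apply H.transl
        · intro t ht
          have := (hS.dom t).2 ht
          have e : t₂ + 1 * (t - t₁) = t + (t₂ - t₁) := by ring
          rwa [e] at this
        · intro t ht
          rw [← hS.dom]
          have e : t₂ + 1 * (t - (t₂ - t₁) - t₁) = t := by ring
          rwa [e]
        · intro t ht
          have := hS.eq t ht
          have e : t₂ + 1 * (t - t₁) = t + (t₂ - t₁) := by ring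
          rwa [e] at this
      rw [sub_im] at h3
      linarith
    · exfalso
      apply hex
      refine ⟨t₁ + t₂, ?_, ?_⟩
      · intro t ht
        have := (hS.dom t).2 ht
        have e : t₂ + -1 * (t - t₁) = t₁ + t₂ - t := by ring
        rwa [e] at this
      · intro t ht
        have := hS.eq t ht
        have e : t₂ + -1 * (t - t₁) = t₁ + t₂ - t := by ring
        rwa [e] at this

/-- **(K)** -/
theorem EH.far (H : EH k f I) {z : ℂ} (hz : AnalyticAt ℂ k z) :
    ∃ r > 0, ∃ C ⊆ I, IsCompact C ∧ ∀ t : ℂ, t.im ∈ I → ‖f t - z‖ < r → t.im ∈ C := by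
  classical
  obtain ⟨β, hβ⟩ := H.pairs
  obtain ⟨e, r, hr, hzs, hez, hrt, hka, hea, hsa⟩ := exists_chart hz
  have hezc : ContinuousAt e z := (hea z hzs).1.continuousAt
  have hnear : ∀ᶠ w in 𝓝 z, w ∈ e.source ∧ ‖e w‖ < r / 2 := by
    have h1 : ∀ᶠ w in 𝓝 z, e w ∈ ball (0:ℂ) (r / 2) := by
      apply hezc
      rw [hez]
      exact ball_mem_nhds _ (by positivity)
    filter_upwards [e.open_source.mem_nhds hzs, h1] with w hw1 hw2
    exact ⟨hw1, by simpa using hw2⟩
  obtain ⟨r₁, hr₁, hr₁'⟩ := Metric.eventually_nhds_iff_ball.1 hnear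
  by_cases hex : ∃ t : ℂ, t.im ∈ I ∧ f t ∈ ball z r₁
  · -- the value `z` is attained
    obtain ⟨t, htI, htz⟩ := hex
    obtain ⟨hws, hwr⟩ := hr₁' _ htz
    have hd := (H.ode t htI (hka _ hws)).1
    set m := deriv e (f t) * deriv f t with hm
    have hm0 : m ≠ 0 := mul_ne_zero (hea _ hws).2.1 hd
    have hmn : 0 < ‖m‖ := norm_pos_iff.2 hm0
    let V : Set ℂ := ball t (r / (2 * ‖m‖))
    have hVt : ∀ s ∈ V, e (f t) + m * (s - t) ∈ ball (0:ℂ) r := by
      intro s hs
      have h1 : ‖s - t‖ < r / (2 * ‖m‖) := by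
        have : dist s t < r / (2 * ‖m‖) := hs
        rwa [dist_eq_norm] at this
      have h2 : ‖m * (s - t)‖ < r / 2 := by
        rw [norm_mul]
        rw [lt_div_iff₀ (by positivity)] at h1
        nlinarith
      rw [mem_ball_zero_iff]
      calc ‖e (f t) + m * (s - t)‖ ≤ ‖e (f t)‖ + ‖m * (s - t)‖ := norm_add_le _ _
        _ < r / 2 + r / 2 := add_lt_add hwr h2
        _ = r := by ring
    have hφ : AnalyticOnNhd ℂ (fun s => e.symm (e (f t) + m * (s - t))) V := by
      intro s hs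
      have h1 : AnalyticAt ℂ (fun s => e (f t) + m * (s - t)) s := by fun_prop
      exact AnalyticAt.fun_comp (g := e.symm) (f := fun s => e (f t) + m * (s - t)) (x := s)
        (hsa _ (hrt (hVt s hs))) h1
    have hloc : (fun s => e.symm (e (f t) + m * (s - t))) =ᶠ[𝓝 t] f := by
      have hs1 : ∀ᶠ s in 𝓝 t, f s ∈ e.source :=
        (H.an t htI).continuousAt (e.open_source.mem_nhds hws)
      filter_upwards [H.affine hka hea htI hws, hs1] with s h1 h2
      rw [← hm] at h1
      rw [← h1]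
      exact e.left_inv h2
    have hall := H.no_exit isOpen_ball (convex_ball _ _)
      (mem_ball_self (by positivity)) htI hφ hloc
    let t' : ℂ := t - e (f t) / m
    have ht'V : t' ∈ V := by
      show dist (t - e (f t) / m) t < _
      rw [dist_eq_norm, sub_sub_cancel_left, norm_neg, norm_div, div_lt_div_iff₀ hmn (by positivity)]
      nlinarith
    obtain ⟨ht'I, ht'f⟩ := hall t' ht'V
    have ht'z : f t' = z := by
      rw [← ht'f]
      have : e (f t) + m * (t' - t) = 0 := by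
        simp only [t']
        field_simp
        ring
      rw [this, ← hez]
      exact e.left_inv hzs
    -- a compact neighbourhood of the heights of the preimages
    obtain ⟨δ, hδ, hδ'⟩ : ∃ δ > 0, Icc (t'.im - δ) (t'.im + δ) ⊆ I := by
      obtain ⟨δ, hδ, h⟩ := Metric.isOpen_iff.1 H.opn t'.im ht'I
      refine ⟨δ / 2, by positivity, fun y hy => h ?_⟩
      rw [mem_ball, Real.dist_eq, abs_lt]
      constructor <;> linarith [hy.1, hy.2]
    have hopen : ∀ᶠ w in 𝓝 z, ∃ s : ℂ, |s.im - t'.im| ≤ δ ∧ f s = w := by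
      have h1 : 𝓝 z ≤ map f (𝓝 t') := by
        rcases (H.an t' ht'I).eventually_constant_or_nhds_le_map_nhds with h | h
        · exfalso
          have h2 : deriv f t' = 0 := by
            have : f =ᶠ[𝓝 t'] fun _ => f t' := h
            rw [this.deriv_eq, deriv_const]
          exact (H.ode t' ht'I (by rw [ht'z]; exact hz)).1 h2
        · rwa [ht'z] at h
      have h2 : {s : ℂ | |s.im - t'.im| ≤ δ} ∈ 𝓝 t' := by
        have h3 : ∀ᶠ s in 𝓝 t', s.im ∈ Icc (t'.im - δ) (t'.im + δ) :=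
          continuous_im.continuousAt (Icc_mem_nhds (by linarith) (by linarith))
        filter_upwards [h3] with s hs
        rw [abs_le]
        constructor <;> linarith [hs.1, hs.2]
      have h3 := h1 (image_mem_map h2)
      filter_upwards [h3] with w hw
      obtain ⟨s, hs, hsw⟩ := hw
      exact ⟨s, hs, hsw⟩
    obtain ⟨r₂, hr₂, hr₂'⟩ := Metric.eventually_nhds_iff_ball.1 (hopen.and hz.eventually_analyticAt)
    refine ⟨r₂, hr₂, (Icc (t'.im - δ) (t'.im + δ) ∪
      (if ∀ y ∈ I, β - y ∈ I then Icc (β - t'.im - δ) (β - t'.im + δ) else ∅)), ?_, ?_, ?_⟩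
    · apply union_subset hδ'
      split_ifs with hc
      · intro y hy
        have h4 : β - y ∈ Icc (t'.im - δ) (t'.im + δ) := ⟨by linarith [hy.2], by linarith [hy.1]⟩
        have h5 := hc _ (hδ' h4)
        rwa [sub_sub_cancel] at h5
      · exact empty_subset _
    · apply isCompact_Icc.union
      split_ifs
      · exact isCompact_Icc
      · exact isCompact_empty
    · intro u huI huz
      have hu : f u ∈ ball z r₂ := by rwa [mem_ball, dist_eq_norm]
      obtain ⟨⟨s, hs, hsu⟩, hka'⟩ := hr₂' _ hu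
      have hsI' : s.im ∈ Icc (t'.im - δ) (t'.im + δ) := by
        rw [abs_le] at hs
        exact ⟨by linarith [hs.1], by linarith [hs.2]⟩
      rcases hβ s u (hδ' hsI') huI hsu (hsu ▸ hka') with h4 | ⟨h4, h5⟩
      · left
        rw [h4]
        exact hsI'
      · right
        rw [if_pos h5, h4]
        exact ⟨by linarith [hsI'.2], by linarith [hsI'.1]⟩
  · push Not at hex
    refine ⟨r₁, hr₁, ∅, empty_subset _, isCompact_empty, fun t ht htz => ?_⟩
    exact absurd (show f t ∈ ball z r₁ by rwa [mem_ball, dist_eq_norm]) (hex t ht)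

/-- compact sets of regular values are avoided near the upper end -/
theorem EH.avoid (H : EH k f I) {Q : Set ℂ} (hQ : IsCompact Q)
    (hQk : ∀ z ∈ Q, AnalyticAt ℂ k z) :
    ∃ y ∈ I, ∀ t : ℂ, t.im ∈ I → y < t.im → f t ∉ Q := by
  have h1 : ∀ z : ℂ, ∃ r > 0, ∃ C ⊆ I, IsCompact C ∧
      (z ∈ Q → ∀ t : ℂ, t.im ∈ I → ‖f t - z‖ < r → t.im ∈ C) := by
    intro z
    by_cases hz : z ∈ Q
    · obtain ⟨r, hr, C, hC, hCc, h⟩ := H.far (hQk z hz)
      exact ⟨r, hr, C, hC, hCc, fun _ => h⟩
    · exact ⟨1, one_pos, ∅, empty_subset _, isCompact_empty, fun h => absurd h hz⟩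
  choose r hr C hCI hCc h using h1
  obtain ⟨T, hTQ, hT⟩ := hQ.elim_nhds_subcover (fun z => ball z (r z))
    (fun z _ => ball_mem_nhds z (hr z))
  let K : Set ℝ := {0} ∪ ⋃ z ∈ T, C z
  have hK : IsCompact K := isCompact_singleton.union (T.isCompact_biUnion fun z _ => hCc z)
  have hKI : K ⊆ I := by
    apply union_subset
    · rw [singleton_subset_iff]
      exact H.zero
    · exact iUnion₂_subset fun z _ => hCI z
  obtain ⟨y, hyK, hy⟩ := hK.exists_isGreatest ⟨0, Or.inl rfl⟩
  refine ⟨y, hKI hyK, fun t ht hyt hft => ?_⟩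
  obtain ⟨z, hzT, hz⟩ := mem_iUnion₂.1 (hT hft)
  have h2 := h z (hTQ z hzT) t ht (by rwa [mem_ball, dist_eq_norm] at hz)
  have h3 : t.im ≤ y := hy (Or.inr (mem_iUnion₂.2 ⟨z, hzT, h2⟩))
  exact absurd h3 (not_le.2 hyt)

/-- inside or outside of a circle -/
theorem EH.circle (H : EH k f I) {c : ℂ} {ρ : ℝ} (hk : ∀ z ∈ sphere c ρ, AnalyticAt ℂ k z) :
    ∃ y ∈ I, (∀ t : ℂ, t.im ∈ I → y < t.im → ‖f t - c‖ < ρ) ∨
      ∀ t : ℂ, t.im ∈ I → y < t.im → ρ < ‖f t - c‖ := by
  obtain ⟨y, hyI, hy⟩ := H.avoid (isCompact_sphere c ρ) hk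
  refine ⟨y, hyI, ?_⟩
  have hne : ∀ t : ℂ, t.im ∈ I → y < t.im → ‖f t - c‖ ≠ ρ := by
    intro t ht hyt h
    exact hy t ht hyt (by rwa [mem_sphere, dist_eq_norm])
  have hconv : Convex ℝ (im ⁻¹' (I ∩ Ioi y)) :=
    (H.conn.convex.inter (convex_Ioi y)).is_linear_preimage (f := im) ⟨fun _ _ => rfl, by simp⟩
  have hcont : ContinuousOn (fun t => ‖f t - c‖) (im ⁻¹' (I ∩ Ioi y)) := by
    intro t ht
    exact (((H.an t ht.1).continuousAt.sub continuousAt_const).norm).continuousWithinAt
  have hpc : IsPreconnected ((fun t => ‖f t - c‖) '' (im ⁻¹' (I ∩ Ioi y))) :=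
    hconv.isPreconnected.image _ hcont
  have hord := hpc.ordConnected
  by_cases hex : ∃ t : ℂ, t.im ∈ I ∧ y < t.im ∧ ‖f t - c‖ < ρ
  · left
    obtain ⟨t₀, h0, h0', h0''⟩ := hex
    intro t ht hyt
    by_contra hcon
    have h1 : ρ < ‖f t - c‖ := lt_of_le_of_ne (not_lt.1 hcon) (hne t ht hyt).symm
    obtain ⟨s, ⟨hs1, hs2⟩, hs3⟩ := hord.out ⟨t₀, ⟨h0, h0'⟩, rfl⟩ ⟨t, ⟨ht, hyt⟩, rfl⟩
      ⟨h0''.le, h1.le⟩
    exact hne s hs1 hs2 hs3
  · right
    push Not at hex
    intro t ht hyt
    exact lt_of_le_of_ne (hex t ht hyt) (hne t ht hyt).symm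

/-- all but countably many radii are allowed -/
theorem EH.radius (H : EH k f I) (c : ℂ) {a b : ℝ} (hab : a < b) :
    ∃ ρ ∈ Ioo a b, ∀ z ∈ sphere c ρ, AnalyticAt ℂ k z := by
  have h1 : ((fun z => dist z c) '' {z | ¬ AnalyticAt ℂ k z}).Countable := H.csing.image _
  have h2 : ¬ (Ioo a b ⊆ (fun z => dist z c) '' {z | ¬ AnalyticAt ℂ k z}) := by
    intro h
    have h3 := h1.mono h
    rw [← Cardinal.le_aleph0_iff_set_countable, Cardinal.mk_Ioo_real hab] at h3
    exact absurd h3 (not_le.2 Cardinal.aleph0_lt_continuum)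
  obtain ⟨ρ, hρ, hρ'⟩ := not_subset.1 h2
  refine ⟨ρ, hρ, fun z hz => ?_⟩
  by_contra hcon
  exact hρ' ⟨z, hcon, hz⟩

/-- points near the upper end -/
theorem EH.exists_above (H : EH k f I) {y : ℝ} (hy : y ∈ I) : ∃ y' ∈ I, y < y' := by
  obtain ⟨δ, hδ, h⟩ := Metric.isOpen_iff.1 H.opn y hy
  refine ⟨y + δ / 2, h ?_, by linarith⟩
  rw [mem_ball, Real.dist_eq, add_sub_cancel_left, abs_of_pos (by positivity)]
  linarith

/-- **(L)** -/
theorem EH.limit (H : EH k f I) :
    (∀ R : ℝ, ∃ y ∈ I, ∀ t : ℂ, t.im ∈ I → y < t.im → R < ‖f t‖) ∨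
      ∃ c : ℂ, ∀ ε > 0, ∃ y ∈ I, ∀ t : ℂ, t.im ∈ I → y < t.im → ‖f t - c‖ < ε := by
  by_cases hinf : ∀ R : ℝ, ∃ y ∈ I, ∀ t : ℂ, t.im ∈ I → y < t.im → R < ‖f t‖
  · exact Or.inl hinf
  right
  push Not at hinf
  obtain ⟨R, hR⟩ := hinf
  -- eventually bounded
  obtain ⟨ρ, hρ, hρk⟩ := H.radius 0 (a := max R 0) (b := max R 0 + 1) (by linarith)
  obtain ⟨y₀, hy₀, hb⟩ := H.circle hρk
  have hbd : ∀ t : ℂ, t.im ∈ I → y₀ < t.im → ‖f t‖ < ρ := by
    rcases hb with hb | hb
    · intro t ht hyt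
      simpa using hb t ht hyt
    · exfalso
      obtain ⟨t, ht, hyt, hle⟩ := hR y₀ hy₀
      have := hb t ht hyt
      rw [sub_zero] at this
      have h2 := hρ.1
      have h3 := le_max_left R 0
      linarith
  -- small circles
  have hsmall : ∀ ε > 0, ∃ c : ℂ, ∃ y ∈ I, ∀ t : ℂ, t.im ∈ I → y < t.im → ‖f t - c‖ < ε := by
    intro ε hε
    obtain ⟨T, -, hT⟩ := (isCompact_closedBall (0:ℂ) ρ).elim_nhds_subcover
      (fun z => ball z (ε / 2)) (fun z _ => ball_mem_nhds z (by positivity))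
    by_contra hcon
    push Not at hcon
    have h1 : ∀ c : ℂ, ∃ y ∈ I, ∀ t : ℂ, t.im ∈ I → y < t.im → ε / 2 < ‖f t - c‖ := by
      intro c
      obtain ⟨r, hr, hrk⟩ := H.radius c (a := ε / 2) (b := ε) (by linarith)
      obtain ⟨y, hy, h⟩ := H.circle hrk
      refine ⟨y, hy, ?_⟩
      rcases h with h | h
      · exfalso
        obtain ⟨t, ht, hyt, hle⟩ := hcon c y hy
        have := h t ht hyt
        linarith [hr.2]
      · intro t ht hyt
        have := h t ht hyt
        linarith [hr.1]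
    choose Y hYI hY using h1
    obtain ⟨y₁, hy₁I, hy₁⟩ : ∃ y₁ ∈ I, y₀ ≤ y₁ ∧ ∀ c ∈ T, Y c ≤ y₁ := by
      have hfin : (({y₀} : Set ℝ) ∪ Y '' (T : Set ℂ)).Finite :=
        (finite_singleton _).union (T.finite_toSet.image _)
      obtain ⟨m, hm, hm'⟩ := hfin.isCompact.exists_isGreatest ⟨y₀, Or.inl rfl⟩
      refine ⟨m, ?_, hm' (Or.inl rfl), fun c hc => hm' (Or.inr ⟨c, hc, rfl⟩)⟩
      rcases hm with hm | ⟨c, _, hc⟩
      · rw [mem_singleton_iff.1 hm]
        exact hy₀
      · rw [← hc]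
        exact hYI c
    obtain ⟨y₂, hy₂I, hy₂⟩ := H.exists_above hy₁I
    let t : ℂ := (y₂ : ℂ) * Complex.I
    have htim : t.im = y₂ := by simp [t]
    have htI : t.im ∈ I := by rw [htim]; exact hy₂I
    have h2 := hbd t htI (by rw [htim]; linarith [hy₁.1])
    obtain ⟨c, hcT, hc⟩ := mem_iUnion₂.1 (hT (show f t ∈ closedBall (0:ℂ) ρ by
      rw [mem_closedBall, dist_zero_right]; exact h2.le))
    have h3 := hY c t htI (by rw [htim]; linarith [hy₁.2 c hcT])
    rw [mem_ball, dist_eq_norm] at hc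
    linarith
  -- a Cauchy sequence of centres
  choose c y hy hc using fun n : ℕ => hsmall (1 / (n + 1)) (by positivity)
  have hcc : ∀ m n : ℕ, ‖c m - c n‖ < 1 / (m + 1) + 1 / (n + 1) := by
    intro m n
    obtain ⟨y', hy'I, hy'⟩ := H.exists_above (y := max (y m) (y n)) (by
      rcases max_choice (y m) (y n) with h | h <;> rw [h]
      · exact hy m
      · exact hy n)
    let t : ℂ := (y' : ℂ) * Complex.I
    have htim : t.im = y' := by simp [t]
    have htI : t.im ∈ I := by rw [htim]; exact hy'I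
    have h1 := hc m t htI (by rw [htim]; exact (le_max_left _ _).trans_lt hy')
    have h2 := hc n t htI (by rw [htim]; exact (le_max_right _ _).trans_lt hy')
    calc ‖c m - c n‖ = ‖(f t - c n) - (f t - c m)‖ := by congr 1; ring
      _ ≤ ‖f t - c n‖ + ‖f t - c m‖ := norm_sub_le _ _
      _ < 1 / (m + 1) + 1 / (n + 1) := by linarith
  have hlim : Tendsto (fun n : ℕ => 1 / ((n : ℝ) + 1)) atTop (𝓝 0) :=
    tendsto_one_div_add_atTop_nhds_zero_nat
  have hcau : CauchySeq c := by
    rw [Metric.cauchySeq_iff']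
    intro ε hε
    obtain ⟨N, hN⟩ := Filter.eventually_atTop.1 (hlim.eventually_lt_const (half_pos hε))
    refine ⟨N, fun n hn => ?_⟩
    rw [dist_eq_norm]
    have h1 := hcc n N
    have h2 := hN n hn
    have h3 := hN N le_rfl
    linarith
  obtain ⟨e, he⟩ := cauchySeq_tendsto_of_complete hcau
  refine ⟨e, fun ε hε => ?_⟩
  have h1 : ∀ᶠ n in atTop, ‖c n - e‖ < ε / 2 := by
    have := (Metric.tendsto_nhds.1 he) (ε / 2) (by positivity)
    filter_upwards [this] with n hn
    rwa [dist_eq_norm] at hn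
  obtain ⟨n, hn1, hn2⟩ := (h1.and (hlim.eventually_lt_const (half_pos hε))).exists
  refine ⟨y n, hy n, fun t ht hyt => ?_⟩
  calc ‖f t - e‖ = ‖(f t - c n) + (c n - e)‖ := by congr 1; ring
    _ ≤ ‖f t - c n‖ + ‖c n - e‖ := norm_add_le _ _
    _ < ε := by
      have := hc n t ht hyt
      linarith

/-- a periodic function which tends to zero at the upper end of a strip vanishes -/
theorem strip_zero {φ : ℂ → ℂ} {y₀ h : ℝ} (hφ : AnalyticOnNhd ℂ φ (St y₀ h))
    (hper : ∀ t ∈ St y₀ h, φ (t + 1) = φ t)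
    (hlim : ∀ ε > 0, ∃ y < h, ∀ t : ℂ, y < t.im → t.im < h → ‖φ t‖ < ε) {t : ℂ}
    (ht : t ∈ St y₀ h) : φ t = 0 := by
  have hperZ : ∀ (n : ℤ), ∀ t ∈ St y₀ h, φ (t + n) = φ t := by
    have hnat : ∀ (n : ℕ), ∀ t ∈ St y₀ h, φ (t + n) = φ t := by
      intro n
      induction n with
      | zero => intro t _; simp
      | succ n ih =>
        intro t ht
        push_cast
        rw [← add_assoc, hper, ih t ht]
        simpa [St] using ht
    intro n t ht
    obtain ⟨m, rfl | rfl⟩ := n.eq_nat_or_neg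
    · exact_mod_cast hnat m t ht
    · have h1 := hnat m (t + ((-(m:ℤ) : ℤ) : ℂ)) (by simpa [St] using ht)
      rw [← h1]
      push_cast
      congr 1
      ring
  -- boundedness on closed substrips
  have hbd : ∀ a b : ℝ, y₀ < a → b < h → ∃ M : ℝ, ∀ t : ℂ, a ≤ t.im → t.im ≤ b → ‖φ t‖ ≤ M := by
    intro a b ha hb
    have hK : IsCompact ((Icc (0:ℝ) 1) ×ℂ (Icc a b)) := isCompact_Icc.reProdIm isCompact_Icc
    have hc : ContinuousOn φ ((Icc (0:ℝ) 1) ×ℂ (Icc a b)) := by
      intro s hs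
      have hs' := (mem_reProdIm.1 hs).2
      exact (hφ s ⟨by linarith [hs'.1], by linarith [hs'.2]⟩).continuousAt.continuousWithinAt
    obtain ⟨M, hM⟩ := (hK.image_of_continuousOn hc).isBounded.exists_norm_le
    refine ⟨M, fun t hta htb => ?_⟩
    have htS : t ∈ St y₀ h := ⟨by linarith, by linarith⟩
    have h1 : φ t = φ (t - (⌊t.re⌋ : ℤ)) := by
      have := hperZ (-⌊t.re⌋) t htS
      rw [← this]
      push_cast
      rw [sub_eq_add_neg]
    rw [h1]
    apply hM
    refine ⟨_, ?_, rfl⟩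
    rw [mem_reProdIm]
    constructor
    · have : (t - ((⌊t.re⌋ : ℤ) : ℂ)).re = Int.fract t.re := by
        rw [sub_re, intCast_re]
        rfl
      rw [this]
      exact ⟨Int.fract_nonneg _, (Int.fract_lt_one _).le⟩
    · have : (t - ((⌊t.re⌋ : ℤ) : ℂ)).im = t.im := by
        rw [sub_im, intCast_im, sub_zero]
      rw [this]
      exact ⟨hta, htb⟩
  obtain ⟨ht1, ht2⟩ := ht
  obtain ⟨a, ha1, ha2⟩ := exists_between ht1
  obtain ⟨M, hM⟩ := hbd a t.im ha1 ht2
  have hM0 : 0 ≤ M := (norm_nonneg _).trans (hM t ha2.le le_rfl)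
  -- the estimate
  have hest : ∀ l : ℝ, 0 < l → ∀ ε > 0, ‖φ t‖ * Real.exp (l * t.im) ≤
      max (M * Real.exp (l * a)) (ε * Real.exp (l * h)) := by
    intro l hl ε hε
    obtain ⟨y, hyh, hy⟩ := hlim ε hε
    obtain ⟨b, hb1, hb2⟩ := exists_between (max_lt hyh ht2)
    have hbt : t.im < b := (le_max_right _ _).trans_lt hb1
    have hby : y < b := (le_max_left _ _).trans_lt hb1
    obtain ⟨M', hM'⟩ := hbd a b ha1 hb2
    let ψ : ℂ → ℂ := fun s => φ s * exp (-(Complex.I * (l * s)))
    have hψn : ∀ s : ℂ, ‖ψ s‖ = ‖φ s‖ * Real.exp (l * s.im) := by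
      intro s
      simp only [ψ, norm_mul, norm_exp]
      congr 2
      simp
    have hcl : closure (im ⁻¹' Ioo a b) = im ⁻¹' Icc a b := by
      rw [Complex.closure_preimage_im, closure_Ioo (by linarith : a ≠ b)]
    have hψd : ∀ s : ℂ, a ≤ s.im → s.im ≤ b → DifferentiableAt ℂ ψ s := by
      intro s hs1 hs2
      have h1 := (hφ s ⟨by linarith, by linarith⟩).differentiableAt
      exact h1.mul (by fun_prop)
    have hψc : DiffContOnCl ℂ ψ (im ⁻¹' Ioo a b) := by
      constructor
      · intro s hs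
        exact (hψd s hs.1.le hs.2.le).differentiableWithinAt
      · rw [hcl]
        intro s hs
        exact (hψd s hs.1 hs.2).continuousAt.continuousWithinAt
    have hab : a < b := ha2.trans hbt
    have hgrow : ∃ c < Real.pi / (b - a), ∃ B, ψ =O[comap (_root_.abs ∘ re) atTop ⊓
        𝓟 (im ⁻¹' Ioo a b)] fun z ↦ Real.exp (B * Real.exp (c * |z.re|)) := by
      refine ⟨0, div_pos Real.pi_pos (by linarith), 0, ?_⟩
      apply Asymptotics.IsBigO.of_bound (M' * Real.exp (l * b))
      have h2 : ∀ᶠ s in comap (_root_.abs ∘ re) atTop ⊓ 𝓟 (im ⁻¹' Ioo a b),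
          s ∈ im ⁻¹' Ioo a b := mem_inf_of_right (mem_principal_self _)
      filter_upwards [h2] with s hs
      rw [hψn]
      have h3 := hM' s hs.1.le hs.2.le
      have h4 : Real.exp (l * s.im) ≤ Real.exp (l * b) := by
        apply Real.exp_le_exp.2
        exact mul_le_mul_of_nonneg_left hs.2.le hl.le
      have h5 : ‖Real.exp (0 * Real.exp (0 * |s.re|))‖ = 1 := by simp
      rw [h5, mul_one]
      exact mul_le_mul h3 h4 (Real.exp_pos _).le ((norm_nonneg _).trans h3)
    have hres := PhragmenLindelof.horizontal_strip (f := ψ) (a := a) (b := b)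
      (C := max (M * Real.exp (l * a)) (ε * Real.exp (l * h))) (z := t) hψc hgrow
      (fun z hz => ?_) (fun z hz => ?_) ha2.le hbt.le
    · rwa [hψn] at hres
    · rw [hψn]
      apply le_max_of_le_left
      rw [hz]
      exact mul_le_mul_of_nonneg_right (hM z hz.ge (hz.le.trans ha2.le)) (Real.exp_pos _).le
    · rw [hψn]
      apply le_max_of_le_right
      have h3 := hy z (by rw [hz]; exact hby) (by rw [hz]; exact hb2)
      apply mul_le_mul h3.le _ (Real.exp_pos _).le hε.le
      apply Real.exp_le_exp.2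
      rw [hz]
      exact mul_le_mul_of_nonneg_left hb2.le hl.le
  have hest2 : ∀ l : ℝ, 0 < l → ‖φ t‖ * Real.exp (l * t.im) ≤ M * Real.exp (l * a) := by
    intro l hl
    by_contra hcon
    push Not at hcon
    have hpos : 0 < ‖φ t‖ * Real.exp (l * t.im) :=
      (mul_nonneg hM0 (Real.exp_pos _).le).trans_lt hcon
    have h1 := hest l hl (‖φ t‖ * Real.exp (l * t.im) / (2 * Real.exp (l * h))) (by positivity)
    rcases le_max_iff.1 h1 with h2 | h2
    · linarith
    · have h3 : ‖φ t‖ * Real.exp (l * t.im) / (2 * Real.exp (l * h)) * Real.exp (l * h) =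
          ‖φ t‖ * Real.exp (l * t.im) / 2 := by
        field_simp
      rw [h3] at h2
      linarith
  have hest3 : ∀ l : ℝ, 0 < l → ‖φ t‖ ≤ M * Real.exp (-(l * (t.im - a))) := by
    intro l hl
    have h1 := hest2 l hl
    have h2 : M * Real.exp (-(l * (t.im - a))) = M * Real.exp (l * a) / Real.exp (l * t.im) := by
      rw [mul_div_assoc, ← Real.exp_sub]
      congr 2
      ring
    rw [h2, le_div_iff₀ (Real.exp_pos _)]
    exact h1
  have hlim0 : Tendsto (fun l : ℝ => M * Real.exp (-(l * (t.im - a)))) atTop (𝓝 (M * 0)) := by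
    apply Tendsto.const_mul
    apply Real.tendsto_exp_neg_atTop_nhds_zero.comp
    exact tendsto_id.atTop_mul_const (by linarith)
  rw [mul_zero] at hlim0
  have h0 : ‖φ t‖ ≤ 0 := by
    apply ge_of_tendsto hlim0
    filter_upwards [eventually_gt_atTop 0] with l hl using hest3 l hl
  exact norm_le_zero_iff.1 h0

/-- the domain is not bounded above -/
theorem EH.not_bddAbove (H : EH k f I) : ¬ BddAbove I := by
  intro hB
  set h := sSup I with hh
  have hne : I.Nonempty := ⟨0, H.zero⟩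
  have hlt : ∀ y ∈ I, y < h := by
    intro y hy
    obtain ⟨y', hy'I, hy'⟩ := H.exists_above hy
    exact hy'.trans_le (le_csSup hB hy'I)
  have hmem : ∀ y ∈ I, ∀ s : ℝ, y < s → s < h → s ∈ I := by
    intro y hy s h1 h2
    obtain ⟨y', hy'I, hy'⟩ := exists_lt_of_lt_csSup hne h2
    exact H.conn.out hy hy'I ⟨h1.le, hy'.le⟩
  rcases H.limit with hinf | ⟨c, hc⟩
  · obtain ⟨y₀, hy₀, h1⟩ := hinf 0
    have hsub : ∀ t ∈ St y₀ h, t.im ∈ I ∧ f t ≠ 0 := by
      intro t ht
      have h2 := hmem y₀ hy₀ _ ht.1 ht.2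
      exact ⟨h2, norm_pos_iff.1 (h1 t h2 ht.1)⟩
    have hφ : AnalyticOnNhd ℂ (fun t => (f t)⁻¹) (St y₀ h) := fun t ht =>
      (H.an t (hsub t ht).1).inv (hsub t ht).2
    have hz := fun (t : ℂ) (ht : t ∈ St y₀ h) => strip_zero (φ := fun t => (f t)⁻¹) hφ
      (fun t ht => by
        show (f (t + 1))⁻¹ = (f t)⁻¹
        rw [H.per t (hsub t ht).1])
      (fun ε hε => by
        obtain ⟨y, hy, h2⟩ := hinf ε⁻¹
        refine ⟨max y y₀, max_lt (hlt y hy) (hlt y₀ hy₀), fun t ht1 ht2 => ?_⟩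
        have h3 : t.im ∈ I := hmem y hy _ ((le_max_left _ _).trans_lt ht1) ht2
        have h4 := h2 t h3 ((le_max_left _ _).trans_lt ht1)
        rw [norm_inv]
        exact inv_lt_of_inv_lt₀ hε h4) ht
    obtain ⟨y, hy1, hy2⟩ := exists_between (hlt y₀ hy₀)
    have htS : ((y : ℂ) * Complex.I) ∈ St y₀ h := by
      simp only [St, mem_ofPred_eq]
      simpa using ⟨hy1, hy2⟩
    exact (hsub _ htS).2 (inv_eq_zero.1 (hz _ htS))
  · obtain ⟨y₀, hy₀, h1⟩ := hc 1 one_pos
    have hsub : ∀ t ∈ St y₀ h, t.im ∈ I := fun t ht => hmem y₀ hy₀ _ ht.1 ht.2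
    have hφ : AnalyticOnNhd ℂ (fun t => f t - c) (St y₀ h) := fun t ht =>
      (H.an t (hsub t ht)).sub analyticAt_const
    have hz := fun (t : ℂ) (ht : t ∈ St y₀ h) => strip_zero (φ := fun t => f t - c) hφ
      (fun t ht => by
        show f (t + 1) - c = f t - c
        rw [H.per t (hsub t ht)])
      (fun ε hε => by
        obtain ⟨y, hy, h2⟩ := hc ε hε
        refine ⟨y, hlt y hy, fun t ht1 ht2 => h2 t (hmem y hy _ ht1 ht2) ht1⟩) ht
    obtain ⟨y, hy1, hy2⟩ := exists_between (hlt y₀ hy₀)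
    have htS : ((y : ℂ) * Complex.I) ∈ St y₀ h := by
      simp only [St, mem_ofPred_eq]
      simpa using ⟨hy1, hy2⟩
    have hfc : f =ᶠ[𝓝 ((y : ℂ) * Complex.I)] fun _ => c := by
      filter_upwards [(isOpen_St y₀ h).mem_nhds htS] with t ht
      exact sub_eq_zero.1 (hz t ht)
    have hall : EqOn f (fun _ => c) (im ⁻¹' I) :=
      H.an.eqOn_of_preconnected_of_eventuallyEq (fun _ _ => analyticAt_const)
        H.convex.isPreconnected (hsub _ htS) hfc
    exact H.not_const c fun t ht => hall ht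

/-- reflection of the parameter -/
theorem EH.neg (H : EH k f I) : EH k (fun t => f (-t)) (Neg.neg ⁻¹' I) := by
  have hd : ∀ t : ℂ, deriv (fun t => f (-t)) t = -deriv f (-t) := fun t => deriv_comp_neg f t
  have hdd : ∀ t : ℂ, deriv (deriv fun t => f (-t)) t = deriv (deriv f) (-t) := by
    intro t
    have h1 : (deriv fun t => f (-t)) = fun t => -deriv f (-t) := funext hd
    rw [h1]
    have h2 : deriv (fun t => -deriv f (-t)) t = -deriv (fun t => deriv f (-t)) t := by
      exact deriv.fun_neg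
    rw [h2, deriv_comp_neg, neg_neg]
  refine ⟨H.opn.preimage continuous_neg, ?_, ?_, H.csing, ?_, ?_, ?_, ?_, ?_⟩
  · constructor
    intro x hx y hy z hz
    exact H.conn.out hy hx ⟨neg_le_neg hz.2, neg_le_neg hz.1⟩
  · show -(0:ℝ) ∈ I
    rw [neg_zero]
    exact H.zero
  · intro t ht
    have ht' : (-t).im ∈ I := by rw [neg_im]; exact ht
    exact AnalyticAt.fun_comp (g := f) (f := fun t : ℂ => -t) (x := t) (H.an (-t) ht')
      (by fun_prop)
  · intro t ht
    have ht' : (-t - 1).im ∈ I := by simpa using ht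
    have h1 := H.per (-t - 1) ht'
    show f (-(t + 1)) = f (-t)
    rw [sub_add_cancel] at h1
    rw [h1]
    congr 1
    ring
  · intro t ht hk
    have ht' : (-t).im ∈ I := by rw [neg_im]; exact ht
    obtain ⟨h1, h2⟩ := H.ode (-t) ht' hk
    rw [hd, hdd]
    refine ⟨neg_ne_zero.2 h1, ?_⟩
    rw [h2, neg_sq]
  · intro s t hst
    have h1 : f ((-s : ℝ) : ℂ) = f ((-t : ℝ) : ℂ) := by
      push_cast
      exact hst
    obtain ⟨n, hn⟩ := H.inj _ _ h1
    exact ⟨-n, by push_cast; linarith⟩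
  · intro b hb g hg hcon
    have hfr : frontier (Neg.neg ⁻¹' I) = Neg.neg ⁻¹' frontier I :=
      ((Homeomorph.neg ℝ).preimage_frontier I).symm
    rw [hfr] at hb
    have hb' : (-b).im ∈ frontier I := by rw [neg_im]; exact hb
    have hga : AnalyticAt ℂ (fun t => g (-t)) (-b) := by
      refine AnalyticAt.fun_comp (g := g) (f := fun t : ℂ => -t) (x := -b) ?_ (by fun_prop)
      show AnalyticAt ℂ g (- -b)
      rw [neg_neg]
      exact hg
    refine H.nc (-b) hb' _ hga ?_
    have ht : Tendsto (fun t : ℂ => -t) (𝓝 (-b)) (𝓝 b) := by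
      have := (continuous_neg (G := ℂ)).tendsto (-b)
      rwa [neg_neg] at this
    filter_upwards [ht.eventually hcon] with t h1 h2
    have h3 := h1 (by
      show -(-t).im ∈ I
      rw [neg_im, neg_neg]
      exact h2)
    rw [neg_neg] at h3
    exact h3

/-- the upper end of an entire function of this kind is not at infinity -/
theorem EH.top_contra (H : EH k f univ) (hk : Nrm k) (hinf : SingInf k)
    (h : ∀ R : ℝ, ∃ y : ℝ, ∀ t : ℂ, y < t.im → R < ‖f t‖) : False := by
  apply hinf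
  have hP : Function.Periodic f ((1:ℝ) : ℂ) := fun t => by
    rw [ofReal_one]
    exact H.per t (mem_univ _)
  let G : ℂ → ℂ := Function.Periodic.cuspFunction 1 f
  have hG : ∀ z, G (Function.Periodic.qParam 1 z) = f z := fun z =>
    Function.Periodic.eq_cuspFunction one_ne_zero hP z
  have hsurj : ∀ q : ℂ, q ≠ 0 → ∃ z, Function.Periodic.qParam 1 z = q := fun q hq =>
    ⟨Function.Periodic.invQParam 1 q, Function.Periodic.qParam_right_inv one_ne_zero hq⟩
  have hGd : ∀ q : ℂ, q ≠ 0 → DifferentiableAt ℂ G q := by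
    intro q hq
    obtain ⟨z, rfl⟩ := hsurj q hq
    exact Function.Periodic.differentiableAt_cuspFunction one_ne_zero hP
      (H.an z (mem_univ _)).differentiableAt
  have hGan : ∀ q : ℂ, q ≠ 0 → AnalyticAt ℂ G q := by
    intro q hq
    have hopen : IsOpen {q : ℂ | q ≠ 0} := isOpen_ne
    exact DifferentiableOn.analyticAt (s := {q : ℂ | q ≠ 0})
      (fun u hu => (hGd u hu).differentiableWithinAt) (hopen.mem_nhds hq)
  -- `G` tends to infinity at zero
  have hGt : Tendsto G (𝓝[≠] 0) (Bornology.cobounded ℂ) := by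
    rw [← tendsto_norm_atTop_iff_cobounded, Filter.tendsto_atTop]
    intro R
    obtain ⟨y, hy⟩ := h R
    have h1 : ∀ᶠ q in 𝓝[≠] (0:ℂ), y < (Function.Periodic.invQParam 1 q).im := by
      have h2 := Function.Periodic.invQParam_tendsto (h := 1) one_pos
      have h3 : ∀ᶠ t in comap im atTop, y < t.im := by
        rw [eventually_comap]
        filter_upwards [eventually_gt_atTop y] with a ha t ht
        rw [ht]
        exact ha
      exact h2.eventually h3
    filter_upwards [h1, self_mem_nhdsWithin] with q hq1 hq2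
    have h4 := Function.Periodic.qParam_right_inv (h := 1) one_ne_zero hq2
    have h5 := hG (Function.Periodic.invQParam 1 q)
    rw [h4] at h5
    rw [h5]
    exact (hy _ hq1).le
  -- `G` is meromorphic at zero
  have hGm : MeromorphicAt G 0 := by
    have h1 : Tendsto (fun q => (G q)⁻¹) (𝓝[≠] 0) (𝓝 0) :=
      (Filter.tendsto_inv₀_cobounded (α := ℂ)).comp hGt
    have hne : ∀ᶠ q in 𝓝[≠] (0:ℂ), G q ≠ 0 := by
      have h2 : ∀ᶠ q in 𝓝[≠] (0:ℂ), 1 ≤ ‖G q‖ := by
        have h3 := tendsto_norm_atTop_iff_cobounded.2 hGt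
        exact h3.eventually_ge_atTop 1
      filter_upwards [h2] with q hq h0
      rw [h0, norm_zero] at hq
      linarith
    let g : ℂ → ℂ := Function.update (fun q => (G q)⁻¹) 0 0
    have hgc : ContinuousAt g 0 := by
      rw [continuousAt_update_same]
      exact h1
    have hgd : ∀ᶠ q in 𝓝[≠] (0:ℂ), DifferentiableAt ℂ g q := by
      filter_upwards [hne, self_mem_nhdsWithin] with q hq1 hq2
      have h2 : DifferentiableAt ℂ (fun q => (G q)⁻¹) q := (hGd q hq2).inv hq1
      apply h2.congr_of_eventuallyEq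
      filter_upwards [isOpen_ne.mem_nhds hq2] with u hu
      exact Function.update_of_ne hu _ _
    have hga : AnalyticAt ℂ g 0 :=
      Complex.analyticAt_of_differentiable_on_punctured_nhds_of_continuousAt hgd hgc
    have hgm : MeromorphicAt (fun q => (g q)⁻¹) 0 := hga.meromorphicAt.inv
    apply hgm.congr
    filter_upwards [self_mem_nhdsWithin] with q hq
    have h3 : g q = (G q)⁻¹ := Function.update_of_ne hq _ _
    rw [h3, inv_inv]
  refine lemmaA_pole hk hGm hGt ?_
  refine ⟨fun q => -(q * deriv G q + q ^ 2 * deriv (deriv G) q) / (q * deriv G q) ^ 2, ?_, ?_⟩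
  · have hid : MeromorphicAt (fun q : ℂ => q) 0 := analyticAt_id.meromorphicAt
    have hd1 : MeromorphicAt (deriv G) 0 := hGm.deriv
    have hd2 : MeromorphicAt (deriv (deriv G)) 0 := hd1.deriv
    have e1 : MeromorphicAt (fun q => q * deriv G q) 0 := hid.mul hd1
    have e2 : MeromorphicAt (fun q => q ^ 2 * deriv (deriv G) q) 0 := (hid.pow 2).mul hd2
    exact ((e1.add e2).neg).div (e1.pow 2)
  · -- the differential equation for `G`
    have hode : ∀ q : ℂ, q ≠ 0 → AnalyticAt ℂ k (G q) →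
        k (G q) = -(q * deriv G q + q ^ 2 * deriv (deriv G) q) / (q * deriv G q) ^ 2 := by
      intro q hq hkq
      obtain ⟨z, rfl⟩ := hsurj q hq
      rw [hG] at hkq
      obtain ⟨ho1, ho2⟩ := H.ode z (mem_univ _) hkq
      have hQ : ∀ s : ℂ, HasDerivAt (Function.Periodic.qParam 1)
          (2 * Real.pi * Complex.I * Function.Periodic.qParam 1 s) s := by
        intro s
        have h1 : HasDerivAt (fun s : ℂ => 2 * Real.pi * Complex.I * s / ((1:ℝ):ℂ))
            (2 * Real.pi * Complex.I * 1 / ((1:ℝ):ℂ)) s :=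
          ((hasDerivAt_id s).const_mul _).div_const _
        have h2 := h1.cexp
        have e : 2 * Real.pi * Complex.I * Function.Periodic.qParam 1 s =
            exp (2 * Real.pi * Complex.I * s / ((1:ℝ):ℂ)) *
              (2 * Real.pi * Complex.I * 1 / ((1:ℝ):ℂ)) := by
          rw [Function.Periodic.qParam]
          push_cast
          ring
        rw [e]
        exact h2
      have hfG : f = fun s => G (Function.Periodic.qParam 1 s) := by
        funext s
        exact (hG s).symm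
      have hd1 : ∀ s : ℂ, deriv f s = deriv G (Function.Periodic.qParam 1 s) *
          (2 * Real.pi * Complex.I * Function.Periodic.qParam 1 s) := by
        intro s
        rw [hfG]
        exact ((hGd _ (Function.Periodic.qParam_ne_zero s)).hasDerivAt.comp s (hQ s)).deriv
      have hd2 : deriv (deriv f) z = (2 * Real.pi * Complex.I) ^ 2 *
          (Function.Periodic.qParam 1 z * deriv G (Function.Periodic.qParam 1 z) +
          Function.Periodic.qParam 1 z ^ 2 * deriv (deriv G) (Function.Periodic.qParam 1 z)) := by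
        have h1 : deriv f = fun s => deriv G (Function.Periodic.qParam 1 s) *
          (2 * Real.pi * Complex.I * Function.Periodic.qParam 1 s) := funext hd1
        rw [h1]
        have h2 : HasDerivAt (fun s => deriv G (Function.Periodic.qParam 1 s))
            (deriv (deriv G) (Function.Periodic.qParam 1 z) *
              (2 * Real.pi * Complex.I * Function.Periodic.qParam 1 z)) z :=
          ((hGan _ (Function.Periodic.qParam_ne_zero z)).deriv.differentiableAt.hasDerivAt).comp z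
            (hQ z)
        have h3 := h2.mul ((hQ z).const_mul (2 * Real.pi * Complex.I))
        have h4 : deriv (fun s => deriv G (Function.Periodic.qParam 1 s) *
            (2 * Real.pi * Complex.I * Function.Periodic.qParam 1 s)) z = _ := h3.deriv
        rw [h4]
        ring
      have hpi : (2 * Real.pi * Complex.I : ℂ) ≠ 0 := Complex.two_pi_I_ne_zero
      have hdG : deriv G (Function.Periodic.qParam 1 z) ≠ 0 := by
        intro h0
        apply ho1
        rw [hd1, h0, zero_mul]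
      have hq0 := Function.Periodic.qParam_ne_zero (h := 1) z
      rw [hG, ho2, hd1, hd2]
      field_simp
    -- the exceptional set
    have hcount : {q ∈ {q : ℂ | q ≠ 0} | G q ∈ {w | ¬ AnalyticAt ℂ k w}}.Countable := by
      apply countable_preimage isOpen_ne
      · exact (isConnected_compl_singleton_of_one_lt_rank (by
          rw [Complex.rank_real_complex]
          exact Cardinal.one_lt_two) (0:ℂ)).isPreconnected
      · intro q hq
        exact (hGan q hq).meromorphicAt
      · refine ⟨1, one_ne_zero, fun c hc => ?_⟩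
        have hev : G =ᶠ[𝓝 1] fun _ => c := by
          have h1 : ∀ᶠ s in 𝓝 (1:ℂ), s ≠ 1 → G s = c := eventually_nhdsWithin_iff.1 hc
          have h2 : ContinuousAt G 1 := (hGd 1 one_ne_zero).continuousAt
          have h3 : G 1 = c := by
            have h4 : Tendsto G (𝓝[≠] 1) (𝓝 (G 1)) := h2.tendsto.mono_left nhdsWithin_le_nhds
            have h5 : Tendsto G (𝓝[≠] 1) (𝓝 c) :=
              tendsto_const_nhds.congr' (EventuallyEq.symm hc)
            exact tendsto_nhds_unique h4 h5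
          filter_upwards [h1] with s hs
          by_cases hs1 : s = 1
          · rw [hs1, h3]
          · exact hs hs1
        obtain ⟨z, hz⟩ := hsurj 1 one_ne_zero
        have hfz : f =ᶠ[𝓝 z] fun _ => c := by
          have h1 : Tendsto (Function.Periodic.qParam 1) (𝓝 z) (𝓝 1) := by
            rw [← hz]
            exact (Function.Periodic.continuous_qParam).tendsto z
          filter_upwards [h1.eventually hev] with s hs
          rw [← hG s]
          exact hs
        have hall : EqOn f (fun _ => c) (im ⁻¹' univ) :=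
          H.an.eqOn_of_preconnected_of_eventuallyEq (fun _ _ => analyticAt_const)
            H.convex.isPreconnected (mem_univ _) hfz
        exact H.not_const c fun t ht => hall ht
      · exact H.csing
    refine ⟨_, hcount, ?_⟩
    filter_upwards [self_mem_nhdsWithin] with q hq hqZ
    apply hode q hq
    by_contra hcon
    exact hqZ ⟨hq, hcon⟩

end EndA

open EndA

theorem end_contra {k f : ℂ → ℂ} {I : Set ℝ} (hI : IsOpen I) (hIc : I.OrdConnected)
    (h0 : (0:ℝ) ∈ I) (hA : CSing k) (hk : Nrm k) (hinf : SingInf k)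
    (hf : AnalyticOnNhd ℂ f (im ⁻¹' I)) (hper : ∀ t : ℂ, t.im ∈ I → f (t + 1) = f t)
    (hode : ∀ t : ℂ, t.im ∈ I → MeromorphicNFAt k (f t) ∧ (AnalyticAt ℂ k (f t) →
      deriv f t ≠ 0 ∧ k (f t) = -(deriv (deriv f) t) / (deriv f t) ^ 2))
    (hinj : ∀ s t : ℝ, f s = f t → ∃ n : ℤ, s = t + n)
    (hnc : ∀ b : ℂ, b.im ∈ frontier I → ∀ g : ℂ → ℂ, AnalyticAt ℂ g b →
      ¬ ∀ᶠ t in 𝓝 b, t.im ∈ I → g t = f t) : False := by
  have H : EH k f I := ⟨hI, hIc, h0, hA, hf, hper, fun t ht => (hode t ht).2, hinj, hnc⟩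
  have hup := H.not_bddAbove
  have hdn := H.neg.not_bddAbove
  have huniv : I = univ := by
    apply eq_univ_of_forall
    intro y
    rw [not_bddAbove_iff] at hup hdn
    obtain ⟨a, ha, hya⟩ := hup y
    obtain ⟨b, hb, hyb⟩ := hdn (-y)
    exact hIc.out hb ha ⟨by linarith, hya.le⟩
  subst huniv
  have Hn : EH k (fun t => f (-t)) univ := H.neg
  rcases H.limit with h1 | ⟨c, hc⟩
  · apply H.top_contra hk hinf
    intro R
    obtain ⟨y, _, hy⟩ := h1 R
    exact ⟨y, fun t ht => hy t (mem_univ _) ht⟩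
  rcases Hn.limit with h2 | ⟨d, hd⟩
  · apply Hn.top_contra hk hinf
    intro R
    obtain ⟨y, _, hy⟩ := h2 R
    exact ⟨y, fun t ht => hy t (mem_univ _) ht⟩
  -- `f` is bounded
  obtain ⟨y, _, hy⟩ := hc 1 one_pos
  obtain ⟨y', _, hy'⟩ := hd 1 one_pos
  have hdiff : Differentiable ℂ f := fun t => (H.an t (mem_univ _)).differentiableAt
  have hK : IsCompact ((Icc (0:ℝ) 1) ×ℂ (Icc (-y') y)) := isCompact_Icc.reProdIm isCompact_Icc
  obtain ⟨M, hM⟩ := (hK.image hdiff.continuous).isBounded.exists_norm_le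
  have hbd : ∀ t, ‖f t‖ ≤ max M (max (‖c‖ + 1) (‖d‖ + 1)) := by
    intro t
    by_cases h1 : y < t.im
    · have h2 := hy t (mem_univ _) h1
      have h3 : ‖f t‖ ≤ ‖f t - c‖ + ‖c‖ := by
        calc ‖f t‖ = ‖(f t - c) + c‖ := by rw [sub_add_cancel]
          _ ≤ _ := norm_add_le _ _
      exact le_max_of_le_right (le_max_of_le_left (by linarith))
    by_cases h2 : y' < (-t).im
    · have h3 := hy' (-t) (mem_univ _) h2
      rw [neg_neg] at h3
      have h4 : ‖f t‖ ≤ ‖f t - d‖ + ‖d‖ := by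
        calc ‖f t‖ = ‖(f t - d) + d‖ := by rw [sub_add_cancel]
          _ ≤ _ := norm_add_le _ _
      exact le_max_of_le_right (le_max_of_le_right (by linarith))
    apply le_max_of_le_left
    rw [neg_im] at h2
    have h3 : f t = f (t - (⌊t.re⌋ : ℤ)) := by
      have := H.perZ (-⌊t.re⌋) t (mem_univ _)
      rw [← this]
      push_cast
      rw [sub_eq_add_neg]
    rw [h3]
    apply hM
    refine ⟨_, ?_, rfl⟩
    rw [mem_reProdIm]
    constructor
    · have : (t - ((⌊t.re⌋ : ℤ) : ℂ)).re = Int.fract t.re := by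
        rw [sub_re, intCast_re]
        rfl
      rw [this]
      exact ⟨Int.fract_nonneg _, (Int.fract_lt_one _).le⟩
    · have : (t - ((⌊t.re⌋ : ℤ) : ℂ)).im = t.im := by
        rw [sub_im, intCast_im, sub_zero]
      rw [this]
      exact ⟨by linarith, by linarith⟩
  have hb : Bornology.IsBounded (range f) := by
    rw [isBounded_iff_forall_norm_le]
    exact ⟨_, by rintro _ ⟨t, rfl⟩; exact hbd t⟩
  exact H.not_const (f 0) fun t _ => hdiff.apply_eq_apply_of_bounded hb t 0

end Pool.Agent.MP_ae5b4e_an_MERO
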