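import Mathlib
import Pool.Agent.Lib.MP_ae5b4e_an_MERO.Defs
import Pool.Agent.Lib.MP_ae5b4e_an_MERO.Countable
import Pool.Agent.Lib.MP_ae5b4e_an_MERO.LemmaA

/-!
# MP_ae5b4e_an, project MERO, module QB: continuations, functional equation and limit equation
-/

noncomputable section

namespace Pool.Agent.MP_ae5b4e_an_MERO

open Complex Set Filter Topology Metric

namespace ExtBasic

lemma freq_compl {Z : Set ℂ} (hZ : Z.Countable) (t : ℂ) : ∃ᶠ s in 𝓝[≠] t, s ∉ Z := by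
  intro h
  simp only [not_not] at h
  rw [eventually_nhdsWithin_iff] at h
  have hd : Dense (insert t Z)ᶜ := (hZ.insert t).dense_compl ℂ
  obtain ⟨s, hs1, hs2⟩ := hd.inter_nhds_nonempty h
  rw [mem_compl_iff, mem_insert_iff, not_or] at hs1
  exact hs1.2 (hs2 hs1.1)

lemma freq_and {Z U : Set ℂ} (hZ : Z.Countable) {t : ℂ} (hU : U ∈ 𝓝 t) :
    ∃ᶠ s in 𝓝[≠] t, s ∈ U ∧ s ∉ Z :=
  ((freq_compl hZ t).and_eventually (mem_nhdsWithin_of_mem_nhds hU)).mono fun _ h => ⟨h.2, h.1⟩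

lemma zero_mem {c h r : ℝ} (hc : 0 < c) (hh : 0 < h) (hr : 0 < r) :
    ((0:ℂ), (0:ℂ)) ∈ St (-c) h ×ˢ ball (0:ℂ) r := by
  simp [St, hc, hh, hr]

lemma pre_prod (a b r : ℝ) : IsPreconnected (St a b ×ˢ ball (0:ℂ) r) :=
  ((convex_St a b).prod (convex_ball 0 r)).isPreconnected

lemma nhds_prod {c h r : ℝ} (hc : 0 < c) (hh : 0 < h) (hr : 0 < r) :
    St (-c) h ×ˢ ball (0:ℂ) r ∈ 𝓝 ((0:ℂ), (0:ℂ)) :=
  ((isOpen_St _ _).prod isOpen_ball).mem_nhds (zero_mem hc hh hr)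

end ExtBasic

open ExtBasic

theorem IsExt.per {k : ℂ → ℂ} {F : ℂ × ℂ → ℂ} {c h r : ℝ} {G : ℂ × ℂ → ℂ} (hD : Dat k F c)
    (hch : c ≤ h) (hG : IsExt F c h r G) {p : ℂ × ℂ} (hp : p ∈ St (-c) h ×ˢ ball (0:ℂ) r) :
    G (p.1 + 1, p.2) = G p := by
  have hc := hD.pos
  have h1 : AnalyticOnNhd ℂ (fun q : ℂ × ℂ => G (q.1 + 1, q.2)) (St (-c) h ×ˢ ball (0:ℂ) r) := by
    intro q hq
    have h1 : AnalyticAt ℂ (fun q : ℂ × ℂ => (q.1 + 1, q.2)) q :=
      (analyticAt_fst.add analyticAt_const).prod analyticAt_snd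
    have h2 : AnalyticAt ℂ G (q.1 + 1, q.2) := hG.an _ ⟨by simpa [St] using hq.1, hq.2⟩
    exact AnalyticAt.fun_comp h2 h1
  have he : (fun q : ℂ × ℂ => G (q.1 + 1, q.2)) =ᶠ[𝓝 ((0:ℂ), (0:ℂ))] G := by
    filter_upwards [nhds_prod hc hc hG.r0] with q hq
    have hq' : (q.1 + 1, q.2) ∈ St (-c) c ×ˢ ball (0:ℂ) r := ⟨by simpa [St] using hq.1, hq.2⟩
    rw [hG.eq hq', hG.eq hq, hD.per q ⟨hq.1, ball_subset_ball hG.rc hq.2⟩]
  exact h1.eqOn_of_preconnected_of_eventuallyEq hG.an (pre_prod _ _ _)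
    (zero_mem hc (hc.trans_le hch) hG.r0) he hp

theorem IsExt.unique {F : ℂ × ℂ → ℂ} {c h h' r r' : ℝ} {G G' : ℂ × ℂ → ℂ}
    (hch : c ≤ h) (hhh : h ≤ h') (hG : IsExt F c h r G) (hG' : IsExt F c h' r' G') :
    EqOn G G' (St (-c) h ×ˢ ball 0 (min r r')) := by
  have hc : 0 < c := hG.r0.trans_le hG.rc
  have hm : 0 < min r r' := lt_min hG.r0 hG'.r0
  have hs1 : St (-c) h ×ˢ ball (0:ℂ) (min r r') ⊆ St (-c) h ×ˢ ball (0:ℂ) r :=
    prod_mono le_rfl (ball_subset_ball (min_le_left _ _))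
  have hs2 : St (-c) h ×ˢ ball (0:ℂ) (min r r') ⊆ St (-c) h' ×ˢ ball (0:ℂ) r' :=
    prod_mono (fun z hz => ⟨hz.1, hz.2.trans_le hhh⟩) (ball_subset_ball (min_le_right _ _))
  refine (hG.an.mono hs1).eqOn_of_preconnected_of_eventuallyEq (hG'.an.mono hs2)
    (pre_prod _ _ _) (zero_mem hc (hc.trans_le hch) hm) ?_
  filter_upwards [nhds_prod hc hc hm] with q hq
  rw [hG.eq ⟨hq.1, ball_subset_ball (min_le_left _ _) hq.2⟩,
    hG'.eq ⟨hq.1, ball_subset_ball (min_le_right _ _) hq.2⟩]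

namespace ExtBasic

/-- common part of `slice_fe` and `ode_strip` -/
lemma transfer {k f g : ℂ → ℂ} (hA : CSing k) (hk : Nrm k) {V U Z₀ : Set ℂ} (hV : IsOpen V)
    (hVc : Convex ℝ V) (hf : AnalyticOnNhd ℂ f V) (hg : MeromorphicOn g V) (hU : IsOpen U)
    (hUV : U ⊆ V) (hnc : ∀ c, ∃ t ∈ U, f t ≠ c) (hZ₀ : Z₀.Countable)
    (hU1 : ∀ t ∈ U, t ∉ Z₀ → k (f t) = g t) :
    (∃ Z : Set ℂ, Z.Countable ∧ ∀ t ∈ V, t ∉ Z → AnalyticAt ℂ k (f t) ∧ k (f t) = g t) ∧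
    (∀ t ∈ V, MeromorphicNFAt k (f t)) ∧ ∀ t ∈ V, ¬ ∀ᶠ s in 𝓝 t, f s = f t := by
  have hVp : IsPreconnected V := hVc.isPreconnected
  have hnc' : ∀ t ∈ V, ∀ c, ¬ ∀ᶠ s in 𝓝[≠] t, f s = c := by
    intro t ht c hc
    have h1 : EqOn f (fun _ => c) V :=
      hf.eqOn_of_preconnected_of_frequently_eq (fun _ _ => analyticAt_const) hVp ht hc.frequently
    obtain ⟨s, hs, hs'⟩ := hnc c
    exact hs' (h1 (hUV hs))
  obtain ⟨t₀, ht₀U, -⟩ := hnc 0
  set A : Set ℂ := {z | ¬ AnalyticAt ℂ k z} with hAdef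
  have hAc : A.Countable := hA
  have hAcl : IsClosed A := by
    have : Aᶜ = {z | AnalyticAt ℂ k z} := by ext z; simp [hAdef]
    rw [← isOpen_compl_iff, this]
    exact isOpen_analyticAt ℂ k
  set C : Set ℂ := {t ∈ V | f t ∈ A} with hCdef
  have hC : C.Countable := countable_preimage hV hVp (fun t ht => (hf t ht).meromorphicAt)
    ⟨t₀, hUV ht₀U, hnc' t₀ (hUV ht₀U)⟩ hAc
  have hVC : V \ C = V ∩ f ⁻¹' Aᶜ := by
    ext t
    constructor
    · rintro ⟨h1, h2⟩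
      exact ⟨h1, fun h => h2 ⟨h1, h⟩⟩
    · rintro ⟨h1, h2⟩
      exact ⟨h1, fun h => h2 h.2⟩
  have hVCo : IsOpen (V \ C) := by
    rw [hVC]
    exact hf.continuousOn.isOpen_inter_preimage hV hAcl.isOpen_compl
  have hVCp : IsPreconnected (V \ C) := isPreconnected_diff hV hVc hC
  obtain ⟨t₁, ht₁⟩ := (freq_and (hZ₀.union hC) (hU.mem_nhds ht₀U)).exists
  have ht₁C : t₁ ∉ C := fun h => ht₁.2 (Or.inr h)
  have ht₁V : t₁ ∈ V \ C := ⟨hUV ht₁.1, ht₁C⟩
  have hkf : MeromorphicOn (fun s => k (f s)) (V \ C) := by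
    intro t ht
    have h1 : AnalyticAt ℂ k (f t) := by
      by_contra h
      exact ht.2 ⟨ht.1, h⟩
    exact (AnalyticAt.fun_comp h1 (hf t ht.1)).meromorphicAt
  have hfreq : ∃ᶠ t in 𝓝[≠] t₁, k (f t) = g t :=
    (freq_and hZ₀ (hU.mem_nhds ht₁.1)).mono fun s hs => hU1 s hs.1 hs.2
  have hC1 := countable_ne hVCo hVCp hkf (fun t ht => hg t ht.1) ht₁V hfreq
  have key : ∀ t ∈ V, t ∉ C ∪ {t ∈ V \ C | k (f t) ≠ g t} →
      AnalyticAt ℂ k (f t) ∧ k (f t) = g t := by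
    intro t ht htZ
    rw [mem_union, not_or] at htZ
    refine ⟨?_, ?_⟩
    · by_contra h
      exact htZ.1 ⟨ht, h⟩
    · by_contra h
      exact htZ.2 ⟨⟨ht, htZ.1⟩, h⟩
  have hne : ∀ t ∈ V, ¬ ∀ᶠ s in 𝓝 t, f s = f t := fun t ht h =>
    hnc' t ht (f t) (h.filter_mono nhdsWithin_le_nhds)
  refine ⟨⟨_, hC.union hC1, key⟩, ?_, hne⟩
  intro t ht
  refine lemmaA hk (hf t ht) (hne t ht) ⟨g, hg t ht, _, hC.union hC1, ?_⟩
  filter_upwards [mem_nhdsWithin_of_mem_nhds (hV.mem_nhds ht)] with s hs hsZ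
  exact (key s hs hsZ).2

end ExtBasic

/-- the functional equation on a convex set for one value of `ρ` -/
theorem slice_fe {k f : ℂ → ℂ} (hA : CSing k) (hk : Nrm k) {V U Z₀ : Set ℂ} {ρ : ℂ} (hV : IsOpen V)
    (hVc : Convex ℝ V) (hf : ∀ t ∈ V, AnalyticAt ℂ f t ∧ AnalyticAt ℂ f (t + ρ) ∧
      AnalyticAt ℂ f (t - ρ)) (hU : IsOpen U) (hUV : U ⊆ V) (hnc : ∀ c, ∃ t ∈ U, f t ≠ c)
    (hZ₀ : Z₀.Countable) (hU1 : ∀ t ∈ U, t ∉ Z₀ → AnalyticAt ℂ k (f t) ∧ f (t + ρ) ≠ f t ∧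
      (f (t + ρ) - f t)⁻¹ + (f (t - ρ) - f t)⁻¹ = k (f t)) :
    (∀ t ∈ V, MeromorphicNFAt k (f t)) ∧ ∃ Z : Set ℂ, Z.Countable ∧ ∀ t ∈ V, t ∉ Z →
      AnalyticAt ℂ k (f t) ∧ f (t + ρ) ≠ f t ∧
      (f (t + ρ) - f t)⁻¹ + (f (t - ρ) - f t)⁻¹ = k (f t) := by
  have hVp : IsPreconnected V := hVc.isPreconnected
  have hf0 : AnalyticOnNhd ℂ f V := fun t ht => (hf t ht).1
  have hf1 : AnalyticOnNhd ℂ (fun t => f (t + ρ)) V := fun t ht =>
    AnalyticAt.fun_comp (f := fun t => t + ρ) (hf t ht).2.1 (by fun_prop)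
  have hf2 : AnalyticOnNhd ℂ (fun t => f (t - ρ)) V := fun t ht =>
    AnalyticAt.fun_comp (f := fun t => t - ρ) (hf t ht).2.2 (by fun_prop)
  have hg : MeromorphicOn (fun t => (f (t + ρ) - f t)⁻¹ + (f (t - ρ) - f t)⁻¹) V := fun t ht =>
    (((hf1 t ht).meromorphicAt.sub (hf0 t ht).meromorphicAt).inv).add
      (((hf2 t ht).meromorphicAt.sub (hf0 t ht).meromorphicAt).inv)
  obtain ⟨⟨Z, hZ, hZ1⟩, hNF, -⟩ := transfer hA hk hV hVc hf0 hg hU hUV hnc hZ₀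
    (fun t ht htZ => (hU1 t ht htZ).2.2.symm)
  refine ⟨hNF, ?_⟩
  -- the zeros of `f (t + ρ) - f t`
  have hh : AnalyticOnNhd ℂ (fun t => f (t + ρ) - f t) V := fun t ht => (hf1 t ht).sub (hf0 t ht)
  obtain ⟨t₀, ht₀U, -⟩ := hnc 0
  obtain ⟨t₁, ht₁⟩ := (freq_and hZ₀ (hU.mem_nhds ht₀U)).exists
  have hh1 : f (t₁ + ρ) - f t₁ ≠ 0 := sub_ne_zero.mpr (hU1 t₁ ht₁.1 ht₁.2).2.1
  have hZ2 : {t ∈ V | f (t + ρ) - f t ∈ ({0} : Set ℂ)}.Countable := by
    by_cases hcst : ∀ c, ¬ ∀ᶠ s in 𝓝[≠] t₁, f (s + ρ) - f s = c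
    · exact countable_preimage hV hVp (fun t ht => (hh t ht).meromorphicAt)
        ⟨t₁, hUV ht₁.1, hcst⟩ (countable_singleton 0)
    · push Not at hcst
      obtain ⟨c, hc⟩ := hcst
      have h1 : EqOn (fun t => f (t + ρ) - f t) (fun _ => c) V :=
        hh.eqOn_of_preconnected_of_frequently_eq (fun _ _ => analyticAt_const) hVp
          (hUV ht₁.1) hc.frequently
      have hc0 : c ≠ 0 := by
        intro h
        apply hh1
        have := h1 (hUV ht₁.1)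
        simpa [h] using this
      convert countable_empty (α := ℂ)
      rw [eq_empty_iff_forall_notMem]
      rintro t ⟨ht, ht0⟩
      exact hc0 ((h1 ht).symm.trans ht0)
  refine ⟨Z ∪ {t ∈ V | f (t + ρ) - f t ∈ ({0} : Set ℂ)}, hZ.union hZ2, ?_⟩
  intro t ht htZ
  rw [mem_union, not_or] at htZ
  refine ⟨(hZ1 t ht htZ.1).1, ?_, (hZ1 t ht htZ.1).2.symm⟩
  intro h
  exact htZ.2 ⟨ht, by simp [h]⟩

namespace ExtBasic

/-- solutions of `u' = - K u ^ 2` which do not vanish identically have no zeros -/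
lemma riccati_ne {u K : ℂ → ℂ} {t : ℂ} (hu : AnalyticAt ℂ u t) (hK : AnalyticAt ℂ K t)
    (h : ∀ᶠ s in 𝓝 t, deriv u s = -K s * u s ^ 2) (hne : ¬ ∀ᶠ s in 𝓝 t, u s = 0) : u t ≠ 0 := by
  intro h0
  have h1 : analyticOrderAt (deriv u) t + 1 = analyticOrderAt u t := by
    have := hu.analyticOrderAt_deriv_add_one
    simpa [h0] using this
  have h2 : analyticOrderAt (deriv u) t = analyticOrderAt (fun s => -K s * u s ^ 2) t :=
    analyticOrderAt_congr h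
  have h3 : analyticOrderAt (fun s => -K s * u s ^ 2) t =
      analyticOrderAt (fun s => -K s) t + 2 • analyticOrderAt u t := by
    have e1 := analyticOrderAt_mul (f := fun s => -K s) (g := fun s => u s ^ 2) hK.neg (hu.pow 2)
    have e2 := analyticOrderAt_pow hu 2
    rw [← e2]
    exact e1
  have h4 : analyticOrderAt u t ≠ ⊤ := by
    rw [Ne, analyticOrderAt_eq_top]
    exact hne
  obtain ⟨n, hn⟩ := ENat.ne_top_iff_exists.mp h4
  rw [h2, h3, ← hn] at h1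
  by_cases hKt : analyticOrderAt (fun s => -K s) t = ⊤
  · rw [hKt] at h1
    simp at h1
  · obtain ⟨m, hm⟩ := ENat.ne_top_iff_exists.mp hKt
    rw [← hm] at h1
    have h5 : m + 2 * n + 1 = n := by
      have : ((m + 2 * n + 1 : ℕ) : ℕ∞) = (n : ℕ∞) := by
        rw [← h1]
        push_cast
        simp
      exact_mod_cast this
    omega

end ExtBasic

/-- the differential equation of the limit curve continues -/
theorem ode_strip {k f : ℂ → ℂ} (hA : CSing k) (hk : Nrm k) {V U Z₀ : Set ℂ} (hV : IsOpen V)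
    (hVc : Convex ℝ V) (hf : AnalyticOnNhd ℂ f V) (hU : IsOpen U) (hUV : U ⊆ V)
    (hnc : ∀ c, ∃ t ∈ U, f t ≠ c) (hZ₀ : Z₀.Countable)
    (hU1 : ∀ t ∈ U, t ∉ Z₀ → AnalyticAt ℂ k (f t) ∧
      k (f t) = -(deriv (deriv f) t) / (deriv f t) ^ 2) :
    (∀ t ∈ V, MeromorphicNFAt k (f t)) ∧ (∀ t ∈ V, AnalyticAt ℂ k (f t) → deriv f t ≠ 0 ∧
      k (f t) = -(deriv (deriv f) t) / (deriv f t) ^ 2) := by
  have hg : MeromorphicOn (fun t => -(deriv (deriv f) t) / (deriv f t) ^ 2) V := fun t ht =>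
    ((hf t ht).deriv.deriv.meromorphicAt.neg).div ((hf t ht).deriv.meromorphicAt.pow 2)
  obtain ⟨⟨Z, hZ, hZ1⟩, hNF, hne⟩ := transfer hA hk hV hVc hf hg hU hUV hnc hZ₀
    (fun t ht htZ => (hU1 t ht htZ).2)
  refine ⟨hNF, fun t ht hkt => ?_⟩
  have hf' : AnalyticAt ℂ (deriv f) t := (hf t ht).deriv
  have hf'' : AnalyticAt ℂ (deriv (deriv f)) t := hf'.deriv
  have hkf : AnalyticAt ℂ (fun s => k (f s)) t := AnalyticAt.fun_comp hkt (hf t ht)
  -- `f'` is not zero near `t`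
  have hd : ¬ ∀ᶠ s in 𝓝 t, deriv f s = 0 := by
    intro h
    apply hne t ht
    have h2 : ∀ᶠ s in 𝓝 t, DifferentiableAt ℂ f s := by
      filter_upwards [(hf t ht).eventually_analyticAt] with s hs using hs.differentiableAt
    obtain ⟨ε, hε, hb⟩ := Metric.eventually_nhds_iff_ball.mp (h.and h2)
    filter_upwards [ball_mem_nhds t hε] with s hs
    exact (convex_ball t ε).is_const_of_fderivWithin_eq_zero (𝕜 := ℂ) (f := f)
      (fun x hx => (hb x hx).2.differentiableWithinAt)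
      (fun x hx => by
        rw [fderivWithin_of_isOpen isOpen_ball hx]
        ext
        simpa using (hb x hx).1) hs (mem_ball_self hε)
  have hd' : ∀ᶠ s in 𝓝[≠] t, deriv f s ≠ 0 := by
    rcases hf'.eventually_eq_zero_or_eventually_ne_zero with h | h
    · exact absurd h hd
    · exact h
  have hfr : ∃ᶠ s in 𝓝[≠] t, k (f s) = -(deriv (deriv f) s) / (deriv f s) ^ 2 :=
    (freq_and hZ (hV.mem_nhds ht)).mono fun s hs => (hZ1 s hs.1 hs.2).2
  have hfr2 : ∃ᶠ s in 𝓝[≠] t, deriv (deriv f) s = -(k (f s)) * (deriv f s) ^ 2 := by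
    refine (hfr.and_eventually hd').mono fun s hs => ?_
    rw [hs.1]
    field_simp [hs.2]
  have hev : ∀ᶠ s in 𝓝 t, deriv (deriv f) s = -(k (f s)) * (deriv f s) ^ 2 := by
    exact (hf''.frequently_eq_iff_eventually_eq (hkf.neg.mul (hf'.pow 2))).mp hfr2
  have hnz : deriv f t ≠ 0 := riccati_ne hf' hkf hev hd
  refine ⟨hnz, ?_⟩
  have := hev.self_of_nhds
  rw [this]
  field_simp

namespace ExtBasic

/-- the restriction of `F` to a line -/
lemma line_deriv {F : ℂ × ℂ → ℂ} {x v : ℂ × ℂ} (hF : AnalyticAt ℂ F x) :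
    ∀ᶠ ρ in 𝓝 (0:ℂ), HasDerivAt (fun ρ : ℂ => F (x + ρ • v)) (fderiv ℂ F (x + ρ • v) v) ρ := by
  have hc : Tendsto (fun ρ : ℂ => x + ρ • v) (𝓝 0) (𝓝 x) := by
    have : Continuous fun ρ : ℂ => x + ρ • v := by fun_prop
    simpa using this.tendsto 0
  filter_upwards [hc.eventually hF.eventually_analyticAt] with ρ hρ
  have h1 : HasDerivAt (fun ρ : ℂ => x + ρ • v) v ρ := by
    simpa using ((hasDerivAt_id ρ).smul_const v).const_add x
  exact hρ.differentiableAt.hasFDerivAt.comp_hasDerivAt ρ h1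

lemma line_deriv2 {F : ℂ × ℂ → ℂ} {x v : ℂ × ℂ} (hF : AnalyticAt ℂ F x) :
    HasDerivAt (fun ρ : ℂ => fderiv ℂ F (x + ρ • v) v) (fderiv ℂ (fderiv ℂ F) x v v) 0 := by
  have h1 : HasDerivAt (fun ρ : ℂ => x + ρ • v) v 0 := by
    simpa using ((hasDerivAt_id (0:ℂ)).smul_const v).const_add x
  have h2 : HasFDerivAt (fderiv ℂ F) (fderiv ℂ (fderiv ℂ F) x) (x + (0:ℂ) • v) := by
    simpa using hF.fderiv.differentiableAt.hasFDerivAt
  have h3 : HasDerivAt (fun ρ : ℂ => fderiv ℂ F (x + ρ • v)) (fderiv ℂ (fderiv ℂ F) x v) 0 :=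
    h2.comp_hasDerivAt (0:ℂ) h1
  simpa using h3.clm_apply (hasDerivAt_const (0:ℂ) v)

lemma line_analytic {F : ℂ × ℂ → ℂ} {x v : ℂ × ℂ} (hF : AnalyticAt ℂ F x) :
    AnalyticAt ℂ (fun ρ : ℂ => F (x + ρ • v)) 0 := by
  have h1 : AnalyticAt ℂ (fun ρ : ℂ => x + ρ • v) 0 :=
    analyticAt_const.add (analyticAt_id.smul analyticAt_const)
  exact AnalyticAt.fun_comp (by simpa using hF) h1

/-- second order Taylor formula -/
lemma tend2 {Φ : ℂ → ℂ} (h : AnalyticAt ℂ Φ 0) (h0 : Φ 0 = 0) (h1 : deriv Φ 0 = 0) :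
    Tendsto (fun ρ => Φ ρ / ρ ^ 2) (𝓝[≠] 0) (𝓝 (deriv (deriv Φ) 0 / 2)) := by
  have hO := (h.hasFPowerSeriesAt).isBigO_sub_partialSum_pow 3
  have hs : ∀ ρ : ℂ, (FormalMultilinearSeries.ofScalars ℂ
      (fun n => iteratedDeriv n Φ 0 / n.factorial)).partialSum 3 ρ = ρ ^ 2 * (deriv (deriv Φ) 0 / 2) := by
    intro ρ
    simp [FormalMultilinearSeries.partialSum, Finset.sum_range_succ,
      FormalMultilinearSeries.ofScalars, h0, h1, iteratedDeriv_succ, iteratedDeriv_zero]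
    ring
  simp only [hs, zero_add] at hO
  have h2 : Tendsto (fun ρ : ℂ => Φ ρ / ρ ^ 2 - deriv (deriv Φ) 0 / 2) (𝓝[≠] 0) (𝓝 0) := by
    have h3 : (fun ρ : ℂ => Φ ρ / ρ ^ 2 - deriv (deriv Φ) 0 / 2) =O[𝓝[≠] 0] fun ρ => ρ := by
      obtain ⟨c, hc⟩ := hO.bound
      refine Asymptotics.IsBigO.of_bound c ?_
      filter_upwards [hc.filter_mono nhdsWithin_le_nhds, self_mem_nhdsWithin] with ρ hρ hρ0
      have hρ0' : ρ ≠ 0 := hρ0
      have e : Φ ρ / ρ ^ 2 - deriv (deriv Φ) 0 / 2 =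
          (Φ ρ - ρ ^ 2 * (deriv (deriv Φ) 0 / 2)) / ρ ^ 2 := by field_simp
      rw [e, norm_div, norm_pow, div_le_iff₀ (by positivity)]
      calc _ ≤ c * ‖‖ρ‖ ^ 3‖ := hρ
        _ = c * ‖ρ‖ * ‖ρ‖ ^ 2 := by
          rw [norm_pow, norm_norm]
          ring
    exact h3.trans_tendsto (tendsto_id.mono_left nhdsWithin_le_nhds)
  simpa using h2.add_const (deriv (deriv Φ) 0 / 2)

end ExtBasic

/-- the limit curve -/
theorem Dat.ode {k : ℂ → ℂ} {F : ℂ × ℂ → ℂ} {c : ℝ} (hD : Dat k F c) {t : ℂ} (ht : t ∈ St (-c) c) :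
    deriv (fun s => F (s, 0)) t ≠ 0 ∧
    k (F (t, 0)) = -(deriv (deriv fun s => F (s, 0)) t) / (deriv (fun s => F (s, 0)) t) ^ 2 := by
  have hc := hD.pos
  set f : ℂ → ℂ := fun s => F (s, 0) with hfdef
  have h0b : (0:ℂ) ∈ ball (0:ℂ) c := mem_ball_self hc
  have hfan : AnalyticOnNhd ℂ f (St (-c) c) := by
    intro s hs
    have h1 : AnalyticAt ℂ (fun s : ℂ => (s, (0:ℂ))) s := analyticAt_id.prod analyticAt_const
    exact AnalyticAt.fun_comp (hD.an (s, 0) ⟨hs, h0b⟩) h1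
  -- second order equation without division
  have main : ∀ t ∈ St (-c) c, deriv (deriv f) t = -(k (f t)) * (deriv f t) ^ 2 := by
    intro t ht
    have hF : AnalyticAt ℂ F (t, 0) := hD.an (t, 0) ⟨ht, h0b⟩
    set x : ℂ × ℂ := (t, 0) with hx
    set φ : ℂ × ℂ → ℂ → ℂ := fun v ρ => F (x + ρ • v) with hφ
    have hφan : ∀ v, AnalyticAt ℂ (φ v) 0 := fun v => line_analytic hF
    have hφ1 : ∀ v, deriv (φ v) =ᶠ[𝓝 0] fun ρ => fderiv ℂ F (x + ρ • v) v := fun v => by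
      filter_upwards [line_deriv (v := v) hF] with ρ hρ using hρ.deriv
    have hφ0 : ∀ v, φ v 0 = F x := fun v => by simp [hφ]
    have hφ1' : ∀ v, deriv (φ v) 0 = fderiv ℂ F x v := fun v => by
      rw [(hφ1 v).self_of_nhds]
      simp
    have hφ2 : ∀ v, deriv (deriv (φ v)) 0 = fderiv ℂ (fderiv ℂ F) x v v := fun v => by
      rw [(hφ1 v).deriv_eq]
      exact (line_deriv2 hF).deriv
    have hφd : ∀ v, DifferentiableAt ℂ (φ v) 0 := fun v => (hφan v).differentiableAt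
    -- `f` is `φ (1, 0)`, translated
    have hfφ : ∀ s, f (t + s) = φ (1, 0) s := fun s => by simp [hφ, hfdef, hx]
    have hf1 : deriv f t = fderiv ℂ F x (1, 0) := by
      rw [← hφ1' (1, 0)]
      have : φ (1, 0) = fun s => f (t + s) := by
        funext s
        exact (hfφ s).symm
      rw [this, deriv_comp_const_add, add_zero]
    have hf2 : deriv (deriv f) t = fderiv ℂ (fderiv ℂ F) x (1, 0) (1, 0) := by
      rw [← hφ2 (1, 0)]
      have : φ (1, 0) = fun s => f (t + s) := by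
        funext s
        exact (hfφ s).symm
      have h2 : deriv (φ (1, 0)) = fun s => deriv f (t + s) := by
        funext s
        rw [this, deriv_comp_const_add]
      rw [h2, deriv_comp_const_add, add_zero]
    -- the second difference
    set Φ : ℂ → ℂ := fun ρ => φ (1, 1) ρ + φ (-1, 1) ρ - 2 * φ (0, 1) ρ with hΦ
    have hΦan : AnalyticAt ℂ Φ 0 :=
      ((hφan _).add (hφan _)).sub (analyticAt_const.mul (hφan _))
    have hev : deriv Φ =ᶠ[𝓝 0] fun ρ =>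
        deriv (φ (1, 1)) ρ + deriv (φ (-1, 1)) ρ - 2 * deriv (φ (0, 1)) ρ := by
      filter_upwards [(hφan (1, 1)).eventually_analyticAt, (hφan (-1, 1)).eventually_analyticAt,
        (hφan (0, 1)).eventually_analyticAt] with ρ h1 h2 h3
      exact (((h1.differentiableAt.hasDerivAt.add h2.differentiableAt.hasDerivAt)).sub
        (h3.differentiableAt.hasDerivAt.const_mul 2)).deriv
    have eab : ((1:ℂ), (1:ℂ)) = (1, 0) + (0, 1) := by simp
    have eab' : ((-1:ℂ), (1:ℂ)) = -(1, 0) + (0, 1) := by simp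
    have hΦ0 : Φ 0 = 0 := by
      simp only [hΦ, hφ0]
      ring
    have hΦ1 : deriv Φ 0 = 0 := by
      rw [hev.self_of_nhds]
      simp only [hφ1', eab, eab', map_add, map_neg]
      ring
    have hΦ2 : deriv (deriv Φ) 0 = 2 * deriv (deriv f) t := by
      rw [hev.deriv_eq]
      have h1 : HasDerivAt (fun ρ => deriv (φ (1, 1)) ρ + deriv (φ (-1, 1)) ρ -
          2 * deriv (φ (0, 1)) ρ) (deriv (deriv (φ (1, 1))) 0 + deriv (deriv (φ (-1, 1))) 0 -
          2 * deriv (deriv (φ (0, 1))) 0) 0 :=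
        (((hφan _).deriv.differentiableAt.hasDerivAt).add
          ((hφan _).deriv.differentiableAt.hasDerivAt)).sub
          ((hφan _).deriv.differentiableAt.hasDerivAt.const_mul 2)
      rw [h1.deriv, hf2]
      simp only [hφ2, eab, eab', map_add, map_neg, _root_.add_apply,
        _root_.neg_apply]
      ring
    have hlim1 := tend2 hΦan hΦ0 hΦ1
    rw [hΦ2] at hlim1
    -- first differences
    have hP : Tendsto (fun ρ : ℂ => ρ⁻¹ * (φ (1, 1) ρ - φ (0, 1) ρ)) (𝓝[≠] 0)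
        (𝓝 (deriv f t)) := by
      have h1 : HasDerivAt (fun ρ => φ (1, 1) ρ - φ (0, 1) ρ)
          (deriv (φ (1, 1)) 0 - deriv (φ (0, 1)) 0) 0 :=
        (hφd _).hasDerivAt.sub (hφd _).hasDerivAt
      rw [hasDerivAt_iff_tendsto_slope_zero] at h1
      have e : deriv (φ (1, 1)) 0 - deriv (φ (0, 1)) 0 = deriv f t := by
        rw [hφ1', hφ1', hf1, eab, map_add]
        ring
      rw [e] at h1
      simpa [hφ0] using h1
    have hM : Tendsto (fun ρ : ℂ => ρ⁻¹ * (φ (-1, 1) ρ - φ (0, 1) ρ)) (𝓝[≠] 0)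
        (𝓝 (-deriv f t)) := by
      have h1 : HasDerivAt (fun ρ => φ (-1, 1) ρ - φ (0, 1) ρ)
          (deriv (φ (-1, 1)) 0 - deriv (φ (0, 1)) 0) 0 :=
        (hφd _).hasDerivAt.sub (hφd _).hasDerivAt
      rw [hasDerivAt_iff_tendsto_slope_zero] at h1
      have e : deriv (φ (-1, 1)) 0 - deriv (φ (0, 1)) 0 = -deriv f t := by
        rw [hφ1', hφ1', hf1, eab', map_add, map_neg]
        ring
      rw [e] at h1
      simpa [hφ0] using h1
    have hK : Tendsto (fun ρ : ℂ => k (φ (0, 1) ρ)) (𝓝[≠] 0) (𝓝 (k (f t))) := by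
      have h1 : ContinuousAt (fun ρ : ℂ => k (φ (0, 1) ρ)) 0 := by
        refine ContinuousAt.comp (g := k) (f := φ (0, 1)) ?_ (hφan _).continuousAt
        rw [hφ0]
        exact (hD.reg (t, 0) ⟨ht, h0b⟩).continuousAt
      have h2 := h1.tendsto
      rw [hφ0] at h2
      exact h2.mono_left nhdsWithin_le_nhds
    -- the functional equation
    have hcp : Tendsto (fun ρ : ℂ => t + ρ) (𝓝 0) (𝓝 t) := by
      have : Continuous fun ρ : ℂ => t + ρ := by fun_prop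
      simpa using this.tendsto 0
    have hcm : Tendsto (fun ρ : ℂ => t - ρ) (𝓝 0) (𝓝 t) := by
      have : Continuous fun ρ : ℂ => t - ρ := by fun_prop
      simpa using this.tendsto 0
    have heq : (fun ρ => Φ ρ / ρ ^ 2) =ᶠ[𝓝[≠] 0] fun ρ => k (φ (0, 1) ρ) *
        (ρ⁻¹ * (φ (1, 1) ρ - φ (0, 1) ρ)) * (ρ⁻¹ * (φ (-1, 1) ρ - φ (0, 1) ρ)) := by
      filter_upwards [self_mem_nhdsWithin, mem_nhdsWithin_of_mem_nhds (ball_mem_nhds (0:ℂ) hc),
        mem_nhdsWithin_of_mem_nhds (hcp.eventually ((isOpen_St (-c) c).mem_nhds ht)),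
        mem_nhdsWithin_of_mem_nhds (hcm.eventually ((isOpen_St (-c) c).mem_nhds ht))]
        with ρ h1 h2 h3 h4
      have hρ : ρ ≠ 0 := h1
      have e1 : φ (1, 1) ρ = F (t + ρ, ρ) := by simp [hφ, hx]
      have e2 : φ (-1, 1) ρ = F (t - ρ, ρ) := by simp [hφ, hx, sub_eq_add_neg]
      have e3 : φ (0, 1) ρ = F (t, ρ) := by simp [hφ, hx]
      have hfe := hD.fe (t, ρ) ⟨ht, h2⟩ hρ h3 h4
      have hs1 := hD.sep (t, ρ) ⟨ht, h2⟩ hρ h3
      have hs2 := hD.sep (t - ρ, ρ) ⟨h4, h2⟩ hρ (by simpa using ht)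
      simp only [sub_add_cancel] at hs2
      simp only at hfe hs1
      have hp : F (t + ρ, ρ) - F (t, ρ) ≠ 0 := sub_ne_zero.mpr hs1
      have hm : F (t - ρ, ρ) - F (t, ρ) ≠ 0 := sub_ne_zero.mpr hs2.symm
      simp only [hΦ]
      rw [e1, e2, e3, ← hfe]
      field_simp
      ring
    have hlim2 : Tendsto (fun ρ => Φ ρ / ρ ^ 2) (𝓝[≠] 0)
        (𝓝 (k (f t) * deriv f t * (-deriv f t))) :=
      ((hK.mul hP).mul hM).congr' heq.symm
    have := tendsto_nhds_unique hlim1 hlim2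
    have h2 : deriv (deriv f) t = k (f t) * deriv f t * (-deriv f t) := by
      rw [← this]
      ring
    rw [h2]
    ring
  have hnz : deriv f t ≠ 0 := by
    refine riccati_ne (K := fun s => k (f s)) (hfan t ht).deriv ?_ ?_ ?_
    · exact AnalyticAt.fun_comp (hD.reg (t, 0) ⟨ht, h0b⟩) (hfan t ht)
    · filter_upwards [(isOpen_St (-c) c).mem_nhds ht] with s hs using main s hs
    · intro h
      have h2 : EqOn f (fun _ => f t) (St (-c) c) := by
        refine hfan.eqOn_of_preconnected_of_eventuallyEq (fun _ _ => analyticAt_const)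
          (convex_St _ _).isPreconnected ht ?_
        obtain ⟨ε, hε, hb⟩ := Metric.eventually_nhds_iff_ball.mp
          (h.and (hfan t ht).eventually_analyticAt)
        filter_upwards [ball_mem_nhds t hε] with s hs
        exact (convex_ball t ε).is_const_of_fderivWithin_eq_zero (𝕜 := ℂ) (f := f)
          (fun x hx => (hb x hx).2.differentiableAt.differentiableWithinAt)
          (fun x hx => by
            rw [fderivWithin_of_isOpen isOpen_ball hx]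
            ext
            simpa using (hb x hx).1) hs (mem_ball_self hε)
      have h3 : F (((0:ℝ):ℂ), 0) = F (((1/2:ℝ):ℂ), 0) := by
        have e1 := h2 (show (((0:ℝ):ℂ)) ∈ St (-c) c by simp [St, hc])
        have e2 := h2 (show (((1/2:ℝ):ℂ)) ∈ St (-c) c by
          rw [mem_St, ofReal_im]
          exact ⟨by linarith, hc⟩)
        exact e1.trans e2.symm
      obtain ⟨n, hn⟩ := hD.inj 0 (1/2) h3
      have h4 : (2:ℝ) * (n:ℝ) = -1 := by linarith
      have h5 : (2 * n : ℤ) = -1 := by exact_mod_cast h4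
      omega
  refine ⟨hnz, ?_⟩
  rw [main t ht]
  field_simp
  rfl

end Pool.Agent.MP_ae5b4e_an_MERO
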