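import Mathlib
import Pool.Agent.Lib.MP_ae5b4e_an_MERO.Defs

/-!
# MP_ae5b4e_an, project MERO, module FO: Fourier series on a strip
-/

noncomputable section

namespace Pool.Agent.MP_ae5b4e_an_MERO

open Complex Set Filter Topology Metric

namespace Fourier

private theorem exp_per (m : ℤ) (s : ℂ) :
    exp (-(2 * Real.pi * I * m * (s + 1))) = exp (-(2 * Real.pi * I * m * s)) := by
  have e : -(2 * Real.pi * I * m * (s + 1)) =
      -(2 * Real.pi * I * m * s) + ((-m : ℤ) : ℂ) * (2 * Real.pi * I) := by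
    push_cast
    ring
  rw [e]
  exact (Complex.exp_periodic.int_mul (-m)) _

private theorem norm_e (m : ℤ) (s y : ℝ) :
    ‖exp (-(2 * Real.pi * I * m * (s + y * I)))‖ = Real.exp (2 * Real.pi * m * y) := by
  rw [Complex.norm_exp]
  congr 1
  have e : -(2 * Real.pi * I * m * (s + y * I)) =
      ((2 * Real.pi * m * y : ℝ) : ℂ) + ((-(2 * Real.pi * m * s) : ℝ) : ℂ) * I := by
    push_cast
    linear_combination (-(2 * Real.pi * m * y) : ℂ) * I_mul_I
  rw [e]
  simp

/-- the integral over a period does not depend on the height -/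
theorem rect {G : ℂ → ℂ} {a b : ℝ} (hd : DifferentiableOn ℂ G (St a b))
    (hp : ∀ t ∈ St a b, G (t + 1) = G t) {y y' : ℝ} (hy : y ∈ Ioo a b) (hy' : y' ∈ Ioo a b) :
    ∫ s in (0:ℝ)..1, G (s + y * I) = ∫ s in (0:ℝ)..1, G (s + y' * I) := by
  have hsub : ∀ z ∈ uIcc y y', z ∈ Ioo a b := fun z hz =>
    (convex_Ioo a b).ordConnected.uIcc_subset hy hy' hz
  have hR := Complex.integral_boundary_rect_eq_zero_of_differentiableOn G (y * I) (1 + y' * I)
    (hd.mono (by
      intro t ht
      have ht2 : t.im ∈ uIcc y y' := by simpa using ht.2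
      exact hsub _ ht2))
  have hv : ∫ z in y..y', G (1 + z * I) = ∫ z in y..y', G (z * I) := by
    apply intervalIntegral.integral_congr
    intro z hz
    have h3 := hsub z hz
    have h4 := hp (z * I) (by rw [mem_St]; simpa using h3)
    simp only
    rw [← h4]
    congr 1
    ring
  simp only [add_re, one_re, mul_re, ofReal_re, I_re, mul_zero, ofReal_im,
    I_im, mul_one, sub_self, add_zero, add_im, one_im, mul_im, zero_add, ofReal_zero, ofReal_one]
    at hR
  rw [hv] at hR
  linear_combination hR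

private theorem cont_line {f : ℂ → ℂ} {a b : ℝ} (hf : DifferentiableOn ℂ f (St a b)) {y : ℝ}
    (hy : y ∈ Ioo a b) : Continuous fun s : ℝ => f (s + y * I) := by
  rw [← continuousOn_univ]
  refine hf.continuousOn.comp (f := fun s : ℝ => ((s : ℂ) + y * I)) (by fun_prop) fun s _ => ?_
  rw [mem_St]
  simpa using hy

/-- bound for all coefficients at one height -/
private theorem fo_bdd {f : ℂ → ℂ} {a b : ℝ} (hf : DifferentiableOn ℂ f (St a b)) {y : ℝ}
    (hy : y ∈ Ioo a b) :
    ∃ M : ℝ, 0 ≤ M ∧ ∀ m : ℤ, ‖fo f y m‖ ≤ M * Real.exp (2 * Real.pi * m * y) := by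
  obtain ⟨M, hM⟩ := (isCompact_Icc (a := (0:ℝ)) (b := 1)).exists_bound_of_continuousOn
    (cont_line hf hy).continuousOn
  refine ⟨max M 0, le_max_right _ _, fun m => ?_⟩
  have h := intervalIntegral.norm_integral_le_of_norm_le_const (a := 0) (b := 1)
    (f := fun s : ℝ => f (s + y * I) * exp (-(2 * Real.pi * I * m * (s + y * I))))
    (C := max M 0 * Real.exp (2 * Real.pi * m * y)) (fun s hs => by
      rw [uIoc_of_le zero_le_one] at hs
      rw [norm_mul, norm_e]
      have h1 := hM s ⟨hs.1.le, hs.2⟩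
      have h2 : ‖f (s + y * I)‖ ≤ max M 0 := h1.trans (le_max_left _ _)
      gcongr)
  rw [sub_zero, abs_one, mul_one] at h
  exact h

end Fourier

open Pool.Agent.MP_ae5b4e_an_MERO.Fourier

theorem fo_indep {f : ℂ → ℂ} {a b : ℝ} (hf : DifferentiableOn ℂ f (St a b))
    (hper : ∀ t ∈ St a b, f (t + 1) = f t) {y y' : ℝ} (hy : y ∈ Ioo a b) (hy' : y' ∈ Ioo a b)
    (m : ℤ) : fo f y m = fo f y' m :=
  rect (G := fun z => f z * exp (-(2 * Real.pi * I * m * z)))
    (hf.mul (Differentiable.differentiableOn (by fun_prop)))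
    (fun t ht => by rw [hper t ht, exp_per]) hy hy'

theorem norm_fo_le {f : ℂ → ℂ} {y M : ℝ} (h : ∀ t : ℂ, t.im = y → ‖f t‖ ≤ M) (m : ℤ) :
    ‖fo f y m‖ ≤ M * Real.exp (2 * Real.pi * m * y) := by
  have h' := intervalIntegral.norm_integral_le_of_norm_le_const (a := 0) (b := 1)
    (f := fun s : ℝ => f (s + y * I) * exp (-(2 * Real.pi * I * m * (s + y * I))))
    (C := M * Real.exp (2 * Real.pi * m * y)) (fun s _ => by
      rw [norm_mul, norm_e]
      have h1 := h (s + y * I) (by simp)
      gcongr)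
  rw [sub_zero, abs_one, mul_one] at h'
  exact h'

namespace Fourier

/-- Fourier coefficients of the restriction to a horizontal line -/
private theorem coeff_line (f : ℂ → ℂ) (η : ℝ) (m : ℤ) :
    ∫ s in (0:ℝ)..1, f (s + η * I) * exp (-(2 * Real.pi * I * m * s)) =
      exp (2 * Real.pi * I * m * (η * I)) * fo f η m := by
  unfold fo
  rw [← intervalIntegral.integral_const_mul]
  apply intervalIntegral.integral_congr
  intro s _
  have e : exp (-(2 * Real.pi * I * m * (s + η * I))) =
      exp (-(2 * Real.pi * I * m * s)) * exp (-(2 * Real.pi * I * m * (η * I))) := by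
    rw [← Complex.exp_add]
    congr 1
    ring
  have e2 : exp (2 * Real.pi * I * m * (η * I)) * exp (-(2 * Real.pi * I * m * (η * I))) = 1 := by
    rw [← Complex.exp_add]
    simp
  show f (s + η * I) * exp (-(2 * Real.pi * I * m * s)) =
    exp (2 * Real.pi * I * m * (η * I)) *
      (f (s + η * I) * exp (-(2 * Real.pi * I * m * (s + η * I))))
  rw [e]
  linear_combination (-(f (s + η * I) * exp (-(2 * Real.pi * I * m * s)))) * e2

private theorem norm_e2 (m : ℤ) (η : ℝ) :
    ‖exp (2 * Real.pi * I * m * ((η : ℂ) * I))‖ = Real.exp (-(2 * Real.pi * m * η)) := by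
  rw [Complex.norm_exp]
  congr 1
  have e : 2 * Real.pi * I * m * ((η : ℂ) * I) = ((-(2 * Real.pi * m * η) : ℝ) : ℂ) := by
    push_cast
    linear_combination (2 * Real.pi * m * η : ℂ) * I_mul_I
  rw [e, ofReal_re]

private theorem summ {δ C : ℝ} (hδ : 0 < δ) :
    Summable fun m : ℤ => C * Real.exp (-(2 * Real.pi * |(m : ℝ)| * δ)) := by
  apply Summable.mul_left
  set q : ℝ := Real.exp (-(2 * Real.pi * δ)) with hq
  have hq0 : 0 ≤ q := (Real.exp_pos _).le
  have hpos : 0 < 2 * Real.pi * δ := by have := Real.pi_pos; positivity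
  have hq1 : q < 1 := by
    rw [hq, Real.exp_lt_one_iff]
    linarith
  have e1 : ∀ n : ℕ, Real.exp (-(2 * Real.pi * |((n : ℤ) : ℝ)| * δ)) = q ^ n := by
    intro n
    rw [hq, ← Real.exp_nat_mul]
    congr 1
    have : |((n : ℤ) : ℝ)| = n := by simp
    rw [this]
    ring
  have e2 : ∀ n : ℕ, Real.exp (-(2 * Real.pi * |((-((n : ℤ) + 1) : ℤ) : ℝ)| * δ)) = q ^ n * q := by
    intro n
    rw [← pow_succ, hq, ← Real.exp_nat_mul]
    congr 1
    have : |((-((n : ℤ) + 1) : ℤ) : ℝ)| = n + 1 := by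
      push_cast
      rw [abs_neg, abs_of_nonneg (by positivity)]
    rw [this]
    push_cast
    ring
  have s1 : Summable (fun n : ℕ => Real.exp (-(2 * Real.pi * |((n : ℤ) : ℝ)| * δ))) := by
    simp_rw [e1]
    exact summable_geometric_of_lt_one hq0 hq1
  have s2 : Summable (fun n : ℕ => Real.exp (-(2 * Real.pi * |((-((n : ℤ) + 1) : ℤ) : ℝ)| * δ))) := by
    simp_rw [e2]
    exact (summable_geometric_of_lt_one hq0 hq1).mul_right q
  exact Summable.of_nat_of_neg_add_one s1 s2

/-- decay of the coefficients on a line inside the strip -/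
private theorem coeff_summable {f : ℂ → ℂ} {a b : ℝ} (hf : DifferentiableOn ℂ f (St a b))
    (hper : ∀ t ∈ St a b, f (t + 1) = f t) {η : ℝ} (hη : η ∈ Ioo a b) :
    Summable fun m : ℤ => exp (2 * Real.pi * I * m * (η * I)) * fo f η m := by
  obtain ⟨y₁, h1a, h1b⟩ := exists_between hη.1
  obtain ⟨y₂, h2a, h2b⟩ := exists_between hη.2
  have hy₁ : y₁ ∈ Ioo a b := ⟨h1a, h1b.trans hη.2⟩
  have hy₂ : y₂ ∈ Ioo a b := ⟨hη.1.trans h2a, h2b⟩
  obtain ⟨M₁, hM₁, hb₁⟩ := fo_bdd hf hy₁
  obtain ⟨M₂, hM₂, hb₂⟩ := fo_bdd hf hy₂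
  have hδ : 0 < min (η - y₁) (y₂ - η) := lt_min (by linarith) (by linarith)
  refine Summable.of_norm_bounded (summ (C := max M₁ M₂) hδ) fun m => ?_
  rw [norm_mul, norm_e2]
  rcases le_total 0 m with hm | hm
  · have hm' : (0:ℝ) ≤ m := by exact_mod_cast hm
    have h3 := hb₁ m
    rw [fo_indep hf hper hy₁ hη m] at h3
    calc Real.exp (-(2 * Real.pi * m * η)) * ‖fo f η m‖
        ≤ Real.exp (-(2 * Real.pi * m * η)) * (M₁ * Real.exp (2 * Real.pi * m * y₁)) := by gcongr
      _ = M₁ * Real.exp (-(2 * Real.pi * m * (η - y₁))) := by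
          rw [mul_left_comm, ← Real.exp_add]
          congr 2
          ring
      _ ≤ max M₁ M₂ * Real.exp (-(2 * Real.pi * |(m : ℝ)| * min (η - y₁) (y₂ - η))) := by
          rw [abs_of_nonneg hm']
          have h4 := min_le_left (η - y₁) (y₂ - η)
          have h5 := le_max_left M₁ M₂
          have h6 : -(2 * Real.pi * m * (η - y₁)) ≤
              -(2 * Real.pi * m * min (η - y₁) (y₂ - η)) := by
            have : 0 ≤ 2 * Real.pi * (m:ℝ) := by have := Real.pi_pos; positivity
            nlinarith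
          have h7 := Real.exp_le_exp.2 h6
          have h8 : 0 ≤ max M₁ M₂ := hM₁.trans h5
          gcongr
  · have hm' : (m:ℝ) ≤ 0 := by exact_mod_cast hm
    have h3 := hb₂ m
    rw [fo_indep hf hper hy₂ hη m] at h3
    calc Real.exp (-(2 * Real.pi * m * η)) * ‖fo f η m‖
        ≤ Real.exp (-(2 * Real.pi * m * η)) * (M₂ * Real.exp (2 * Real.pi * m * y₂)) := by gcongr
      _ = M₂ * Real.exp (2 * Real.pi * m * (y₂ - η)) := by
          rw [mul_left_comm, ← Real.exp_add]
          congr 2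
          ring
      _ ≤ max M₁ M₂ * Real.exp (-(2 * Real.pi * |(m : ℝ)| * min (η - y₁) (y₂ - η))) := by
          rw [abs_of_nonpos hm']
          have h4 := min_le_right (η - y₁) (y₂ - η)
          have h5 := le_max_right M₁ M₂
          have h6 : 2 * Real.pi * m * (y₂ - η) ≤
              -(2 * Real.pi * -m * min (η - y₁) (y₂ - η)) := by
            have : 0 ≤ 2 * Real.pi * (-m:ℝ) := by
              have := Real.pi_pos
              have h9 : (0:ℝ) ≤ -m := by linarith
              positivity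
            nlinarith
          have h7 := Real.exp_le_exp.2 h6
          have h8 : 0 ≤ max M₁ M₂ := hM₂.trans h5
          gcongr

end Fourier

theorem hasSum_fo {f : ℂ → ℂ} {a b : ℝ} (hf : DifferentiableOn ℂ f (St a b))
    (hper : ∀ t ∈ St a b, f (t + 1) = f t) {t : ℂ} (ht : t ∈ St a b) {y : ℝ} (hy : y ∈ Ioo a b) :
    HasSum (fun m : ℤ => fo f y m * exp (2 * Real.pi * I * m * t)) (f t) := by
  have hη : t.im ∈ Ioo a b := ht
  set η := t.im with hηdef
  let F : ℝ → ℂ := fun s => f (s + η * I)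
  have hF : Continuous F := cont_line hf hη
  have hp : Function.Periodic F (1 : ℝ) := by
    intro x
    have h := hper (x + η * I) (by rw [mem_St]; simpa using hη)
    show f (((x + 1 : ℝ) : ℂ) + η * I) = f (x + η * I)
    rw [← h]
    congr 1
    push_cast
    ring
  have : Fact ((0 : ℝ) < 1) := ⟨one_pos⟩
  have hc : Continuous (hp.lift : AddCircle (1 : ℝ) → ℂ) := by
    refine continuous_coinduced_dom.2 ?_
    exact hF
  set G : C(AddCircle (1 : ℝ), ℂ) := ⟨hp.lift, hc⟩ with hG
  have hcoe : ∀ y : ℝ, G (y : AddCircle (1 : ℝ)) = F y := fun y => hp.lift_coe y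
  have hcf : ∀ m : ℤ, fourierCoeff G m = exp (2 * Real.pi * I * m * (η * I)) * fo f η m := by
    intro m
    rw [fourierCoeff_eq_intervalIntegral G m 0]
    have e : ∀ y : ℝ, (fourier (-m) : AddCircle (1 : ℝ) → ℂ) (y : AddCircle (1 : ℝ)) •
        G (y : AddCircle (1 : ℝ)) = F y * exp (-(2 * Real.pi * I * m * y)) := by
      intro y
      rw [hcoe, fourier_coe_apply, smul_eq_mul, mul_comm]
      congr 2
      push_cast
      ring
    simp_rw [e]
    rw [zero_add, coeff_line f η m]
    simp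
  have hs : Summable (fourierCoeff G) := by
    have h := coeff_summable hf hper hη
    rw [funext hcf]
    exact h
  have h1 := has_pointwise_sum_fourier_series_of_summable hs (t.re : AddCircle (1 : ℝ))
  rw [hcoe] at h1
  have h2 : F t.re = f t := by
    show f ((t.re : ℂ) + η * I) = f t
    rw [hηdef, Complex.re_add_im]
  rw [h2] at h1
  convert h1 using 1
  funext m
  rw [hcf, fourier_coe_apply, smul_eq_mul, fo_indep hf hper hy hη m]
  have e3 : t = (t.re : ℂ) + η * I := by rw [hηdef, Complex.re_add_im]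
  have e4 : exp (2 * Real.pi * I * m * t) = exp (2 * Real.pi * I * m * (η * I)) *
      exp (2 * Real.pi * I * m * (t.re : ℂ) / ((1 : ℝ) : ℂ)) := by
    rw [← Complex.exp_add]
    congr 1
    conv_lhs => rw [e3]
    push_cast
    ring
  rw [e4]
  ring

end Pool.Agent.MP_ae5b4e_an_MERO
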