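import Mathlib

/-!
MP_ae5b4e_an, project MERO, module TC: a two constants theorem.
-/

noncomputable section

namespace Pool.Agent.MP_ae5b4e_an_MERO

open Complex Set Filter Topology Metric

namespace TwoConst

theorem norm_cosh_sq (w : ℂ) :
    ‖Complex.cosh w‖ ^ 2 = Real.sinh w.re ^ 2 + Real.cos w.im ^ 2 := by
  have h : Complex.cosh w = (Real.cosh w.re * Real.cos w.im : ℝ) +
      (Real.sinh w.re * Real.sin w.im : ℝ) * I := by
    conv_lhs => rw [← re_add_im w]
    rw [Complex.cosh_add, Complex.cosh_mul_I, Complex.sinh_mul_I]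
    push_cast
    ring
  rw [Complex.sq_norm, Complex.normSq_apply, h]
  simp only [add_re, ofReal_re, mul_re, I_re, mul_zero, ofReal_im, I_im, mul_one, sub_self,
    add_zero, add_im, mul_im, zero_add]
  have h1 := Real.cosh_sq w.re
  have h2 := Real.sin_sq_add_cos_sq w.im
  have h3 : Real.sin w.im ^ 2 = 1 - Real.cos w.im ^ 2 := by linarith
  calc Real.cosh w.re * Real.cos w.im * (Real.cosh w.re * Real.cos w.im) +
        Real.sinh w.re * Real.sin w.im * (Real.sinh w.re * Real.sin w.im)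
      = Real.cosh w.re ^ 2 * Real.cos w.im ^ 2 + Real.sinh w.re ^ 2 * Real.sin w.im ^ 2 := by ring
    _ = Real.sinh w.re ^ 2 + Real.cos w.im ^ 2 := by rw [h1, h3]; ring

theorem norm_cosh_le (w : ℂ) : ‖Complex.cosh w‖ ≤ Real.cosh w.re := by
  refine abs_le_of_sq_le_sq' ?_ (Real.cosh_pos _).le |>.2
  rw [norm_cosh_sq, Real.cosh_sq]
  have := Real.cos_sq_le_one w.im
  linarith

theorem sinh_le_norm_cosh (w : ℂ) : Real.sinh w.re ≤ ‖Complex.cosh w‖ := by
  refine abs_le_of_sq_le_sq' ?_ (norm_nonneg _) |>.2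
  rw [norm_cosh_sq]
  have := sq_nonneg (Real.cos w.im)
  linarith

theorem cosh_log_six : Real.cosh (Real.log 6) ≤ 31 / 10 := by
  rw [Real.cosh_eq, Real.exp_neg, Real.exp_log (by norm_num)]
  norm_num

theorem two_lt_sinh {u : ℝ} (h : 9 / 10 * Real.log 6 < u) : 2 < Real.sinh u := by
  refine lt_trans ?_ (Real.sinh_lt_sinh.2 h)
  obtain ⟨t, ht⟩ : ∃ t, t = Real.exp (9 / 10 * Real.log 6) := ⟨_, rfl⟩
  have ht0 : 0 < t := ht ▸ Real.exp_pos _
  have h10 : t ^ 10 = 6 ^ 9 := by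
    rw [ht, ← Real.exp_nat_mul]
    have : ((10 : ℕ) : ℝ) * (9 / 10 * Real.log 6) = Real.log (6 ^ 9) := by
      rw [Real.log_pow]
      push_cast
      ring
    rw [this, Real.exp_log (by norm_num)]
  have h1 : 17 / 4 < t := by
    by_contra hc
    push Not at hc
    have := pow_le_pow_left₀ ht0.le hc 10
    rw [h10] at this
    norm_num at this
  rw [Real.sinh_eq, Real.exp_neg, ← ht]
  have h2 : t⁻¹ < 4 / 17 := by
    rw [inv_lt_comm₀ ht0 (by norm_num)]
    norm_num
    linarith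
  linarith

end TwoConst

open TwoConst

theorem two_constants {f : ℂ → ℂ} {r A B : ℝ} (hr : 0 < r) (hf : DifferentiableOn ℂ f (ball 0 r))
    (hA : ∀ z ∈ ball (0:ℂ) r, ‖f z‖ ≤ A) (hB : ∀ x : ℝ, x ∈ Icc (r / 8) (r / 2) → ‖f x‖ ≤ B)
    (hB0 : 0 < B) (hBA : B ≤ A) {z : ℂ} (hz : ‖z‖ ≤ r / 16) :
    ‖f z‖ ≤ A ^ (9 / 10 : ℝ) * B ^ (1 / 10 : ℝ) := by
  have hA0 : 0 < A := lt_of_lt_of_le hB0 hBA
  obtain ⟨α, hα⟩ : ∃ α, α = Real.log 6 := ⟨_, rfl⟩
  have hα0 : 0 < α := hα ▸ Real.log_pos (by norm_num)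
  obtain ⟨G, hG⟩ : ∃ G : ℂ → ℂ, ∀ w, G w = ((5 * r / 16 : ℝ) : ℂ) +
    ((3 * r / 16 : ℝ) : ℂ) * Complex.cosh w := ⟨_, fun _ => rfl⟩
  have hGd : Differentiable ℂ G := by
    rw [funext hG]
    fun_prop
  have hGb : ∀ w : ℂ, 0 ≤ w.re → w.re ≤ α → G w ∈ ball (0:ℂ) r := by
    intro w h0 h1
    rw [mem_ball_zero_iff, hG]
    have h2 : ‖Complex.cosh w‖ ≤ 31 / 10 := by
      refine (norm_cosh_le w).trans (le_trans ?_ cosh_log_six)
      rw [← hα]
      refine Real.cosh_le_cosh.2 ?_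
      rwa [abs_of_nonneg h0, abs_of_pos hα0]
    calc ‖((5 * r / 16 : ℝ) : ℂ) + ((3 * r / 16 : ℝ) : ℂ) * Complex.cosh w‖
        ≤ ‖((5 * r / 16 : ℝ) : ℂ)‖ + ‖((3 * r / 16 : ℝ) : ℂ) * Complex.cosh w‖ := norm_add_le _ _
      _ = 5 * r / 16 + 3 * r / 16 * ‖Complex.cosh w‖ := by
          rw [norm_mul, Complex.norm_real, Complex.norm_real, Real.norm_of_nonneg (by positivity),
            Real.norm_of_nonneg (by positivity)]
      _ ≤ 5 * r / 16 + 3 * r / 16 * (31 / 10) := by gcongr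
      _ < r := by linarith
  -- the point over `z`
  obtain ⟨w, hw0, hwz⟩ : ∃ w : ℂ, 0 ≤ w.re ∧ G w = z := by
    obtain ⟨v, hv⟩ := Complex.cos_surjective ((z - ((5 * r / 16 : ℝ) : ℂ)) / ((3 * r / 16 : ℝ) : ℂ))
    have ha : ((3 * r / 16 : ℝ) : ℂ) ≠ 0 := by
      rw [Complex.ofReal_ne_zero]
      positivity
    have h1 : G (v * I) = z := by
      rw [hG, Complex.cosh_mul_I, hv, mul_div_cancel₀ _ ha]
      ring
    rcases le_total 0 (v * I).re with h | h
    · exact ⟨v * I, h, h1⟩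
    · refine ⟨-(v * I), ?_, ?_⟩
      · rw [neg_re]
        linarith
      · rw [← h1, hG, hG, Complex.cosh_neg]
  have hwr : w.re ≤ 9 / 10 * α := by
    by_contra hc
    push Not at hc
    rw [hα] at hc
    have h1 := (two_lt_sinh hc).trans_le (sinh_le_norm_cosh w)
    have h2 : ((3 * r / 16 : ℝ) : ℂ) * Complex.cosh w = z - ((5 * r / 16 : ℝ) : ℂ) := by
      rw [← hwz, hG]
      ring
    have h3 : 3 * r / 16 * ‖Complex.cosh w‖ ≤ r / 16 + 5 * r / 16 := by
      calc 3 * r / 16 * ‖Complex.cosh w‖ = ‖((3 * r / 16 : ℝ) : ℂ) * Complex.cosh w‖ := by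
            rw [norm_mul, Complex.norm_real, Real.norm_of_nonneg (by positivity)]
        _ = ‖z - ((5 * r / 16 : ℝ) : ℂ)‖ := by rw [h2]
        _ ≤ ‖z‖ + ‖((5 * r / 16 : ℝ) : ℂ)‖ := norm_sub_le _ _
        _ ≤ r / 16 + 5 * r / 16 := by
            rw [Complex.norm_real, Real.norm_of_nonneg (by positivity)]
            linarith
    have h4 : 3 * r / 16 * 2 < 3 * r / 16 * ‖Complex.cosh w‖ := by
      have : 0 < 3 * r / 16 := by positivity
      exact mul_lt_mul_of_pos_left h1 this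
    linarith
  have hwα : w.re ≤ α := hwr.trans (by linarith)
  have hcl : ∀ x ∈ closure (Complex.HadamardThreeLines.verticalStrip 0 α), 0 ≤ x.re ∧ x.re ≤ α := by
    intro x hx
    have h1 : IsClosed (Complex.HadamardThreeLines.verticalClosedStrip 0 α) :=
      isClosed_Icc.preimage Complex.continuous_re
    have h2 : Complex.HadamardThreeLines.verticalStrip 0 α ⊆
        Complex.HadamardThreeLines.verticalClosedStrip 0 α :=
      preimage_mono Ioo_subset_Icc_self
    exact closure_minimal h2 h1 hx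
  have key := Complex.HadamardThreeLines.norm_le_interp_of_mem_verticalClosedStrip' (f := f ∘ G)
    (z := w) (a := B) (b := A) hα0 ⟨hw0, hwα⟩
    (DifferentiableOn.diffContOnCl (hf.comp hGd.differentiableOn
      fun x hx => hGb x (hcl x hx).1 (hcl x hx).2))
    ⟨A, by
      rintro _ ⟨x, hx, rfl⟩
      exact hA _ (hGb x hx.1 hx.2)⟩
    (by
      intro x hx
      have hx' : x.re = 0 := hx
      have h1 : G x = ((5 * r / 16 + 3 * r / 16 * Real.cos x.im : ℝ) : ℂ) := by
        rw [hG]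
        have : x = x.im * I := by
          apply Complex.ext
          · simp [hx']
          · simp
        conv_lhs => rw [this]
        rw [Complex.cosh_mul_I]
        push_cast
        ring
      rw [Function.comp_apply, h1]
      refine hB _ ⟨?_, ?_⟩
      · have := Real.neg_one_le_cos x.im
        nlinarith
      · have := Real.cos_le_one x.im
        nlinarith)
    (by
      intro x hx
      have hx' : x.re = α := hx
      exact hA _ (hGb x (hx' ▸ hα0.le) hx'.le))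
  rw [Function.comp_apply, hwz, sub_zero, sub_zero] at key
  refine key.trans ?_
  obtain ⟨t, ht⟩ : ∃ t, t = w.re / α := ⟨_, rfl⟩
  have ht9 : t ≤ 9 / 10 := by
    rw [ht, div_le_iff₀ hα0]
    exact hwr
  rw [← ht]
  calc B ^ (1 - t) * A ^ t = B ^ (1 / 10 : ℝ) * (B ^ (9 / 10 - t) * A ^ t) := by
        rw [← mul_assoc, ← Real.rpow_add hB0]
        congr 2
        ring
    _ ≤ B ^ (1 / 10 : ℝ) * (A ^ (9 / 10 - t) * A ^ t) := by
        have : B ^ (9 / 10 - t) ≤ A ^ (9 / 10 - t) :=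
          Real.rpow_le_rpow hB0.le hBA (by linarith)
        have h1 := Real.rpow_nonneg hA0.le t
        have h2 := Real.rpow_nonneg hB0.le (1 / 10)
        gcongr
    _ = A ^ (9 / 10 : ℝ) * B ^ (1 / 10 : ℝ) := by
        rw [← Real.rpow_add hA0]
        ring_nf

end Pool.Agent.MP_ae5b4e_an_MERO
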