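import Mathlib
import Pool.Agent.Lib.MP_ae5b4e_an_MERO.Defs
import Pool.Agent.Lib.MP_ae5b4e_an_MERO.TwoConst
import Pool.Agent.Lib.MP_ae5b4e_an_MERO.Fourier
import Pool.Agent.Lib.SCV.Osgood

/-!
MP_ae5b4e_an, project MERO, module EX: extension of a periodic family to a higher strip.
-/

noncomputable section

namespace Pool.Agent.MP_ae5b4e_an_MERO

open Complex Set Filter Topology Metric

namespace ExtReal

/-- the point `s + i y` is in the strip -/
theorem mem_line {H y : ℝ} (hy : y ∈ Ioo 0 H) (s : ℝ) : ((s : ℂ) + y * I) ∈ St 0 H := by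
  have h : ((s : ℂ) + y * I).im = y := by simp
  rw [mem_St, h]
  exact hy

variable {F : ℂ × ℂ → ℂ} {H r : ℝ}

/-- boundedness on a horizontal line -/
theorem exists_bound (hF : AnalyticOnNhd ℂ F (St 0 H ×ˢ ball 0 r))
    (hper : ∀ p ∈ St 0 H ×ˢ ball (0:ℂ) r, F (p.1 + 1, p.2) = F p) {r₁ : ℝ} (hr₁ : r₁ < r) {y : ℝ}
    (hy : y ∈ Ioo 0 H) :
    ∃ M : ℝ, 0 < M ∧ ∀ ρ : ℂ, ‖ρ‖ ≤ r₁ → ∀ t : ℂ, t.im = y → ‖F (t, ρ)‖ ≤ M := by
  have hK : IsCompact (Icc (0:ℝ) 1 ×ˢ closedBall (0:ℂ) r₁) := isCompact_Icc.prod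
    (isCompact_closedBall 0 r₁)
  have hmap : MapsTo (fun p : ℝ × ℂ => ((p.1 : ℂ) + y * I, p.2))
      (Icc (0:ℝ) 1 ×ˢ closedBall (0:ℂ) r₁) (St 0 H ×ˢ ball 0 r) := by
    intro p hp
    exact ⟨mem_line hy p.1, closedBall_subset_ball hr₁ hp.2⟩
  have hc : ContinuousOn (fun p : ℝ × ℂ => F ((p.1 : ℂ) + y * I, p.2))
      (Icc (0:ℝ) 1 ×ˢ closedBall (0:ℂ) r₁) :=
    hF.continuousOn.comp (by fun_prop) hmap
  obtain ⟨M, hM⟩ := hK.exists_bound_of_continuousOn hc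
  refine ⟨max M 1, lt_max_of_lt_right one_pos, fun ρ hρ t ht => ?_⟩
  have hρr : ρ ∈ ball (0:ℂ) r := by
    rw [mem_ball_zero_iff]
    linarith
  have hp : Function.Periodic (fun s : ℝ => F ((s : ℂ) + y * I, ρ)) 1 := by
    intro s
    have h1 := hper ((s : ℂ) + y * I, ρ) ⟨mem_line hy s, hρr⟩
    simp only at h1 ⊢
    rw [← h1]
    push_cast
    ring_nf
  have h2 : F (t, ρ) = F (((Int.fract t.re : ℝ) : ℂ) + y * I, ρ) := by
    have h4 : t.re - ⌊t.re⌋ • (1:ℝ) = Int.fract t.re := by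
      rw [zsmul_eq_mul, mul_one]
      rfl
    have h3 : F (((t.re - ⌊t.re⌋ • (1:ℝ) : ℝ) : ℂ) + y * I, ρ) = F ((t.re : ℂ) + y * I, ρ) :=
      hp.sub_zsmul_eq ⌊t.re⌋ (x := t.re)
    rw [h4] at h3
    rw [h3]
    congr 2
    apply Complex.ext <;> simp [ht]
  rw [h2]
  refine (hM (Int.fract t.re, ρ) ⟨⟨Int.fract_nonneg _, (Int.fract_lt_one _).le⟩, ?_⟩).trans
    (le_max_left _ _)
  rw [mem_closedBall_zero_iff]
  exact hρ

/-- the Fourier coefficients are holomorphic in the parameter -/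
theorem fo_diff (hF : AnalyticOnNhd ℂ F (St 0 H ×ˢ ball 0 r)) {y : ℝ} (hy : y ∈ Ioo 0 H) (m : ℤ) :
    DifferentiableOn ℂ (fun ρ => fo (fun t => F (t, ρ)) y m) (ball 0 r) := by
  intro ρ₀ hρ₀
  obtain ⟨δ, hδ, hδ'⟩ := nhds_basis_closedBall.mem_iff.1 (isOpen_ball.mem_nhds hρ₀)
  have hop : IsOpen (St 0 H ×ˢ ball (0:ℂ) r) := (isOpen_St 0 H).prod isOpen_ball
  let e : ℝ → ℂ := fun s => exp (-(2 * Real.pi * I * m * (s + y * I)))
  have he : Continuous e := by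
    simp only [e]
    fun_prop
  have hmem : ∀ s : ℝ, ∀ ρ ∈ closedBall ρ₀ δ, ((s : ℂ) + y * I, ρ) ∈ St 0 H ×ˢ ball (0:ℂ) r :=
    fun s ρ hρ => ⟨mem_line hy s, hδ' hρ⟩
  have hcF : ∀ ρ ∈ closedBall ρ₀ δ, Continuous (fun s : ℝ => F ((s : ℂ) + y * I, ρ) * e s) := by
    intro ρ hρ
    refine Continuous.mul ?_ he
    exact hF.continuousOn.comp_continuous (by fun_prop) fun s => hmem s ρ hρ
  have hcD : ContinuousOn (fun p : ℝ × ℂ => fderiv ℂ F ((p.1 : ℂ) + y * I, p.2) (0, 1) * e p.1)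
      (univ ×ˢ closedBall ρ₀ δ) := by
    refine ContinuousOn.mul ?_ (by fun_prop)
    have h1 : ContinuousOn (fun p : ℝ × ℂ => fderiv ℂ F ((p.1 : ℂ) + y * I, p.2))
        (univ ×ˢ closedBall ρ₀ δ) :=
      hF.fderiv.continuousOn.comp (by fun_prop) fun p hp => hmem p.1 p.2 hp.2
    exact h1.clm_apply continuousOn_const
  have hcD' : ContinuousOn (fun p : ℝ × ℂ => fderiv ℂ F ((p.1 : ℂ) + y * I, p.2) (0, 1) * e p.1)
      (Icc (0:ℝ) 1 ×ˢ closedBall ρ₀ δ) := hcD.mono (prod_mono (subset_univ _) subset_rfl)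
  obtain ⟨B, hB⟩ := (isCompact_Icc.prod (isCompact_closedBall ρ₀ δ)).exists_bound_of_continuousOn
    hcD'
  have key := intervalIntegral.hasDerivAt_integral_of_dominated_loc_of_deriv_le
    (μ := MeasureTheory.volume) (a := (0:ℝ)) (b := 1) (x₀ := ρ₀)
    (F := fun ρ s => F ((s : ℂ) + y * I, ρ) * e s)
    (F' := fun ρ s => fderiv ℂ F ((s : ℂ) + y * I, ρ) (0, 1) * e s) (bound := fun _ => B)
    (closedBall_mem_nhds ρ₀ hδ)
    (by
      filter_upwards [closedBall_mem_nhds ρ₀ hδ] with ρ hρ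
      exact (hcF ρ hρ).aestronglyMeasurable)
    ((hcF ρ₀ (mem_closedBall_self hδ.le)).intervalIntegrable _ _)
    (by
      have h2 : Continuous (fun s : ℝ => fderiv ℂ F ((s : ℂ) + y * I, ρ₀) (0, 1) * e s) :=
        hcD.comp_continuous (f := fun s : ℝ => (s, ρ₀)) (by fun_prop)
          fun s => ⟨mem_univ _, mem_closedBall_self hδ.le⟩
      exact h2.aestronglyMeasurable)
    (by
      refine Eventually.of_forall fun s hs ρ hρ => ?_
      rw [uIoc_of_le zero_le_one] at hs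
      exact hB (s, ρ) ⟨⟨hs.1.le, hs.2⟩, hρ⟩)
    (by simp)
    (by
      refine Eventually.of_forall fun s hs ρ hρ => ?_
      have h3 := (hF _ (hmem s ρ hρ)).differentiableAt.hasFDerivAt
      have h4 : HasDerivAt (fun ρ : ℂ => ((s : ℂ) + y * I, ρ)) (0, 1) ρ :=
        (hasDerivAt_const ρ _).prodMk (hasDerivAt_id ρ)
      exact (h3.comp_hasDerivAt ρ h4).mul_const (e s))
  exact key.2.differentiableAt.differentiableWithinAt

/-- periodicity continues -/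
theorem per_ext {f g : ℂ → ℂ} {d : ℝ} (hH : 0 < H) (hd : 0 < d)
    (hf : AnalyticOnNhd ℂ f (St 0 (H + d))) (hg : ∀ t ∈ St 0 H, g (t + 1) = g t)
    (hfg : ∀ t ∈ St 0 H, f t = g t) : ∀ t ∈ St 0 (H + d), f (t + 1) = f t := by
  have hs : ∀ {a b : ℝ} {t : ℂ}, t ∈ St a b → t + 1 ∈ St a b := by
    intro a b t ht
    rw [mem_St] at ht ⊢
    simpa using ht
  have h1 : AnalyticOnNhd ℂ (fun t => f (t + 1)) (St 0 (H + d)) := by
    intro t ht
    exact AnalyticAt.fun_comp (g := f) (f := fun t : ℂ => t + 1) (hf _ (hs ht)) (by fun_prop)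
  have hpt : ((H / 2 : ℝ) : ℂ) * I ∈ St 0 H := by
    have h0 : (((H / 2 : ℝ) : ℂ) * I).im = H / 2 := by simp
    rw [mem_St, h0]
    constructor <;> linarith
  have hpt' : ((H / 2 : ℝ) : ℂ) * I ∈ St 0 (H + d) := ⟨hpt.1, by linarith [hpt.2]⟩
  have h2 : (fun t => f (t + 1)) =ᶠ[𝓝 (((H / 2 : ℝ) : ℂ) * I)] f := by
    filter_upwards [(isOpen_St 0 H).mem_nhds hpt] with t ht
    rw [hfg t ht, hfg _ (hs ht), hg t ht]
  exact fun t ht => h1.eqOn_of_preconnected_of_eventuallyEq hf (convex_St 0 (H + d)).isPreconnected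
    hpt' h2 ht

/-- the bound of the coefficients with negative index -/
theorem neg_bound {d : ℝ} (hH : 0 < H) (hd : 0 < d) (hr : 0 < r)
    (hF : AnalyticOnNhd ℂ F (St 0 H ×ˢ ball 0 r))
    (hper : ∀ p ∈ St 0 H ×ˢ ball (0:ℂ) r, F (p.1 + 1, p.2) = F p)
    (hJ : ∀ a b : ℝ, 0 < a → b < r → ∃ M : ℝ, ∀ ρ : ℝ, ρ ∈ Icc a b → ∃ f : ℂ → ℂ,
      AnalyticOnNhd ℂ f (St 0 (H + d)) ∧ (∀ t ∈ St 0 H, f t = F (t, ρ)) ∧
      ∀ t : ℂ, t.im = H + d / 2 → ‖f t‖ ≤ M) :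
    ∃ C s : ℝ, 0 < C ∧ H + d / 40 < s ∧ ∀ (n : ℕ) (ρ : ℂ), ‖ρ‖ ≤ r / 32 →
      ‖fo (fun t => F (t, ρ)) (H / 2) (-n)‖ ≤ C * Real.exp (-(2 * Real.pi * n * s)) := by
  set τ : ℝ := min (d / 100) (H / 2) with hτ
  have hτ0 : 0 < τ := lt_min (by linarith) (by linarith)
  have hτd : τ ≤ d / 100 := min_le_left _ _
  have hτH : τ ≤ H / 2 := min_le_right _ _
  have hy2 : H - τ ∈ Ioo 0 H := ⟨by linarith, by linarith⟩
  have hyh : H / 2 ∈ Ioo 0 H := ⟨by linarith, by linarith⟩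
  obtain ⟨M₁, hM₁, hM₁'⟩ := exists_bound hF hper (r₁ := r / 2) (by linarith) hy2
  obtain ⟨M, hM⟩ := hJ (r / 2 / 8) (r / 2 / 2) (by linarith) (by linarith)
  set C : ℝ := max M₁ M with hC
  have hC0 : 0 < C := lt_max_of_lt_left hM₁
  have hd1 : ∀ ρ ∈ ball (0:ℂ) r, DifferentiableOn ℂ (fun t => F (t, ρ)) (St 0 H) := by
    intro ρ hρ t ht
    have h1 := (hF (t, ρ) ⟨ht, hρ⟩).differentiableAt
    exact (DifferentiableAt.comp t (g := F) (f := fun t : ℂ => (t, ρ)) h1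
      (by fun_prop)).differentiableWithinAt
  have hp1 : ∀ ρ ∈ ball (0:ℂ) r, ∀ t ∈ St 0 H, F (t + 1, ρ) = F (t, ρ) :=
    fun ρ hρ t ht => hper (t, ρ) ⟨ht, hρ⟩
  refine ⟨C, 9 / 10 * (H - τ) + 1 / 10 * (H + d / 2), hC0, by linarith, fun n ρ hρ => ?_⟩
  have hcast : ((-(n : ℤ) : ℤ) : ℝ) = -(n : ℝ) := by push_cast; ring
  have hsub : ball (0:ℂ) (r / 2) ⊆ ball 0 r := ball_subset_ball (by linarith)
  have hA : ∀ z ∈ ball (0:ℂ) (r / 2), ‖fo (fun t => F (t, z)) (H / 2) (-n)‖ ≤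
      C * Real.exp (-(2 * Real.pi * n * (H - τ))) := by
    intro z hz
    have h1 := fo_indep (hd1 z (hsub hz)) (hp1 z (hsub hz)) hyh hy2 (-n)
    rw [h1]
    rw [mem_ball_zero_iff] at hz
    have h2 := norm_fo_le (f := fun t => F (t, z)) (M := M₁) (hM₁' z hz.le) (-(n : ℤ))
    refine h2.trans ?_
    have h3 : 2 * Real.pi * ((-(n : ℤ) : ℤ) : ℝ) * (H - τ) = -(2 * Real.pi * n * (H - τ)) := by
      rw [hcast]
      ring
    rw [h3]
    exact mul_le_mul_of_nonneg_right (le_max_left _ _) (Real.exp_pos _).le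
  have hB : ∀ x : ℝ, x ∈ Icc (r / 2 / 8) (r / 2 / 2) →
      ‖fo (fun t => F (t, (x : ℂ))) (H / 2) (-n)‖ ≤
        C * Real.exp (-(2 * Real.pi * n * (H + d / 2))) := by
    intro x hx
    obtain ⟨f, hf, hfF, hfM⟩ := hM x hx
    have hxr : (x : ℂ) ∈ ball (0:ℂ) r := by
      rw [mem_ball_zero_iff, Complex.norm_real, Real.norm_eq_abs, abs_of_pos (by linarith [hx.1])]
      linarith [hx.2]
    have h1 : fo (fun t => F (t, (x : ℂ))) (H / 2) (-n) = fo f (H / 2) (-n) := by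
      unfold fo
      congr 1
      funext s
      rw [hfF _ (mem_line hyh s)]
    have h2 := fo_indep hf.differentiableOn
      (per_ext hH hd hf (g := fun t => F (t, (x : ℂ))) (hp1 _ hxr) hfF)
      (y := H / 2) (y' := H + d / 2) ⟨by linarith, by linarith⟩ ⟨by linarith, by linarith⟩ (-n)
    rw [h1, h2]
    refine (norm_fo_le hfM (-(n : ℤ))).trans ?_
    have h3 : 2 * Real.pi * ((-(n : ℤ) : ℤ) : ℝ) * (H + d / 2) =
        -(2 * Real.pi * n * (H + d / 2)) := by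
      rw [hcast]
      ring
    rw [h3]
    exact mul_le_mul_of_nonneg_right (le_max_right _ _) (Real.exp_pos _).le
  have hn0 : 0 ≤ 2 * Real.pi * (n : ℝ) := by positivity
  have key := two_constants (f := fun ρ => fo (fun t => F (t, ρ)) (H / 2) (-n)) (r := r / 2)
    (A := C * Real.exp (-(2 * Real.pi * n * (H - τ))))
    (B := C * Real.exp (-(2 * Real.pi * n * (H + d / 2)))) (by linarith)
    ((fo_diff hF hyh (-n)).mono hsub) hA hB (by positivity)
    (by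
      apply mul_le_mul_of_nonneg_left _ hC0.le
      rw [Real.exp_le_exp]
      nlinarith) (z := ρ) (by linarith)
  refine key.trans (le_of_eq ?_)
  rw [Real.mul_rpow hC0.le (Real.exp_pos _).le, Real.mul_rpow hC0.le (Real.exp_pos _).le,
    ← Real.exp_mul, ← Real.exp_mul, mul_mul_mul_comm, ← Real.rpow_add hC0, ← Real.exp_add]
  have e1 : (9 / 10 : ℝ) + 1 / 10 = 1 := by norm_num
  rw [e1, Real.rpow_one]
  congr 2
  ring

/-- the summation bound -/
theorem summable_exp (K a : ℝ) (ha : 0 < a) :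
    Summable fun m : ℤ => K * Real.exp (-(a * |(m : ℝ)|)) := by
  apply Summable.mul_left
  have h1 : Summable fun n : ℕ => Real.exp (-(a * (n : ℝ))) := by
    have h2 : ∀ n : ℕ, Real.exp (-(a * (n : ℝ))) = Real.exp (-a) ^ n := by
      intro n
      rw [← Real.exp_nat_mul]
      congr 1
      ring
    simp only [h2]
    apply summable_geometric_of_lt_one (Real.exp_pos _).le
    rw [Real.exp_lt_one_iff]
    linarith
  apply Summable.of_nat_of_neg
  · simpa using h1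
  · simpa using h1

end ExtReal

open ExtReal in
theorem ext_of_real {F : ℂ × ℂ → ℂ} {H d r : ℝ} (hH : 0 < H) (hd : 0 < d) (hr : 0 < r)
    (hF : AnalyticOnNhd ℂ F (St 0 H ×ˢ ball 0 r))
    (hper : ∀ p ∈ St 0 H ×ˢ ball (0:ℂ) r, F (p.1 + 1, p.2) = F p)
    (hJ : ∀ a b : ℝ, 0 < a → b < r → ∃ M : ℝ, ∀ ρ : ℝ, ρ ∈ Icc a b → ∃ f : ℂ → ℂ,
      AnalyticOnNhd ℂ f (St 0 (H + d)) ∧ (∀ t ∈ St 0 H, f t = F (t, ρ)) ∧
      ∀ t : ℂ, t.im = H + d / 2 → ‖f t‖ ≤ M) :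
    ∃ r', 0 < r' ∧ r' ≤ r ∧ ∃ G : ℂ × ℂ → ℂ, AnalyticOnNhd ℂ G (St 0 (H + d / 40) ×ˢ ball 0 r') ∧
      EqOn G F (St 0 H ×ˢ ball 0 r') := by
  obtain ⟨C, s, hC, hs, hneg⟩ := neg_bound hH hd hr hF hper hJ
  have hyh : H / 2 ∈ Ioo 0 H := ⟨by linarith, by linarith⟩
  have hsub : ball (0:ℂ) (r / 32) ⊆ ball 0 r := ball_subset_ball (by linarith)
  have hd1 : ∀ ρ ∈ ball (0:ℂ) r, DifferentiableOn ℂ (fun t => F (t, ρ)) (St 0 H) := by
    intro ρ hρ t ht
    have h1 := (hF (t, ρ) ⟨ht, hρ⟩).differentiableAt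
    exact (DifferentiableAt.comp t (g := F) (f := fun t : ℂ => (t, ρ)) h1
      (by fun_prop)).differentiableWithinAt
  have hp1 : ∀ ρ ∈ ball (0:ℂ) r, ∀ t ∈ St 0 H, F (t + 1, ρ) = F (t, ρ) :=
    fun ρ hρ t ht => hper (t, ρ) ⟨ht, hρ⟩
  let c : ℤ → ℂ → ℂ := fun m ρ => fo (fun t => F (t, ρ)) (H / 2) m
  let term : ℤ → ℂ × ℂ → ℂ := fun m p => c m p.2 * exp (2 * Real.pi * I * m * p.1)
  have hop : IsOpen (St 0 (H + d / 40) ×ˢ ball (0:ℂ) (r / 32)) :=
    (isOpen_St _ _).prod isOpen_ball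
  have hterm : ∀ m, AnalyticOnNhd ℂ (term m) (St 0 (H + d / 40) ×ˢ ball (0:ℂ) (r / 32)) := by
    intro m p hp
    have h1 : AnalyticAt ℂ (c m) p.2 :=
      ((fo_diff hF hyh m).mono hsub).analyticAt (isOpen_ball.mem_nhds hp.2)
    have h2 : AnalyticAt ℂ (fun p : ℂ × ℂ => c m p.2) p :=
      AnalyticAt.fun_comp (g := c m) (f := fun p : ℂ × ℂ => p.2) h1 analyticAt_snd
    have h3 : AnalyticAt ℂ (fun p : ℂ × ℂ => exp (2 * Real.pi * I * m * p.1)) p :=
      (analyticAt_const.mul analyticAt_fst).cexp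
    exact h2.mul h3
  -- bounds on substrips
  have hbd : ∀ η : ℝ, 0 < η → η < H → ∃ K a : ℝ, 0 < a ∧ ∀ (m : ℤ) (p : ℂ × ℂ),
      p ∈ St 0 (H + d / 40) ×ˢ ball (0:ℂ) (r / 32) → η < p.1.im →
      ‖term m p‖ ≤ K * Real.exp (-(a * |(m : ℝ)|)) := by
    intro η hη hηH
    have hy : η / 2 ∈ Ioo 0 H := ⟨by linarith, by linarith⟩
    obtain ⟨M, hM, hM'⟩ := exists_bound hF hper (r₁ := r / 32) (by linarith) hy
    have hpi := Real.pi_pos
    refine ⟨max M C, 2 * Real.pi * min (η / 2) (s - (H + d / 40)), ?_, fun m p hp hpη => ?_⟩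
    · have : 0 < min (η / 2) (s - (H + d / 40)) := lt_min (by linarith) (by linarith)
      positivity
    have hρ : p.2 ∈ ball (0:ℂ) r := hsub hp.2
    have hρn : ‖p.2‖ ≤ r / 32 := (mem_ball_zero_iff.1 hp.2).le
    have hexp : ‖exp (2 * Real.pi * I * m * p.1)‖ = Real.exp (-(2 * Real.pi * m * p.1.im)) := by
      rw [Complex.norm_exp]
      congr 1
      simp
    have hnorm : ‖term m p‖ = ‖c m p.2‖ * Real.exp (-(2 * Real.pi * m * p.1.im)) := by
      simp only [term]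
      rw [norm_mul, hexp]
    rw [hnorm]
    rcases le_or_gt 0 m with hm | hm
    · have hm' : (0:ℝ) ≤ m := by exact_mod_cast hm
      have h1 : ‖c m p.2‖ ≤ M * Real.exp (2 * Real.pi * m * (η / 2)) := by
        simp only [c]
        rw [fo_indep (hd1 p.2 hρ) (hp1 p.2 hρ) hyh hy m]
        exact norm_fo_le (hM' p.2 hρn) m
      calc ‖c m p.2‖ * Real.exp (-(2 * Real.pi * m * p.1.im))
          ≤ (M * Real.exp (2 * Real.pi * m * (η / 2))) *
            Real.exp (-(2 * Real.pi * m * p.1.im)) :=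
          mul_le_mul_of_nonneg_right h1 (Real.exp_pos _).le
        _ = M * Real.exp (2 * Real.pi * m * (η / 2) - 2 * Real.pi * m * p.1.im) := by
          rw [mul_assoc, ← Real.exp_add, sub_eq_add_neg]
        _ ≤ max M C * Real.exp (-(2 * Real.pi * min (η / 2) (s - (H + d / 40)) * |(m : ℝ)|)) := by
          apply mul_le_mul (le_max_left _ _) _ (Real.exp_pos _).le (hM.le.trans (le_max_left _ _))
          rw [Real.exp_le_exp, abs_of_nonneg hm']
          have h2 : min (η / 2) (s - (H + d / 40)) ≤ p.1.im - η / 2 :=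
            (min_le_left _ _).trans (by linarith)
          have h3 : 0 ≤ 2 * Real.pi * (m : ℝ) := by positivity
          nlinarith
    · obtain ⟨n, rfl⟩ : ∃ n : ℕ, m = -(n : ℤ) := ⟨m.natAbs, by omega⟩
      have hcast : ((-(n : ℤ) : ℤ) : ℝ) = -(n : ℝ) := by push_cast; ring
      have h1 : ‖c (-(n : ℤ)) p.2‖ ≤ C * Real.exp (-(2 * Real.pi * n * s)) := hneg n p.2 hρn
      have hpim := hp.1.2
      calc ‖c (-(n : ℤ)) p.2‖ * Real.exp (-(2 * Real.pi * ((-(n : ℤ) : ℤ) : ℝ) * p.1.im))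
          ≤ (C * Real.exp (-(2 * Real.pi * n * s))) *
            Real.exp (-(2 * Real.pi * ((-(n : ℤ) : ℤ) : ℝ) * p.1.im)) :=
          mul_le_mul_of_nonneg_right h1 (Real.exp_pos _).le
        _ = C * Real.exp (-(2 * Real.pi * n * s) -
            2 * Real.pi * ((-(n : ℤ) : ℤ) : ℝ) * p.1.im) := by
          rw [mul_assoc, ← Real.exp_add, sub_eq_add_neg]
        _ ≤ max M C * Real.exp (-(2 * Real.pi * min (η / 2) (s - (H + d / 40)) *
            |((-(n : ℤ) : ℤ) : ℝ)|)) := by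
          apply mul_le_mul (le_max_right _ _) _ (Real.exp_pos _).le (hM.le.trans (le_max_left _ _))
          rw [Real.exp_le_exp, hcast, abs_neg, Nat.abs_cast]
          have h2 : min (η / 2) (s - (H + d / 40)) ≤ s - p.1.im :=
            (min_le_right _ _).trans (by linarith)
          have h3 : 0 ≤ 2 * Real.pi * (n : ℝ) := by positivity
          nlinarith
  have hlu : TendstoLocallyUniformlyOn (fun (S : Finset ℤ) p => ∑ m ∈ S, term m p)
      (fun p => ∑' m, term m p) atTop (St 0 (H + d / 40) ×ˢ ball (0:ℂ) (r / 32)) := by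
    intro u hu p hp
    set η : ℝ := min (p.1.im / 2) (H / 2) with hη
    have hη0 : 0 < η := lt_min (by linarith [hp.1.1]) (by linarith)
    have hηp : η < p.1.im := (min_le_left _ _).trans_lt (by linarith [hp.1.1])
    have hηH : η < H := (min_le_right _ _).trans_lt (by linarith)
    obtain ⟨K, a, ha, hK⟩ := hbd η hη0 hηH
    have hun := tendstoUniformlyOn_tsum (summable_exp K a ha) (f := term)
      (s := (St 0 (H + d / 40) ×ˢ ball (0:ℂ) (r / 32)) ∩ {p | η < p.1.im})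
      (fun m p hp => hK m p hp.1 hp.2)
    refine ⟨(St 0 (H + d / 40) ×ˢ ball (0:ℂ) (r / 32)) ∩ {p | η < p.1.im}, ?_, hun u hu⟩
    apply inter_mem_nhdsWithin
    have hop2 : IsOpen {p : ℂ × ℂ | η < p.1.im} :=
      isOpen_lt continuous_const (continuous_im.comp continuous_fst)
    exact hop2.mem_nhds hηp
  have hG := SCV.analyticOnNhd_of_tendstoLocallyUniformlyOn _ hop _ _
    (fun S : Finset ℤ => Finset.analyticOnNhd_fun_sum S fun m _ => hterm m) hlu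
  refine ⟨r / 32, by linarith, by linarith, fun p => ∑' m, term m p, hG, fun p hp => ?_⟩
  have h5 := hasSum_fo (hd1 p.2 (hsub hp.2)) (hp1 p.2 (hsub hp.2)) hp.1 hyh
  exact h5.tsum_eq

end Pool.Agent.MP_ae5b4e_an_MERO
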