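import Mathlib
import Pool.Agent.Lib.MP_ae5b4e_an_MERO.Defs

/-!
# MP_ae5b4e_an, project MERO, module CW: Casorati-Weierstrass for meromorphic functions
-/

set_option autoImplicit false

noncomputable section

namespace Pool.Agent.MP_ae5b4e_an_MERO

open Complex Set Filter Topology Metric

namespace Casorati

/-- the complement of a countable set accumulates everywhere -/
theorem freq_notMem {C : Set ℂ} (hC : C.Countable) (t : ℂ) : ∃ᶠ s in 𝓝[≠] t, s ∉ C := by
  have h1 : Dense (C ∪ {t})ᶜ := (hC.union (countable_singleton t)).dense_compl ℝ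
  have h2 : ∃ᶠ s in 𝓝 t, s ∈ (C ∪ {t})ᶜ := mem_closure_iff_frequently.1 (h1 t)
  rw [frequently_nhdsWithin_iff]
  refine h2.mono fun s hs => ?_
  rw [mem_compl_iff, mem_union, not_or] at hs
  exact ⟨hs.1, hs.2⟩

end Casorati

/-- **Casorati-Weierstrass** for meromorphic functions. -/
theorem casorati {f : ℂ → ℂ} {t₀ : ℂ} (hf : ∀ᶠ t in 𝓝[≠] t₀, MeromorphicAt f t)
    (hn : ¬ ∃ g : ℂ → ℂ, MeromorphicAt g t₀ ∧ EqC f g t₀) {O : Set ℂ} (hO : IsOpen O) (hne : O.Nonempty) {Z : Set ℂ}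
    (hZ : Z.Countable) : ∃ᶠ t in 𝓝[≠] t₀, f t ∈ O ∧ t ∉ Z := by
  by_contra hcon
  rw [not_frequently] at hcon
  apply hn
  -- a punctured disc
  obtain ⟨r, hr, hD⟩ : ∃ r > 0, ∀ t ∈ ball t₀ r \ {t₀}, MeromorphicAt f t ∧ (f t ∈ O → t ∈ Z) := by
    have h1 := hf.and hcon
    rw [eventually_nhdsWithin_iff, eventually_nhds_iff_ball] at h1
    obtain ⟨r, hr, h1⟩ := h1
    refine ⟨r, hr, fun t ht => ?_⟩
    obtain ⟨h2, h3⟩ := h1 t ht.1 ht.2
    refine ⟨h2, fun h4 => ?_⟩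
    by_contra h5
    exact h3 ⟨h4, h5⟩
  set D : Set ℂ := ball t₀ r \ {t₀} with hDdef
  have hDo : IsOpen D := isOpen_ball.sdiff isClosed_singleton
  have hmer : MeromorphicOn f D := fun t ht => (hD t ht).1
  set N : Set ℂ := {z | AnalyticAt ℂ f z}ᶜ ∩ D with hN
  have hNc : N.Countable := hmer.countable_compl_analyticAt_inter
  -- the values at analytic points avoid `O`
  have hval : ∀ t ∈ D, t ∉ N → f t ∉ O := by
    intro t ht htN hfO
    have h1 : AnalyticAt ℂ f t := by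
      by_contra h
      exact htN ⟨h, ht⟩
    have h2 : ∀ᶠ s in 𝓝 t, f s ∈ O := h1.continuousAt (hO.mem_nhds hfO)
    have h3 : ∀ᶠ s in 𝓝[≠] t, s ∈ Z := by
      filter_upwards [nhdsWithin_le_nhds h2, nhdsWithin_le_nhds (hDo.mem_nhds ht)] with s hs hsD
      exact (hD s hsD).2 hs
    exact (Casorati.freq_notMem hZ t) (h3.mono fun s hs h => h hs)
  obtain ⟨w, hw⟩ := hne
  obtain ⟨ε, hε, hball⟩ := Metric.isOpen_iff.1 hO w hw
  set g : ℂ → ℂ := fun t => (f t - w)⁻¹ with hg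
  have hgb : ∀ t ∈ D, t ∉ N → ‖g t‖ ≤ ε⁻¹ := by
    intro t ht htN
    have h1 := hval t ht htN
    have h2 : ε ≤ ‖f t - w‖ := by
      by_contra h
      exact h1 (hball (by rw [mem_ball, dist_eq_norm]; exact not_le.1 h))
    rw [hg]
    simp only [norm_inv]
    exact inv_anti₀ hε h2
  have hgm : MeromorphicOn g D := fun t ht => ((hmer t ht).sub (MeromorphicAt.const w t)).inv
  set g' : ℂ → ℂ := toMeromorphicNFOn g D with hg'
  have hg'm : MeromorphicNFOn g' D := meromorphicNFOn_toMeromorphicNFOn g D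
  have hgg' : ∀ t ∈ D, g =ᶠ[𝓝[≠] t] g' := fun t ht => (hgm.toMeromorphicNFOn_eq_self_on_nhdsNE ht).symm
  -- `g'` is analytic
  have hg'a : ∀ t ∈ D, AnalyticAt ℂ g' t := by
    intro t ht
    rw [← (hg'm ht).meromorphicOrderAt_nonneg_iff_analyticAt]
    by_contra h
    have h1 := tendsto_cobounded_of_meromorphicOrderAt_neg (not_le.1 h)
    rw [← tendsto_norm_atTop_iff_cobounded] at h1
    have h2 := h1.eventually (eventually_gt_atTop ε⁻¹)
    refine (Casorati.freq_notMem hNc t) ?_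
    filter_upwards [h2, hgg' t ht, nhdsWithin_le_nhds (hDo.mem_nhds ht)] with s hs hs' hsD hsN
    have h3 := hgb s hsD hsN
    rw [hs'] at h3
    exact absurd hs (not_lt.2 h3)
  -- `g'` is bounded
  have hg'b : ∀ t ∈ D, ‖g' t‖ ≤ ε⁻¹ := by
    intro t ht
    by_contra h
    have h1 : ∀ᶠ s in 𝓝 t, ε⁻¹ < ‖g' s‖ :=
      (hg'a t ht).continuousAt.norm.eventually_const_lt (not_le.1 h)
    refine (Casorati.freq_notMem hNc t) ?_
    filter_upwards [nhdsWithin_le_nhds h1, hgg' t ht, nhdsWithin_le_nhds (hDo.mem_nhds ht)] with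
      s hs hs' hsD hsN
    have h3 := hgb s hsD hsN
    rw [hs'] at h3
    exact absurd hs (not_lt.2 h3)
  -- removable singularity
  have hdiff : DifferentiableOn ℂ (Function.update g' t₀ (limUnder (𝓝[≠] t₀) g')) (ball t₀ r) := by
    apply Complex.differentiableOn_update_limUnder_of_bddAbove (ball_mem_nhds t₀ hr)
    · intro t ht
      exact (hg'a t ht).differentiableAt.differentiableWithinAt
    · refine ⟨ε⁻¹, ?_⟩
      rintro _ ⟨t, ht, rfl⟩
      exact hg'b t ht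
  set g'' : ℂ → ℂ := Function.update g' t₀ (limUnder (𝓝[≠] t₀) g') with hg''
  have hg''a : AnalyticAt ℂ g'' t₀ := hdiff.analyticAt (ball_mem_nhds t₀ hr)
  refine ⟨fun t => w + (g'' t)⁻¹, (MeromorphicAt.const w t₀).add hg''a.meromorphicAt.inv,
    {z | AnalyticAt ℂ g z}ᶜ ∩ D, hgm.countable_compl_analyticAt_inter, ?_⟩
  rw [eventually_nhdsWithin_iff]
  filter_upwards [ball_mem_nhds t₀ hr] with t ht ht0 htN
  have htD : t ∈ D := ⟨ht, ht0⟩
  have h1 : AnalyticAt ℂ g t := by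
    by_contra h
    exact htN ⟨h, htD⟩
  have h2 : g' t = g t := by
    rw [hg', toMeromorphicNFOn_eq_toMeromorphicNFAt hgm htD,
      toMeromorphicNFAt_eq_self.2 h1.meromorphicNFAt]
  have h3 : g'' t = g' t := Function.update_of_ne ht0 _ _
  rw [h3, h2, hg]
  simp only [inv_inv]
  ring

end Pool.Agent.MP_ae5b4e_an_MERO
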