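import Mathlib
import Pool.Agent.Lib.MP_ae5b4e_an_MERO.Defs
import Pool.Agent.Lib.MP_ae5b4e_an_MERO.Casorati
import Pool.Agent.Lib.MP_ae5b4e_an_MERO.Countable
import Pool.Agent.Lib.MP_ae5b4e_an_MERO.LemmaA

/-!
# MP_ae5b4e_an, project MERO: Lemma C
-/

noncomputable section

namespace Pool.Agent.MP_ae5b4e_an_MERO

open Complex Set Filter Topology Metric

namespace LC

/-! ### countable sets -/

theorem freq_notMem (t : ℂ) {Z : Set ℂ} (hZ : Z.Countable) : ∃ᶠ s in 𝓝[≠] t, s ∉ Z := by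
  have h : Dense (Z ∪ {t})ᶜ := (hZ.union (countable_singleton t)).dense_compl ℂ
  have h1 := mem_closure_iff_frequently.1 (h t)
  rw [frequently_nhdsWithin_iff]
  refine h1.mono fun s hs => ?_
  rw [mem_compl_iff, mem_union, not_or] at hs
  exact ⟨hs.1, hs.2⟩

theorem exists_notMem {U : Set ℂ} (hU : IsOpen U) (hne : U.Nonempty) {Z : Set ℂ}
    (hZ : Z.Countable) : ∃ t ∈ U, t ∉ Z := by
  obtain ⟨t, h1, h2⟩ := (hZ.dense_compl ℂ).inter_open_nonempty U hU hne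
  exact ⟨t, h1, h2⟩

theorem eq_of_countable {f g : ℂ → ℂ} {t : ℂ} (hf : ContinuousAt f t) (hg : ContinuousAt g t)
    {Z : Set ℂ} (hZ : Z.Countable) (h : ∀ᶠ s in 𝓝 t, s ∉ Z → f s = g s) : f t = g t := by
  refine tendsto_nhds_unique_of_frequently_eq (hf.tendsto.mono_left nhdsWithin_le_nhds)
    (hg.tendsto.mono_left nhdsWithin_le_nhds) (l := 𝓝[≠] t) ?_
  exact ((freq_notMem t hZ).and_eventually (h.filter_mono nhdsWithin_le_nhds)).mono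
    fun s hs => hs.2 hs.1

theorem nonconst {V₀ : Set ℂ} (hV₀ : IsOpen V₀) (hV₀c : Convex ℝ V₀) {y : ℂ → ℂ}
    (hy : AnalyticOnNhd ℂ y V₀) (hnc : ∀ c, ∃ t ∈ V₀, y t ≠ c) {Y : ℂ → ℂ} {Z₀ : Set ℂ}
    (hZ₀ : Z₀.Countable) (hYy : ∀ t ∈ V₀, t ∉ Z₀ → Y t = y t) {t : ℂ} (ht : t ∈ V₀) (c : ℂ) :
    ¬ ∀ᶠ s in 𝓝[≠] t, Y s = c := by
  intro h
  have h1 : ∃ᶠ s in 𝓝[≠] t, y s = c := by
    have h2 : ∀ᶠ s in 𝓝[≠] t, s ∈ V₀ := (hV₀.mem_nhds ht |> mem_nhdsWithin_of_mem_nhds)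
    refine ((freq_notMem t hZ₀).and_eventually (h.and h2)).mono ?_
    rintro s ⟨hs, hs1, hs2⟩
    rw [← hYy s hs2 hs, hs1]
  have h3 := hy.eqOn_of_preconnected_of_frequently_eq (g := fun _ => c) analyticOnNhd_const
    hV₀c.isPreconnected ht h1
  obtain ⟨s, hs, hne⟩ := hnc c
  exact hne (h3 hs)

theorem preconn {V D : Set ℂ} (hV : IsOpen V) (hVc : Convex ℝ V) (hDV : D ⊆ V)
    (hDc : (V \ D).Countable) : IsPreconnected D := by
  have h := isPreconnected_diff hV hVc hDc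
  rwa [sdiff_sdiff_cancel_left hDV] at h

theorem zeros_countable {D : Set ℂ} (hDo : IsOpen D) (hD : IsPreconnected D) {q : ℂ → ℂ}
    (hq : AnalyticOnNhd ℂ q D) (hne : ∃ t ∈ D, q t ≠ 0) : {t ∈ D | q t = 0}.Countable := by
  by_cases h : ∃ t ∈ D, ∀ c, ¬ ∀ᶠ s in 𝓝[≠] t, q s = c
  · exact countable_preimage hDo hD hq.meromorphicOn h (countable_singleton 0)
  · push Not at h
    obtain ⟨t₀, ht₀, hne⟩ := hne
    obtain ⟨c, hc⟩ := h t₀ ht₀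
    have key : ∀ t ∈ D, q t = c := by
      intro t ht
      have h1 := mero_ident hDo hD hq.meromorphicOn (MeromorphicOn.const c) ht₀
        (g := fun _ => c) hc.frequently ht
      exact ((hq t ht).continuousAt.eventuallyEq_nhds_iff_eventuallyEq_nhdsNE
        continuousAt_const).1 h1 |>.eq_of_nhds
    have h2 : {t ∈ D | q t = 0} = ∅ := by
      ext t
      simp only [mem_ofPred_eq, mem_empty_iff_false, iff_false, not_and]
      intro ht h3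
      rw [key t ht, ← key t₀ ht₀] at h3
      exact hne h3
    rw [h2]
    exact countable_empty

theorem shrink {A V D : Set ℂ} (hAc : A.Countable) (hAcl : IsClosed A) (hV : IsOpen V)
    (hVc : Convex ℝ V) (hD : IsOpen D) (hDV : D ⊆ V) (hDc : (V \ D).Countable) {Y : ℂ → ℂ}
    (hY : AnalyticOnNhd ℂ Y D) (hnc : ∃ t ∈ D, ∀ c, ¬ ∀ᶠ s in 𝓝[≠] t, Y s = c) :
    ∃ D', IsOpen D' ∧ D' ⊆ D ∧ (V \ D').Countable ∧ ∀ t ∈ D', Y t ∉ A := by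
  refine ⟨D ∩ Y ⁻¹' Aᶜ, hY.continuousOn.isOpen_inter_preimage hD hAcl.isOpen_compl,
    inter_subset_left, ?_, fun t ht => ht.2⟩
  refine (hDc.union (countable_preimage hD (preconn hV hVc hDV hDc) hY.meromorphicOn hnc
    hAc)).mono ?_
  rintro t ⟨h1, h2⟩
  by_cases h3 : t ∈ D
  · right
    refine ⟨h3, ?_⟩
    by_contra h4
    exact h2 ⟨h3, h4⟩
  · exact Or.inl ⟨h1, h3⟩

theorem shrink0 {V D : Set ℂ} (hV : IsOpen V) (hVc : Convex ℝ V) (hD : IsOpen D) (hDV : D ⊆ V)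
    (hDc : (V \ D).Countable) {q : ℂ → ℂ} (hq : AnalyticOnNhd ℂ q D) (hne : ∃ t ∈ D, q t ≠ 0) :
    ∃ D', IsOpen D' ∧ D' ⊆ D ∧ (V \ D').Countable ∧ ∀ t ∈ D', q t ≠ 0 := by
  refine ⟨D ∩ q ⁻¹' {0}ᶜ, hq.continuousOn.isOpen_inter_preimage hD isClosed_singleton.isOpen_compl,
    inter_subset_left, ?_, fun t ht => ht.2⟩
  refine (hDc.union (zeros_countable hD (preconn hV hVc hDV hDc) hq hne)).mono ?_
  rintro t ⟨h1, h2⟩
  by_cases h3 : t ∈ D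
  · right
    refine ⟨h3, ?_⟩
    by_contra h4
    exact h2 ⟨h3, h4⟩
  · exact Or.inl ⟨h1, h3⟩

/-! ### the recursion -/

/-- the recursion step -/
def Phi (k : ℂ → ℂ) (p : ℂ × ℂ) : ℂ := p.2 + (k p.2 - (p.1 - p.2)⁻¹)⁻¹

/-- chain values -/
def ch (k : ℂ → ℂ) : ℕ → ℂ × ℂ → ℂ
  | 0, p => p.2
  | m + 1, p => ch k m (p.2, Phi k p)

/-- the pointwise recursion -/
def X (k x₀ x₁ : ℂ → ℂ) : ℕ → ℂ → ℂ
  | 0 => x₀
  | 1 => x₁
  | i + 2 => fun t => Phi k (X k x₀ x₁ i t, X k x₀ x₁ (i + 1) t)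

theorem ch_X (k x₀ x₁ : ℂ → ℂ) (t : ℂ) : ∀ m i : ℕ,
    ch k m (X k x₀ x₁ i t, X k x₀ x₁ (i + 1) t) = X k x₀ x₁ (i + 1 + m) t := by
  intro m
  induction m with
  | zero => intro i; rfl
  | succ m ih =>
    intro i
    have h := ih (i + 1)
    rw [show i + 1 + 1 + m = i + 1 + (m + 1) by ring] at h
    exact h

theorem X_sub (k x₀ x₁ : ℂ → ℂ) (i : ℕ) (t : ℂ) :
    (X k x₀ x₁ (i + 2) t - X k x₀ x₁ (i + 1) t)⁻¹ =
      k (X k x₀ x₁ (i + 1) t) - (X k x₀ x₁ i t - X k x₀ x₁ (i + 1) t)⁻¹ := by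
  have h : X k x₀ x₁ (i + 2) t - X k x₀ x₁ (i + 1) t =
      (k (X k x₀ x₁ (i + 1) t) - (X k x₀ x₁ i t - X k x₀ x₁ (i + 1) t)⁻¹)⁻¹ := by
    show Phi k (X k x₀ x₁ i t, X k x₀ x₁ (i + 1) t) - X k x₀ x₁ (i + 1) t = _
    unfold Phi
    ring
  rw [h, inv_inv]

/-! ### chains at a singular point -/

theorem not_eqC {K h r : ℂ → ℂ} {t : ℂ} (hh : MeromorphicAt h t) (hr : MeromorphicAt r t)
    (hn : ¬ ∃ g : ℂ → ℂ, MeromorphicAt g t ∧ EqC K g t) :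
    ¬ ∃ g : ℂ → ℂ, MeromorphicAt g t ∧ EqC (fun s => h s + (K s - r s)⁻¹) g t := by
  rintro ⟨g, hg, Z, hZ, hE⟩
  refine hn ⟨fun s => (g s - h s)⁻¹ + r s, ((hg.sub hh).inv.add hr), Z, hZ, ?_⟩
  filter_upwards [hE] with s hs hsZ
  have h1 : h s + (K s - r s)⁻¹ = g s := hs hsZ
  have h2 : g s - h s = (K s - r s)⁻¹ := by rw [← h1]; ring
  show K s = (g s - h s)⁻¹ + r s
  rw [h2, inv_inv]
  ring

/-- the end filter -/
structure FD (h : ℂ → ℂ) (t₀ : ℂ) (Fe : Filter ℂ) (ψ : ℂ → ℂ) : Prop where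
  tend : Tendsto h (𝓝[≠] t₀) Fe
  opn : ∀ U ∈ Fe, ∀ᶠ z in Fe, U ∈ 𝓝 z
  avoid : ∀ O : Set ℂ, IsOpen O → O.Nonempty → ∃ O' ⊆ O, IsOpen O' ∧ O'.Nonempty ∧ O'ᶜ ∈ Fe
  psi : ∀ᶠ t in 𝓝[≠] t₀,
    Tendsto (fun p : ℂ × ℂ => (p.1 - p.2)⁻¹) (Fe ×ˢ 𝓝 (h t)) (𝓝 (ψ (h t)))
  mer : MeromorphicAt (fun t => ψ (h t)) t₀

theorem fd_fin {h : ℂ → ℂ} {t₀ : ℂ} (hh : AnalyticAt ℂ h t₀) (hne : ¬ ∀ᶠ s in 𝓝 t₀, h s = h t₀) :
    FD h t₀ (𝓝 (h t₀)) (fun b => (h t₀ - b)⁻¹) where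
  tend := hh.continuousAt.tendsto.mono_left nhdsWithin_le_nhds
  opn := fun U hU => eventually_mem_nhds_iff.2 hU
  avoid := by
    intro O hO hOne
    obtain ⟨z, hz, hze⟩ := exists_notMem hO hOne (countable_singleton (h t₀))
    have hze' : z ≠ h t₀ := fun e => hze e
    obtain ⟨u, v, hu, hv, hzu, hev, hd⟩ := t2_separation hze'
    refine ⟨O ∩ u, inter_subset_left, hO.inter hu, ⟨z, hz, hzu⟩, ?_⟩
    refine mem_of_superset (hv.mem_nhds hev) ?_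
    intro w hw h1
    exact (disjoint_left.1 hd) h1.2 hw
  psi := by
    rcases hh.eventually_eq_or_eventually_ne (analyticAt_const (v := h t₀)) with h1 | h1
    · exact absurd h1 hne
    · filter_upwards [h1] with t ht
      have h2 : Tendsto (fun p : ℂ × ℂ => p.1 - p.2) (𝓝 (h t₀) ×ˢ 𝓝 (h t)) (𝓝 (h t₀ - h t)) :=
        tendsto_fst.sub tendsto_snd
      exact h2.inv₀ (sub_ne_zero.2 (Ne.symm ht))
  mer := ((MeromorphicAt.const (h t₀) t₀).sub hh.meromorphicAt).inv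

theorem fd_pole {h : ℂ → ℂ} {t₀ : ℂ} (hp : Tendsto h (𝓝[≠] t₀) (Bornology.cobounded ℂ)) :
    FD h t₀ (Bornology.cobounded ℂ) (fun _ => 0) where
  tend := hp
  opn := by
    intro U hU
    obtain ⟨R, -, hR⟩ := (Metric.hasBasis_cobounded_compl_closedBall (0 : ℂ)).mem_iff.1 hU
    filter_upwards [(Metric.hasBasis_cobounded_compl_closedBall (0 : ℂ)).mem_of_mem
      (i := R) trivial] with z hz
    exact mem_of_superset (isClosed_closedBall.isOpen_compl.mem_nhds hz) hR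
  avoid := by
    intro O hO ⟨z, hz⟩
    refine ⟨O ∩ ball 0 (‖z‖ + 1), inter_subset_left, hO.inter isOpen_ball, ⟨z, hz, ?_⟩, ?_⟩
    · rw [mem_ball_zero_iff]
      linarith
    · exact Bornology.isBounded_def.1 (isBounded_ball.subset inter_subset_right)
  psi := by
    refine Eventually.of_forall fun t => ?_
    refine tendsto_inv₀_cobounded.comp ?_
    rw [← tendsto_norm_atTop_iff_cobounded]
    have h1 : Tendsto (fun p : ℂ × ℂ => ‖p.1‖) (Bornology.cobounded ℂ ×ˢ 𝓝 (h t)) atTop :=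
      tendsto_norm_cobounded_atTop.comp tendsto_fst
    have h2 : ∀ᶠ p in Bornology.cobounded ℂ ×ˢ 𝓝 (h t), ‖(p : ℂ × ℂ).2‖ ≤ ‖h t‖ + 1 := by
      have h3 : ∀ᶠ z in 𝓝 (h t), ‖z‖ ≤ ‖h t‖ + 1 := by
        have h4 : ∀ᶠ z in 𝓝 (h t), ‖z‖ < ‖h t‖ + 1 :=
          (continuous_norm.tendsto (h t)).eventually (gt_mem_nhds (lt_add_one _))
        exact h4.mono fun z hz => hz.le
      exact h3.prod_inr _
    refine tendsto_atTop_mono' _ ?_ (tendsto_atTop_add_const_right _ (-(‖h t‖ + 1)) h1)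
    filter_upwards [h2] with p hp2
    have h5 := norm_sub_norm_le p.1 p.2
    show ‖p.1‖ + -(‖h t‖ + 1) ≤ ‖p.1 - p.2‖
    linarith
  mer := MeromorphicAt.const 0 t₀

variable {k h : ℂ → ℂ} {t₀ : ℂ} {Fe : Filter ℂ} {ψ : ℂ → ℂ} {Z : Set ℂ}

theorem claim (hZ : Z.Countable) (hF : FD h t₀ Fe ψ) (hh : MeromorphicAt h t₀)
    (hK : ∀ᶠ t in 𝓝[≠] t₀, MeromorphicAt (fun s => k (h s)) t)
    (hKn : ¬ ∃ g : ℂ → ℂ, MeromorphicAt g t₀ ∧ EqC (fun s => k (h s)) g t₀)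
    (hka : ∀ᶠ t in 𝓝[≠] t₀, t ∉ Z → ContinuousAt k (h t)) :
    ∀ (m : ℕ) (O : Set ℂ), IsOpen O → O.Nonempty →
      ∃ᶠ t in 𝓝[≠] t₀, t ∉ Z ∧ ∀ᶠ p in Fe ×ˢ 𝓝 (h t), ch k (m + 1) p ∈ O := by
  have one : ∀ O : Set ℂ, IsOpen O → O.Nonempty →
      ∃ᶠ t in 𝓝[≠] t₀, t ∉ Z ∧ ∀ᶠ p in Fe ×ˢ 𝓝 (h t), Phi k p ∈ O := by
    intro O hO hOne
    obtain ⟨O', hO'O, hO', hO'ne, hO'F⟩ := hF.avoid O hO hOne
    have hm : ∀ᶠ t in 𝓝[≠] t₀, MeromorphicAt (fun s => h s + (k (h s) - ψ (h s))⁻¹) t := by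
      filter_upwards [hK, hh.eventually_analyticAt, hF.mer.eventually_analyticAt] with t h1 h2 h3
      exact h2.meromorphicAt.add (h1.sub h3.meromorphicAt).inv
    have hc := casorati hm (not_eqC hh hF.mer hKn) hO' hO'ne hZ
    have hav : ∀ᶠ t in 𝓝[≠] t₀, h t ∉ O' := hF.tend hO'F
    refine (hc.and_eventually (hav.and (hF.psi.and hka))).mono ?_
    rintro t ⟨⟨h1, h2⟩, h3, h4, h5⟩
    refine ⟨h2, ?_⟩
    have hq : k (h t) - ψ (h t) ≠ 0 := by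
      intro h6
      rw [h6, inv_zero, add_zero] at h1
      exact h3 h1
    have h7 : Tendsto (fun p : ℂ × ℂ => Phi k p) (Fe ×ˢ 𝓝 (h t))
        (𝓝 (h t + (k (h t) - ψ (h t))⁻¹)) := by
      have h8 : Tendsto (fun p : ℂ × ℂ => k p.2) (Fe ×ˢ 𝓝 (h t)) (𝓝 (k (h t))) :=
        (h5 h2).tendsto.comp tendsto_snd
      exact tendsto_snd.add ((h8.sub h4).inv₀ hq)
    exact (h7.eventually (hO'.mem_nhds h1)).mono fun p hp => hO'O hp
  intro m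
  induction m with
  | zero => exact one
  | succ m ih =>
    intro O hO hOne
    obtain ⟨t₂, -, h2⟩ := (ih O hO hOne).exists
    obtain ⟨U, hU, B, hB, hUB⟩ := mem_prod_iff.1 h2
    have hB' : (interior B).Nonempty := ⟨h t₂, mem_interior_iff_mem_nhds.2 hB⟩
    have hU' : ∀ᶠ t in 𝓝[≠] t₀, U ∈ 𝓝 (h t) := hF.tend.eventually (hF.opn U hU)
    refine ((one (interior B) isOpen_interior hB').and_eventually hU').mono ?_
    rintro t ⟨⟨h3, h4⟩, h5⟩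
    refine ⟨h3, ?_⟩
    have h6 : ∀ᶠ p : ℂ × ℂ in Fe ×ˢ 𝓝 (h t), p.2 ∈ U := Eventually.prod_inr h5 _
    filter_upwards [h4, h6] with p hp1 hp2
    exact hUB (show (p.2, Phi k p) ∈ U ×ˢ B from ⟨hp2, interior_subset hp1⟩)

theorem contra (hZ : Z.Countable) (hF : FD h t₀ Fe ψ) (hh : MeromorphicAt h t₀)
    (hK : ∀ᶠ t in 𝓝[≠] t₀, MeromorphicAt (fun s => k (h s)) t)
    (hKn : ¬ ∃ g : ℂ → ℂ, MeromorphicAt g t₀ ∧ EqC (fun s => k (h s)) g t₀)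
    (hka : ∀ᶠ t in 𝓝[≠] t₀, t ∉ Z → ContinuousAt k (h t))
    {b y : ℂ → ℂ} (hb : MeromorphicAt b t₀) (hy : ContinuousAt y t₀) (m : ℕ)
    (hrel : ∀ᶠ t in 𝓝[≠] t₀, t ∉ Z →
      ch k m (h t, h t + (k (h t) - (b t - h t)⁻¹)⁻¹) = y t) : False := by
  have hr : MeromorphicAt (fun s => (b s - h s)⁻¹) t₀ := (hb.sub hh).inv
  have hYn := not_eqC hh hr hKn
  have hYm : ∀ᶠ t in 𝓝[≠] t₀,
      MeromorphicAt (fun s => h s + (k (h s) - (b s - h s)⁻¹)⁻¹) t := by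
    filter_upwards [hK, hh.eventually_analyticAt, hr.eventually_analyticAt] with t h1 h2 h3
    exact h2.meromorphicAt.add (h1.sub h3.meromorphicAt).inv
  have hO : IsOpen (ball (y t₀ + 2) 1) := isOpen_ball
  have hOne : (ball (y t₀ + 2) 1).Nonempty := ⟨_, mem_ball_self one_pos⟩
  have hyO : ∀ᶠ t in 𝓝[≠] t₀, y t ∉ ball (y t₀ + 2) 1 := by
    have h1 : ∀ᶠ t in 𝓝 t₀, y t ∈ ball (y t₀) 1 := hy (ball_mem_nhds _ one_pos)
    filter_upwards [h1.filter_mono nhdsWithin_le_nhds] with t ht ht'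
    rw [mem_ball] at ht ht'
    have h2 : dist (y t₀ + 2) (y t₀) = 2 := by
      rw [dist_eq_norm]
      simp
    have h3 := dist_triangle_left (y t₀ + 2) (y t₀) (y t)
    linarith
  cases m with
  | zero =>
    obtain ⟨t, ⟨h1, h2⟩, h3, h4⟩ :=
      ((casorati hYm hYn hO hOne hZ).and_eventually (hrel.and hyO)).exists
    have h5 : h t + (k (h t) - (b t - h t)⁻¹)⁻¹ = y t := h3 h2
    rw [h5] at h1
    exact h4 h1
  | succ m =>
    obtain ⟨t₂, -, h2⟩ := (claim hZ hF hh hK hKn hka m _ hO hOne).exists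
    obtain ⟨U, hU, B, hB, hUB⟩ := mem_prod_iff.1 h2
    have hB' : (interior B).Nonempty := ⟨h t₂, mem_interior_iff_mem_nhds.2 hB⟩
    have hU' : ∀ᶠ t in 𝓝[≠] t₀, h t ∈ U := hF.tend hU
    obtain ⟨t, ⟨h1, h2⟩, h3, h4, h5⟩ := ((casorati hYm hYn isOpen_interior hB' hZ).and_eventually
      (hrel.and (hyO.and hU'))).exists
    have h6 := hUB (show (h t, h t + (k (h t) - (b t - h t)⁻¹)⁻¹) ∈ U ×ˢ B from
      ⟨h5, interior_subset h1⟩)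
    have h7 : ch k (m + 1) (h t, h t + (k (h t) - (b t - h t)⁻¹)⁻¹) ∈ ball (y t₀ + 2) 1 := h6
    rw [h3 h2] at h7
    exact h4 h7

/-! ### extension of one more vertex -/

theorem ext_step {k : ℂ → ℂ} (hk : Nrm k) (hinf : SingInf k) {V : Set ℂ} (hV : IsOpen V)
    (hVc : Convex ℝ V) {x₀ x₁ y : ℂ → ℂ} {N : ℕ} {Z : Set ℂ} (hZ : Z.Countable)
    (hg : ∀ t ∈ V, t ∉ Z → (∀ i ≤ N, AnalyticAt ℂ (X k x₀ x₁ i) t ∧
      AnalyticAt ℂ k (X k x₀ x₁ i t)) ∧ X k x₀ x₁ N t = y t)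
    (hnc : ∀ i ≤ N, ∀ c, ∃ t ∈ V, t ∉ Z ∧ X k x₀ x₁ i t ≠ c)
    (hN : ∀ t ∈ V, ContinuousAt y t) {j : ℕ} (hj : j + 2 < N) {a b : ℂ → ℂ}
    (ha : AnalyticOnNhd ℂ a V) (hb : AnalyticOnNhd ℂ b V)
    (haX : ∀ t ∈ V, t ∉ Z → a t = X k x₀ x₁ j t)
    (hbX : ∀ t ∈ V, t ∉ Z → b t = X k x₀ x₁ (j + 1) t)
    (hkb : ∀ t ∈ V, MeromorphicAt k (b t)) :
    ∃ g : ℂ → ℂ, AnalyticOnNhd ℂ g V ∧ (∀ t ∈ V, t ∉ Z → g t = X k x₀ x₁ (j + 2) t) ∧
      ∀ t ∈ V, MeromorphicAt k (g t) := by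
  set h : ℂ → ℂ := fun t => b t + (k (b t) - (a t - b t)⁻¹)⁻¹ with hdef
  have hh : MeromorphicOn h V := fun t ht =>
    (hb t ht).meromorphicAt.add (((hkb t ht).comp_analyticAt (hb t ht)).sub
      (((ha t ht).sub (hb t ht)).meromorphicAt.inv)).inv
  set g : ℂ → ℂ := toMeromorphicNFOn h V with hgdef
  have hgN : ∀ t ∈ V, MeromorphicNFAt g t := fun t ht => meromorphicNFOn_toMeromorphicNFOn h V ht
  have hgh : ∀ t ∈ V, g =ᶠ[𝓝[≠] t] h := fun t ht => hh.toMeromorphicNFOn_eq_self_on_nhdsNE ht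
  have hVn : ∀ t ∈ V, ∀ᶠ s in 𝓝[≠] t, s ∈ V := fun t ht =>
    mem_nhdsWithin_of_mem_nhds (hV.mem_nhds ht)
  have hhX : ∀ t ∈ V, t ∉ Z → h t = X k x₀ x₁ (j + 2) t := by
    intro t ht htZ
    show b t + (k (b t) - (a t - b t)⁻¹)⁻¹ = Phi k (X k x₀ x₁ j t, X k x₀ x₁ (j + 1) t)
    rw [← haX t ht htZ, ← hbX t ht htZ]
    rfl
  have hgX : ∀ t ∈ V, t ∉ Z → g =ᶠ[𝓝 t] X k x₀ x₁ (j + 2) := by
    intro t ht htZ
    have h1 := ((hg t ht htZ).1 (j + 2) hj.le).1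
    rw [← (hgN t ht).eventuallyEq_nhdsNE_iff_eventuallyEq_nhds h1.meromorphicNFAt,
      ← (hgN t ht).meromorphicAt.frequently_eq_iff_eventuallyEq h1.meromorphicAt]
    refine ((freq_notMem t hZ).and_eventually ((hgh t ht).and (hVn t ht))).mono ?_
    rintro s ⟨h2, h3, h4⟩
    rw [h3, hhX s h4 h2]
  suffices hall : ∀ t ∈ V, AnalyticAt ℂ g t ∧ MeromorphicAt k (g t) from
    ⟨g, fun t ht => (hall t ht).1, fun t ht htZ => (hgX t ht htZ).eq_of_nhds,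
      fun t ht => (hall t ht).2⟩
  by_contra hcon
  push Not at hcon
  obtain ⟨t', ht', hcon'⟩ := hcon
  set S : Set ℂ := {t | t ∈ V ∧ ¬ (AnalyticAt ℂ g t ∧ MeromorphicAt k (g t))} with hS
  have hSc : S.Countable := by
    refine hZ.mono fun t ht => ?_
    by_contra htZ
    refine ht.2 ⟨(((hg t ht.1 htZ).1 (j + 2) hj.le).1).congr (hgX t ht.1 htZ).symm, ?_⟩
    rw [(hgX t ht.1 htZ).eq_of_nhds]
    exact (((hg t ht.1 htZ).1 (j + 2) hj.le).2).meromorphicAt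
  have hVS : IsOpen (V \ S) := by
    rw [isOpen_iff_mem_nhds]
    intro t ht
    have h1 : AnalyticAt ℂ g t ∧ MeromorphicAt k (g t) := by
      by_contra h2
      exact ht.2 ⟨ht.1, h2⟩
    have h2 : ∀ᶠ z in 𝓝 (g t), MeromorphicAt k z := by
      have h3 := h1.2.eventually_analyticAt
      rw [eventually_nhdsWithin_iff] at h3
      filter_upwards [h3] with z hz
      by_cases hzz : z = g t
      · rw [hzz]
        exact h1.2
      · exact (hz hzz).meromorphicAt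
    filter_upwards [hV.mem_nhds ht.1, h1.1.eventually_analyticAt,
      h1.1.continuousAt.eventually h2] with s h3 h4 h5
    exact ⟨h3, fun h6 => h6.2 ⟨h4, h5⟩⟩
  obtain ⟨t₀, ⟨ht₀, ht₀S⟩, hiso⟩ := exists_isolated hV hVS hSc
    ⟨t', ht', ht', fun h1 => hcon' h1.1 h1.2⟩
  have hiso' : ∀ᶠ s in 𝓝[≠] t₀, AnalyticAt ℂ g s ∧ MeromorphicAt k (g s) := by
    filter_upwards [hiso] with s hs
    by_contra h2
    exact hs.2 ⟨hs.1, h2⟩
  have hgm : MeromorphicAt g t₀ := (hgN t₀ ht₀).meromorphicAt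
  have hK : ∀ᶠ s in 𝓝[≠] t₀, MeromorphicAt (fun s => k (g s)) s := by
    filter_upwards [hiso'] with s hs
    exact hs.2.comp_analyticAt hs.1
  have hka : ∀ᶠ s in 𝓝[≠] t₀, s ∉ Z → ContinuousAt k (g s) := by
    filter_upwards [hVn t₀ ht₀] with s hs hsZ
    rw [(hgX s hs hsZ).eq_of_nhds]
    exact ((hg s hs hsZ).1 (j + 2) hj.le).2.continuousAt
  have hncg : ∀ c, ¬ ∀ᶠ s in 𝓝[≠] t₀, g s = c := by
    intro c hc
    obtain ⟨s, hs, hsZ, hsc⟩ := hnc (j + 2) hj.le c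
    have h1 := mero_ident hV hVc.isPreconnected (f := g) (g := fun _ => c)
      (fun t ht => (hgN t ht).meromorphicAt) (fun t _ => MeromorphicAt.const c t) ht₀
      hc.frequently hs
    have h2 := ((hgN s hs).eventuallyEq_nhdsNE_iff_eventuallyEq_nhds
      (analyticAt_const (v := c)).meromorphicNFAt).1 h1
    apply hsc
    rw [← (hgX s hs hsZ).eq_of_nhds, h2.eq_of_nhds]
  obtain ⟨m, hm⟩ : ∃ m, j + 2 + 1 + m = N := ⟨N - (j + 3), by omega⟩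
  have hrel : ∀ᶠ t in 𝓝[≠] t₀, t ∉ Z →
      ch k m (g t, g t + (k (g t) - (b t - g t)⁻¹)⁻¹) = y t := by
    filter_upwards [hVn t₀ ht₀] with t ht htZ
    rw [← (hg t ht htZ).2, ← hm, ← ch_X k x₀ x₁ t m (j + 2), ← (hgX t ht htZ).eq_of_nhds]
    congr 2
    show _ = Phi k (X k x₀ x₁ (j + 1) t, X k x₀ x₁ (j + 2) t)
    rw [← (hgX t ht htZ).eq_of_nhds, ← hbX t ht htZ]
    rfl
  have hbm : MeromorphicAt b t₀ := (hb t₀ ht₀).meromorphicAt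
  by_cases hga : AnalyticAt ℂ g t₀
  · have hne : ¬ ∀ᶠ s in 𝓝 t₀, g s = g t₀ := fun h1 =>
      hncg (g t₀) (h1.filter_mono nhdsWithin_le_nhds)
    refine contra hZ (fd_fin hga hne) hgm hK (fun h1 => ht₀S.2 ⟨hga, ?_⟩) hka hbm (hN t₀ ht₀) m hrel
    exact (lemmaA hk hga hne h1).meromorphicAt
  · have hp : Tendsto g (𝓝[≠] t₀) (Bornology.cobounded ℂ) := by
      apply tendsto_cobounded_of_meromorphicOrderAt_neg
      by_contra h1
      exact hga ((hgN t₀ ht₀).meromorphicOrderAt_nonneg_iff_analyticAt.1 (not_lt.1 h1))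
    exact contra hZ (fd_pole hp) hgm hK (fun h1 => hinf (lemmaA_pole hk hgm hp h1)) hka hbm
      (hN t₀ ht₀) m hrel

/-! ### the pointwise recursion is meromorphic outside a countable set -/

theorem step1 {k : ℂ → ℂ} (hA : CSing k) {V V₀ : Set ℂ}
    (hV : IsOpen V) (hVc : Convex ℝ V) (hV₀ : IsOpen V₀) (hV₀c : Convex ℝ V₀) (hsub : V₀ ⊆ V)
    (hne : V₀.Nonempty) {N : ℕ} {x : ℕ → ℂ → ℂ}
    (hx : ∀ j ≤ N, AnalyticOnNhd ℂ (x j) V₀)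
    (hnc : ∀ j ≤ N, ∀ c, ∃ t ∈ V₀, x j t ≠ c)
    (hsep : ∀ j < N, ∃ t ∈ V₀, x (j + 1) t ≠ x j t)
    (h0 : AnalyticOnNhd ℂ (x 0) V) (h1 : AnalyticOnNhd ℂ (x 1) V)
    {Z₀ : Set ℂ} (hZ₀ : Z₀.Countable)
    (hXx : ∀ t ∈ V₀, t ∉ Z₀ → ∀ i ≤ N, X k (x 0) (x 1) i t = x i t) :
    ∀ j ≤ N, ∃ D, IsOpen D ∧ D ⊆ V ∧ (V \ D).Countable ∧ ∀ t ∈ D,
      (∀ i ≤ j, AnalyticAt ℂ (X k (x 0) (x 1) i) t ∧ AnalyticAt ℂ k (X k (x 0) (x 1) i t)) ∧
      ∀ i < j, X k (x 0) (x 1) (i + 1) t ≠ X k (x 0) (x 1) i t := by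
  have hAcl : IsClosed {z | ¬ AnalyticAt ℂ k z} := by
    have := (isOpen_analyticAt ℂ k).isClosed_compl
    exact this
  -- a point of `V₀` in a co-countable set
  have hpt : ∀ (D : Set ℂ), (V \ D).Countable → ∃ t ∈ V₀, t ∈ D := by
    intro D hDc
    obtain ⟨t, ht, ht'⟩ := exists_notMem hV₀ hne hDc
    refine ⟨t, ht, ?_⟩
    by_contra h2
    exact ht' ⟨hsub ht, h2⟩
  have hnc' : ∀ i ≤ N, ∀ t ∈ V₀, ∀ c, ¬ ∀ᶠ s in 𝓝[≠] t, X k (x 0) (x 1) i s = c :=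
    fun i hi t ht c => nonconst hV₀ hV₀c (hx i hi) (hnc i hi) hZ₀
      (fun s hs hsZ => hXx s hs hsZ i hi) ht c
  -- a point of `V₀` in a co-countable set with `x (j + 1) ≠ x j`
  have hpt2 : ∀ (D : Set ℂ), (V \ D).Countable → ∀ j < N, ∃ t ∈ V₀, t ∈ D ∧ t ∉ Z₀ ∧
      x (j + 1) t ≠ x j t := by
    intro D hDc j hj
    have hO : IsOpen (V₀ ∩ (fun t => x (j + 1) t - x j t) ⁻¹' {0}ᶜ) :=
      ((hx (j + 1) hj).continuousOn.sub (hx j hj.le).continuousOn).isOpen_inter_preimage hV₀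
        isClosed_singleton.isOpen_compl
    obtain ⟨t₁, ht₁, h2⟩ := hsep j hj
    obtain ⟨t, ht, ht'⟩ := exists_notMem hO ⟨t₁, ht₁, fun h3 => h2 (sub_eq_zero.1 h3)⟩
      (hDc.union hZ₀)
    rw [mem_union, not_or] at ht'
    refine ⟨t, ht.1, ?_, ht'.2, fun h3 => ht.2 (sub_eq_zero.2 h3)⟩
    by_contra h3
    exact ht'.1 ⟨hsub ht.1, h3⟩
  have base : ∃ D, IsOpen D ∧ D ⊆ V ∧ (V \ D).Countable ∧ ∀ t ∈ D,
      (∀ i ≤ 0, AnalyticAt ℂ (X k (x 0) (x 1) i) t ∧ AnalyticAt ℂ k (X k (x 0) (x 1) i t)) ∧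
      ∀ i < 0, X k (x 0) (x 1) (i + 1) t ≠ X k (x 0) (x 1) i t := by
    obtain ⟨t, ht⟩ := hne
    obtain ⟨D, hD, hDV, hDc, hDA⟩ := shrink (Y := X k (x 0) (x 1) 0) hA hAcl hV hVc hV subset_rfl
      (by simp) h0 ⟨t, hsub ht, hnc' 0 (Nat.zero_le _) t ht⟩
    refine ⟨D, hD, hDV, hDc, fun t ht => ⟨fun i hi => ?_, fun i hi => absurd hi (Nat.not_lt_zero _)⟩⟩
    rw [Nat.le_zero.1 hi]
    exact ⟨h0 t (hDV ht), not_not.1 (hDA t ht)⟩
  -- one more function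
  have add : ∀ j, j + 1 ≤ N → ∀ D, IsOpen D → D ⊆ V → (V \ D).Countable →
      (∀ t ∈ D, (∀ i ≤ j, AnalyticAt ℂ (X k (x 0) (x 1) i) t ∧
        AnalyticAt ℂ k (X k (x 0) (x 1) i t)) ∧
      ∀ i < j, X k (x 0) (x 1) (i + 1) t ≠ X k (x 0) (x 1) i t) →
      (∀ t ∈ D, AnalyticAt ℂ (X k (x 0) (x 1) (j + 1)) t ∧
        X k (x 0) (x 1) (j + 1) t ≠ X k (x 0) (x 1) j t) →
      ∃ D, IsOpen D ∧ D ⊆ V ∧ (V \ D).Countable ∧ ∀ t ∈ D,
      (∀ i ≤ j + 1, AnalyticAt ℂ (X k (x 0) (x 1) i) t ∧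
        AnalyticAt ℂ k (X k (x 0) (x 1) i t)) ∧
      ∀ i < j + 1, X k (x 0) (x 1) (i + 1) t ≠ X k (x 0) (x 1) i t := by
    intro j hj D hD hDV hDc hgood hY
    obtain ⟨t, ht, htD⟩ := hpt D hDc
    obtain ⟨D', hD', hD'D, hD'c, hDA⟩ := shrink (Y := X k (x 0) (x 1) (j + 1)) hA hAcl hV hVc hD
      hDV hDc (fun t ht => (hY t ht).1) ⟨t, htD, hnc' (j + 1) hj t ht⟩
    refine ⟨D', hD', hD'D.trans hDV, hD'c, fun t ht => ⟨fun i hi => ?_, fun i hi => ?_⟩⟩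
    · rcases Nat.lt_or_eq_of_le hi with h3 | h3
      · exact (hgood t (hD'D ht)).1 i (Nat.lt_succ_iff.1 h3)
      · rw [h3]
        exact ⟨(hY t (hD'D ht)).1, not_not.1 (hDA t ht)⟩
    · rcases Nat.lt_or_eq_of_le (Nat.lt_succ_iff.1 hi) with h3 | h3
      · exact (hgood t (hD'D ht)).2 i h3
      · rw [h3]
        exact (hY t (hD'D ht)).2
  intro j
  induction j with
  | zero => intro _; exact base
  | succ j ih =>
    intro hj
    obtain ⟨D, hD, hDV, hDc, hgood⟩ := ih (by omega)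
    rcases j with _ | j
    · -- `j + 1 = 1`
      obtain ⟨t, ht, htD, htZ, htne⟩ := hpt2 D hDc 0 (by omega)
      obtain ⟨D', hD', hD'D, hD'c, hDq⟩ := shrink0 hV hVc hD hDV hDc
        (q := fun t => x 1 t - x 0 t) (fun t ht => (h1 t (hDV ht)).sub (h0 t (hDV ht)))
        ⟨t, htD, sub_ne_zero.2 htne⟩
      exact add 0 hj D' hD' (hD'D.trans hDV) hD'c (fun t ht => hgood t (hD'D ht))
        fun t ht => ⟨h1 t (hDV (hD'D ht)), sub_ne_zero.1 (hDq t ht)⟩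
    · -- `j + 2`
      set q : ℂ → ℂ := fun t => k (X k (x 0) (x 1) (j + 1) t) -
        (X k (x 0) (x 1) j t - X k (x 0) (x 1) (j + 1) t)⁻¹ with hqdef
      have hq : AnalyticOnNhd ℂ q D := by
        intro t ht
        obtain ⟨g1, g2⟩ := hgood t ht
        have e1 : AnalyticAt ℂ (fun t => k (X k (x 0) (x 1) (j + 1) t)) t :=
          (g1 (j + 1) le_rfl).2.comp (g1 (j + 1) le_rfl).1
        have e2 : AnalyticAt ℂ (fun t => X k (x 0) (x 1) j t - X k (x 0) (x 1) (j + 1) t) t :=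
          (g1 j (by omega)).1.sub (g1 (j + 1) le_rfl).1
        exact e1.sub (e2.inv (sub_ne_zero.2 (Ne.symm (g2 j (by omega)))))
      obtain ⟨t, ht, htD, htZ, htne⟩ := hpt2 D hDc (j + 1) (by omega)
      have hqt : q t ≠ 0 := by
        have e1 := X_sub k (x 0) (x 1) j t
        rw [hXx t ht htZ (j + 2) (by omega), hXx t ht htZ (j + 1) (by omega)] at e1
        have e2 : q t = (x (j + 2) t - x (j + 1) t)⁻¹ := by
          rw [hqdef, e1]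
          simp only [hXx t ht htZ (j + 1) (by omega)]
        rw [e2]
        exact inv_ne_zero (sub_ne_zero.2 htne)
      obtain ⟨D', hD', hD'D, hD'c, hDq⟩ := shrink0 hV hVc hD hDV hDc hq ⟨t, htD, hqt⟩
      refine add (j + 1) hj D' hD' (hD'D.trans hDV) hD'c (fun t ht => hgood t (hD'D ht))
        fun t ht => ⟨?_, ?_⟩
      · have e1 : AnalyticAt ℂ (fun t => X k (x 0) (x 1) (j + 1) t + (q t)⁻¹) t :=
          ((hgood t (hD'D ht)).1 (j + 1) le_rfl).1.add ((hq t (hD'D ht)).inv (hDq t ht))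
        exact e1
      · intro e1
        have e2 := X_sub k (x 0) (x 1) j t
        rw [sub_eq_zero.2 e1, inv_zero] at e2
        exact hDq t ht e2.symm

end LC

theorem lemmaC {k : ℂ → ℂ} (hA : CSing k) (hk : Nrm k) (hinf : SingInf k) {V V₀ : Set ℂ}
    (hV : IsOpen V) (hVc : Convex ℝ V) (hV₀ : IsOpen V₀) (hV₀c : Convex ℝ V₀) (hsub : V₀ ⊆ V)
    (hne : V₀.Nonempty) {N : ℕ} {x : ℕ → ℂ → ℂ}
    (hx : ∀ j ≤ N, AnalyticOnNhd ℂ (x j) V₀)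
    (hnc : ∀ j ≤ N, ∀ c, ∃ t ∈ V₀, x j t ≠ c)
    (hsep : ∀ j < N, ∃ t ∈ V₀, x (j + 1) t ≠ x j t)
    (hrel : ∀ j, j + 2 ≤ N → ∃ Z : Set ℂ, Z.Countable ∧ ∀ t ∈ V₀, t ∉ Z →
      (x (j + 2) t - x (j + 1) t)⁻¹ + (x j t - x (j + 1) t)⁻¹ = k (x (j + 1) t))
    (h0 : AnalyticOnNhd ℂ (x 0) V) (h1 : AnalyticOnNhd ℂ (x 1) V)
    (hk0 : ∀ t ∈ V, MeromorphicAt k (x 0 t)) (hk1 : ∀ t ∈ V, MeromorphicAt k (x 1 t))
    (hN : AnalyticOnNhd ℂ (x N) V) :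
    ∃ (f : ℕ → ℂ → ℂ) (Z : Set ℂ), Z.Countable ∧
      (∀ j < N, AnalyticOnNhd ℂ (f j) V ∧ EqOn (f j) (x j) V₀ ∧ ∀ t ∈ V, MeromorphicAt k (f j t)) ∧
      (∀ t ∈ V, t ∉ Z → ∀ j < N, AnalyticAt ℂ k (f j t)) ∧
      (∀ t ∈ V, t ∉ Z → ∀ j, j + 1 < N → f (j + 1) t ≠ f j t) ∧
      (∀ t ∈ V, t ∉ Z → ∀ j, j + 2 < N →
        (f (j + 2) t - f (j + 1) t)⁻¹ + (f j t - f (j + 1) t)⁻¹ = k (f (j + 1) t)) := by
  -- the exceptional set of the relations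
  choose! Zr hZr using hrel
  set Z₀ : Set ℂ := ⋃ j, ⋃ (_ : j + 2 ≤ N), Zr j with hZ₀def
  have hZ₀ : Z₀.Countable := countable_iUnion fun j => countable_iUnion fun hj => (hZr j hj).1
  have hXx : ∀ t ∈ V₀, t ∉ Z₀ → ∀ i ≤ N, LC.X k (x 0) (x 1) i t = x i t := by
    intro t ht htZ i
    induction i using Nat.strong_induction_on with
    | _ i ih =>
      intro hi
      match i, ih, hi with
      | 0, _, _ => rfl
      | 1, _, _ => rfl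
      | i + 2, ih, hi =>
        have e1 := ih i (by omega) (by omega)
        have e2 := ih (i + 1) (by omega) (by omega)
        have e3 := (hZr i hi).2 t ht (fun h => htZ (mem_iUnion₂.2 ⟨i, hi, h⟩))
        show LC.Phi k (LC.X k (x 0) (x 1) i t, LC.X k (x 0) (x 1) (i + 1) t) = x (i + 2) t
        rw [e1, e2]
        unfold LC.Phi
        simp only
        rw [← e3, add_sub_cancel_right, inv_inv]
        ring
  obtain ⟨D, hD, hDV, hDc, hgood⟩ := LC.step1 hA hV hVc hV₀ hV₀c hsub hne hx hnc hsep h0 h1 hZ₀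
    hXx N le_rfl
  -- the last vertex
  obtain ⟨t₁, ht₁, ht₁'⟩ := LC.exists_notMem hV₀ hne hDc
  have ht₁D : t₁ ∈ D := by
    by_contra h2
    exact ht₁' ⟨hsub ht₁, h2⟩
  have hfr : ∃ᶠ t in 𝓝[≠] t₁, LC.X k (x 0) (x 1) N t = x N t := by
    have h2 : ∀ᶠ s in 𝓝[≠] t₁, s ∈ V₀ := mem_nhdsWithin_of_mem_nhds (hV₀.mem_nhds ht₁)
    exact ((LC.freq_notMem t₁ hZ₀).and_eventually h2).mono fun s hs => hXx s hs.2 hs.1 N le_rfl
  have hcN := countable_ne hD (LC.preconn hV hVc hDV hDc)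
    (fun t ht => ((hgood t ht).1 N le_rfl).1.meromorphicAt)
    (fun t ht => (hN t (hDV ht)).meromorphicAt) ht₁D hfr
  set Z : Set ℂ := (V \ D) ∪ {t ∈ D | LC.X k (x 0) (x 1) N t ≠ x N t} with hZdef
  have hZ : Z.Countable := hDc.union hcN
  have hZD : ∀ t ∈ V, t ∉ Z → t ∈ D := by
    intro t ht htZ
    by_contra h2
    exact htZ (Or.inl ⟨ht, h2⟩)
  have hZN : ∀ t ∈ V, t ∉ Z → LC.X k (x 0) (x 1) N t = x N t := by
    intro t ht htZ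
    by_contra h2
    exact htZ (Or.inr ⟨hZD t ht htZ, h2⟩)
  have hncX : ∀ i ≤ N, ∀ c, ∃ t ∈ V, t ∉ Z ∧ LC.X k (x 0) (x 1) i t ≠ c := by
    intro i hi c
    have hO : IsOpen (V₀ ∩ (x i) ⁻¹' {c}ᶜ) :=
      (hx i hi).continuousOn.isOpen_inter_preimage hV₀ isClosed_singleton.isOpen_compl
    obtain ⟨t₂, ht₂, h2⟩ := hnc i hi c
    obtain ⟨t, ht, ht'⟩ := LC.exists_notMem hO ⟨t₂, ht₂, h2⟩ (hZ.union hZ₀)
    rw [mem_union, not_or] at ht'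
    refine ⟨t, hsub ht.1, ht'.1, ?_⟩
    rw [hXx t ht.1 ht'.2 i hi]
    exact ht.2
  -- the extensions
  have hP : ∀ j, j < N → ∃ g : ℂ → ℂ, AnalyticOnNhd ℂ g V ∧
      (∀ t ∈ V, t ∉ Z → g t = LC.X k (x 0) (x 1) j t) ∧ ∀ t ∈ V, MeromorphicAt k (g t) := by
    intro j
    induction j using Nat.strong_induction_on with
    | _ j ih =>
      intro hj
      match j, ih, hj with
      | 0, _, _ => exact ⟨x 0, h0, fun _ _ _ => rfl, hk0⟩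
      | 1, _, _ => exact ⟨x 1, h1, fun _ _ _ => rfl, hk1⟩
      | j + 2, ih, hj =>
        obtain ⟨a, ha, haX, -⟩ := ih j (by omega) (by omega)
        obtain ⟨b, hb, hbX, hkb⟩ := ih (j + 1) (by omega) (by omega)
        exact LC.ext_step hk hinf hV hVc hZ
          (fun t ht htZ => ⟨(hgood t (hZD t ht htZ)).1, hZN t ht htZ⟩) hncX
          (fun t ht => (hN t ht).continuousAt) hj ha hb haX hbX hkb
  choose! f hf using hP
  refine ⟨f, Z, hZ, fun j hj => ⟨(hf j hj).1, fun t ht => ?_, (hf j hj).2.2⟩, ?_, ?_, ?_⟩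
  · refine LC.eq_of_countable ((hf j hj).1 t (hsub ht)).continuousAt
      ((hx j hj.le) t ht).continuousAt (hZ.union hZ₀) ?_
    filter_upwards [hV₀.mem_nhds ht] with s hs hsZ
    rw [mem_union, not_or] at hsZ
    rw [(hf j hj).2.1 s (hsub hs) hsZ.1, hXx s hs hsZ.2 j hj.le]
  · intro t ht htZ j hj
    rw [(hf j hj).2.1 t ht htZ]
    exact ((hgood t (hZD t ht htZ)).1 j hj.le).2
  · intro t ht htZ j hj
    rw [(hf (j + 1) hj).2.1 t ht htZ, (hf j (by omega)).2.1 t ht htZ]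
    exact (hgood t (hZD t ht htZ)).2 j (by omega)
  · intro t ht htZ j hj
    rw [(hf (j + 2) hj).2.1 t ht htZ, (hf (j + 1) (by omega)).2.1 t ht htZ,
      (hf j (by omega)).2.1 t ht htZ, LC.X_sub]
    ring

end Pool.Agent.MP_ae5b4e_an_MERO
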