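import Mathlib
import Pool.Agent.Lib.MP_ae5b4e_an_MERO.Defs

/-!
# MERO, module LJ: joint continuity of the leaves (Lemma J)
-/

namespace Pool.Agent.MP_ae5b4e_an_MERO

open Complex Set Filter Topology Metric

namespace LemmaJ

/-- a radius avoiding a countable set -/
theorem exists_radius {Z : Set ℂ} (hZ : Z.Countable) (t0 : ℂ) {ε : ℝ} (hε : 0 < ε) :
    ∃ s : ℝ, 0 < s ∧ s < ε ∧ ∀ z ∈ sphere t0 s, z ∉ Z := by
  have h1 : ((fun z : ℂ => dist z t0) '' Z).Countable := hZ.image _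
  have h2 : ¬ (Ioo (0 : ℝ) ε).Countable := by
    intro hc
    have h3 := (Cardinal.mk_Ioo_real hε)
    have h4 := Cardinal.le_aleph0_iff_set_countable.2 hc
    rw [h3] at h4
    exact absurd h4 (not_le.2 Cardinal.aleph0_lt_continuum)
  have h5 : ∃ s ∈ Ioo (0 : ℝ) ε, s ∉ ((fun z : ℂ => dist z t0) '' Z) := by
    by_contra hne
    push Not at hne
    exact h2 (h1.mono fun s hs => hne s hs)
  obtain ⟨s, hs, hs'⟩ := h5
  refine ⟨s, hs.1, hs.2, ?_⟩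
  intro z hz hzZ
  exact hs' ⟨z, hzZ, hz⟩

/-- two functions continuous at a point which agree near it off a countable set agree there -/
theorem eq_of_countable {g h : ℂ → ℂ} {t : ℂ} {Z : Set ℂ} (hZ : Z.Countable)
    (hg : ContinuousAt g t) (hh : ContinuousAt h t)
    (he : ∀ᶠ z in 𝓝 t, z ∉ Z → g z = h z) : g t = h t := by
  have hd : Dense (Zᶜ) := hZ.dense_compl ℝ
  have hne : (𝓝[Zᶜ] t).NeBot := mem_closure_iff_nhdsWithin_neBot.1 (hd t)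
  have h1 : Tendsto g (𝓝[Zᶜ] t) (𝓝 (g t)) := hg.tendsto.mono_left nhdsWithin_le_nhds
  have h2 : Tendsto h (𝓝[Zᶜ] t) (𝓝 (h t)) := hh.tendsto.mono_left nhdsWithin_le_nhds
  have h3 : ∀ᶠ z in 𝓝[Zᶜ] t, g z = h z := by
    have h4 := nhdsWithin_le_nhds (s := Zᶜ) he
    filter_upwards [h4, self_mem_nhdsWithin] with z hz hz'
    exact hz hz'
  exact tendsto_nhds_unique (h1.congr' h3) h2

/-- joint continuity from joint continuity on a circle: analytic functions of `t` -/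
theorem cont_of_circle {F : ℝ → ℂ → ℂ} {V : Set ℂ} {I : Set ℝ} (hI : IsOpen I)
    (han : ∀ ρ ∈ I, AnalyticOnNhd ℂ (F ρ) V) {t0 : ℂ} {r0 s : ℝ} (hr0 : r0 ∈ I) (hs : 0 < s)
    (hsV : closedBall t0 s ⊆ V)
    (hc : ∀ z ∈ sphere t0 s, ContinuousAt (fun p : ℂ × ℝ => F p.2 p.1) (z, r0)) :
    ContinuousAt (fun p : ℂ × ℝ => F p.2 p.1) (t0, r0) := by
  have hc0 : ContinuousAt (F r0) t0 :=
    (han r0 hr0 t0 (hsV (mem_closedBall_self hs.le))).continuousAt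
  rw [Metric.continuousAt_iff']
  intro ε hε
  -- uniform closeness on the circle
  have h1 : ∀ᶠ ρ in 𝓝 r0, ∀ z ∈ sphere t0 s, ‖F ρ z - F r0 z‖ ≤ ε / 3 := by
    refine (isCompact_sphere t0 s).eventually_forall_of_forall_eventually ?_
    intro z hz
    have hzV : z ∈ V := hsV (sphere_subset_closedBall hz)
    have h2 : ContinuousAt (fun p : ℂ × ℝ => F p.2 p.1 - F r0 p.1) (z, r0) := by
      refine (hc z hz).sub ?_
      exact ContinuousAt.comp (f := fun p : ℂ × ℝ => p.1) (g := F r0) (x := (z, r0))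
        (han r0 hr0 z hzV).continuousAt continuousAt_fst
    have h3 : ∀ᶠ p : ℂ × ℝ in 𝓝 (z, r0), ‖F p.2 p.1 - F r0 p.1‖ ≤ ε / 3 := by
      have h4 := h2.norm
      have h5 : (fun p : ℂ × ℝ => ‖F p.2 p.1 - F r0 p.1‖) (z, r0) < ε / 3 := by
        simp only [sub_self, norm_zero]
        positivity
      filter_upwards [h4.eventually_lt continuousAt_const h5] with p hp
      exact hp.le
    have h6 : Tendsto (fun q : ℝ × ℂ => (q.2, q.1)) (𝓝 (r0, z)) (𝓝 (z, r0)) :=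
      (continuous_swap (X := ℝ) (Y := ℂ)).tendsto (r0, z)
    exact h6.eventually h3
  have h7 : ∀ᶠ ρ in 𝓝 r0, ∀ t ∈ closedBall t0 s, ‖F ρ t - F r0 t‖ ≤ ε / 3 := by
    filter_upwards [h1, hI.mem_nhds hr0] with ρ hρ hρI
    intro t ht
    have hd : DiffContOnCl ℂ (fun z => F ρ z - F r0 z) (ball t0 s) := by
      have hcl : closure (ball t0 s) ⊆ V := closure_ball_subset_closedBall.trans hsV
      refine DifferentiableOn.diffContOnCl ?_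
      refine DifferentiableOn.sub ?_ ?_
      · exact (han ρ hρI).differentiableOn.mono hcl
      · exact (han r0 hr0).differentiableOn.mono hcl
    have hfr : ∀ z ∈ frontier (ball t0 s), ‖(fun z => F ρ z - F r0 z) z‖ ≤ ε / 3 := by
      intro z hz
      rw [frontier_ball t0 hs.ne'] at hz
      exact hρ z hz
    have hcl2 : t ∈ closure (ball t0 s) := by
      rw [closure_ball t0 hs.ne']
      exact ht
    exact Complex.norm_le_of_forall_mem_frontier_norm_le isBounded_ball hd hfr hcl2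
  have h8 : ∀ᶠ t in 𝓝 t0, dist (F r0 t) (F r0 t0) < ε / 3 :=
    (Metric.continuousAt_iff'.1 hc0) (ε / 3) (by positivity)
  have h9 : ∀ᶠ t in 𝓝 t0, t ∈ closedBall t0 s := closedBall_mem_nhds t0 hs
  rw [nhds_prod_eq]
  filter_upwards [(h8.and h9).prod_mk h7] with p hp
  obtain ⟨⟨hp1, hp2⟩, hp3⟩ := hp
  have h10 := hp3 p.1 hp2
  rw [dist_eq_norm] at hp1 ⊢
  calc ‖F p.2 p.1 - F r0 t0‖ = ‖(F p.2 p.1 - F r0 p.1) + (F r0 p.1 - F r0 t0)‖ := by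
        rw [sub_add_sub_cancel]
    _ ≤ ‖F p.2 p.1 - F r0 p.1‖ + ‖F r0 p.1 - F r0 t0‖ := norm_add_le _ _
    _ < ε := by linarith

/-- the induction step -/
theorem step {k : ℂ → ℂ} {V : Set ℂ} (hV : IsOpen V) {I : Set ℝ} (hI : IsOpen I)
    {f0 f1 f2 : ℝ → ℂ → ℂ}
    (h0 : ContinuousOn (fun p : ℂ × ℝ => f0 p.2 p.1) (V ×ˢ I))
    (h1 : ContinuousOn (fun p : ℂ × ℝ => f1 p.2 p.1) (V ×ˢ I))
    (han : ∀ ρ ∈ I, AnalyticOnNhd ℂ (f2 ρ) V)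
    (hgood : ∀ ρ ∈ I, ∃ Z : Set ℂ, Z.Countable ∧ ∀ t ∈ V, t ∉ Z →
      AnalyticAt ℂ k (f1 ρ t) ∧ f1 ρ t ≠ f0 ρ t ∧ f2 ρ t ≠ f1 ρ t ∧
        (f2 ρ t - f1 ρ t)⁻¹ + (f0 ρ t - f1 ρ t)⁻¹ = k (f1 ρ t)) :
    ContinuousOn (fun p : ℂ × ℝ => f2 p.2 p.1) (V ×ˢ I) := by
  have hVI : IsOpen (V ×ˢ I) := hV.prod hI
  have c0 : ∀ p ∈ V ×ˢ I, ContinuousAt (fun p : ℂ × ℝ => f0 p.2 p.1) p :=
    fun p hp => h0.continuousAt (hVI.mem_nhds hp)
  have c1 : ∀ p ∈ V ×ˢ I, ContinuousAt (fun p : ℂ × ℝ => f1 p.2 p.1) p :=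
    fun p hp => h1.continuousAt (hVI.mem_nhds hp)
  let D : ℂ × ℝ → ℂ := fun p => k (f1 p.2 p.1) - (f0 p.2 p.1 - f1 p.2 p.1)⁻¹
  let Psi : ℂ × ℝ → ℂ := fun p => f1 p.2 p.1 + (D p)⁻¹
  let W : Set (ℂ × ℝ) := {p | p ∈ V ×ˢ I ∧ AnalyticAt ℂ k (f1 p.2 p.1) ∧
    f0 p.2 p.1 - f1 p.2 p.1 ≠ 0 ∧ D p ≠ 0}
  have cD : ∀ p ∈ V ×ˢ I, AnalyticAt ℂ k (f1 p.2 p.1) → f0 p.2 p.1 - f1 p.2 p.1 ≠ 0 →
      ContinuousAt D p := by
    intro p hp hk hne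
    refine ContinuousAt.sub ?_ ?_
    · exact ContinuousAt.comp (f := fun p : ℂ × ℝ => f1 p.2 p.1) (g := k) (x := p)
        hk.continuousAt (c1 p hp)
    · exact ((c0 p hp).sub (c1 p hp)).inv₀ hne
  have cPsi : ∀ p ∈ W, ContinuousAt Psi p := by
    intro p hp
    exact (c1 p hp.1).add ((cD p hp.1 hp.2.1 hp.2.2.1).inv₀ hp.2.2.2)
  have hWo : ∀ p ∈ W, W ∈ 𝓝 p := by
    intro p hp
    have e1 : ∀ᶠ q in 𝓝 p, q ∈ V ×ˢ I := hVI.mem_nhds hp.1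
    have e2 : ∀ᶠ q : ℂ × ℝ in 𝓝 p, AnalyticAt ℂ k (f1 q.2 q.1) :=
      (c1 p hp.1).eventually (hp.2.1.eventually_analyticAt)
    have e3 : ∀ᶠ q : ℂ × ℝ in 𝓝 p, f0 q.2 q.1 - f1 q.2 q.1 ≠ 0 :=
      ((c0 p hp.1).sub (c1 p hp.1)).eventually_ne hp.2.2.1
    have e4 : ∀ᶠ q : ℂ × ℝ in 𝓝 p, D q ≠ 0 :=
      (cD p hp.1 hp.2.1 hp.2.2.1).eventually_ne hp.2.2.2
    filter_upwards [e1, e2, e3, e4] with q a b c d
    exact ⟨a, b, c, d⟩
  -- on `W` the function is `Psi`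
  have hsolve : ∀ (ρ : ℝ) (t : ℂ), f2 ρ t ≠ f1 ρ t →
      (f2 ρ t - f1 ρ t)⁻¹ + (f0 ρ t - f1 ρ t)⁻¹ = k (f1 ρ t) →
      D (t, ρ) = (f2 ρ t - f1 ρ t)⁻¹ ∧ D (t, ρ) ≠ 0 ∧ f2 ρ t = Psi (t, ρ) := by
    intro ρ t hne hrel
    have hD : D (t, ρ) = (f2 ρ t - f1 ρ t)⁻¹ := by
      simp only [D]
      rw [← hrel]
      ring
    refine ⟨hD, ?_, ?_⟩
    · rw [hD]
      exact inv_ne_zero (sub_ne_zero.2 hne)
    · simp only [Psi]
      rw [hD, inv_inv]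
      ring
  have hW : ∀ p ∈ W, f2 p.2 p.1 = Psi p := by
    rintro ⟨t, ρ⟩ hp
    have hρ : ρ ∈ I := hp.1.2
    have htV : t ∈ V := hp.1.1
    obtain ⟨Z, hZ, hZ'⟩ := hgood ρ hρ
    have hin : Tendsto (fun z : ℂ => (z, ρ)) (𝓝 t) (𝓝 (t, ρ)) :=
      (Continuous.prodMk_left ρ).tendsto t
    refine eq_of_countable (g := f2 ρ) (h := fun z => Psi (z, ρ)) (t := t) hZ
      (han ρ hρ t htV).continuousAt ?_ ?_
    · exact ContinuousAt.comp (f := fun z : ℂ => (z, ρ)) (g := Psi) (x := t) (cPsi _ hp) hin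
    · filter_upwards [hV.mem_nhds htV] with z hz hzZ
      obtain ⟨_, _, a3, a4⟩ := hZ' z hz hzZ
      exact (hsolve ρ z a3 a4).2.2
  have hWc : ∀ p ∈ W, ContinuousAt (fun p : ℂ × ℝ => f2 p.2 p.1) p := by
    intro p hp
    refine (cPsi p hp).congr ?_
    filter_upwards [hWo p hp] with q hq
    exact (hW q hq).symm
  rintro ⟨t0, r0⟩ hp0
  obtain ⟨Z, hZ, hZ'⟩ := hgood r0 hp0.2
  obtain ⟨ε, hε, hεV⟩ := Metric.isOpen_iff.1 hV t0 hp0.1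
  obtain ⟨s, hs, hsε, hsZ⟩ := exists_radius hZ t0 hε
  have hsV : closedBall t0 s ⊆ V := (closedBall_subset_ball hsε).trans hεV
  refine (cont_of_circle hI han hp0.2 hs hsV ?_).continuousWithinAt
  intro z hz
  apply hWc
  have hzV : z ∈ V := hsV (sphere_subset_closedBall hz)
  obtain ⟨a1, a2, a3, a4⟩ := hZ' z hzV (hsZ z hz)
  refine ⟨⟨hzV, hp0.2⟩, a1, ?_, (hsolve r0 z a3 a4).2.1⟩
  exact sub_ne_zero.2 (Ne.symm a2)

end LemmaJ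

theorem lemmaJ {k : ℂ → ℂ} {V : Set ℂ} (hV : IsOpen V) {I : Set ℝ} (hI : IsOpen I) {N : ℕ}
    {f : ℕ → ℝ → ℂ → ℂ}
    (h0 : ContinuousOn (fun p : ℂ × ℝ => f 0 p.2 p.1) (V ×ˢ I))
    (h1 : ContinuousOn (fun p : ℂ × ℝ => f 1 p.2 p.1) (V ×ˢ I))
    (han : ∀ j < N, ∀ ρ ∈ I, AnalyticOnNhd ℂ (f j ρ) V)
    (hgood : ∀ ρ ∈ I, ∃ Z : Set ℂ, Z.Countable ∧ ∀ t ∈ V, t ∉ Z →
      (∀ j < N, AnalyticAt ℂ k (f j ρ t)) ∧ (∀ j, j + 1 < N → f (j + 1) ρ t ≠ f j ρ t) ∧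
      ∀ j, j + 2 < N →
        (f (j + 2) ρ t - f (j + 1) ρ t)⁻¹ + (f j ρ t - f (j + 1) ρ t)⁻¹ = k (f (j + 1) ρ t))
    {j : ℕ} (hj : j < N) : ContinuousOn (fun p : ℂ × ℝ => f j p.2 p.1) (V ×ˢ I) := by
  induction j using Nat.strong_induction_on with
  | _ j ih =>
    rcases j with _ | _ | j
    · exact h0
    · exact h1
    · refine LemmaJ.step (k := k) hV hI (ih j (by omega) (by omega)) (ih (j + 1) (by omega) (by omega))
        (han (j + 2) hj) ?_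
      intro ρ hρ
      obtain ⟨Z, hZ, hZ'⟩ := hgood ρ hρ
      refine ⟨Z, hZ, fun t ht htZ => ?_⟩
      obtain ⟨a1, a2, a3⟩ := hZ' t ht htZ
      exact ⟨a1 (j + 1) (by omega), a2 j (by omega), a2 (j + 1) (by omega), a3 j hj⟩

end Pool.Agent.MP_ae5b4e_an_MERO
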