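import Mathlib
import Pool.Agent.Lib.MP_ae5b4e_an_MERO.Defs
import Pool.Agent.Lib.MP_ae5b4e_an_MERO.LemmaC
import Pool.Agent.Lib.MP_ae5b4e_an_MERO.LemmaJ
import Pool.Agent.Lib.MP_ae5b4e_an_MERO.ExtReal
import Pool.Agent.Lib.MP_ae5b4e_an_MERO.ExtBasic

/-!
# MP_ae5b4e_an, project MERO, module BR: continuation of the family beyond a regular point
-/

noncomputable section

namespace Pool.Agent.MP_ae5b4e_an_MERO

open Complex Set Filter Topology Metric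

namespace ExtBeyond

/-- a nonempty open set is not countable -/
lemma exists_notMem {W Z : Set ℂ} (hW : IsOpen W) (hne : W.Nonempty) (hZ : Z.Countable) :
    ∃ t ∈ W, t ∉ Z := by
  obtain ⟨t, ht1, ht2⟩ := (hZ.dense_compl ℂ).inter_open_nonempty W hW hne
  exact ⟨t, ht1, ht2⟩

/-- identity theorem -/
lemma ident {E : Type*} [NormedAddCommGroup E] [NormedSpace ℂ E] {f g : E → ℂ} {V W : Set E}
    (hf : AnalyticOnNhd ℂ f V) (hg : AnalyticOnNhd ℂ g V) (hV : IsPreconnected V) (hW : IsOpen W)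
    (hWV : W ⊆ V) (hne : W.Nonempty) (h : EqOn f g W) : EqOn f g V := by
  obtain ⟨t, ht⟩ := hne
  exact hf.eqOn_of_preconnected_of_eventuallyEq hg hV (hWV ht)
    (h.eventuallyEq_of_mem (hW.mem_nhds ht))

lemma slice_an {G : ℂ × ℂ → ℂ} {s ρ t : ℂ} (h : AnalyticAt ℂ G (t + s, ρ)) :
    AnalyticAt ℂ (fun t => G (t + s, ρ)) t := by
  have h1 : AnalyticAt ℂ (fun t : ℂ => ((t + s, ρ) : ℂ × ℂ)) t := by fun_prop
  exact AnalyticAt.fun_comp (f := fun t : ℂ => ((t + s, ρ) : ℂ × ℂ)) h h1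

lemma slice_an0 {G : ℂ × ℂ → ℂ} {ρ t : ℂ} (h : AnalyticAt ℂ G (t, ρ)) :
    AnalyticAt ℂ (fun t => G (t, ρ)) t := by
  have h1 : AnalyticAt ℂ (fun t : ℂ => ((t, ρ) : ℂ × ℂ)) t := by fun_prop
  exact AnalyticAt.fun_comp (f := fun t : ℂ => ((t, ρ) : ℂ × ℂ)) h h1

lemma mem_ball_real {ρ r : ℝ} (h0 : 0 < ρ) (h1 : ρ < r) : (ρ : ℂ) ∈ ball (0:ℂ) r := by
  rw [mem_ball_zero_iff, Complex.norm_real, Real.norm_eq_abs, abs_of_pos h0]
  exact h1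

lemma mem_St_add {a b : ℝ} {t : ℂ} (ht : t ∈ St a b) (s : ℝ) : t + s ∈ St a b := by
  have : (t + s).im = t.im := by simp
  exact ⟨by rw [this]; exact ht.1, by rw [this]; exact ht.2⟩

lemma mem_St_sub {a b : ℝ} {t : ℂ} (ht : t ∈ St a b) (s : ℝ) : t - s ∈ St a b := by
  have : (t - s).im = t.im := by simp
  exact ⟨by rw [this]; exact ht.1, by rw [this]; exact ht.2⟩

/-- The situation near a regular point `b` of the line `Im t = h₁`: `G` is the continuation of `F`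
to the height `H₀`, `g` is the germ at `b`. -/
structure Ctx (k : ℂ → ℂ) (F g G : ℂ × ℂ → ℂ) (c h₁ d H₀ r₀ : ℝ) (b : ℂ) : Prop where
  hA : CSing k
  hk : Nrm k
  hinf : SingInf k
  hD : Dat k F c
  hb : b.im = h₁
  hd : 0 < d
  hdc : 8 * d ≤ c
  hg : AnalyticOnNhd ℂ g (ball b (8 * d) ×ˢ ball 0 (8 * d))
  hcH : c ≤ H₀
  hH : h₁ - d / 8 ≤ H₀
  hH' : H₀ ≤ h₁
  hG : AnalyticOnNhd ℂ G (St (-c) H₀ ×ˢ ball 0 r₀)
  hGF : EqOn G F (St (-c) c ×ˢ ball 0 r₀)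
  hper : ∀ p ∈ St (-c) H₀ ×ˢ ball (0:ℂ) r₀, G (p.1 + 1, p.2) = G p
  hr : 0 < r₀
  hrd : r₀ ≤ d / 4
  hrc : r₀ ≤ c
  hGg : EqOn g G ((ball b (8 * d) ∩ St (-c) H₀) ×ˢ ball 0 r₀)

variable {k : ℂ → ℂ} {F g G : ℂ × ℂ → ℂ} {c h₁ d H₀ r₀ : ℝ} {b : ℂ}

lemma Ctx.Gslice (C : Ctx k F g G c h₁ d H₀ r₀ b) {ρ : ℝ} (h0 : 0 < ρ) (h1 : ρ < r₀) :
    AnalyticOnNhd ℂ (fun t => G (t, ρ)) (St (-c) H₀) :=
  fun _ ht => slice_an0 (C.hG _ ⟨ht, mem_ball_real h0 h1⟩)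

lemma Ctx.nonconst (C : Ctx k F g G c h₁ d H₀ r₀ b) {ρ : ℝ} (h0 : 0 < ρ) (h1 : ρ < r₀)
    {W : Set ℂ} (hW : IsOpen W) (hWS : W ⊆ St (-c) H₀) (hne : W.Nonempty) (e : ℂ) :
    ∃ t ∈ W, G (t, ρ) ≠ e := by
  by_contra hcon
  push Not at hcon
  have hid : EqOn (fun t => G (t, ρ)) (fun _ => e) (St (-c) H₀) :=
    ident (C.Gslice h0 h1) analyticOnNhd_const (convex_St _ _).isPreconnected hW hWS hne hcon
  have hc := C.hD.pos
  have m0 : (0:ℂ) ∈ St (-c) c := by simp [St, hc]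
  have m0' : (0:ℂ) ∈ St (-c) H₀ := ⟨m0.1, m0.2.trans_le C.hcH⟩
  have mr : (0:ℂ) + (ρ:ℂ) ∈ St (-c) c := mem_St_add m0 ρ
  have mr' : (0:ℂ) + (ρ:ℂ) ∈ St (-c) H₀ := mem_St_add m0' ρ
  have hρ : (ρ:ℂ) ∈ ball (0:ℂ) r₀ := mem_ball_real h0 h1
  have hρc : (ρ:ℂ) ∈ ball (0:ℂ) c := mem_ball_real h0 (h1.trans_le C.hrc)
  apply C.hD.sep (0, ρ) ⟨m0, hρc⟩ (by simpa using h0.ne') mr
  rw [← C.hGF (show ((0:ℂ), (ρ:ℂ)) ∈ _ from ⟨m0, hρ⟩),
    ← C.hGF (show ((0:ℂ) + (ρ:ℂ), (ρ:ℂ)) ∈ _ from ⟨mr, hρ⟩)]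
  exact (hid mr').trans (hid m0').symm

/-- the functional equation on the strip -/
lemma Ctx.strip (C : Ctx k F g G c h₁ d H₀ r₀ b) {ρ : ℝ} (h0 : 0 < ρ) (h1 : ρ < r₀) :
    (∀ t ∈ St (-c) H₀, MeromorphicNFAt k (G (t, ρ))) ∧ ∃ Z : Set ℂ, Z.Countable ∧
      ∀ t ∈ St (-c) H₀, t ∉ Z → AnalyticAt ℂ k (G (t, ρ)) ∧ G (t + ρ, ρ) ≠ G (t, ρ) ∧
      (G (t + ρ, ρ) - G (t, ρ))⁻¹ + (G (t - ρ, ρ) - G (t, ρ))⁻¹ = k (G (t, ρ)) := by
  have hρ : (ρ:ℂ) ∈ ball (0:ℂ) r₀ := mem_ball_real h0 h1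
  have hρc : (ρ:ℂ) ∈ ball (0:ℂ) c := mem_ball_real h0 (h1.trans_le C.hrc)
  have hcS : St (-c) c ⊆ St (-c) H₀ := fun t ht => ⟨ht.1, ht.2.trans_le C.hcH⟩
  have hne : (St (-c) c).Nonempty := ⟨0, by simp [St, C.hD.pos]⟩
  refine slice_fe (f := fun t => G (t, ρ)) (ρ := ρ) C.hA C.hk (isOpen_St _ _) (convex_St _ _)
    (fun t ht => ⟨C.Gslice h0 h1 t ht, C.Gslice h0 h1 _ (mem_St_add ht ρ),
      C.Gslice h0 h1 _ (mem_St_sub ht ρ)⟩) (isOpen_St (-c) c) hcS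
    (C.nonconst h0 h1 (isOpen_St _ _) hcS hne) countable_empty ?_
  intro t ht _
  have e1 : G (t, ρ) = F (t, ρ) := C.hGF ⟨ht, hρ⟩
  have e2 : G (t + ρ, ρ) = F (t + ρ, ρ) := C.hGF ⟨mem_St_add ht ρ, hρ⟩
  have e3 : G (t - ρ, ρ) = F (t - ρ, ρ) := C.hGF ⟨mem_St_sub ht ρ, hρ⟩
  have hρ0 : ((t, (ρ:ℂ)) : ℂ × ℂ).2 ≠ 0 := by simpa using h0.ne'
  simp only [e1, e2, e3]
  exact ⟨C.hD.reg (t, ρ) ⟨ht, hρc⟩, C.hD.sep (t, ρ) ⟨ht, hρc⟩ hρ0 (mem_St_add ht ρ),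
    C.hD.fe (t, ρ) ⟨ht, hρc⟩ hρ0 (mem_St_add ht ρ) (mem_St_sub ht ρ)⟩

lemma Ctx.low_mem (C : Ctx k F g G c h₁ d H₀ r₀ b) {t : ℂ} (h1 : h₁ - 3 * d < t.im)
    (h2 : t.im < h₁ - d / 4) : t ∈ St (-c) H₀ := by
  have := C.hd
  have := C.hdc
  have := C.hH
  have := C.hH'
  have := C.hcH
  exact ⟨by linarith, by linarith⟩

/-- near `b` the function `k` is meromorphic at the values of `g` -/
lemma Ctx.mero (C : Ctx k F g G c h₁ d H₀ r₀ b) {ρ : ℝ} (h0 : 0 < ρ) (h1 : ρ < r₀) {t : ℂ}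
    (ht : t ∈ ball b (4 * d)) : MeromorphicAt k (g (t, ρ)) := by
  have hρ : (ρ:ℂ) ∈ ball (0:ℂ) r₀ := mem_ball_real h0 h1
  have hd := C.hd
  have hrd := C.hrd
  have hρ8 : (ρ:ℂ) ∈ ball (0:ℂ) (8 * d) := mem_ball_real h0 (by linarith)
  obtain ⟨-, Z, hZ, hfe⟩ := C.strip h0 h1
  have hadd : ∀ s ∈ ball b (4 * d), s + ρ ∈ ball b (8 * d) ∧ s - ρ ∈ ball b (8 * d) := by
    intro s hs
    rw [mem_ball, dist_eq_norm] at hs
    have hn : ‖(ρ:ℂ)‖ = ρ := by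
      rw [Complex.norm_real, Real.norm_eq_abs, abs_of_pos h0]
    constructor
    · rw [mem_ball, dist_eq_norm]
      calc ‖s + ρ - b‖ = ‖(s - b) + ρ‖ := by congr 1; ring
        _ ≤ ‖s - b‖ + ‖(ρ:ℂ)‖ := norm_add_le _ _
        _ < 8 * d := by rw [hn]; linarith
    · rw [mem_ball, dist_eq_norm]
      calc ‖s - ρ - b‖ = ‖(s - b) - ρ‖ := by congr 1; ring
        _ ≤ ‖s - b‖ + ‖(ρ:ℂ)‖ := norm_sub_le _ _
        _ < 8 * d := by rw [hn]; linarith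
  have hsub : ball b (4 * d) ⊆ ball b (8 * d) := ball_subset_ball (by linarith)
  have hUo : IsOpen (ball b (4 * d) ∩ St (-c) H₀) := isOpen_ball.inter (isOpen_St _ _)
  -- a point of U with its translate in U
  have hnc : ∀ e, ∃ t ∈ ball b (4 * d) ∩ St (-c) H₀, g (t, ρ) ≠ e := by
    intro e
    have hb' : b - (d / 2 : ℝ) * I ∈ ball b (4 * d) ∩ St (-c) H₀ := by
      constructor
      · rw [mem_ball, dist_eq_norm]
        have : b - (d / 2 : ℝ) * I - b = -((d / 2 : ℝ) * I) := by ring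
        rw [this, norm_neg, norm_mul, Complex.norm_real, norm_I, Real.norm_eq_abs,
          abs_of_pos (by linarith)]
        linarith
      · have him : (b - (d / 2 : ℝ) * I).im = h₁ - d / 2 := by
          simp [C.hb]
        exact C.low_mem (by rw [him]; linarith) (by rw [him]; linarith)
    obtain ⟨t, ht, hne⟩ := C.nonconst h0 h1 hUo (fun t ht => ht.2) ⟨_, hb'⟩ e
    refine ⟨t, ht, ?_⟩
    rw [C.hGg (show ((t, (ρ:ℂ)) : ℂ × ℂ) ∈ _ from ⟨⟨hsub ht.1, ht.2⟩, hρ⟩)]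
    exact hne
  have key := slice_fe (f := fun t => g (t, ρ)) (ρ := ρ) C.hA C.hk isOpen_ball
    (convex_ball b (4 * d))
    (fun t ht => ⟨slice_an0 (C.hg _ ⟨hsub ht, hρ8⟩), slice_an0 (C.hg _ ⟨(hadd t ht).1, hρ8⟩),
      slice_an0 (C.hg _ ⟨(hadd t ht).2, hρ8⟩)⟩) hUo inter_subset_left hnc hZ ?_
  · exact (key.1 t ht).meromorphicAt
  · intro s hs hsZ
    have e1 : g (s, ρ) = G (s, ρ) := C.hGg ⟨⟨hsub hs.1, hs.2⟩, hρ⟩
    have e2 : g (s + ρ, ρ) = G (s + ρ, ρ) :=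
      C.hGg ⟨⟨(hadd s hs.1).1, mem_St_add hs.2 ρ⟩, hρ⟩
    have e3 : g (s - ρ, ρ) = G (s - ρ, ρ) :=
      C.hGg ⟨⟨(hadd s hs.1).2, mem_St_sub hs.2 ρ⟩, hρ⟩
    simp only [e1, e2, e3]
    exact hfe s hs.2 hsZ

lemma Ctx.int_per (C : Ctx k F g G c h₁ d H₀ r₀ b) {ρ : ℝ} (h0 : 0 < ρ) (h1 : ρ < r₀) {t : ℂ}
    (ht : t ∈ St (-c) H₀) (n : ℤ) : G (t + (n : ℝ), ρ) = G (t, ρ) := by
  have hρ : (ρ:ℂ) ∈ ball (0:ℂ) r₀ := mem_ball_real h0 h1
  have hp : Function.Periodic (fun s : ℝ => G (t + s, ρ)) 1 := by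
    intro s
    have := C.hper (t + s, ρ) ⟨mem_St_add ht s, hρ⟩
    simp only at this ⊢
    rw [← this]
    congr 2
    push_cast
    ring
  have := hp.int_mul n 0
  simp only [zero_add, mul_one, ofReal_zero, add_zero] at this
  exact this

/-- the discs near the line -/
def VV (h₁ d a : ℝ) : Set ℂ := ball (⟨a, h₁ - d / 2⟩ : ℂ) d

/-- the lower parts of the discs -/
def WW (h₁ d a : ℝ) : Set ℂ := VV h₁ d a ∩ {t | t.im < h₁ - d / 4}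

lemma isOpen_VV (h₁ d a : ℝ) : IsOpen (VV h₁ d a) := isOpen_ball

lemma isOpen_WW (h₁ d a : ℝ) : IsOpen (WW h₁ d a) :=
  isOpen_ball.inter (isOpen_lt continuous_im continuous_const)

lemma convex_VV (h₁ d a : ℝ) : Convex ℝ (VV h₁ d a) := convex_ball _ _

lemma convex_low (h : ℝ) : Convex ℝ {t : ℂ | t.im < h} := by
  have : {t : ℂ | t.im < h} = im ⁻¹' Iio h := rfl
  rw [this]
  exact (convex_Iio h).is_linear_preimage (f := im) ⟨fun _ _ => rfl, by simp⟩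

lemma convex_WW (h₁ d a : ℝ) : Convex ℝ (WW h₁ d a) :=
  (convex_ball _ _).inter (convex_low _)

lemma WW_subset (h₁ d a : ℝ) : WW h₁ d a ⊆ VV h₁ d a := inter_subset_left

lemma VV_im {h₁ d a : ℝ} {t : ℂ} (ht : t ∈ VV h₁ d a) :
    h₁ - 3 * d / 2 < t.im ∧ t.im < h₁ + d / 2 := by
  rw [VV, mem_ball, dist_eq_norm] at ht
  have := (abs_im_le_norm (t - ⟨a, h₁ - d / 2⟩)).trans_lt ht
  rw [Complex.sub_im, abs_lt] at this
  constructor <;> [linarith [this.1]; linarith [this.2]]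

lemma VV_re {h₁ d a : ℝ} {t : ℂ} (ht : t ∈ VV h₁ d a) : |t.re - a| < d := by
  rw [VV, mem_ball, dist_eq_norm] at ht
  have := (abs_re_le_norm (t - ⟨a, h₁ - d / 2⟩)).trans_lt ht
  rwa [Complex.sub_re] at this

lemma mk_mem_VV {h₁ d a u v : ℝ} (h : |u - a| + |v - (h₁ - d / 2)| < d) :
    (⟨u, v⟩ : ℂ) ∈ VV h₁ d a := by
  rw [VV, mem_ball, dist_eq_norm]
  refine lt_of_le_of_lt (Complex.norm_le_abs_re_add_abs_im _) ?_
  simpa using h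

lemma mem_VV {h₁ d : ℝ} {t : ℂ} (h1 : h₁ - 3 * d / 2 < t.im) (h2 : t.im < h₁ + d / 2) :
    t ∈ VV h₁ d t.re := by
  have : t = (⟨t.re, t.im⟩ : ℂ) := rfl
  conv_lhs => rw [this]
  apply mk_mem_VV
  rw [sub_self, abs_zero, zero_add, abs_lt]
  constructor <;> linarith

lemma center_mem {h₁ d a u : ℝ} (h : |u - a| < d) (hd : 0 < d) :
    (⟨u, h₁ - d / 2⟩ : ℂ) ∈ WW h₁ d a := by
  refine ⟨mk_mem_VV (by simpa using h), ?_⟩
  show h₁ - d / 2 < h₁ - d / 4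
  linarith

/-- translates of the discs -/
lemma Ctx.shift_mem (C : Ctx k F g G c h₁ d H₀ r₀ b) {a s : ℝ} {t : ℂ} (ht : t ∈ VV h₁ d a)
    (hs : |a + s - b.re| < 5 * d / 4) : t + s ∈ ball b (3 * d) := by
  have hd := C.hd
  rw [VV, mem_ball, dist_eq_norm] at ht
  rw [mem_ball, dist_eq_norm]
  have e : t + s - b = (t - ⟨a, h₁ - d / 2⟩) + ((⟨a, h₁ - d / 2⟩ : ℂ) + s - b) := by ring
  have h2 : ‖(⟨a, h₁ - d / 2⟩ : ℂ) + s - b‖ < 7 * d / 4 := by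
    refine lt_of_le_of_lt (Complex.norm_le_abs_re_add_abs_im _) ?_
    simp only [Complex.sub_re, Complex.add_re, ofReal_re, Complex.sub_im, Complex.add_im,
      ofReal_im, C.hb]
    have : |h₁ - d / 2 + 0 - h₁| = d / 2 := by
      rw [show h₁ - d / 2 + 0 - h₁ = -(d / 2) by ring, abs_neg, abs_of_pos (by linarith)]
    rw [this]
    linarith
  rw [e]
  calc _ ≤ _ := norm_add_le _ _
    _ < 3 * d := by linarith

lemma Ctx.WW_mem (C : Ctx k F g G c h₁ d H₀ r₀ b) {a : ℝ} {t : ℂ} (ht : t ∈ WW h₁ d a) :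
    t ∈ St (-c) H₀ := by
  have h := VV_im ht.1
  have := C.hd
  exact C.low_mem (by linarith [h.1]) ht.2

/-- local continuation, one value of `ρ` -/
lemma Ctx.chain (C : Ctx k F g G c h₁ d H₀ r₀ b) {a ρ : ℝ} (h0 : 0 < ρ) (h1 : ρ < r₀)
    {M K : ℕ} (hK : 1 ≤ K) (hM : 1 ≤ M) {m n : ℤ} (hm : |a - M * ρ - m - b.re| < d)
    (hn : |a + K * ρ - n - b.re| < d) :
    ∃ (f : ℕ → ℂ → ℂ) (Z : Set ℂ), Z.Countable ∧
      (∀ j < M + K, AnalyticOnNhd ℂ (f j) (VV h₁ d a) ∧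
        EqOn (f j) (fun t => G (t + ((j - M) * ρ : ℝ), ρ)) (WW h₁ d a)) ∧
      EqOn (f 0) (fun t => g (t + (((0:ℕ) - M) * ρ - m : ℝ), ρ)) (VV h₁ d a) ∧
      EqOn (f 1) (fun t => g (t + (((1:ℕ) - M) * ρ - m : ℝ), ρ)) (VV h₁ d a) ∧
      ∀ t ∈ VV h₁ d a, t ∉ Z → (∀ j < M + K, AnalyticAt ℂ k (f j t)) ∧
        (∀ j, j + 1 < M + K → f (j + 1) t ≠ f j t) ∧
        ∀ j, j + 2 < M + K →
        (f (j + 2) t - f (j + 1) t)⁻¹ + (f j t - f (j + 1) t)⁻¹ = k (f (j + 1) t) := by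
  classical
  have hd := C.hd
  have hrd := C.hrd
  have hρ : (ρ:ℂ) ∈ ball (0:ℂ) r₀ := mem_ball_real h0 h1
  have hρ8 : (ρ:ℂ) ∈ ball (0:ℂ) (8 * d) := mem_ball_real h0 (by linarith)
  obtain ⟨-, Z, hZ, hfe⟩ := C.strip h0 h1
  let sh : ℕ → ℝ := fun j => (j - M) * ρ
  let y : ℕ → ℂ → ℂ := fun j t => G (t + (sh j : ℝ), ρ)
  let x : ℕ → ℂ → ℂ := fun j => if j ≤ 1 then fun t => g (t + (sh j - m : ℝ), ρ)
    else if j = M + K then fun t => g (t + (sh j - n : ℝ), ρ) else y j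
  have hx0 : x 0 = fun t => g (t + (sh 0 - m : ℝ), ρ) := by simp [x]
  have hx1 : x 1 = fun t => g (t + (sh 1 - m : ℝ), ρ) := by simp [x]
  have hxN : x (M + K) = fun t => g (t + (sh (M + K) - n : ℝ), ρ) := by
    have : ¬ (M + K ≤ 1) := by omega
    simp [x, this]
  have s0 : |a + (sh 0 - m) - b.re| < 5 * d / 4 := by
    have : a + (sh 0 - m) - b.re = a - M * ρ - m - b.re := by
      simp only [sh]; push_cast; ring
    rw [this]; linarith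
  have s1 : |a + (sh 1 - m) - b.re| < 5 * d / 4 := by
    have : a + (sh 1 - m) - b.re = (a - M * ρ - m - b.re) + ρ := by
      simp only [sh]; push_cast; ring
    rw [this]
    refine lt_of_le_of_lt (abs_add_le _ _) ?_
    rw [abs_of_pos h0]
    linarith
  have sN : |a + (sh (M + K) - n) - b.re| < 5 * d / 4 := by
    have : a + (sh (M + K) - n) - b.re = a + K * ρ - n - b.re := by
      simp only [sh]; push_cast; ring
    rw [this]; linarith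
  have hb3 : ball b (3 * d) ⊆ ball b (8 * d) := ball_subset_ball (by linarith)
  have hb4 : ball b (3 * d) ⊆ ball b (4 * d) := ball_subset_ball (by linarith)
  have hgG : ∀ t ∈ WW h₁ d a, ∀ (s : ℝ) (q : ℤ), |a + (s - q) - b.re| < 5 * d / 4 →
      g (t + (s - q : ℝ), ρ) = G (t + (s : ℝ), ρ) := by
    intro t ht s q hs
    have h3 := C.shift_mem ht.1 hs
    have hS : t + (s - q : ℝ) ∈ St (-c) H₀ := mem_St_add (C.WW_mem ht) _
    rw [C.hGg (show ((t + (s - q : ℝ), (ρ:ℂ)) : ℂ × ℂ) ∈ _ from ⟨⟨hb3 h3, hS⟩, hρ⟩)]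
    have := C.int_per h0 h1 hS q
    rw [← this]
    congr 2
    push_cast
    ring
  have hxy : ∀ j, EqOn (x j) (y j) (WW h₁ d a) := by
    intro j t ht
    by_cases hj : j ≤ 1
    · have : j = 0 ∨ j = 1 := by omega
      rcases this with rfl | rfl
      · rw [hx0]; exact hgG t ht _ _ s0
      · rw [hx1]; exact hgG t ht _ _ s1
    · by_cases hj2 : j = M + K
      · subst hj2
        rw [hxN]; exact hgG t ht _ _ sN
      · simp [x, hj, hj2]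
  have hyan : ∀ j, AnalyticOnNhd ℂ (y j) (WW h₁ d a) := fun j t ht =>
    slice_an (C.hG _ ⟨mem_St_add (C.WW_mem ht) _, hρ⟩)
  have hne : (WW h₁ d a).Nonempty := ⟨_, center_mem (u := a) (by simpa using hd) hd⟩
  have hxan : ∀ j, AnalyticOnNhd ℂ (x j) (WW h₁ d a) := fun j =>
    (hyan j).congr (isOpen_WW _ _ _) (hxy j).symm
  -- the translated lower part
  have hshift : ∀ s : ℝ, IsOpen ((fun t : ℂ => t - (s:ℂ)) ⁻¹' WW h₁ d a) ∧
      ((fun t : ℂ => t - (s:ℂ)) ⁻¹' WW h₁ d a).Nonempty ∧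
      ((fun t : ℂ => t - (s:ℂ)) ⁻¹' WW h₁ d a) ⊆ St (-c) H₀ := by
    intro s
    refine ⟨(isOpen_WW _ _ _).preimage (by fun_prop), ?_, ?_⟩
    · obtain ⟨t, ht⟩ := hne
      refine ⟨t + s, ?_⟩
      show t + s - s ∈ WW h₁ d a
      rwa [add_sub_cancel_right]
    · intro t ht
      have := mem_St_add (C.WW_mem ht) s
      simpa using this
  have main := lemmaC C.hA C.hk C.hinf (isOpen_VV h₁ d a) (convex_VV h₁ d a) (isOpen_WW h₁ d a)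
    (convex_WW h₁ d a) (WW_subset h₁ d a) hne (N := M + K) (x := x) (fun j _ => hxan j)
    (fun j _ e => ?_) (fun j _ => ?_) (fun j _ => ?_) ?_ ?_ ?_ ?_ ?_
  · obtain ⟨f, Z', hZ', hf, hf1, hf2, hf3⟩ := main
    refine ⟨f, Z', hZ', fun j hj => ⟨(hf j hj).1, (hf j hj).2.1.trans (hxy j)⟩, ?_, ?_,
      fun t ht htZ => ⟨hf1 t ht htZ, hf2 t ht htZ, hf3 t ht htZ⟩⟩
    · refine ident (hf 0 (by omega)).1 ?_ (convex_VV h₁ d a).isPreconnected (isOpen_WW h₁ d a)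
        (WW_subset h₁ d a) hne ?_
      · exact fun t ht => slice_an (C.hg _ ⟨hb3 (C.shift_mem ht s0), hρ8⟩)
      · have := (hf 0 (by omega)).2.1
        rwa [hx0] at this
    · refine ident (hf 1 (by omega)).1 ?_ (convex_VV h₁ d a).isPreconnected (isOpen_WW h₁ d a)
        (WW_subset h₁ d a) hne ?_
      · exact fun t ht => slice_an (C.hg _ ⟨hb3 (C.shift_mem ht s1), hρ8⟩)
      · have := (hf 1 (by omega)).2.1
        rwa [hx1] at this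
  · -- not constant
    obtain ⟨ho, hn', hs⟩ := hshift (sh j)
    obtain ⟨t, ht, hte⟩ := C.nonconst h0 h1 ho hs hn' e
    refine ⟨t - (sh j : ℝ), ht, ?_⟩
    rw [hxy j ht]
    simpa [y] using hte
  · -- consecutive points are different
    obtain ⟨ho, hn', hs⟩ := hshift (sh j)
    obtain ⟨t, ht, htZ⟩ := exists_notMem ho hn' hZ
    refine ⟨t - (sh j : ℝ), ht, ?_⟩
    rw [hxy j ht, hxy (j + 1) ht]
    have := (hfe t (hs ht) htZ).2.1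
    have e1 : t - (sh j : ℝ) + (sh (j + 1) : ℝ) = t + ρ := by
      simp only [sh]; push_cast; ring
    have e2 : t - (sh j : ℝ) + (sh j : ℝ) = t := by ring
    simp only [y]
    rw [e1, e2]
    exact this
  · -- the relation
    refine ⟨(fun t : ℂ => t + (sh (j + 1) : ℝ)) ⁻¹' Z,
      hZ.preimage (add_left_injective _), ?_⟩
    intro t ht htZ
    rw [hxy j ht, hxy (j + 1) ht, hxy (j + 2) ht]
    have hS : t + (sh (j + 1) : ℝ) ∈ St (-c) H₀ := mem_St_add (C.WW_mem ht) _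
    have := (hfe _ hS htZ).2.2
    have e1 : t + (sh (j + 2) : ℝ) = t + (sh (j + 1) : ℝ) + ρ := by
      simp only [sh]; push_cast; ring
    have e2 : t + (sh j : ℝ) = t + (sh (j + 1) : ℝ) - ρ := by
      simp only [sh]; push_cast; ring
    simp only [y]
    rw [e1, e2]
    exact this
  · rw [hx0]
    exact fun t ht => slice_an (C.hg _ ⟨hb3 (C.shift_mem ht s0), hρ8⟩)
  · rw [hx1]
    exact fun t ht => slice_an (C.hg _ ⟨hb3 (C.shift_mem ht s1), hρ8⟩)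
  · rw [hx0]
    exact fun t ht => C.mero h0 h1 (hb4 (C.shift_mem ht s0))
  · rw [hx1]
    exact fun t ht => C.mero h0 h1 (hb4 (C.shift_mem ht s1))
  · rw [hxN]
    exact fun t ht => slice_an (C.hg _ ⟨hb3 (C.shift_mem ht sN), hρ8⟩)

/-- local continuation, locally uniformly in `ρ` -/
lemma Ctx.local_ext (C : Ctx k F g G c h₁ d H₀ r₀ b) (a : ℝ) {ρ₀ : ℝ} (h0 : 0 < ρ₀)
    (h1 : ρ₀ < r₀) : ∃ (I : Set ℝ) (φ : ℝ → ℂ → ℂ), IsOpen I ∧ ρ₀ ∈ I ∧ I ⊆ Ioo 0 r₀ ∧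
      (∀ ρ ∈ I, AnalyticOnNhd ℂ (φ ρ) (VV h₁ d a) ∧
        EqOn (φ ρ) (fun t => G (t, ρ)) (WW h₁ d a)) ∧
      ContinuousOn (fun p : ℂ × ℝ => φ p.2 p.1) (VV h₁ d a ×ˢ I) := by
  have hd := C.hd
  have hrd := C.hrd
  -- the number of steps to the left
  obtain ⟨M, m, hM, hm⟩ : ∃ (M : ℕ) (m : ℤ), 1 ≤ M ∧ |a - M * ρ₀ - m - b.re| < d := by
    set x : ℝ := a - b.re - (⌊a - b.re⌋ - 1) with hx
    have hx1 : 1 ≤ x := by
      have := Int.floor_le (a - b.re)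
      rw [hx]; linarith
    have h2 : x / ρ₀ ≤ ⌈x / ρ₀⌉₊ := Nat.le_ceil _
    have h3 : (⌈x / ρ₀⌉₊ : ℝ) < x / ρ₀ + 1 := Nat.ceil_lt_add_one (by positivity)
    have h4 : x ≤ ⌈x / ρ₀⌉₊ * ρ₀ := by rwa [div_le_iff₀ h0] at h2
    have h5 : ⌈x / ρ₀⌉₊ * ρ₀ < x + ρ₀ := by
      calc _ < (x / ρ₀ + 1) * ρ₀ := mul_lt_mul_of_pos_right h3 h0
        _ = x + ρ₀ := by field_simp
    refine ⟨⌈x / ρ₀⌉₊, ⌊a - b.re⌋ - 1, Nat.ceil_pos.2 (by positivity), ?_⟩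
    have e : a - ⌈x / ρ₀⌉₊ * ρ₀ - ((⌊a - b.re⌋ - 1 : ℤ) : ℝ) - b.re = x - ⌈x / ρ₀⌉₊ * ρ₀ := by
      rw [hx]; push_cast; ring
    rw [e, abs_lt]
    constructor <;> linarith
  -- the number of steps to the right
  obtain ⟨K, n, hK, hn⟩ : ∃ (K : ℕ) (n : ℤ), 1 ≤ K ∧ |a + K * ρ₀ - n - b.re| < d := by
    set x : ℝ := b.re + (⌊a - b.re⌋ + 2) - a with hx
    have hx1 : 1 ≤ x := by
      have := Int.lt_floor_add_one (a - b.re)
      rw [hx]; linarith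
    have h2 : x / ρ₀ ≤ ⌈x / ρ₀⌉₊ := Nat.le_ceil _
    have h3 : (⌈x / ρ₀⌉₊ : ℝ) < x / ρ₀ + 1 := Nat.ceil_lt_add_one (by positivity)
    have h4 : x ≤ ⌈x / ρ₀⌉₊ * ρ₀ := by rwa [div_le_iff₀ h0] at h2
    have h5 : ⌈x / ρ₀⌉₊ * ρ₀ < x + ρ₀ := by
      calc _ < (x / ρ₀ + 1) * ρ₀ := mul_lt_mul_of_pos_right h3 h0
        _ = x + ρ₀ := by field_simp
    refine ⟨⌈x / ρ₀⌉₊, ⌊a - b.re⌋ + 2, Nat.ceil_pos.2 (by positivity), ?_⟩
    have e : a + ⌈x / ρ₀⌉₊ * ρ₀ - ((⌊a - b.re⌋ + 2 : ℤ) : ℝ) - b.re = ⌈x / ρ₀⌉₊ * ρ₀ - x := by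
      rw [hx]; push_cast; ring
    rw [e, abs_lt]
    constructor <;> linarith
  set I : Set ℝ := {ρ | (0 < ρ ∧ ρ < r₀) ∧ |a - M * ρ - m - b.re| < d ∧
    |a + K * ρ - n - b.re| < d} with hI
  have hIo : IsOpen I := by
    have e : I = (({ρ : ℝ | 0 < ρ} ∩ {ρ : ℝ | ρ < r₀}) ∩ ({ρ : ℝ | |a - M * ρ - m - b.re| < d} ∩
        {ρ : ℝ | |a + K * ρ - n - b.re| < d})) := rfl
    rw [e]
    refine ((isOpen_lt continuous_const continuous_id).inter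
      (isOpen_lt continuous_id continuous_const)).inter
      ((isOpen_lt ?_ continuous_const).inter (isOpen_lt ?_ continuous_const)) <;> fun_prop
  have hch : ∀ ρ : ℝ, ∃ (f : ℕ → ℂ → ℂ) (Z : Set ℂ), ρ ∈ I → Z.Countable ∧
      (∀ j < M + K, AnalyticOnNhd ℂ (f j) (VV h₁ d a) ∧
        EqOn (f j) (fun t => G (t + ((j - M) * ρ : ℝ), ρ)) (WW h₁ d a)) ∧
      EqOn (f 0) (fun t => g (t + (((0:ℕ) - M) * ρ - m : ℝ), ρ)) (VV h₁ d a) ∧
      EqOn (f 1) (fun t => g (t + (((1:ℕ) - M) * ρ - m : ℝ), ρ)) (VV h₁ d a) ∧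
      ∀ t ∈ VV h₁ d a, t ∉ Z → (∀ j < M + K, AnalyticAt ℂ k (f j t)) ∧
        (∀ j, j + 1 < M + K → f (j + 1) t ≠ f j t) ∧
        ∀ j, j + 2 < M + K →
        (f (j + 2) t - f (j + 1) t)⁻¹ + (f j t - f (j + 1) t)⁻¹ = k (f (j + 1) t) := by
    intro ρ
    by_cases hρ : ρ ∈ I
    · obtain ⟨f, Z, h⟩ := C.chain hρ.1.1 hρ.1.2 hK hM hρ.2.1 hρ.2.2
      exact ⟨f, Z, fun _ => h⟩
    · exact ⟨fun _ _ => 0, ∅, fun h => absurd h hρ⟩
  choose f Z hfZ using hch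
  have hb3 : ball b (3 * d) ⊆ ball b (8 * d) := ball_subset_ball (by linarith)
  have hcont : ∀ j : ℕ, (∀ ρ ∈ I, |a + ((j - M) * ρ - m) - b.re| < 5 * d / 4) →
      ContinuousOn (fun p : ℂ × ℝ => g (p.1 + (((j:ℕ) - M) * p.2 - m : ℝ), p.2))
        (VV h₁ d a ×ˢ I) := by
    intro j hj
    have h1 : ContinuousOn g (ball b (8 * d) ×ˢ ball 0 (8 * d)) := C.hg.continuousOn
    refine h1.comp (f := fun p : ℂ × ℝ => ((p.1 + (((j:ℕ) - M) * p.2 - m : ℝ), (p.2 : ℂ)) : ℂ × ℂ))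
      (Continuous.continuousOn (by fun_prop)) ?_
    rintro ⟨t, ρ⟩ ⟨ht, hρ⟩
    exact ⟨hb3 (C.shift_mem ht (hj ρ hρ)), mem_ball_real hρ.1.1 (by linarith [hρ.1.2])⟩
  have key := lemmaJ (k := k) (isOpen_VV h₁ d a) hIo (N := M + K) (f := fun j ρ => f ρ j) ?_ ?_
    (fun j hj ρ hρ => ((hfZ ρ hρ).2.1 j hj).1)
    (fun ρ hρ => ⟨Z ρ, (hfZ ρ hρ).1, (hfZ ρ hρ).2.2.2.2⟩) (j := M) (by omega)
  · refine ⟨I, fun ρ => f ρ M, hIo, ⟨⟨h0, h1⟩, hm, hn⟩, fun ρ hρ => hρ.1, ?_, key⟩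
    intro ρ hρ
    obtain ⟨ha, he⟩ := (hfZ ρ hρ).2.1 M (by omega)
    refine ⟨ha, fun t ht => ?_⟩
    show f ρ M t = G (t, ρ)
    rw [he ht]
    simp
  · refine (hcont 0 ?_).congr ?_
    · intro ρ hρ
      have : a + (((0:ℕ) - M) * ρ - m) - b.re = a - M * ρ - m - b.re := by
        push_cast; ring
      rw [this]
      linarith [hρ.2.1]
    · rintro ⟨t, ρ⟩ ⟨ht, hρ⟩
      exact (hfZ ρ hρ).2.2.1 ht
  · refine (hcont 1 ?_).congr ?_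
    · intro ρ hρ
      have : a + (((1:ℕ) - M) * ρ - m) - b.re = (a - M * ρ - m - b.re) + ρ := by
        push_cast; ring
      rw [this]
      refine lt_of_le_of_lt (abs_add_le _ _) ?_
      rw [abs_of_pos hρ.1.1]
      linarith [hρ.2.1, hρ.1.2]
    · rintro ⟨t, ρ⟩ ⟨ht, hρ⟩
      exact (hfZ ρ hρ).2.2.2.1 ht

/-- two continuations agree on the intersection of two discs -/
lemma VV_agree {h₁ d a a' : ℝ} (hd : 0 < d) {u v w : ℂ → ℂ}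
    (hu : AnalyticOnNhd ℂ u (VV h₁ d a)) (hv : AnalyticOnNhd ℂ v (VV h₁ d a'))
    (huw : EqOn u w (WW h₁ d a)) (hvw : EqOn v w (WW h₁ d a')) {t : ℂ} (ht : t ∈ VV h₁ d a)
    (ht' : t ∈ VV h₁ d a') : u t = v t := by
  have hW : (⟨t.re, h₁ - d / 2⟩ : ℂ) ∈ WW h₁ d a ∩ WW h₁ d a' :=
    ⟨center_mem (VV_re ht) hd, center_mem (VV_re ht') hd⟩
  exact ident (hu.mono inter_subset_left) (hv.mono inter_subset_right)
    ((convex_VV h₁ d a).inter (convex_VV h₁ d a')).isPreconnected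
    ((isOpen_WW h₁ d a).inter (isOpen_WW h₁ d a'))
    (inter_subset_inter (WW_subset _ _ _) (WW_subset _ _ _)) ⟨_, hW⟩
    (fun s hs => (huw hs.1).trans (hvw hs.2).symm) ⟨ht, ht'⟩

/-- continuation to the strip for one `ρ` -/
lemma Ctx.glue (C : Ctx k F g G c h₁ d H₀ r₀ b) {ρ : ℝ} (h0 : 0 < ρ) (h1 : ρ < r₀) :
    ∃ f : ℂ → ℂ, AnalyticOnNhd ℂ f (St (-c) (h₁ + d / 2)) ∧
      ∀ t ∈ St (-c) (h₁ - d / 4), f t = G (t, ρ) := by
  classical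
  have hd := C.hd
  have hφ : ∀ a : ℝ, ∃ φ : ℂ → ℂ, AnalyticOnNhd ℂ φ (VV h₁ d a) ∧
      EqOn φ (fun t => G (t, ρ)) (WW h₁ d a) := by
    intro a
    obtain ⟨I, φ, -, hρ, -, h, -⟩ := C.local_ext a h0 h1
    exact ⟨φ ρ, h ρ hρ⟩
  choose φ hφ1 hφ2 using hφ
  refine ⟨fun t => if t.im < h₁ - d / 4 then G (t, ρ) else φ t.re t, ?_, ?_⟩
  · intro t₀ ht₀
    by_cases hlow : t₀.im < h₁ - d / 4
    · have hev : (fun t => G (t, (ρ:ℂ))) =ᶠ[𝓝 t₀]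
          fun t => if t.im < h₁ - d / 4 then G (t, ρ) else φ t.re t := by
        filter_upwards [(isOpen_lt continuous_im continuous_const).mem_nhds hlow] with t ht
        have ht' : t.im < h₁ - d / 4 := ht
        simp [ht']
      refine AnalyticAt.congr (C.Gslice h0 h1 t₀ ⟨ht₀.1, ?_⟩) hev
      linarith [C.hH]
    · have hV : t₀ ∈ VV h₁ d t₀.re := mem_VV (by linarith) ht₀.2
      have hev : φ t₀.re =ᶠ[𝓝 t₀]
          fun t => if t.im < h₁ - d / 4 then G (t, ρ) else φ t.re t := by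
        filter_upwards [(isOpen_VV h₁ d t₀.re).mem_nhds hV] with t ht
        by_cases hl : t.im < h₁ - d / 4
        · rw [if_pos hl]
          exact hφ2 _ ⟨ht, hl⟩
        · rw [if_neg hl]
          have hi := VV_im ht
          exact VV_agree hd (hφ1 _) (hφ1 _) (hφ2 _) (hφ2 _) ht (mem_VV hi.1 hi.2)
      exact AnalyticAt.congr (hφ1 _ t₀ hV) hev
  · intro t ht
    have : t.im < h₁ - d / 4 := ht.2
    simp [this]

/-- the bound for the continuations -/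
lemma Ctx.bound (C : Ctx k F g G c h₁ d H₀ r₀ b) {fam : ℝ → ℂ → ℂ}
    (hfam : ∀ ρ ∈ Ioo 0 r₀, AnalyticOnNhd ℂ (fam ρ) (St (-c) (h₁ + d / 2)) ∧
      ∀ t ∈ St (-c) (h₁ - d / 4), fam ρ t = G (t, ρ)) {y : ℝ} (hy1 : h₁ - d / 4 < y)
    (hy2 : y < h₁ + d / 2) {a' b' : ℝ} (ha : 0 < a') (hb : b' < r₀) :
    ∃ M : ℝ, ∀ ρ ∈ Icc a' b', ∀ t : ℂ, t.im = y → ‖fam ρ t‖ ≤ M := by
  have hd := C.hd
  have hlow : ∀ {a : ℝ} {t : ℂ}, t ∈ WW h₁ d a → t ∈ St (-c) (h₁ - d / 4) := by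
    intro a t ht
    refine ⟨?_, ht.2⟩
    have := (VV_im ht.1).1
    linarith [C.hdc, C.hcH, C.hH']
  have hVS : ∀ {a : ℝ}, VV h₁ d a ⊆ St (-c) (h₁ + d / 2) := by
    intro a t ht
    have := VV_im ht
    exact ⟨by linarith [C.hdc, C.hcH, C.hH'], this.2⟩
  have hcont : ContinuousOn (fun p : ℂ × ℝ => fam p.2 p.1)
      (St (h₁ - d / 4) (h₁ + d / 2) ×ˢ Ioo 0 r₀) := by
    rintro ⟨t₀, ρ₀⟩ ⟨ht₀, hρ₀⟩
    obtain ⟨I, φ, hIo, hρI, hIs, hφ, hφc⟩ := C.local_ext t₀.re hρ₀.1 hρ₀.2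
    have hV : t₀ ∈ VV h₁ d t₀.re := mem_VV (by linarith [ht₀.1]) ht₀.2
    have hnh : VV h₁ d t₀.re ×ˢ I ∈ 𝓝 ((t₀, ρ₀) : ℂ × ℝ) :=
      ((isOpen_VV h₁ d t₀.re).prod hIo).mem_nhds ⟨hV, hρI⟩
    have hev : (fun p : ℂ × ℝ => φ p.2 p.1) =ᶠ[𝓝 ((t₀, ρ₀) : ℂ × ℝ)]
        fun p : ℂ × ℝ => fam p.2 p.1 := by
      filter_upwards [hnh] with p hp
      obtain ⟨h3, h4⟩ := hfam p.2 (hIs hp.2)
      exact ident (hφ p.2 hp.2).1 (h3.mono hVS) (convex_VV h₁ d t₀.re).isPreconnected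
        (isOpen_WW h₁ d t₀.re) (WW_subset _ _ _) ⟨_, center_mem (u := t₀.re) (by simpa using hd) hd⟩
        (fun s hs => ((hφ p.2 hp.2).2 hs).trans (h4 s (hlow hs)).symm) hp.1
    exact ((hφc.continuousAt hnh).congr hev).continuousWithinAt
  -- the compact set
  have hK : IsCompact (((fun s : ℝ => (⟨s, y⟩ : ℂ)) '' Icc 0 1) ×ˢ Icc a' b') := by
    refine (isCompact_Icc.image ?_).prod isCompact_Icc
    have : (fun s : ℝ => (⟨s, y⟩ : ℂ)) = fun s : ℝ => (s:ℂ) + y * I := by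
      funext s
      apply Complex.ext <;> simp
    rw [this]
    fun_prop
  obtain ⟨M, hM⟩ := hK.exists_bound_of_continuousOn (hcont.mono (by
    rintro ⟨t, ρ⟩ ⟨⟨s, hs, rfl⟩, hρ⟩
    exact ⟨⟨hy1, hy2⟩, ha.trans_le hρ.1, hρ.2.trans_lt hb⟩))
  refine ⟨M, fun ρ hρ t ht => ?_⟩
  have hρ' : ρ ∈ Ioo 0 r₀ := ⟨ha.trans_le hρ.1, hρ.2.trans_lt hb⟩
  obtain ⟨h3, h4⟩ := hfam ρ hρ'
  -- periodicity
  have hper : ∀ t ∈ St (-c) (h₁ + d / 2), fam ρ (t + 1) = fam ρ t := by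
    have hadd : ∀ {t : ℂ} {u v : ℝ}, t ∈ St u v → t + 1 ∈ St u v := by
      intro t u v ht
      have := mem_St_add ht 1
      simpa using this
    refine ident (W := St (-c) (h₁ - d / 4)) (f := fun t => fam ρ (t + 1)) (g := fam ρ) ?_ h3
      (convex_St _ _).isPreconnected (isOpen_St _ _) (fun t ht => ⟨ht.1, by linarith [ht.2]⟩) ?_ ?_
    · intro t ht
      exact AnalyticAt.fun_comp (f := fun t : ℂ => t + 1) (h3 _ (hadd ht)) (by fun_prop)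
    · refine ⟨0, ?_⟩
      have := C.hD.pos
      refine ⟨show -c < 0 from ?_, show 0 < h₁ - d / 4 from ?_⟩
      · linarith
      · linarith [C.hdc, C.hcH, C.hH']
    · intro t ht
      have hS : t ∈ St (-c) H₀ := ⟨ht.1, by linarith [ht.2, C.hH]⟩
      show fam ρ (t + 1) = fam ρ t
      rw [h4 _ (hadd ht), h4 _ ht]
      exact C.hper (t, ρ) ⟨hS, mem_ball_real hρ'.1 hρ'.2⟩
  have hp : Function.Periodic (fun s : ℝ => fam ρ ⟨s, y⟩) 1 := by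
    intro s
    have hS : (⟨s, y⟩ : ℂ) ∈ St (-c) (h₁ + d / 2) :=
      ⟨by show -c < y; linarith [C.hdc, C.hcH, C.hH'], hy2⟩
    have := hper _ hS
    simp only at this ⊢
    rw [← this]
    congr 1
    apply Complex.ext <;> simp
  obtain ⟨s, hs, hse⟩ := hp.exists_mem_Ico₀ one_pos t.re
  have ht' : t = ⟨t.re, y⟩ := by
    apply Complex.ext <;> simp [ht]
  have hse' : fam ρ ⟨t.re, y⟩ = fam ρ ⟨s, y⟩ := hse
  rw [ht', hse']
  exact hM (⟨s, y⟩, ρ) ⟨⟨s, ⟨hs.1, hs.2.le⟩, rfl⟩, hρ⟩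

end ExtBeyond

open ExtBeyond in
theorem ext_beyond {k : ℂ → ℂ} (hA : CSing k) (hk : Nrm k) (hinf : SingInf k) {F : ℂ × ℂ → ℂ}
    {c h₁ : ℝ} (hD : Dat k F c) (hc : c ≤ h₁) (hE : ∀ h < h₁, Ext F c h) (hR : RegB F c h₁) :
    ∃ h > h₁, Ext F c h := by
  classical
  have hcp := hD.pos
  -- extensions of height between `c` and `h₁`
  have hE' : ∀ η > 0, ∃ H r G, c ≤ H ∧ H ≤ h₁ ∧ h₁ - η ≤ H ∧ IsExt F c H r G := by
    intro η hη
    obtain ⟨r, hr, hrc, G, hG, hGF⟩ := hE (h₁ - η) (by linarith)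
    refine ⟨max (h₁ - η) c, r, G, le_max_right _ _, max_le (by linarith) hc, le_max_left _ _,
      hr, hrc, ?_, hGF⟩
    rintro ⟨t, ρ⟩ ⟨ht, hρ⟩
    by_cases hlt : t.im < h₁ - η
    · exact hG _ ⟨⟨ht.1, hlt⟩, hρ⟩
    · have htc : t.im < c := by
        rcases lt_max_iff.1 ht.2 with h | h
        · exact absurd h hlt
        · exact h
      have hF : AnalyticAt ℂ F (t, ρ) := hD.an _ ⟨⟨ht.1, htc⟩, ball_subset_ball hrc hρ⟩
      refine hF.congr ?_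
      have ho : IsOpen (St (-c) c ×ˢ ball (0:ℂ) r) := (isOpen_St _ _).prod isOpen_ball
      filter_upwards [ho.mem_nhds (show ((t, ρ) : ℂ × ℂ) ∈ _ from ⟨⟨ht.1, htc⟩, hρ⟩)] with p hp
      exact (hGF hp).symm
  obtain ⟨b, δ, g, t₁, hb, hδ, hg, ht₁, ht₁S, hRg⟩ := hR
  -- parameters
  obtain ⟨d, hd, hdδ, hdc⟩ : ∃ d > 0, 8 * d ≤ δ ∧ 8 * d ≤ c :=
    ⟨min δ c / 8, by positivity, by linarith [min_le_left δ c], by linarith [min_le_right δ c]⟩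
  obtain ⟨H₀, r₁, G, hcH, hH', hH, hG⟩ := hE' (min (d / 8) ((h₁ - t₁.im) / 2))
    (lt_min (by positivity) (by linarith [ht₁S.2]))
  have hHd : h₁ - d / 8 ≤ H₀ := by linarith [min_le_left (d / 8) ((h₁ - t₁.im) / 2)]
  have ht₁H : t₁.im < H₀ := by
    linarith [min_le_right (d / 8) ((h₁ - t₁.im) / 2), ht₁S.2]
  obtain ⟨r₀, hr₀, hr₀1, hr₀d⟩ : ∃ r₀ > 0, r₀ ≤ r₁ ∧ r₀ ≤ d / 4 :=
    ⟨min r₁ (d / 4), lt_min hG.r0 (by positivity), min_le_left _ _, min_le_right _ _⟩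
  have hb8 : ball b (8 * d) ⊆ ball b δ := ball_subset_ball hdδ
  have hb8' : ball (0:ℂ) (8 * d) ⊆ ball 0 δ := ball_subset_ball hdδ
  have hb0 : ball (0:ℂ) r₀ ⊆ ball 0 r₁ := ball_subset_ball hr₀1
  have C : Ctx k F g G c h₁ d H₀ r₀ b :=
    { hA := hA
      hk := hk
      hinf := hinf
      hD := hD
      hb := hb
      hd := hd
      hdc := hdc
      hg := hg.mono (prod_mono hb8 hb8')
      hcH := hcH
      hH := hHd
      hH' := hH'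
      hG := hG.an.mono (prod_mono_right hb0)
      hGF := hG.eq.mono (prod_mono_right hb0)
      hper := fun p hp => hG.per hD hcH ⟨hp.1, hb0 hp.2⟩
      hr := hr₀
      hrd := hr₀d
      hrc := hr₀1.trans hG.rc
      hGg := by
        have hr₀δ : ball (0:ℂ) r₀ ⊆ ball 0 δ := ball_subset_ball (by linarith)
        have hconv : Convex ℝ ((ball b δ ∩ St (-c) H₀) ×ˢ ball (0:ℂ) r₀) :=
          ((convex_ball _ _).inter (convex_St _ _)).prod (convex_ball _ _)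
        have h1 : AnalyticOnNhd ℂ g ((ball b δ ∩ St (-c) H₀) ×ˢ ball (0:ℂ) r₀) :=
          hg.mono (prod_mono inter_subset_left hr₀δ)
        have h2 : AnalyticOnNhd ℂ G ((ball b δ ∩ St (-c) H₀) ×ˢ ball (0:ℂ) r₀) :=
          hG.an.mono (prod_mono inter_subset_right hb0)
        have h3 : EqOn g G ((ball b δ ∩ St (-c) H₀) ×ˢ ball (0:ℂ) r₀) :=
          h1.eqOn_of_preconnected_of_eventuallyEq h2 hconv.isPreconnected
            (show ((t₁, (0:ℂ)) : ℂ × ℂ) ∈ _ from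
              ⟨⟨ht₁, ht₁S.1, ht₁H⟩, mem_ball_self hr₀⟩) (hRg H₀ r₁ G hG ht₁H).symm
        exact h3.mono (prod_mono (inter_subset_inter_left _ hb8) le_rfl) }
  -- the continuations for real `ρ`
  have hfam : ∀ ρ : ℝ, ∃ f : ℂ → ℂ, ρ ∈ Ioo 0 r₀ → AnalyticOnNhd ℂ f (St (-c) (h₁ + d / 2)) ∧
      ∀ t ∈ St (-c) (h₁ - d / 4), f t = G (t, ρ) := by
    intro ρ
    by_cases hρ : ρ ∈ Ioo 0 r₀
    · obtain ⟨f, hf⟩ := C.glue hρ.1 hρ.2
      exact ⟨f, fun _ => hf⟩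
    · exact ⟨fun _ => 0, fun h => absurd h hρ⟩
  choose fam hfam using hfam
  -- a large extension
  obtain ⟨H, r₂, G₂, hcH₂, hH₂', hH₂, hG₂⟩ := hE' (d / 160) (by positivity)
  obtain ⟨r, hr, hrr₀, hrr₂⟩ : ∃ r > 0, r ≤ r₀ ∧ r ≤ r₂ :=
    ⟨min r₀ r₂, lt_min hr₀ hG₂.r0, min_le_left _ _, min_le_right _ _⟩
  have hHpos : 0 < H := hcp.trans_le hcH₂
  have hbr : ball (0:ℂ) r ⊆ ball 0 r₂ := ball_subset_ball hrr₂
  have hbr' : ball (0:ℂ) r ⊆ ball 0 r₀ := ball_subset_ball hrr₀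
  have hSt : St 0 H ⊆ St (-c) H := fun t ht => ⟨by linarith [ht.1], ht.2⟩
  -- `G₂ = G` on the common domain
  have hGG : ∀ t ∈ St (-c) (min H₀ H), ∀ ρ ∈ ball (0:ℂ) r, G₂ (t, ρ) = G (t, ρ) := by
    intro t ht ρ hρ
    have hρ1 : ρ ∈ ball (0:ℂ) (min r₁ r₂) := by
      rw [mem_ball_zero_iff] at hρ ⊢
      exact lt_min (hρ.trans_le (hrr₀.trans hr₀1)) (hρ.trans_le hrr₂)
    rcases le_total H₀ H with hle | hle
    · rw [min_eq_left hle] at ht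
      exact (IsExt.unique hcH hle hG hG₂ ⟨ht, hρ1⟩).symm
    · rw [min_eq_right hle] at ht
      rw [min_comm] at hρ1
      exact IsExt.unique hcH₂ hle hG₂ hG ⟨ht, hρ1⟩
  have key := ext_of_real (F := G₂) (H := H) (d := d / 2) (r := r) hHpos (by positivity) hr
    (hG₂.an.mono (prod_mono hSt hbr)) (fun p hp => hG₂.per hD hcH₂ ⟨hSt hp.1, hbr hp.2⟩) ?_
  · obtain ⟨r', hr', hr'r, G₃, hG₃, hG₃e⟩ := key
    have hb' : ball (0:ℂ) r' ⊆ ball 0 r₂ := ball_subset_ball (hr'r.trans hrr₂)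
    have hbc : ball (0:ℂ) r' ⊆ ball 0 c := hb'.trans (ball_subset_ball hG₂.rc)
    have hover : ∀ p ∈ St 0 c ×ˢ ball (0:ℂ) r', G₃ p = F p := by
      rintro ⟨t, ρ⟩ ⟨ht, hρ⟩
      have e1 : G₃ (t, ρ) = G₂ (t, ρ) := hG₃e ⟨⟨ht.1, ht.2.trans_le hcH₂⟩, hρ⟩
      rw [e1]
      exact hG₂.eq ⟨⟨by linarith [ht.1], ht.2⟩, hb' hρ⟩
    refine ⟨H + d / 2 / 40, by linarith, r', hr', hr'r.trans (hrr₂.trans hG₂.rc),
      fun p => if p.1.im < c / 2 then F p else G₃ p, ?_, ?_⟩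
    · rintro ⟨t, ρ⟩ ⟨ht, hρ⟩
      by_cases hlow : t.im < c / 2
      · have ho : IsOpen (({t : ℂ | t.im < c / 2}) ×ˢ (univ : Set ℂ)) :=
          (isOpen_lt continuous_im continuous_const).prod isOpen_univ
        refine (hD.an (t, ρ) ⟨⟨ht.1, by linarith⟩, hbc hρ⟩).congr ?_
        filter_upwards [ho.mem_nhds (show ((t, ρ) : ℂ × ℂ) ∈ _ from ⟨hlow, mem_univ _⟩)] with p hp
        have : p.1.im < c / 2 := hp.1
        simp [this]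
      · have ho : IsOpen (({t : ℂ | 0 < t.im}) ×ˢ (ball (0:ℂ) r')) :=
          (isOpen_lt continuous_const continuous_im).prod isOpen_ball
        refine (hG₃ (t, ρ) ⟨⟨by linarith, ht.2⟩, hρ⟩).congr ?_
        filter_upwards [ho.mem_nhds (show ((t, ρ) : ℂ × ℂ) ∈ _ from
          ⟨show 0 < t.im by linarith, hρ⟩)] with p hp
        by_cases hl : p.1.im < c / 2
        · rw [if_pos hl]
          exact hover p ⟨⟨hp.1, by linarith⟩, hp.2⟩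
        · rw [if_neg hl]
    · rintro p hp
      by_cases hl : p.1.im < c / 2
      · simp only [if_pos hl]
      · simp only [if_neg hl]
        exact hover p ⟨⟨by linarith, hp.1.2⟩, hp.2⟩
  · -- the continuations
    intro a' b' ha' hb'
    obtain ⟨M, hM⟩ := C.bound (fam := fam) (fun ρ hρ => hfam ρ hρ) (y := H + d / 2 / 2)
      (by linarith) (by linarith) ha' (hb'.trans_le hrr₀)
    refine ⟨M, fun ρ hρ => ⟨fam ρ, ?_, ?_, hM ρ hρ⟩⟩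
    · refine (hfam ρ ⟨ha'.trans_le hρ.1, hρ.2.trans_lt (hb'.trans_le hrr₀)⟩).1.mono ?_
      intro t ht
      exact ⟨by linarith [ht.1], by linarith [ht.2]⟩
    · have hρr : ρ ∈ Ioo 0 r := ⟨ha'.trans_le hρ.1, hρ.2.trans_lt hb'⟩
      have hρr' : (ρ:ℂ) ∈ ball (0:ℂ) r := mem_ball_real hρr.1 hρr.2
      obtain ⟨h3, h4⟩ := hfam ρ ⟨hρr.1, hρr.2.trans_le hrr₀⟩
      refine ident (W := St 0 (h₁ - d / 4)) (h3.mono ?_)
        (fun t ht => slice_an0 (hG₂.an (t, (ρ:ℂ)) ⟨hSt ht, hbr hρr'⟩))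
        (convex_St 0 H).isPreconnected (isOpen_St _ _) ?_ ?_ ?_
      · intro t ht
        exact ⟨by linarith [ht.1], by linarith [ht.2]⟩
      · intro t ht
        exact ⟨ht.1, by linarith [ht.2]⟩
      · refine ⟨⟨0, d⟩, ?_, ?_⟩
        · exact hd
        · show d < h₁ - d / 4
          linarith
      · intro t ht
        show fam ρ t = G₂ (t, ρ)
        rw [h4 t ⟨by linarith [ht.1], ht.2⟩]
        refine (hGG t ⟨by linarith [ht.1], lt_min (by linarith [ht.2]) (by linarith [ht.2])⟩ ρ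
          hρr').symm

end Pool.Agent.MP_ae5b4e_an_MERO
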