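import Mathlib
import Pool.Agent.Lib.MP_ae5b4e_an_LAT.NDDefs
import Pool.Agent.Lib.MP_ae5b4e_an_LAT.NDPropag
import Pool.Agent.Lib.MP_ae5b4e_an_LAT.NDGeoX0

/-!
# MP_ae5b4e_an, project MERO, module T2: families of polygons continue along good points

Near a good point the map of consecutive pairs has an invariant time `Θ` on the leaves `S = c`
of its first integral.  A family `F` of polygons satisfies `Θ (F (t, ρ), c ρ) = u₀ ρ + μ ρ (t - t₁)`,
and the inverse `Ξ` of the time continues the family.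
-/

set_option linter.unusedVariables false

noncomputable section

namespace Pool.Agent.MP_ae5b4e_an_MERO

open Complex Set Filter Topology Metric
open Pool.Agent.MP_ae5b4e_an_ND

namespace FamilyOfGood

/-- a function of `(t, ρ)` which is invariant under `t ↦ t + ρ` does not depend on `t` -/
lemma inv_const {g : ℂ × ℂ → ℂ} {t₁ : ℂ} {r : ℝ}
    (hg : AnalyticOnNhd ℂ g (ball t₁ r ×ˢ ball 0 r))
    (hinv : ∀ p ∈ ball t₁ r ×ˢ ball (0:ℂ) r, g (p.1 + p.2, p.2) = g p) :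
    ∀ p ∈ ball t₁ r ×ˢ ball (0:ℂ) r, g p = g (t₁, p.2) := by
  rintro ⟨t, ρ⟩ ⟨ht, hρ⟩
  dsimp only at ht hρ
  have hr : 0 < r := dist_nonneg.trans_lt (mem_ball.1 ht)
  by_cases hs : t = t₁
  · rw [hs]
  set s := t - t₁ with hsdef
  have hs0 : s ≠ 0 := sub_ne_zero.2 hs
  -- iteration
  have hit : ∀ m : ℕ, 0 < m → s / m ∈ ball (0:ℂ) r → ∀ j : ℕ, j ≤ m →
      g (t₁ + j * (s / m), s / m) = g (t₁, s / m) := by
    intro m hm hsm j
    have hm0 : (m : ℂ) ≠ 0 := by exact_mod_cast hm.ne'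
    induction j with
    | zero =>
      intro _
      simp
    | succ j ih =>
      intro hj
      have h1 := ih (by omega)
      have hmem : t₁ + j * (s / m) ∈ ball t₁ r := by
        rw [mem_ball, dist_eq_norm]
        have h2 : t₁ + j * (s / m) - t₁ = ((j : ℂ) / m) * s := by
          field_simp
          ring
        rw [h2, norm_mul, norm_div, Complex.norm_natCast, Complex.norm_natCast]
        have h3 : (j : ℝ) / m ≤ 1 := by
          rw [div_le_one (by exact_mod_cast hm)]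
          exact_mod_cast (by omega : j ≤ m)
        have h4 : ‖s‖ < r := by
          rw [mem_ball, dist_eq_norm] at ht
          exact ht
        calc (j : ℝ) / m * ‖s‖ ≤ 1 * ‖s‖ := mul_le_mul_of_nonneg_right h3 (norm_nonneg _)
          _ < r := by rw [one_mul]; exact h4
      have h5 := hinv (t₁ + j * (s / m), s / m) ⟨hmem, hsm⟩
      rw [← h1, ← h5]
      congr 1
      push_cast
      ring_nf
  -- the identity theorem in `ρ`
  set ψ : ℂ → ℂ := fun ρ => g (t, ρ) - g (t₁, ρ) with hψ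
  have hψa : AnalyticOnNhd ℂ ψ (ball 0 r) := by
    intro z hz
    have h1 : AnalyticAt ℂ (fun ρ : ℂ => g (t, ρ)) z :=
      AnalyticAt.fun_comp (g := g) (f := fun ρ : ℂ => (t, ρ)) (hg (t, z) ⟨ht, hz⟩)
        (analyticAt_const.prod analyticAt_id)
    have h2 : AnalyticAt ℂ (fun ρ : ℂ => g (t₁, ρ)) z :=
      AnalyticAt.fun_comp (g := g) (f := fun ρ : ℂ => (t₁, ρ))
        (hg (t₁, z) ⟨mem_ball_self hr, hz⟩) (analyticAt_const.prod analyticAt_id)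
    exact h1.sub h2
  have hlim : Tendsto (fun m : ℕ => s / m) atTop (𝓝[≠] 0) := by
    refine tendsto_nhdsWithin_of_tendsto_nhds_of_eventually_within _ ?_ ?_
    · have h1 : Tendsto (fun m : ℕ => ((m : ℂ))⁻¹) atTop (𝓝 0) :=
        tendsto_inv_atTop_nhds_zero_nat (𝕜 := ℂ)
      have h2 := h1.const_mul s
      simpa [div_eq_mul_inv] using h2
    · filter_upwards [eventually_gt_atTop 0] with m hm
      have hm0 : (m : ℂ) ≠ 0 := by exact_mod_cast hm.ne'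
      exact div_ne_zero hs0 hm0
  have hfreq : ∃ᶠ ρ in 𝓝[≠] (0:ℂ), ψ ρ = (0 : ℂ → ℂ) ρ := by
    refine hlim.frequently ?_
    refine Eventually.frequently ?_
    have hb : ∀ᶠ m : ℕ in atTop, s / m ∈ ball (0:ℂ) r :=
      (hlim.mono_right nhdsWithin_le_nhds).eventually (ball_mem_nhds _ hr)
    filter_upwards [hb, eventually_gt_atTop 0] with m hm hm1
    have h1 := hit m hm1 hm m le_rfl
    have hm0 : (m : ℂ) ≠ 0 := by exact_mod_cast hm1.ne'
    have h2 : t₁ + m * (s / m) = t := by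
      rw [hsdef]
      field_simp
      ring
    rw [h2] at h1
    simp only [hψ, Pi.zero_apply]
    rw [h1, sub_self]
  have h0 := hψa.eqOn_of_preconnected_of_frequently_eq (g := 0) (fun _ _ => analyticAt_const)
    (convex_ball 0 r).isPreconnected (mem_ball_self hr) hfreq hρ
  exact sub_eq_zero.1 h0

/-- a primitive with respect to the first variable -/
lemma exists_prim {h : ℂ × ℂ → ℂ} {x₀ : ℂ} (hh : AnalyticAt ℂ h (x₀, 0)) :
    ∃ Θ : ℂ × ℂ → ℂ, AnalyticAt ℂ Θ (x₀, 0) ∧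
      ∀ᶠ q in 𝓝 ((x₀, 0) : ℂ × ℂ), HasDerivAt (fun x => Θ (x, q.2)) (h q) q.1 := by
  obtain ⟨ε, hε, hb⟩ := Metric.eventually_nhds_iff_ball.1 hh.eventually_analyticAt
  set r := ε / 2 with hr
  have hr0 : 0 < r := by positivity
  have hmem : ∀ x ∈ ball x₀ r, ∀ y ∈ closedBall (0 : ℂ) r, AnalyticAt ℂ h (x, y) := by
    intro x hx y hy
    apply hb
    rw [mem_ball, Prod.dist_eq, max_lt_iff]
    rw [mem_ball] at hx
    rw [mem_closedBall] at hy
    exact ⟨hx.trans (by rw [hr]; linarith), hy.trans_lt (by rw [hr]; linarith)⟩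
  obtain ⟨Φ, hΦ, hΦ2⟩ := Pool.Agent.SCV.exists_analytic_family 0 r (ball x₀ r) isOpen_ball h
    (fun p hp => (hmem p.1 hp.1 p.2 (sphere_subset_closedBall hp.2)).continuousAt.continuousWithinAt)
    (by
      intro ζ hζ x hx
      have h1 := (hmem x hx ζ (sphere_subset_closedBall hζ)).differentiableAt
      have h2 : DifferentiableAt ℂ (fun x : ℂ => (x, ζ)) x := by fun_prop
      exact (DifferentiableAt.comp x (g := h) (f := fun x : ℂ => (x, ζ)) h1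
        h2).differentiableWithinAt)
  obtain ⟨Ψ, hΨ⟩ := hΦ.differentiableOn.isExactOn_ball
  have hΨa : AnalyticOnNhd ℂ Ψ (ball x₀ r) :=
    (DifferentiableOn.analyticOnNhd (fun x hx => (hΨ x hx).differentiableAt.differentiableWithinAt)
      isOpen_ball)
  refine ⟨fun p => (2 * Real.pi * I : ℂ)⁻¹ * Pool.Agent.SCV.circInt 0 r hr0.le
    (Pool.Agent.SCV.kern 0 r p.2 * Ψ p.1), ?_, ?_⟩
  · exact analyticAt_const.mul (Pool.Agent.SCV.analyticAt_pairing 0 r hr0.le Ψ x₀ 0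
      (hΨa x₀ (mem_ball_self hr0)) (mem_ball_self hr0))
  · have hop : (ball x₀ r ×ˢ ball (0 : ℂ) r) ∈ 𝓝 ((x₀, 0) : ℂ × ℂ) :=
      prod_mem_nhds (ball_mem_nhds _ hr0) (ball_mem_nhds _ hr0)
    filter_upwards [hop] with p hp
    have h1 : HasDerivAt (fun x => Pool.Agent.SCV.kern 0 r p.2 * Ψ x)
        (Pool.Agent.SCV.kern 0 r p.2 * Φ p.1) p.1 := (hΨ p.1 hp.1).const_mul _
    have h2 := ((Pool.Agent.SCV.circInt 0 r hr0.le).hasFDerivAt.comp_hasDerivAt p.1 h1).const_mul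
      ((2 * Real.pi * I : ℂ)⁻¹)
    refine h2.congr_deriv ?_
    have h3 : Pool.Agent.SCV.circInt 0 r hr0.le (Pool.Agent.SCV.kern 0 r p.2 * Φ p.1) =
        ∮ ζ in C(0, r), (ζ - p.2)⁻¹ • h (p.1, ζ) := by
      refine Pool.Agent.SCV.circInt_apply 0 r hr0.le _ _ fun ζ => ?_
      rw [ContinuousMap.mul_apply, Pool.Agent.SCV.kern_apply 0 r p.2 hp.2, hΦ2 p.1 hp.1, smul_eq_mul]
    rw [h3]
    have h4 := Pool.Agent.SCV.cauchy_snd 0 r h p.1 p.2 (fun w hw => by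
      have h5 := (hmem p.1 hp.1 w hw).differentiableAt
      have h6 : DifferentiableAt ℂ (fun w : ℂ => (p.1, w)) w := by fun_prop
      exact (DifferentiableAt.comp w (g := h) (f := fun w : ℂ => (p.1, w)) h5
        h6).differentiableWithinAt) hp.2
    rw [← smul_eq_mul, h4]

/-- local data at the point `(x, 0)`: the first integral `S`, its inverse `Y` in the second
variable, the density `h` of the invariant time on the leaves `S = c`, the time `Θ` and its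
inverse `Ξ` -/
structure Data (k : ℂ → ℂ) (S Y h Θ Ξ : ℂ × ℂ → ℂ) (x : ℂ) : Prop where
  ak : AnalyticAt ℂ k x
  aS : AnalyticAt ℂ S (x, 0)
  S0 : S (x, 0) = 0
  inv : ∀ᶠ p in 𝓝 ((x, 0) : ℂ × ℂ), S (TT k p) = S p
  YS : ∀ᶠ p in 𝓝 ((x, 0) : ℂ × ℂ), Y (p.1, S p) = p.2
  ah : AnalyticAt ℂ h (x, 0)
  dX : ∀ᶠ q in 𝓝 ((x, 0) : ℂ × ℂ), ∃ d,
    HasDerivAt (fun x => (TT k (x, Y (x, q.2))).1) d q.1 ∧
      h ((TT k (q.1, Y q)).1, q.2) * d = h q
  aΘ : AnalyticAt ℂ Θ (x, 0)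
  dΘ : ∀ᶠ q in 𝓝 ((x, 0) : ℂ × ℂ), HasDerivAt (fun x => Θ (x, q.2)) (h q) q.1
  aΞ : AnalyticAt ℂ Ξ (Θ (x, 0), 0)
  ΞΘ : ∀ᶠ r in 𝓝 (((Θ (x, 0), 0), x) : (ℂ × ℂ) × ℂ), Θ (r.2, r.1.2) = r.1.1 → Ξ r.1 = r.2

lemma hasDerivAt_fst {f : ℂ × ℂ → ℂ} {q : ℂ × ℂ} (hf : DifferentiableAt ℂ f q) :
    HasDerivAt (fun x => f (x, q.2)) (fderiv ℂ f q (1, 0)) q.1 := by
  have h1 : HasFDerivAt f (fderiv ℂ f q) (q.1, q.2) := hf.hasFDerivAt
  have h2 : HasDerivAt (fun x : ℂ => (x, q.2)) ((1 : ℂ), (0 : ℂ)) q.1 :=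
    (hasDerivAt_id q.1).prodMk (hasDerivAt_const q.1 q.2)
  exact HasFDerivAt.comp_hasDerivAt (f := fun x : ℂ => (x, q.2)) q.1 h1 h2

lemma hasDerivAt_snd {f : ℂ × ℂ → ℂ} {q : ℂ × ℂ} (hf : DifferentiableAt ℂ f q) :
    HasDerivAt (fun y => f (q.1, y)) (fderiv ℂ f q (0, 1)) q.2 := by
  have h1 : HasFDerivAt f (fderiv ℂ f q) (q.1, q.2) := hf.hasFDerivAt
  have h2 : HasDerivAt (fun y : ℂ => (q.1, y)) ((0 : ℂ), (1 : ℂ)) q.2 :=
    (hasDerivAt_const q.2 q.1).prodMk (hasDerivAt_id q.2)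
  exact HasFDerivAt.comp_hasDerivAt (f := fun y : ℂ => (q.1, y)) q.2 h1 h2

lemma exists_data {k : ℂ → ℂ} {xb : ℂ} (hG : Good k xb) :
    ∃ S Y h Θ Ξ : ℂ × ℂ → ℂ, ∀ᶠ x in 𝓝 xb, Data k S Y h Θ Ξ x := by
  obtain ⟨hk, S, hS, hS0, hSd, hST⟩ := hG
  have hSb : S (xb, 0) = 0 := hS0.self_of_nhds
  have hSy : HasDerivAt (fun y => S (xb, y)) (deriv (fun y => S (xb, y)) 0) 0 :=
    (hasDerivAt_snd (q := (xb, 0)) hS.differentiableAt).differentiableAt.hasDerivAt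
  -- the function `Y`
  obtain ⟨Y, hY, hYb, hYiff⟩ := Pool.Agent.MP_ae5b4e_an_GeoX.implicit_analytic2
    (F := fun r : (ℂ × ℂ) × ℂ => S (r.1.1, r.2) - r.1.2) (p₀ := (xb, 0)) (t₀ := 0)
    (c := deriv (fun y => S (xb, y)) 0)
    (by
      have h0 : AnalyticAt ℂ (fun r : (ℂ × ℂ) × ℂ => r.1.1) ((xb, 0), 0) :=
        AnalyticAt.fun_comp (g := fun p : ℂ × ℂ => p.1) (f := fun r : (ℂ × ℂ) × ℂ => r.1)
          analyticAt_fst analyticAt_fst
      have h0' : AnalyticAt ℂ (fun r : (ℂ × ℂ) × ℂ => r.1.2) ((xb, 0), 0) :=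
        AnalyticAt.fun_comp (g := fun p : ℂ × ℂ => p.2) (f := fun r : (ℂ × ℂ) × ℂ => r.1)
          analyticAt_snd analyticAt_fst
      have h2 : AnalyticAt ℂ (fun r : (ℂ × ℂ) × ℂ => S (r.1.1, r.2)) ((xb, 0), 0) :=
        AnalyticAt.fun_comp (g := S) (f := fun r : (ℂ × ℂ) × ℂ => (r.1.1, r.2)) hS
          (h0.prod analyticAt_snd)
      exact h2.sub h0')
    (by simp [hSb]) hSd (by simpa using hSy)
  -- limits
  have hax : Tendsto (fun x : ℂ => ((x, 0) : ℂ × ℂ)) (𝓝 xb) (𝓝 (xb, 0)) := by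
    have : Continuous (fun x : ℂ => ((x, 0) : ℂ × ℂ)) := by fun_prop
    exact this.tendsto xb
  have hYS : ∀ᶠ p in 𝓝 ((xb, 0) : ℂ × ℂ), Y (p.1, S p) = p.2 := by
    have h1 : Tendsto (fun p : ℂ × ℂ => ((p.1, S p), p.2)) (𝓝 (xb, 0)) (𝓝 ((xb, 0), 0)) := by
      have h2 : ContinuousAt (fun p : ℂ × ℂ => ((p.1, S p), p.2)) (xb, 0) :=
        (continuousAt_fst.prodMk hS.continuousAt).prodMk continuousAt_snd
      have h3 := h2.tendsto
      simp only [hSb] at h3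
      exact h3
    filter_upwards [h1.eventually hYiff] with p hp
    exact hp.1 (sub_self _)
  have hSY : ∀ᶠ q in 𝓝 ((xb, 0) : ℂ × ℂ), S (q.1, Y q) = q.2 := by
    have h1 : Tendsto (fun q : ℂ × ℂ => (q, Y q)) (𝓝 (xb, 0)) (𝓝 ((xb, 0), 0)) := by
      have h2 : ContinuousAt (fun q : ℂ × ℂ => (q, Y q)) (xb, 0) :=
        continuousAt_id.prodMk hY.continuousAt
      have h3 := h2.tendsto
      simp only [hYb] at h3
      exact h3
    filter_upwards [h1.eventually hYiff] with q hq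
    exact sub_eq_zero.1 (hq.2 rfl)
  have hY0 : ∀ᶠ x in 𝓝 xb, Y (x, 0) = 0 := by
    have h1 : Tendsto (fun x : ℂ => (((x, 0), 0) : (ℂ × ℂ) × ℂ)) (𝓝 xb) (𝓝 ((xb, 0), 0)) := by
      have : Continuous (fun x : ℂ => (((x, 0), 0) : (ℂ × ℂ) × ℂ)) := by fun_prop
      exact this.tendsto xb
    filter_upwards [h1.eventually hYiff, hS0] with x hx h0
    exact hx.1 (by simp [h0])
  -- the function `E`
  obtain ⟨E, hE, hYE, hE0⟩ := exists_div_y hY hY0
  have hEb : E (xb, 0) = fderiv ℂ Y (xb, 0) (0, 1) := by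
    rw [hE0.self_of_nhds]
    exact (hasDerivAt_snd (q := (xb, 0)) hY.differentiableAt).deriv
  have hYy : fderiv ℂ Y (xb, 0) (0, 1) ≠ 0 := by
    have h1 : HasDerivAt (fun c => Y (xb, c)) (fderiv ℂ Y (xb, 0) (0, 1)) 0 :=
      hasDerivAt_snd (q := (xb, 0)) hY.differentiableAt
    have h2 : HasDerivAt (fun y => S (xb, y)) (deriv (fun y => S (xb, y)) 0) (Y (xb, 0)) := by
      rw [hYb]
      exact hSy
    have h3 := h2.comp (0:ℂ) h1
    have h4 : Tendsto (fun c : ℂ => ((xb, c) : ℂ × ℂ)) (𝓝 0) (𝓝 (xb, 0)) := by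
      have : Continuous (fun c : ℂ => ((xb, c) : ℂ × ℂ)) := by fun_prop
      exact this.tendsto 0
    have h5 : ((fun y => S (xb, y)) ∘ fun c => Y (xb, c)) =ᶠ[𝓝 0] fun c => c := by
      filter_upwards [h4.eventually hSY] with c hc
      exact hc
    have h6 := (h3.congr_of_eventuallyEq h5.symm).unique (hasDerivAt_id' (0:ℂ))
    intro h0
    rw [h0, mul_zero] at h6
    exact zero_ne_one h6
  -- the function `h`
  set h : ℂ × ℂ → ℂ := fun q => fderiv ℂ Y q (0, 1) / E q ^ 2 with hh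
  have hfY : AnalyticAt ℂ (fun q => fderiv ℂ Y q (0, 1)) (xb, 0) :=
    AnalyticAt.fun_comp (g := fun L : (ℂ × ℂ) →L[ℂ] ℂ => L (0, 1)) (f := fderiv ℂ Y)
      ((ContinuousLinearMap.apply ℂ ℂ ((0, 1) : ℂ × ℂ)).analyticAt _) hY.fderiv
  have hEne : E (xb, 0) ≠ 0 := by rw [hEb]; exact hYy
  have hha : AnalyticAt ℂ h (xb, 0) := hfY.div (hE.pow 2) (pow_ne_zero 2 hEne)
  have hhb : h (xb, 0) ≠ 0 := div_ne_zero hYy (pow_ne_zero 2 hEne)
  -- the function `D`, the second coordinate of `TT`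
  have hkf : AnalyticAt ℂ (fun q : ℂ × ℂ => k q.1) (xb, 0) :=
    AnalyticAt.fun_comp (g := k) (f := fun q : ℂ × ℂ => q.1) hk analyticAt_fst
  have hden : AnalyticAt ℂ (fun q : ℂ × ℂ => 1 - k q.1 * Y q) (xb, 0) :=
    analyticAt_const.sub (hkf.mul hY)
  have hdenb : (fun q : ℂ × ℂ => 1 - k q.1 * Y q) (xb, 0) ≠ 0 := by
    simp [hYb]
  set D : ℂ × ℂ → ℂ := fun q => Y q / (1 - k q.1 * Y q) with hDdef
  have hD : AnalyticAt ℂ D (xb, 0) := hY.div hden hdenb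
  have hDb : D (xb, 0) = 0 := by simp [hDdef, hYb]
  have hP : Tendsto (fun q : ℂ × ℂ => ((q.1 - D q, q.2) : ℂ × ℂ)) (𝓝 (xb, 0)) (𝓝 (xb, 0)) := by
    have h1 : ContinuousAt (fun q : ℂ × ℂ => ((q.1 - D q, q.2) : ℂ × ℂ)) (xb, 0) :=
      (continuousAt_fst.sub hD.continuousAt).prodMk continuousAt_snd
    have h2 := h1.tendsto
    simp only [hDb, sub_zero] at h2
    exact h2
  have hTT : Tendsto (fun q : ℂ × ℂ => TT k (q.1, Y q)) (𝓝 (xb, 0)) (𝓝 (xb, 0)) := by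
    have h1 : ContinuousAt (fun q : ℂ × ℂ => ((q.1 - D q, D q) : ℂ × ℂ)) (xb, 0) :=
      (continuousAt_fst.sub hD.continuousAt).prodMk hD.continuousAt
    have h2 := h1.tendsto
    simp only [hDb, sub_zero] at h2
    exact h2
  have hqY : Tendsto (fun q : ℂ × ℂ => ((q.1, Y q) : ℂ × ℂ)) (𝓝 (xb, 0)) (𝓝 (xb, 0)) := by
    have h1 : ContinuousAt (fun q : ℂ × ℂ => ((q.1, Y q) : ℂ × ℂ)) (xb, 0) :=
      continuousAt_fst.prodMk hY.continuousAt
    have h2 := h1.tendsto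
    simp only [hYb] at h2
    exact h2
  have hR1 : ∀ᶠ q in 𝓝 ((xb, 0) : ℂ × ℂ), Y (q.1 - D q, q.2) = D q := by
    filter_upwards [hTT.eventually hYS, hqY.eventually hST, hSY] with q h1 h2 h3
    rw [h2, h3] at h1
    exact h1
  have hkey : ∀ᶠ q in 𝓝 ((xb, 0) : ℂ × ℂ), ∃ d,
      HasDerivAt (fun x => (TT k (x, Y (x, q.2))).1) d q.1 ∧
        h ((TT k (q.1, Y q)).1, q.2) * d = h q := by
    filter_upwards [hR1.eventually_nhds, hY.eventually_analyticAt, hP.eventually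
      hY.eventually_analyticAt, hD.eventually_analyticAt, hden.continuousAt.eventually_ne hdenb,
      hYE, hP.eventually hYE, hE.continuousAt.eventually_ne hEne,
      hP.eventually (hE.continuousAt.eventually_ne hEne)] with q h1 h2 h3 h4 h5 h6 h7 h8 h9
    set a := fderiv ℂ D q (1, 0) with ha
    set b := fderiv ℂ D q (0, 1) with hb
    set P : ℂ × ℂ := (q.1 - D q, q.2) with hPdef
    set Y1 := fderiv ℂ Y P (1, 0) with hY1
    set Y2 := fderiv ℂ Y P (0, 1) with hY2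
    have hfst : HasFDerivAt (fun q : ℂ × ℂ => q.1) (ContinuousLinearMap.fst ℂ ℂ ℂ) q :=
      hasFDerivAt_fst
    have hsnd : HasFDerivAt (fun q : ℂ × ℂ => q.2) (ContinuousLinearMap.snd ℂ ℂ ℂ) q :=
      hasFDerivAt_snd
    have hDf := h4.differentiableAt.hasFDerivAt
    have hPf : HasFDerivAt (fun q : ℂ × ℂ => ((q.1 - D q, q.2) : ℂ × ℂ))
        ((ContinuousLinearMap.fst ℂ ℂ ℂ - fderiv ℂ D q).prod (ContinuousLinearMap.snd ℂ ℂ ℂ)) q :=
      (hfst.sub hDf).prodMk hsnd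
    have hYf : HasFDerivAt Y (fderiv ℂ Y P) ((fun q : ℂ × ℂ => ((q.1 - D q, q.2) : ℂ × ℂ)) q) :=
      h3.differentiableAt.hasFDerivAt
    have hcomp := hYf.comp q hPf
    have huni := (hcomp.congr_of_eventuallyEq (h1.mono fun q' hq' => hq'.symm)).unique hDf
    have e1 : Y1 * (1 - a) = a := by
      have := DFunLike.congr_fun huni ((1 : ℂ), (0 : ℂ))
      simp only [ContinuousLinearMap.comp_apply, ContinuousLinearMap.prod_apply,
        _root_.sub_apply, ContinuousLinearMap.coe_fst', ContinuousLinearMap.coe_snd']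
        at this
      have h10 : ((1 - fderiv ℂ D q (1, 0), (0 : ℂ)) : ℂ × ℂ) = (1 - a) • ((1 : ℂ), (0 : ℂ)) := by
        simp [ha]
      rw [h10, map_smul, smul_eq_mul] at this
      rw [hY1, mul_comm]
      exact this
    have e2 : Y2 - b * Y1 = b := by
      have := DFunLike.congr_fun huni ((0 : ℂ), (1 : ℂ))
      simp only [ContinuousLinearMap.comp_apply, ContinuousLinearMap.prod_apply,
        _root_.sub_apply, ContinuousLinearMap.coe_fst', ContinuousLinearMap.coe_snd']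
        at this
      have h10 : ((0 - fderiv ℂ D q (0, 1), (1 : ℂ)) : ℂ × ℂ) =
          ((0 : ℂ), (1 : ℂ)) - b • ((1 : ℂ), (0 : ℂ)) := by
        simp [hb]
      rw [h10, map_sub, map_smul, smul_eq_mul] at this
      exact this
    have e3 : b * (1 - k q.1 * Y q) ^ 2 = fderiv ℂ Y q (0, 1) := by
      have h10 : HasDerivAt (fun c => D (q.1, c)) b q.2 := hasDerivAt_snd h4.differentiableAt
      have h11 : HasDerivAt (fun c => Y (q.1, c)) (fderiv ℂ Y q (0, 1)) q.2 :=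
        hasDerivAt_snd h2.differentiableAt
      have h12 := h11.fun_div ((h11.const_mul (k q.1)).const_sub 1) h5
      have h13 := h10.unique h12
      rw [h13]
      have h14 : Y (q.1, q.2) = Y q := rfl
      rw [h14]
      field_simp
      ring
    have e4 : E P * (1 - k q.1 * Y q) = E q := by
      have h10 : Y P = D q := h1.self_of_nhds
      by_cases hq : q.2 = 0
      · have h11 : Y q = 0 := by rw [h6, hq, zero_mul]
        have h12 : D q = 0 := by simp [hDdef, h11]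
        have h13 : P = q := by
          rw [hPdef, h12, sub_zero]
        rw [h13, h11, mul_zero, sub_zero, mul_one]
      · have h11 : P.2 = q.2 := rfl
        rw [h7, h11, hDdef] at h10
        dsimp only at h10
        rw [eq_div_iff h5, h6] at h10
        rw [h6]
        exact mul_left_cancel₀ hq (by linear_combination h10)
    refine ⟨1 - a, ?_, ?_⟩
    · have h10 : HasDerivAt (fun x => D (x, q.2)) a q.1 := hasDerivAt_fst h4.differentiableAt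
      exact (hasDerivAt_id q.1).sub h10
    · show h P * (1 - a) = h q
      have h10 : E P ≠ 0 := h9
      simp only [hh]
      rw [div_mul_eq_mul_div, div_eq_div_iff (pow_ne_zero 2 h10) (pow_ne_zero 2 h8), ← e4, ← e3]
      have h11 : Y2 * (1 - a) = b := by linear_combination (1 - a) * e2 + b * e1
      linear_combination (E P * (1 - k q.1 * Y q)) ^ 2 * h11
  -- the time
  obtain ⟨Θ, hΘ, hΘd⟩ := exists_prim hha
  obtain ⟨Ξ, hΞ, -, hΞiff⟩ := Pool.Agent.MP_ae5b4e_an_GeoX.implicit_analytic2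
    (F := fun r : (ℂ × ℂ) × ℂ => Θ (r.2, r.1.2) - r.1.1) (p₀ := (Θ (xb, 0), 0)) (t₀ := xb)
    (c := h (xb, 0))
    (by
      have h0 : AnalyticAt ℂ (fun r : (ℂ × ℂ) × ℂ => r.1.1) ((Θ (xb, 0), 0), xb) :=
        AnalyticAt.fun_comp (g := fun p : ℂ × ℂ => p.1) (f := fun r : (ℂ × ℂ) × ℂ => r.1)
          analyticAt_fst analyticAt_fst
      have h0' : AnalyticAt ℂ (fun r : (ℂ × ℂ) × ℂ => r.1.2) ((Θ (xb, 0), 0), xb) :=
        AnalyticAt.fun_comp (g := fun p : ℂ × ℂ => p.2) (f := fun r : (ℂ × ℂ) × ℂ => r.1)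
          analyticAt_snd analyticAt_fst
      have h2 : AnalyticAt ℂ (fun r : (ℂ × ℂ) × ℂ => Θ (r.2, r.1.2)) ((Θ (xb, 0), 0), xb) :=
        AnalyticAt.fun_comp (g := Θ) (f := fun r : (ℂ × ℂ) × ℂ => (r.2, r.1.2)) hΘ
          (analyticAt_snd.prod h0')
      exact h2.sub h0)
    (by simp) hhb (by simpa using hΘd.self_of_nhds.sub_const (Θ (xb, 0)))
  have hΘc : ContinuousAt (fun x : ℂ => Θ (x, 0)) xb :=
    ContinuousAt.comp (g := Θ) (f := fun x : ℂ => ((x, 0) : ℂ × ℂ)) hΘ.continuousAt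
      (by fun_prop)
  have hΘ1 : Tendsto (fun x : ℂ => ((Θ (x, 0), 0) : ℂ × ℂ)) (𝓝 xb) (𝓝 (Θ (xb, 0), 0)) :=
    (hΘc.prodMk continuousAt_const).tendsto
  have hΘ2 : Tendsto (fun x : ℂ => (((Θ (x, 0), 0), x) : (ℂ × ℂ) × ℂ)) (𝓝 xb)
      (𝓝 ((Θ (xb, 0), 0), xb)) :=
    ((hΘc.prodMk continuousAt_const).prodMk continuousAt_id).tendsto
  refine ⟨S, Y, h, Θ, Ξ, ?_⟩
  filter_upwards [hk.eventually_analyticAt, hax.eventually hS.eventually_analyticAt, hS0,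
    hax.eventually hST.eventually_nhds, hax.eventually hYS.eventually_nhds,
    hax.eventually hha.eventually_analyticAt, hax.eventually hkey.eventually_nhds,
    hax.eventually hΘ.eventually_analyticAt, hax.eventually hΘd.eventually_nhds,
    hΘ1.eventually hΞ.eventually_analyticAt, hΘ2.eventually hΞiff.eventually_nhds]
    with x h1 h2 h3 h4 h5 h6 h7 h8 h9 h10 h11
  exact ⟨h1, h2, h3, h4, h5, h6, h7, h8, h9, h10, h11.mono fun r hr h12 =>
    hr.1 (sub_eq_zero.2 h12)⟩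

lemma alg_step {z y κ : ℂ} (h : z⁻¹ + y⁻¹ = κ) (hy : 1 - κ * y ≠ 0) (hz : 1 - κ * z ≠ 0) :
    y / (1 - κ * y) = -z := by
  by_cases hy0 : y = 0
  · by_cases hz0 : z = 0
    · simp [hy0, hz0]
    · exfalso
      rw [hy0, inv_zero, add_zero] at h
      apply hz
      rw [← h, inv_mul_cancel₀ hz0, sub_self]
  · by_cases hz0 : z = 0
    · exfalso
      rw [hz0, inv_zero, zero_add] at h
      apply hy
      rw [← h, inv_mul_cancel₀ hy0, sub_self]
    · rw [div_eq_iff hy]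
      have h1 : y + z = κ * (y * z) := by
        rw [← h]
        field_simp
      linear_combination h1

lemma exists_box {t₁ : ℂ} {Q : ℂ × ℂ → Prop} (h : ∀ᶠ p in 𝓝 ((t₁, 0) : ℂ × ℂ), Q p) :
    ∃ r > 0, ∀ p ∈ ball t₁ r ×ˢ ball (0:ℂ) r, Q p := by
  obtain ⟨r, hr, hb⟩ := Metric.eventually_nhds_iff_ball.1 h
  refine ⟨r, hr, fun p hp => hb p ?_⟩
  rw [← ball_prod_same]
  exact hp

lemma inv_const' {g : ℂ × ℂ → ℂ} {t₁ : ℂ} (hg : AnalyticAt ℂ g (t₁, 0))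
    (hinv : ∀ᶠ p in 𝓝 ((t₁, 0) : ℂ × ℂ), g (p.1 + p.2, p.2) = g p) :
    ∀ᶠ p in 𝓝 ((t₁, 0) : ℂ × ℂ), g p = g (t₁, p.2) := by
  obtain ⟨r, hr, hb⟩ := exists_box (hg.eventually_analyticAt.and hinv)
  have h1 := inv_const (fun p hp => (hb p hp).1) (fun p hp => (hb p hp).2)
  filter_upwards [prod_mem_nhds (ball_mem_nhds t₁ hr) (ball_mem_nhds (0:ℂ) hr)] with p hp
  exact h1 p hp

lemma local_form {k : ℂ → ℂ} {S Y h Θ Ξ F : ℂ × ℂ → ℂ} {t₁ : ℂ}
    (hD : Data k S Y h Θ Ξ (F (t₁, 0))) (hF : AnalyticAt ℂ F (t₁, 0))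
    (hfe : ∀ᶠ p in 𝓝 ((t₁, 0) : ℂ × ℂ), p.2 ≠ 0 →
        (F (p.1 + p.2, p.2) - F p)⁻¹ + (F (p.1 - p.2, p.2) - F p)⁻¹ = k (F p)) :
    ∃ c μ u₀ : ℂ → ℂ, AnalyticAt ℂ c 0 ∧ AnalyticAt ℂ μ 0 ∧ AnalyticAt ℂ u₀ 0 ∧ c 0 = 0 ∧
      (∀ᶠ t in 𝓝 t₁, Θ (F (t, 0), 0) = u₀ 0 + μ 0 * (t - t₁)) ∧
      (fun p : ℂ × ℂ => Ξ (u₀ p.2 + μ p.2 * (p.1 - t₁), c p.2)) =ᶠ[𝓝 (t₁, 0)] F := by
  set x₁ := F (t₁, 0) with hx₁
  -- the shifted functions
  have hpl : AnalyticAt ℂ (fun p : ℂ × ℂ => ((p.1 + p.2, p.2) : ℂ × ℂ)) (t₁, 0) :=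
    (analyticAt_fst.add analyticAt_snd).prod analyticAt_snd
  have hmi : AnalyticAt ℂ (fun p : ℂ × ℂ => ((p.1 - p.2, p.2) : ℂ × ℂ)) (t₁, 0) :=
    (analyticAt_fst.sub analyticAt_snd).prod analyticAt_snd
  have hplt : Tendsto (fun p : ℂ × ℂ => ((p.1 + p.2, p.2) : ℂ × ℂ)) (𝓝 (t₁, 0)) (𝓝 (t₁, 0)) := by
    have := hpl.continuousAt.tendsto
    simpa using this
  have hFp : AnalyticAt ℂ (fun p : ℂ × ℂ => F (p.1 + p.2, p.2)) (t₁, 0) :=
    AnalyticAt.fun_comp (g := F) (f := fun p : ℂ × ℂ => ((p.1 + p.2, p.2) : ℂ × ℂ))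
      (by simpa using hF) hpl
  have hFm : AnalyticAt ℂ (fun p : ℂ × ℂ => F (p.1 - p.2, p.2)) (t₁, 0) :=
    AnalyticAt.fun_comp (g := F) (f := fun p : ℂ × ℂ => ((p.1 - p.2, p.2) : ℂ × ℂ))
      (by simpa using hF) hmi
  have hkF : AnalyticAt ℂ (fun p : ℂ × ℂ => k (F p)) (t₁, 0) :=
    AnalyticAt.fun_comp (g := k) (f := F) hD.ak hF
  -- the pairs
  set P : ℂ × ℂ → ℂ × ℂ := fun p => (F p, F (p.1 - p.2, p.2) - F p) with hP
  have hPa : AnalyticAt ℂ P (t₁, 0) := hF.prod (hFm.sub hF)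
  have hP0 : P (t₁, 0) = (x₁, 0) := by
    simp [hP, hx₁]
  have hPt : Tendsto P (𝓝 (t₁, 0)) (𝓝 (x₁, 0)) := by
    have := hPa.continuousAt.tendsto
    rwa [hP0] at this
  have hTT : ∀ᶠ p in 𝓝 ((t₁, 0) : ℂ × ℂ),
      TT k (P p) = (F (p.1 + p.2, p.2), F p - F (p.1 + p.2, p.2)) := by
    have h1 : ∀ᶠ p in 𝓝 ((t₁, 0) : ℂ × ℂ), 1 - k (F p) * (F (p.1 - p.2, p.2) - F p) ≠ 0 := by
      refine (analyticAt_const.sub (hkF.mul (hFm.sub hF))).continuousAt.eventually_ne ?_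
      simp
    have h2 : ∀ᶠ p in 𝓝 ((t₁, 0) : ℂ × ℂ), 1 - k (F p) * (F (p.1 + p.2, p.2) - F p) ≠ 0 := by
      refine (analyticAt_const.sub (hkF.mul (hFp.sub hF))).continuousAt.eventually_ne ?_
      simp
    filter_upwards [h1, h2, hfe] with p h1 h2 h3
    by_cases hp : p.2 = 0
    · have e : p = (p.1, 0) := Prod.ext rfl hp
      rw [e]
      simp [hP, TT]
    · have h4 := alg_step (h3 hp) h1 h2
      simp only [hP, TT]
      rw [h4]
      ext <;> simp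
  -- the invariant `c`
  have hCa : AnalyticAt ℂ (fun p => S (P p)) (t₁, 0) :=
    AnalyticAt.fun_comp (g := S) (f := P) (by rw [hP0]; exact hD.aS) hPa
  have hCinv : ∀ᶠ p in 𝓝 ((t₁, 0) : ℂ × ℂ), S (P (p.1 + p.2, p.2)) = S (P p) := by
    filter_upwards [hTT, hPt.eventually hD.inv] with p h1 h2
    rw [← h2, h1]
    simp [hP]
  have hCc := inv_const' hCa hCinv
  set c : ℂ → ℂ := fun ρ => S (P (t₁, ρ)) with hc
  have hline : AnalyticAt ℂ (fun ρ : ℂ => ((t₁, ρ) : ℂ × ℂ)) 0 :=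
    analyticAt_const.prod analyticAt_id
  have hca : AnalyticAt ℂ c 0 :=
    AnalyticAt.fun_comp (g := fun p => S (P p)) (f := fun ρ : ℂ => ((t₁, ρ) : ℂ × ℂ)) hCa hline
  have hc0 : c 0 = 0 := by
    show S (P (t₁, 0)) = 0
    rw [hP0]
    exact hD.S0
  have hca2 : AnalyticAt ℂ (fun p : ℂ × ℂ => c p.2) (t₁, 0) :=
    AnalyticAt.fun_comp (g := c) (f := fun p : ℂ × ℂ => p.2) hca analyticAt_snd
  have hFc : AnalyticAt ℂ (fun p : ℂ × ℂ => ((F p, c p.2) : ℂ × ℂ)) (t₁, 0) := hF.prod hca2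
  have hFc0 : ((F (t₁, 0), c (0:ℂ)) : ℂ × ℂ) = (x₁, 0) := by rw [hc0]
  have hFct : Tendsto (fun p : ℂ × ℂ => ((F p, c p.2) : ℂ × ℂ)) (𝓝 (t₁, 0)) (𝓝 (x₁, 0)) := by
    have := hFc.continuousAt.tendsto
    simp only at this
    rwa [hFc0] at this
  -- the next point
  have hnext : ∀ᶠ p in 𝓝 ((t₁, 0) : ℂ × ℂ),
      (TT k (F p, Y (F p, c p.2))).1 = F (p.1 + p.2, p.2) := by
    filter_upwards [hTT, hPt.eventually hD.YS, hCc] with p h1 h2 h3
    have h4 : Y (F p, c p.2) = (P p).2 := by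
      rw [← h2, h3]
    rw [h4]
    exact congrArg Prod.fst h1
  -- the speed
  set w : ℂ × ℂ → ℂ := fun p => h (F p, c p.2) * fderiv ℂ F p (1, 0) with hw
  have hwa : AnalyticAt ℂ w (t₁, 0) := by
    refine AnalyticAt.mul ?_ ?_
    · exact AnalyticAt.fun_comp (g := h) (f := fun p : ℂ × ℂ => ((F p, c p.2) : ℂ × ℂ))
        (by simp only; rw [hFc0]; exact hD.ah) hFc
    · exact AnalyticAt.fun_comp (g := fun L : (ℂ × ℂ) →L[ℂ] ℂ => L (1, 0)) (f := fderiv ℂ F)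
        ((ContinuousLinearMap.apply ℂ ℂ ((1, 0) : ℂ × ℂ)).analyticAt _) hF.fderiv
  have hwinv : ∀ᶠ p in 𝓝 ((t₁, 0) : ℂ × ℂ), w (p.1 + p.2, p.2) = w p := by
    filter_upwards [hnext.eventually_nhds, hFct.eventually hD.dX, hF.eventually_analyticAt,
      hplt.eventually hF.eventually_analyticAt] with p h1 h2 h3 h4
    obtain ⟨d, hd1, hd2⟩ := h2
    have h5 : HasDerivAt (fun t => F (t, p.2)) (fderiv ℂ F p (1, 0)) p.1 :=
      hasDerivAt_fst h3.differentiableAt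
    have h6 := HasDerivAt.comp (h₂ := fun x => (TT k (x, Y (x, c p.2))).1)
      (h := fun t => F (t, p.2)) p.1 hd1 h5
    have h7 : HasDerivAt (fun t => F (t + p.2, p.2)) (fderiv ℂ F (p.1 + p.2, p.2) (1, 0)) p.1 := by
      have h8 : HasDerivAt (fun t => F (t, p.2)) (fderiv ℂ F (p.1 + p.2, p.2) (1, 0))
        (p.1 + p.2) := hasDerivAt_fst (q := (p.1 + p.2, p.2)) h4.differentiableAt
      exact h8.comp_add_const p.1 p.2
    have h8 : Tendsto (fun t : ℂ => ((t, p.2) : ℂ × ℂ)) (𝓝 p.1) (𝓝 p) := by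
      have : Continuous (fun t : ℂ => ((t, p.2) : ℂ × ℂ)) := by fun_prop
      exact this.tendsto p.1
    have h9 : ((fun x => (TT k (x, Y (x, c p.2))).1) ∘ fun t => F (t, p.2)) =ᶠ[𝓝 p.1]
        fun t => F (t + p.2, p.2) := by
      filter_upwards [h8.eventually h1] with t ht
      exact ht
    have h10 := (h6.congr_of_eventuallyEq h9.symm).unique h7
    have h11 := h1.self_of_nhds
    rw [h11] at hd2
    simp only [hw]
    rw [← h10, ← hd2]
    ring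
  have hwc := inv_const' hwa hwinv
  set μ : ℂ → ℂ := fun ρ => w (t₁, ρ) with hμ
  have hμa : AnalyticAt ℂ μ 0 :=
    AnalyticAt.fun_comp (g := w) (f := fun ρ : ℂ => ((t₁, ρ) : ℂ × ℂ)) hwa hline
  -- the time
  set u : ℂ × ℂ → ℂ := fun p => Θ (F p, c p.2) with hu
  have hua : AnalyticAt ℂ u (t₁, 0) :=
    AnalyticAt.fun_comp (g := Θ) (f := fun p : ℂ × ℂ => ((F p, c p.2) : ℂ × ℂ))
      (by simp only; rw [hFc0]; exact hD.aΘ) hFc
  set u₀ : ℂ → ℂ := fun ρ => u (t₁, ρ) with hu₀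
  have hu₀a : AnalyticAt ℂ u₀ 0 :=
    AnalyticAt.fun_comp (g := u) (f := fun ρ : ℂ => ((t₁, ρ) : ℂ × ℂ)) hua hline
  have hud : ∀ᶠ p in 𝓝 ((t₁, 0) : ℂ × ℂ), HasDerivAt (fun t => u (t, p.2)) (μ p.2) p.1 := by
    filter_upwards [hwc, hFct.eventually hD.dΘ, hF.eventually_analyticAt] with p h1 h2 h3
    have h5 : HasDerivAt (fun t => F (t, p.2)) (fderiv ℂ F p (1, 0)) p.1 :=
      hasDerivAt_fst h3.differentiableAt
    have h6 := HasDerivAt.comp (h₂ := fun x => Θ (x, c p.2)) (h := fun t => F (t, p.2)) p.1 h2 h5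
    have h7 : μ p.2 = h (F p, c p.2) * fderiv ℂ F p (1, 0) := h1.symm
    rw [h7]
    exact h6
  have huaff : ∀ᶠ p in 𝓝 ((t₁, 0) : ℂ × ℂ), u p = u₀ p.2 + μ p.2 * (p.1 - t₁) := by
    obtain ⟨r, hr, hb⟩ := exists_box hud
    filter_upwards [prod_mem_nhds (ball_mem_nhds t₁ hr) (ball_mem_nhds (0:ℂ) hr)] with p hp
    have h1 : ∀ t ∈ ball t₁ r,
        HasDerivAt (fun t => u (t, p.2) - μ p.2 * (t - t₁)) 0 t := by
      intro t ht
      have h2 := hb (t, p.2) ⟨ht, hp.2⟩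
      have h3 := h2.fun_sub (((hasDerivAt_id' t).sub_const t₁).const_mul (μ p.2))
      refine h3.congr_deriv ?_
      simp
    have h4 := isOpen_ball.is_const_of_deriv_eq_zero (convex_ball t₁ r).isPreconnected
      (fun t ht => (h1 t ht).differentiableAt.differentiableWithinAt)
      (fun t ht => (h1 t ht).deriv) hp.1 (mem_ball_self hr)
    simp only [sub_self, mul_zero, sub_zero] at h4
    have h5 : u p = u (p.1, p.2) := rfl
    rw [h5, hu₀]
    linear_combination h4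
  refine ⟨c, μ, u₀, hca, hμa, hu₀a, hc0, ?_, ?_⟩
  · have h1 : Tendsto (fun t : ℂ => ((t, 0) : ℂ × ℂ)) (𝓝 t₁) (𝓝 (t₁, 0)) := by
      have : Continuous (fun t : ℂ => ((t, 0) : ℂ × ℂ)) := by fun_prop
      exact this.tendsto t₁
    filter_upwards [h1.eventually huaff] with t ht
    rw [← ht, hu]
    simp only [hc0]
  · have h1 : Tendsto (fun p : ℂ × ℂ => (((u p, c p.2), F p) : (ℂ × ℂ) × ℂ)) (𝓝 (t₁, 0))
        (𝓝 ((Θ (x₁, 0), 0), x₁)) := by
      have h2 : ContinuousAt (fun p : ℂ × ℂ => (((u p, c p.2), F p) : (ℂ × ℂ) × ℂ)) (t₁, 0) :=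
        (hua.continuousAt.prodMk hca2.continuousAt).prodMk hF.continuousAt
      have h3 := h2.tendsto
      simp only [hu, hc0] at h3
      exact h3
    filter_upwards [h1.eventually hD.ΞΘ, huaff] with p h2 h3
    rw [← h3]
    exact h2 rfl

end FamilyOfGood

open FamilyOfGood in
theorem family_of_good {k f : ℂ → ℂ} {b : ℂ} (hG : Good k (f b)) (hf : AnalyticAt ℂ f b)
    (hd : deriv f b ≠ 0) :
    ∃ δ > 0, ∀ (F : ℂ × ℂ → ℂ) (t₁ : ℂ), t₁ ∈ ball b δ → AnalyticAt ℂ F (t₁, 0) →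
      (∀ᶠ s in 𝓝 t₁, F (s, 0) = f s) →
      (∀ᶠ p in 𝓝 ((t₁, 0) : ℂ × ℂ), p.2 ≠ 0 →
        (F (p.1 + p.2, p.2) - F p)⁻¹ + (F (p.1 - p.2, p.2) - F p)⁻¹ = k (F p)) →
      ∃ G : ℂ × ℂ → ℂ, (∀ t ∈ ball b δ, AnalyticAt ℂ G (t, 0)) ∧
        (∀ᶠ s in 𝓝 t₁, G (s, 0) = f s) ∧ G =ᶠ[𝓝 (t₁, 0)] F := by
  obtain ⟨S, Y, h, Θ, Ξ, hdata⟩ := exists_data hG
  obtain ⟨δ, hδ, hb⟩ := Metric.eventually_nhds_iff_ball.1
    ((hf.continuousAt.eventually hdata).and hf.eventually_analyticAt)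
  refine ⟨δ, hδ, fun F t₁ ht₁ hF hFf hfe => ?_⟩
  have hF1 : F (t₁, 0) = f t₁ := hFf.self_of_nhds
  obtain ⟨c, μ, u₀, hc, hμ, hu₀, hc0, haff, hGF⟩ := local_form (by rw [hF1]; exact (hb t₁ ht₁).1)
    hF hfe
  have hlin : EqOn (fun t => Θ (f t, 0)) (fun t => u₀ 0 + μ 0 * (t - t₁)) (ball b δ) := by
    have h1 : AnalyticOnNhd ℂ (fun t => Θ (f t, 0)) (ball b δ) := fun t ht =>
      AnalyticAt.fun_comp (g := Θ) (f := fun t => ((f t, 0) : ℂ × ℂ)) (hb t ht).1.aΘ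
        ((hb t ht).2.prod analyticAt_const)
    have h2 : AnalyticOnNhd ℂ (fun t => u₀ 0 + μ 0 * (t - t₁)) (ball b δ) := fun t _ => by
      fun_prop
    refine h1.eqOn_of_preconnected_of_eventuallyEq h2 (convex_ball b δ).isPreconnected ht₁ ?_
    filter_upwards [haff, hFf] with t h1 h2
    rw [← h1, h2]
  refine ⟨fun p => Ξ (u₀ p.2 + μ p.2 * (p.1 - t₁), c p.2), fun t ht => ?_, ?_, hGF⟩
  · have h1 : AnalyticAt ℂ (fun p : ℂ × ℂ => u₀ p.2) (t, 0) :=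
      AnalyticAt.fun_comp (g := u₀) (f := fun p : ℂ × ℂ => p.2) hu₀ analyticAt_snd
    have h2 : AnalyticAt ℂ (fun p : ℂ × ℂ => μ p.2) (t, 0) :=
      AnalyticAt.fun_comp (g := μ) (f := fun p : ℂ × ℂ => p.2) hμ analyticAt_snd
    have h3 : AnalyticAt ℂ (fun p : ℂ × ℂ => c p.2) (t, 0) :=
      AnalyticAt.fun_comp (g := c) (f := fun p : ℂ × ℂ => p.2) hc analyticAt_snd
    refine AnalyticAt.fun_comp (g := Ξ)
      (f := fun p : ℂ × ℂ => ((u₀ p.2 + μ p.2 * (p.1 - t₁), c p.2) : ℂ × ℂ)) ?_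
      ((h1.add (h2.mul (analyticAt_fst.sub analyticAt_const))).prod h3)
    have h4 : Θ (f t, 0) = u₀ 0 + μ 0 * (t - t₁) := hlin ht
    simp only [hc0]
    rw [← h4]
    exact (hb t ht).1.aΞ
  · have h1 : Tendsto (fun t : ℂ => ((t, 0) : ℂ × ℂ)) (𝓝 t₁) (𝓝 (t₁, 0)) := by
      have : Continuous (fun t : ℂ => ((t, 0) : ℂ × ℂ)) := by fun_prop
      exact this.tendsto t₁
    filter_upwards [h1.eventually hGF, hFf] with t h2 h3
    rw [← h3]
    exact h2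

end Pool.Agent.MP_ae5b4e_an_MERO
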