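import Mathlib
import Pool.Agent.Lib.MP_ae5b4e_an_LAT.NDDefs

/-!
# MP_ae5b4e_an, project MERO: a family of curves gives a first integral near the diagonal
-/

noncomputable section

namespace Pool.Agent.MP_ae5b4e_an_MERO

open Complex Set Filter Topology Metric
open Pool.Agent.MP_ae5b4e_an_ND

namespace GoodOfFamily

/-- the map `(t, ρ) ↦ (x, x⁻ - x)` -/
def MM (F : ℂ × ℂ → ℂ) (p : ℂ × ℂ) : ℂ × ℂ := (F p, F (p.1 - p.2, p.2) - F p)

/-- the map `(t, ρ) ↦ (t - ρ, ρ)` -/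
def LL : ℂ × ℂ →L[ℂ] ℂ × ℂ :=
  (ContinuousLinearMap.fst ℂ ℂ ℂ - ContinuousLinearMap.snd ℂ ℂ ℂ).prod
    (ContinuousLinearMap.snd ℂ ℂ ℂ)

lemma LL_apply (p : ℂ × ℂ) : LL p = (p.1 - p.2, p.2) := rfl

lemma hasStrictFDerivAt_MM {F : ℂ × ℂ → ℂ} {t₁ : ℂ} (hF : AnalyticAt ℂ F (t₁, 0)) :
    HasStrictFDerivAt (MM F) ((fderiv ℂ F (t₁, 0)).prod
      ((fderiv ℂ F (t₁, 0)) ∘L LL - fderiv ℂ F (t₁, 0))) (t₁, 0) := by
  have h1 : HasStrictFDerivAt F (fderiv ℂ F (t₁, 0)) (t₁, 0) := hF.hasStrictFDerivAt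
  have h2 : HasStrictFDerivAt (fun p : ℂ × ℂ => F (LL p)) ((fderiv ℂ F (t₁, 0)) ∘L LL)
      (t₁, 0) := by
    have h3 : HasStrictFDerivAt F (fderiv ℂ F (t₁, 0)) (LL (t₁, 0)) := by
      rw [LL_apply]; simpa using h1
    exact h3.comp _ LL.hasStrictFDerivAt
  exact h1.prodMk (h2.sub h1)

lemma analyticAt_MM {F : ℂ × ℂ → ℂ} {t₁ : ℂ} (hF : AnalyticAt ℂ F (t₁, 0)) :
    AnalyticAt ℂ (MM F) (t₁, 0) := by
  have h2 : AnalyticAt ℂ (fun p : ℂ × ℂ => F (LL p)) (t₁, 0) := by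
    have h3 : AnalyticAt ℂ F (LL (t₁, 0)) := by
      rw [LL_apply]; simpa using hF
    exact h3.comp (LL.analyticAt _)
  exact hF.prod (h2.sub hF)

lemma MM_zero (F : ℂ × ℂ → ℂ) (t : ℂ) : MM F (t, 0) = (F (t, 0), 0) := by
  simp [MM]

lemma hasStrictDerivAt_fst {F : ℂ × ℂ → ℂ} {t₁ : ℂ} (hF : AnalyticAt ℂ F (t₁, 0)) :
    HasStrictDerivAt (fun s => F (s, 0)) (fderiv ℂ F (t₁, 0) (1, 0)) t₁ := by
  have h1 : HasStrictFDerivAt F (fderiv ℂ F (t₁, 0)) (t₁, 0) := hF.hasStrictFDerivAt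
  have h2 : HasStrictDerivAt (fun s : ℂ => ((s, 0) : ℂ × ℂ)) (1, 0) t₁ :=
    (hasStrictDerivAt_id t₁).prodMk (hasStrictDerivAt_const t₁ (0 : ℂ))
  exact h1.comp_hasStrictDerivAt t₁ h2

/-- the derivative of `MM F` is invertible -/
lemma exists_equiv {A : ℂ × ℂ →L[ℂ] ℂ} (hA : A (1, 0) ≠ 0) :
    ∃ e : (ℂ × ℂ) ≃L[ℂ] (ℂ × ℂ), (e : ℂ × ℂ →L[ℂ] ℂ × ℂ) = A.prod (A ∘L LL - A) := by
  set B : ℂ × ℂ →L[ℂ] ℂ × ℂ := A.prod (A ∘L LL - A) with hB
  have hlin : ∀ u v : ℂ, A (u, v) = u * A (1, 0) + v * A (0, 1) := by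
    intro u v
    have : ((u, v) : ℂ × ℂ) = u • ((1, 0) : ℂ × ℂ) + v • ((0, 1) : ℂ × ℂ) := by simp
    rw [this, map_add, map_smul, map_smul, smul_eq_mul, smul_eq_mul]
  have hBa : ∀ u v : ℂ, B (u, v) = (u * A (1, 0) + v * A (0, 1), - (v * A (1, 0))) := by
    intro u v
    have h1 : B (u, v) = (A (u, v), A (u - v, v) - A (u, v)) := rfl
    rw [h1, hlin u v, hlin (u - v) v]
    ext
    · rfl
    · simp only
      ring
  have hinj : Function.Injective B.toLinearMap := by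
    rw [← LinearMap.ker_eq_bot, LinearMap.ker_eq_bot']
    rintro ⟨u, v⟩ h
    have h' : B (u, v) = 0 := h
    rw [hBa, Prod.mk_eq_zero, neg_eq_zero, mul_eq_zero] at h'
    have hv : v = 0 := h'.2.resolve_right hA
    have hu : u = 0 := by
      have h3 := h'.1
      rw [hv, zero_mul, add_zero, mul_eq_zero] at h3
      exact h3.resolve_right hA
    rw [hu, hv]; rfl
  refine ⟨(LinearEquiv.ofInjectiveEndo B.toLinearMap hinj).toContinuousLinearEquiv, ?_⟩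
  rfl

end GoodOfFamily

open GoodOfFamily in
theorem good_of_family {k : ℂ → ℂ} {F : ℂ × ℂ → ℂ} {t₁ : ℂ} (hF : AnalyticAt ℂ F (t₁, 0))
    (hd : deriv (fun s => F (s, 0)) t₁ ≠ 0) (hk : AnalyticAt ℂ k (F (t₁, 0)))
    (hfe : ∀ᶠ p in 𝓝 ((t₁, 0) : ℂ × ℂ), p.2 ≠ 0 →
      (F (p.1 + p.2, p.2) - F p)⁻¹ + (F (p.1 - p.2, p.2) - F p)⁻¹ = k (F p)) :
    Good k (F (t₁, 0)) := by
  have hA : fderiv ℂ F (t₁, 0) (1, 0) ≠ 0 := by
    rw [← (hasStrictDerivAt_fst hF).hasDerivAt.deriv]; exact hd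
  obtain ⟨e, he⟩ := exists_equiv hA
  have hM0 := hasStrictFDerivAt_MM hF
  rw [← he] at hM0
  set N : ℂ × ℂ → ℂ × ℂ := hM0.localInverse with hN
  have hN1 : ∀ᶠ q in 𝓝 ((t₁, 0) : ℂ × ℂ), N (MM F q) = q := hM0.eventually_left_inverse
  have hN2 : ∀ᶠ p in 𝓝 (MM F (t₁, 0)), MM F (N p) = p := hM0.eventually_right_inverse
  have hN3 : Tendsto N (𝓝 (MM F (t₁, 0))) (𝓝 (t₁, 0)) := hM0.localInverse_tendsto
  have hN4 : AnalyticAt ℂ N (MM F (t₁, 0)) := by
    have h1 := (hM0.toOpenPartialHomeomorph (MM F)).analyticAt_symm' (a := (t₁, 0)) (i := e)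
      hM0.mem_toOpenPartialHomeomorph_source (by
        rw [hM0.toOpenPartialHomeomorph_coe]; exact analyticAt_MM hF) (by
        rw [hM0.toOpenPartialHomeomorph_coe]; exact hM0.hasFDerivAt.fderiv)
    rw [hM0.toOpenPartialHomeomorph_coe] at h1
    exact h1
  rw [MM_zero] at hN2 hN3 hN4
  have hc0 : Tendsto (fun t : ℂ => ((t, 0) : ℂ × ℂ)) (𝓝 t₁) (𝓝 (t₁, 0)) :=
    (Continuous.prodMk continuous_id continuous_const).tendsto' _ _ rfl
  -- `S = 0` on the diagonal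
  have hS0 : ∀ᶠ x in 𝓝 (F (t₁, 0)), (N (x, 0)).2 = 0 := by
    rw [← (hasStrictDerivAt_fst hF).map_nhds_eq hA, eventually_map]
    filter_upwards [hc0.eventually hN1] with t ht
    rw [MM_zero] at ht
    rw [ht]
  have hSa : AnalyticAt ℂ (fun p => (N p).2) (F (t₁, 0), 0) :=
    analyticAt_snd.comp hN4
  refine ⟨hk, fun p => (N p).2, hSa, hS0, ?_, ?_⟩
  · -- the derivative
    have hSd := hSa.differentiableAt.hasFDerivAt
    set D := fderiv ℂ (fun p => (N p).2) (F (t₁, 0), 0) with hD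
    have h2 : HasDerivAt (fun y : ℂ => ((F (t₁, 0), y) : ℂ × ℂ)) (0, 1) 0 :=
      (hasDerivAt_const (0:ℂ) _).prodMk (hasDerivAt_id (0:ℂ))
    have h3 : deriv (fun y => (N (F (t₁, 0), y)).2) 0 = D (0, 1) :=
      (hSd.comp_hasDerivAt (0:ℂ) h2).deriv
    rw [h3]
    intro h4
    -- the `x`-derivative vanishes
    have h5 : D (1, 0) = 0 := by
      have h6 : HasDerivAt (fun x : ℂ => ((x, 0) : ℂ × ℂ)) (1, 0) (F (t₁, 0)) :=
        (hasDerivAt_id _).prodMk (hasDerivAt_const _ (0:ℂ))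
      have h7 : HasDerivAt (fun x : ℂ => (N (x, 0)).2) (D (1, 0)) (F (t₁, 0)) :=
        HasFDerivAt.comp_hasDerivAt (f := fun x : ℂ => ((x, 0) : ℂ × ℂ)) (F (t₁, 0)) hSd h6
      have h8 : HasDerivAt (fun x : ℂ => (N (x, 0)).2) 0 (F (t₁, 0)) :=
        (hasDerivAt_const _ (0:ℂ)).congr_of_eventuallyEq hS0
      exact h7.unique h8
    have h6 : D = 0 := by
      ext
      · simpa using h5
      · simpa using h4
    -- differentiate `S (M q) = q.2`
    have h7 : HasFDerivAt (fun q => (N (MM F q)).2)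
        (D ∘L (e : ℂ × ℂ →L[ℂ] ℂ × ℂ)) (t₁, 0) := by
      have h8 : HasFDerivAt (fun p => (N p).2) D (MM F (t₁, 0)) := by
        rw [MM_zero]; exact hSd
      exact h8.comp _ hM0.hasFDerivAt
    have h8 : HasFDerivAt (fun q => (N (MM F q)).2) (ContinuousLinearMap.snd ℂ ℂ ℂ) (t₁, 0) :=
      (ContinuousLinearMap.snd ℂ ℂ ℂ).hasFDerivAt.congr_of_eventuallyEq (by
        filter_upwards [hN1] with q hq
        rw [hq]; rfl)
    have h9 := h7.unique h8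
    rw [h6] at h9
    have h10 := congrArg (fun f : ℂ × ℂ →L[ℂ] ℂ => f (0, 1)) h9
    simp at h10
  · -- invariance
    have hq : Tendsto (fun q : ℂ × ℂ => ((q.1 + q.2, q.2) : ℂ × ℂ)) (𝓝 (t₁, 0)) (𝓝 (t₁, 0)) := by
      have : Continuous (fun q : ℂ × ℂ => ((q.1 + q.2, q.2) : ℂ × ℂ)) := by fun_prop
      exact this.tendsto' _ _ (by simp)
    filter_upwards [hN2, hN3.eventually hfe, hN3.eventually (hq.eventually hN1)] with p h1 h2 h3
    by_cases hy : p.2 = 0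
    · have : TT k p = p := by
        unfold TT
        rw [hy]
        ext <;> simp [hy]
      rw [this]
    · set q := N p with hqd
      have h10 : p.1 = F q := by rw [← h1]; rfl
      have h11 : p.2 = F (q.1 - q.2, q.2) - F q := by
        conv_lhs => rw [← h1]
        rfl
      have hq2 : q.2 ≠ 0 := by
        intro h0
        apply hy
        rw [h11, h0, sub_zero]
        have : ((q.1, 0) : ℂ × ℂ) = q := by rw [← h0]
        rw [this, sub_self]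
      have h12 := h2 hq2
      rw [← h11] at h12
      set u := F (q.1 + q.2, q.2) - F q with hu
      have h13 : p.2 / (1 - k p.1 * p.2) = -u := by
        rw [h10]
        have h14 : u⁻¹ = -((1 - k (F q) * p.2) / p.2) := by
          rw [← h12]
          field_simp
          ring
        rw [← inv_inv u, h14, inv_neg, neg_neg, inv_div]
      have h15 : TT k p = MM F (q.1 + q.2, q.2) := by
        unfold TT MM
        rw [h13, h10, add_sub_cancel_right]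
        ext
        · simp [hu]
        · simp [hu]
      rw [h15, h3]

end Pool.Agent.MP_ae5b4e_an_MERO
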