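import Mathlib
import Pool.Agent.Lib.MP_ae5b4e_an_LAT.NDDefs
import Pool.Agent.Lib.MP_ae5b4e_an_LAT.NDPropag
import Pool.Agent.Lib.MP_ae5b4e_an_MERO.Defs
import Pool.Agent.Lib.MP_ae5b4e_an_MERO.Countable
import Pool.Agent.Lib.MP_ae5b4e_an_MERO.ExtBasic
import Pool.Agent.Lib.MP_ae5b4e_an_MERO.GoodOfFamily
import Pool.Agent.Lib.MP_ae5b4e_an_MERO.FamilyOfGood

/-!
# MP_ae5b4e_an, project MERO, module NC: the limit curve does not continue beyond the last height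
unless the whole family does
-/

noncomputable section

namespace Pool.Agent.MP_ae5b4e_an_MERO

open Complex Set Filter Topology Metric
open Pool.Agent.MP_ae5b4e_an_ND

namespace NonCont

theorem eqOn_const {D : Set ℂ} (hD : IsPreconnected D) {f : ℂ → ℂ} (hf : AnalyticOnNhd ℂ f D)
    {t : ℂ} (ht : t ∈ D) {C : ℂ} (h : ∀ᶠ s in 𝓝[≠] t, f s = C) : EqOn f (fun _ => C) D :=
  hf.eqOn_of_preconnected_of_frequently_eq analyticOnNhd_const hD ht h.frequently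

/-- continuous functions which agree outside a countable set agree -/
theorem eq_off {V Z : Set ℂ} (hV : IsOpen V) (hZ : Z.Countable) {f g : ℂ → ℂ}
    (hf : ContinuousOn f V) (hg : ContinuousOn g V) (h : ∀ t ∈ V, t ∉ Z → f t = g t) :
    EqOn f g V := by
  have h1 : EqOn f g (V ∩ Zᶜ) := fun t ht => h t ht.1 ht.2
  exact h1.of_subset_closure hf hg inter_subset_left
    (Dense.open_subset_closure_inter (hZ.dense_compl ℝ) hV)

theorem exists_real {Z : Set ℂ} (hZ : Z.Countable) (b : ℂ) {d : ℝ} (hd : 0 < d) :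
    ∃ s : ℝ, |s| < d ∧ b + s ∉ Z := by
  have hinj : Function.Injective fun s : ℝ => b + (s : ℂ) := fun x y hxy => by
    simpa using hxy
  have hc := hZ.preimage hinj
  obtain ⟨s, hs1, hs2⟩ := (hc.dense_compl ℝ).inter_open_nonempty (Ioo (-d) d) isOpen_Ioo
    (nonempty_Ioo.2 (by linarith))
  exact ⟨s, abs_lt.2 hs1, hs2⟩

theorem germ_eq {G G' : ℂ × ℂ → ℂ} {t₁ t₂ : ℂ}
    (hG : ∀ t ∈ segment ℝ t₁ t₂, AnalyticAt ℂ G (t, 0))
    (hG' : ∀ t ∈ segment ℝ t₁ t₂, AnalyticAt ℂ G' (t, 0))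
    (h : G =ᶠ[𝓝 (t₁, 0)] G') : G =ᶠ[𝓝 (t₂, 0)] G' := by
  set K : Set (ℂ × ℂ) := (fun t : ℂ => ((t, 0) : ℂ × ℂ)) '' segment ℝ t₁ t₂ with hK
  have hseg : segment ℝ t₁ t₂ = (fun θ : ℝ => (1 - θ) • t₁ + θ • t₂) '' Icc (0 : ℝ) 1 :=
    segment_eq_image ℝ t₁ t₂
  have hKc : IsCompact K := by
    rw [hK, hseg]
    exact (isCompact_Icc.image (by fun_prop)).image (by fun_prop)
  have hKconv : Convex ℝ K := by
    have : IsLinearMap ℝ fun t : ℂ => ((t, 0) : ℂ × ℂ) :=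
      ⟨fun x y => by simp, fun c x => by simp⟩
    exact (convex_segment t₁ t₂).is_linear_image this
  set O : Set (ℂ × ℂ) := {p | AnalyticAt ℂ G p} ∩ {p | AnalyticAt ℂ G' p} with hO
  have hOo : IsOpen O := (isOpen_analyticAt ℂ G).inter (isOpen_analyticAt ℂ G')
  have hKO : K ⊆ O := by
    rintro _ ⟨t, ht, rfl⟩
    exact ⟨hG t ht, hG' t ht⟩
  obtain ⟨δ, hδ, hsub⟩ := hKc.exists_thickening_subset_open hOo hKO
  have hpre : IsPreconnected (thickening δ K) := (hKconv.thickening δ).isPreconnected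
  have h1 : ((t₁, 0) : ℂ × ℂ) ∈ thickening δ K :=
    self_subset_thickening hδ K ⟨t₁, left_mem_segment ℝ t₁ t₂, rfl⟩
  have h2 : ((t₂, 0) : ℂ × ℂ) ∈ thickening δ K :=
    self_subset_thickening hδ K ⟨t₂, right_mem_segment ℝ t₁ t₂, rfl⟩
  have hA1 : AnalyticOnNhd ℂ G (thickening δ K) := fun p hp => (hsub hp).1
  have hA2 : AnalyticOnNhd ℂ G' (thickening δ K) := fun p hp => (hsub hp).2
  have := hA1.eqOn_of_preconnected_of_eventuallyEq hA2 hpre h1 h
  exact this.eventuallyEq_of_mem (isOpen_thickening.mem_nhds h2)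

/-- the increment of an analytic function in the first variable does not vanish -/
theorem incr_ne {G : ℂ × ℂ → ℂ} {t₁ : ℂ} (hG : AnalyticAt ℂ G (t₁, 0))
    (hd : deriv (fun s => G (s, 0)) t₁ ≠ 0) (a : ℂ) :
    ∀ᶠ p in 𝓝 ((t₁, 0) : ℂ × ℂ), a * p.2 ≠ 0 → G (p.1 + a * p.2, p.2) ≠ G p := by
  set L := fderiv ℂ G (t₁, 0) with hL
  have hs : HasStrictFDerivAt G L (t₁, 0) := hG.hasStrictFDerivAt
  have hLd : L (1, 0) = deriv (fun s => G (s, 0)) t₁ := by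
    have h2 : HasDerivAt (fun s : ℂ => ((s, 0) : ℂ × ℂ)) (1, 0) t₁ :=
      (hasDerivAt_id t₁).prodMk (hasDerivAt_const t₁ (0:ℂ))
    exact ((hG.differentiableAt.hasFDerivAt.comp_hasDerivAt t₁ h2).deriv).symm
  have hpos : 0 < ‖L (1, 0)‖ / 2 := by
    rw [hLd]
    exact half_pos (norm_pos_iff.2 hd)
  have hlo := hs.isLittleO.def hpos
  have ht : Tendsto (fun p : ℂ × ℂ => (((p.1 + a * p.2, p.2) : ℂ × ℂ), p)) (𝓝 (t₁, 0))
      (𝓝 (((t₁, 0) : ℂ × ℂ), ((t₁, 0) : ℂ × ℂ))) := by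
    have hc : Continuous fun p : ℂ × ℂ => (((p.1 + a * p.2, p.2) : ℂ × ℂ), p) := by fun_prop
    have := hc.tendsto (t₁, 0)
    simpa using this
  filter_upwards [ht.eventually hlo] with p hp hne heq
  have e1 : ((p.1 + a * p.2, p.2) : ℂ × ℂ) - p = (a * p.2) • ((1, 0) : ℂ × ℂ) := by
    ext <;> simp
  simp only [heq, e1, sub_self, zero_sub, norm_neg, map_smul, norm_smul] at hp
  have e2 : ‖((1, 0) : ℂ × ℂ)‖ = 1 := by simp [Prod.norm_def]
  rw [e2] at hp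
  have h3 : 0 < ‖a * p.2‖ := norm_pos_iff.2 hne
  have h4 : 0 < ‖L (1, 0)‖ := by linarith
  nlinarith [mul_pos h3 h4]

theorem im_abs_le {t ρ : ℂ} : t.im - ‖ρ‖ ≤ (t + ρ).im ∧ (t + ρ).im ≤ t.im + ‖ρ‖ := by
  have h := abs_le.1 (Complex.abs_im_le_norm ρ)
  rw [Complex.add_im]
  constructor <;> linarith [h.1, h.2]

/-- the functional equation for a continuation of `F` -/
theorem ext_fe {k : ℂ → ℂ} (hA : CSing k) (hk : Nrm k) {F : ℂ × ℂ → ℂ} {c h r : ℝ}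
    {G : ℂ × ℂ → ℂ} (hD : Dat k F c) (hG : IsExt F c h r G) (hch : c ≤ h) {t₁ : ℂ}
    (ht : t₁ ∈ St (-c) h) (hkt : AnalyticAt ℂ k (G (t₁, 0)))
    (hd : deriv (fun s => G (s, 0)) t₁ ≠ 0) :
    ∀ᶠ p in 𝓝 ((t₁, 0) : ℂ × ℂ), p.2 ≠ 0 →
      (G (p.1 + p.2, p.2) - G p)⁻¹ + (G (p.1 - p.2, p.2) - G p)⁻¹ = k (G p) := by
  have hc := hD.pos
  obtain ⟨ε, hε0, hε1, hε2, hε3, hε4⟩ : ∃ ε : ℝ, 0 < ε ∧ ε ≤ c / 4 ∧ ε < h - t₁.im ∧
      ε < t₁.im + c ∧ ε ≤ r := by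
    have h1 : 0 < h - t₁.im := by linarith [ht.2]
    have h2 : 0 < t₁.im + c := by linarith [ht.1]
    refine ⟨min (min (c / 4) ((h - t₁.im) / 2)) (min ((t₁.im + c) / 2) r), ?_, ?_, ?_, ?_, ?_⟩
    · exact lt_min (lt_min (by linarith) (by linarith)) (lt_min (by linarith) hG.r0)
    · exact (min_le_left _ _).trans (min_le_left _ _)
    · exact ((min_le_left _ _).trans (min_le_right _ _)).trans_lt (by linarith)
    · exact ((min_le_right _ _).trans (min_le_left _ _)).trans_lt (by linarith)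
    · exact (min_le_right _ _).trans (min_le_right _ _)
  set V := St (-c + ε) (h - ε) with hV
  have hVo : IsOpen V := isOpen_St _ _
  have ht1V : t₁ ∈ V := ⟨by linarith, by linarith⟩
  have hGa : AnalyticAt ℂ G (t₁, 0) := hG.an _ ⟨ht, mem_ball_self hG.r0⟩
  -- the equation outside a countable set
  have hslice : ∀ ρ : ℂ, ρ ≠ 0 → ‖ρ‖ < ε → ∃ Z : Set ℂ, Z.Countable ∧ ∀ t ∈ V, t ∉ Z →
      (G (t + ρ, ρ) - G (t, ρ))⁻¹ + (G (t - ρ, ρ) - G (t, ρ))⁻¹ = k (G (t, ρ)) := by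
    intro ρ hρ0 hρ
    have hρr : ρ ∈ ball (0:ℂ) r := by
      rw [mem_ball_zero_iff]
      linarith
    have hρc : ρ ∈ ball (0:ℂ) c := by
      rw [mem_ball_zero_iff]
      linarith
    have hslf : ∀ t ∈ St (-c) h, AnalyticAt ℂ (fun s => G (s, ρ)) t := fun t ht =>
      AnalyticAt.fun_comp (g := G) (f := fun s : ℂ => ((s, ρ) : ℂ × ℂ)) (hG.an (t, ρ) ⟨ht, hρr⟩)
        (analyticAt_id.prod analyticAt_const)
    set U := St (-c + ε) (c - ε) with hU
    have hsub : ∀ {a b : ℝ} {t : ℂ}, t ∈ St (a + ε) (b - ε) → t + ρ ∈ St a b ∧ t - ρ ∈ St a b ∧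
        t ∈ St a b := by
      intro a b t ht
      have h1 := im_abs_le (t := t) (ρ := ρ)
      have h2 := im_abs_le (t := t) (ρ := -ρ)
      rw [norm_neg] at h2
      rw [sub_eq_add_neg]
      obtain ⟨h3, h4⟩ := ht
      exact ⟨⟨by linarith [h1.1], by linarith [h1.2]⟩, ⟨by linarith [h2.1], by linarith [h2.2]⟩,
        ⟨by linarith, by linarith⟩⟩
    have hGF : ∀ t ∈ St (-c) c, G (t, ρ) = F (t, ρ) := fun t ht => hG.eq ⟨ht, hρr⟩
    have h0U : (0:ℂ) ∈ U := ⟨by simp; linarith, by simp; linarith⟩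
    have hρim := abs_le.1 (Complex.abs_im_le_norm ρ)
    have hρU : ρ ∈ U := ⟨by linarith [hρim.1], by linarith [hρim.2]⟩
    obtain ⟨-, Z, hZ, hfe⟩ := slice_fe (f := fun s => G (s, ρ)) (ρ := ρ) (V := V) (U := U)
      (Z₀ := ∅) hA hk hVo (convex_St _ _)
      (fun t ht => ⟨hslf t (hsub ht).2.2, hslf _ (hsub ht).1, hslf _ (hsub ht).2.1⟩)
      (isOpen_St _ _) (fun t ht => ⟨ht.1, by have := ht.2; linarith⟩)
      (by
        intro C
        by_contra hcon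
        push Not at hcon
        have h1 := hcon 0 h0U
        have h2 := hcon ρ hρU
        have h3 := hD.sep (0, ρ) ⟨(hsub h0U).2.2, hρc⟩ hρ0 (by simpa using (hsub hρU).2.2)
        apply h3
        simp only [zero_add]
        rw [← hGF ρ (hsub hρU).2.2, ← hGF 0 (hsub h0U).2.2]
        exact h2.trans h1.symm)
      countable_empty
      (by
        intro t htU _
        obtain ⟨hp, hm, h0⟩ := hsub htU
        have e0 := hGF t h0
        have e1 := hGF _ hp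
        have e2 := hGF _ hm
        refine ⟨?_, ?_, ?_⟩
        · rw [e0]
          exact hD.reg (t, ρ) ⟨h0, hρc⟩
        · rw [e0, e1]
          exact hD.sep (t, ρ) ⟨h0, hρc⟩ hρ0 hp
        · rw [e0, e1, e2]
          exact hD.fe (t, ρ) ⟨h0, hρc⟩ hρ0 hp hm)
    exact ⟨Z, hZ, fun t ht htZ => (hfe t ht htZ).2.2⟩
  -- nonvanishing denominators, continuity
  have hev1 := incr_ne hGa hd 1
  have hev2 := incr_ne hGa hd (-1)
  have hev3 : ∀ᶠ p in 𝓝 ((t₁, 0) : ℂ × ℂ), AnalyticAt ℂ k (G p) :=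
    hGa.continuousAt.tendsto.eventually hkt.eventually_analyticAt
  have hev4 : ∀ᶠ p in 𝓝 ((t₁, 0) : ℂ × ℂ), p ∈ V ×ˢ ball (0:ℂ) ε :=
    (hVo.prod isOpen_ball).mem_nhds ⟨ht1V, mem_ball_self hε0⟩
  obtain ⟨η, hη, hb⟩ := Metric.eventually_nhds_iff_ball.1 (hev1.and (hev2.and (hev3.and hev4)))
  refine Metric.eventually_nhds_iff_ball.2 ⟨η, hη, ?_⟩
  rintro ⟨t, ρ⟩ hp hρ0
  simp only at hρ0 ⊢
  rw [← ball_prod_same, mem_prod] at hp
  obtain ⟨hpt, hpρ⟩ := hp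
  simp only at hpt hpρ
  have hmem : ∀ s ∈ ball t₁ η, ((s, ρ) : ℂ × ℂ) ∈ ball ((t₁, 0) : ℂ × ℂ) η := by
    intro s hs
    rw [← ball_prod_same]
    exact ⟨hs, hpρ⟩
  have hρε : ‖ρ‖ < ε := by
    have := (hb _ (hmem t hpt)).2.2.2.2
    simpa using this
  obtain ⟨Z, hZ, hfe⟩ := hslice ρ hρ0 hρε
  have hρr : ρ ∈ ball (0:ℂ) r := by
    rw [mem_ball_zero_iff]
    linarith
  have hcG : ∀ s ∈ St (-c) h, ContinuousAt G (s, ρ) := fun s hs =>
    (hG.an (s, ρ) ⟨hs, hρr⟩).continuousAt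
  have hsV : ∀ s ∈ ball t₁ η, s + ρ ∈ St (-c) h ∧ s - ρ ∈ St (-c) h ∧ s ∈ St (-c) h := by
    intro s hs
    have hsV := (hb _ (hmem s hs)).2.2.2.1
    obtain ⟨h3, h4⟩ := hsV
    simp only at h3 h4
    have h1 := im_abs_le (t := s) (ρ := ρ)
    have h2 := im_abs_le (t := s) (ρ := -ρ)
    rw [norm_neg] at h2
    rw [sub_eq_add_neg]
    exact ⟨⟨by linarith [h1.1], by linarith [h1.2]⟩, ⟨by linarith [h2.1], by linarith [h2.2]⟩,
      ⟨by linarith, by linarith⟩⟩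
  refine eq_off (V := ball t₁ η) (Z := Z)
    (f := fun s => (G (s + ρ, ρ) - G (s, ρ))⁻¹ + (G (s - ρ, ρ) - G (s, ρ))⁻¹)
    (g := fun s => k (G (s, ρ))) isOpen_ball hZ ?_ ?_ ?_ hpt
  · intro s hs
    apply ContinuousAt.continuousWithinAt
    obtain ⟨h1, h2, h3⟩ := hsV s hs
    have c0 : ContinuousAt (fun s : ℂ => G (s, ρ)) s :=
      ContinuousAt.comp (g := G) (f := fun s : ℂ => ((s, ρ) : ℂ × ℂ)) (hcG s h3) (by fun_prop)
    have c1 : ContinuousAt (fun s : ℂ => G (s + ρ, ρ)) s :=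
      ContinuousAt.comp (g := G) (f := fun s : ℂ => ((s + ρ, ρ) : ℂ × ℂ)) (hcG _ h1) (by fun_prop)
    have c2 : ContinuousAt (fun s : ℂ => G (s - ρ, ρ)) s :=
      ContinuousAt.comp (g := G) (f := fun s : ℂ => ((s - ρ, ρ) : ℂ × ℂ)) (hcG _ h2) (by fun_prop)
    have n1 : G (s + ρ, ρ) - G (s, ρ) ≠ 0 := by
      have := (hb _ (hmem s hs)).1 (by simpa using hρ0)
      simp only [one_mul] at this
      exact sub_ne_zero.2 this
    have n2 : G (s - ρ, ρ) - G (s, ρ) ≠ 0 := by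
      have := (hb _ (hmem s hs)).2.1 (by simpa using hρ0)
      simp only [neg_one_mul, ← sub_eq_add_neg] at this
      exact sub_ne_zero.2 this
    exact ((c1.sub c0).inv₀ n1).add ((c2.sub c0).inv₀ n2)
  · intro s hs
    apply ContinuousAt.continuousWithinAt
    obtain ⟨h1, h2, h3⟩ := hsV s hs
    have c0 : ContinuousAt (fun s : ℂ => G (s, ρ)) s :=
      ContinuousAt.comp (g := G) (f := fun s : ℂ => ((s, ρ) : ℂ × ℂ)) (hcG s h3) (by fun_prop)
    exact ContinuousAt.comp (g := k) (f := fun s : ℂ => G (s, ρ))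
      (hb _ (hmem s hs)).2.2.1.continuousAt c0
  · intro s hs hsZ
    exact hfe s (hb _ (hmem s hs)).2.2.2.1 hsZ

end NonCont

theorem noncont {k : ℂ → ℂ} (hA : CSing k) (hk : Nrm k) {F : ℂ × ℂ → ℂ} {c h₁ : ℝ}
    (hD : Dat k F c) (hc : c ≤ h₁) (hE : ∀ h < h₁, Ext F c h) {f : ℂ → ℂ}
    (hf : AnalyticOnNhd ℂ f (St (-c) h₁)) (hfF : EqOn f (fun t => F (t, 0)) (St (-c) c)) {b : ℂ}
    (hb : b.im = h₁) {g : ℂ → ℂ} (hg : AnalyticAt ℂ g b)
    (hgf : ∀ᶠ t in 𝓝 b, t.im < h₁ → g t = f t) : RegB F c h₁ := by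
  have hc0 := hD.pos
  set S := St (-c) h₁ with hS
  set S₀ := St (-c) c with hS₀
  have hSo : IsOpen S := isOpen_St _ _
  have hSc : Convex ℝ S := convex_St _ _
  have hS₀S : S₀ ⊆ S := fun t ht => ⟨ht.1, lt_of_lt_of_le ht.2 hc⟩
  have hS₀o : IsOpen S₀ := isOpen_St _ _
  have hreal : ∀ s : ℝ, (s : ℂ) ∈ S₀ := fun s => ⟨by simpa using hc0, by simpa using hc0⟩
  have hne : f 0 ≠ f ((1 / 2 : ℝ) : ℂ) := by
    have h0 : f 0 = F (((0:ℝ) : ℂ), 0) := by
      have := hfF (hreal 0)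
      simpa using this
    have h1 : f ((1 / 2 : ℝ) : ℂ) = F (((1 / 2 : ℝ) : ℂ), 0) := hfF (hreal (1 / 2))
    rw [h0, h1]
    intro h
    obtain ⟨n, hn⟩ := hD.inj 0 (1 / 2) h
    have h2 : (2 * n + 1 : ℤ) = 0 := by
      have : (2 * (n : ℝ) + 1) = 0 := by linarith
      exact_mod_cast this
    omega
  have h00 : (0:ℂ) ∈ S₀ := by simpa using hreal 0
  have hfnc : ∀ t ∈ S, ∀ C, ¬ ∀ᶠ s in 𝓝[≠] t, f s = C := by
    intro t ht C hC
    have h := NonCont.eqOn_const hSc.isPreconnected hf ht hC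
    exact hne ((h (hS₀S h00)).trans (h (hS₀S (hreal _))).symm)
  -- the differential equation on the strip
  obtain ⟨-, hode⟩ := ode_strip (f := f) (V := S) (U := S₀) (Z₀ := ∅) hA hk hSo hSc hf hS₀o hS₀S
    (by
      intro C
      by_contra hcon
      push Not at hcon
      exact hne ((hcon 0 h00).trans (hcon _ (hreal _)).symm))
    countable_empty
    (by
      intro t ht _
      have hev : f =ᶠ[𝓝 t] fun s => F (s, 0) := hfF.eventuallyEq_of_mem (hS₀o.mem_nhds ht)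
      have e0 : f t = F (t, 0) := hfF ht
      have e1 := hev.deriv_eq
      have e2 := hev.deriv.deriv_eq
      rw [e0, e1, e2]
      exact ⟨hD.reg (t, 0) ⟨ht, mem_ball_self hc0⟩, (hD.ode ht).2⟩)
  -- the disc around `b`
  obtain ⟨d, hd0, hdb⟩ := Metric.eventually_nhds_iff_ball.1
    (hg.eventually_analyticAt.and (hgf.and
      (Metric.eventually_nhds_iff_ball.2 ⟨h₁, by linarith, fun (t : ℂ) ht => ht⟩ :
        ∀ᶠ t in 𝓝 b, t ∈ ball b h₁)))
  set V := ball b d with hV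
  set U := V ∩ {t : ℂ | t.im < h₁} with hU
  have hUo : IsOpen U := isOpen_ball.inter (isOpen_lt continuous_im continuous_const)
  have hUS : U ⊆ S := by
    rintro t ⟨htV, hti⟩
    refine ⟨?_, hti⟩
    have h1 := (hdb t htV).2.2
    rw [mem_ball, dist_eq_norm] at h1
    have h2 := abs_le.1 (Complex.abs_im_le_norm (t - b))
    rw [sub_im, hb] at h2
    linarith [h2.1]
  have hgU : EqOn g f U := fun t ht => (hdb t ht.1).2.1 ht.2
  have hga : AnalyticOnNhd ℂ g V := fun t ht => (hdb t ht).1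
  -- a point of `U`
  have hpt : ∀ (b' : ℂ) (e : ℝ), b'.im = h₁ → 0 < e → ∃ t ∈ ball b' e, t ∈ S ∧ t.im < h₁ := by
    intro b' e hb' he
    set e' := min (e / 2) h₁ with he'
    have he0 : 0 < e' := lt_min (by linarith) (by linarith)
    refine ⟨b' - e' * I, ?_, ⟨?_, ?_⟩, ?_⟩
    · rw [mem_ball, dist_eq_norm]
      have : b' - e' * I - b' = -(e' * I) := by ring
      rw [this, norm_neg, norm_mul, norm_I, mul_one, Complex.norm_real, Real.norm_eq_abs,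
        abs_of_pos he0]
      exact (min_le_left _ _).trans_lt (by linarith)
    · have : (b' - e' * I).im = h₁ - e' := by simp [hb']
      rw [this]
      linarith [min_le_right (e / 2) h₁]
    · have : (b' - e' * I).im = h₁ - e' := by simp [hb']
      rw [this]
      linarith
    · have : (b' - e' * I).im = h₁ - e' := by simp [hb']
      rw [this]
      linarith
  obtain ⟨u, huV, huS, hui⟩ := hpt b d hb hd0
  have huU : u ∈ U := ⟨huV, hui⟩
  have hgnc : ∀ t ∈ V, ∀ C, ¬ ∀ᶠ s in 𝓝[≠] t, g s = C := by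
    intro t ht C hC
    have h := NonCont.eqOn_const (convex_ball b d).isPreconnected hga ht hC
    apply hfnc u huS C
    apply eventually_nhdsWithin_of_eventually_nhds
    filter_upwards [hUo.mem_nhds huU] with s hs
    rw [← hgU hs]
    exact h hs.1
  have hZf : {t ∈ S | f t ∈ {z | ¬ AnalyticAt ℂ k z}}.Countable :=
    countable_preimage hSo hSc.isPreconnected (fun t ht => (hf t ht).meromorphicAt)
      ⟨0, hS₀S h00, hfnc 0 (hS₀S h00)⟩ hA
  obtain ⟨-, hodeg⟩ := ode_strip (f := g) (V := V) (U := U)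
    (Z₀ := {t ∈ S | f t ∈ {z | ¬ AnalyticAt ℂ k z}}) hA hk isOpen_ball (convex_ball b d) hga hUo
    inter_subset_left
    (by
      intro C
      by_contra hcon
      push Not at hcon
      apply hgnc u huV C
      apply eventually_nhdsWithin_of_eventually_nhds
      filter_upwards [hUo.mem_nhds huU] with s hs
      exact hcon s hs)
    hZf
    (by
      intro t ht htZ
      have hev : g =ᶠ[𝓝 t] f := hgU.eventuallyEq_of_mem (hUo.mem_nhds ht)
      have hka : AnalyticAt ℂ k (f t) := by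
        by_contra hcon
        exact htZ ⟨hUS ht, hcon⟩
      rw [hgU ht, hev.deriv_eq, hev.deriv.deriv_eq]
      exact ⟨hka, (hode t (hUS ht) hka).2⟩)
  -- the point `b'`
  have hZg : {t ∈ V | g t ∈ {z | ¬ AnalyticAt ℂ k z}}.Countable :=
    countable_preimage isOpen_ball (convex_ball b d).isPreconnected
      (fun t ht => (hga t ht).meromorphicAt) ⟨u, huV, hgnc u huV⟩ hA
  obtain ⟨s, hs1, hs2⟩ := NonCont.exists_real hZg b hd0
  set b' := b + (s : ℂ) with hb'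
  have hb'V : b' ∈ V := by
    rw [hV, mem_ball, dist_eq_norm, hb']
    simpa using hs1
  have hb'i : b'.im = h₁ := by
    rw [hb', add_im, ofReal_im, add_zero, hb]
  have hkb : AnalyticAt ℂ k (g b') := by
    by_contra hcon
    exact hs2 ⟨hb'V, hcon⟩
  obtain ⟨R, hR, hkR⟩ := Metric.eventually_nhds_iff_ball.1 hkb.eventually_analyticAt
  have hkR' : AnalyticOnNhd ℂ k (ball (g b') R) := fun z hz => hkR z hz
  obtain ⟨δ₀, hδ₀, hδb⟩ := Metric.eventually_nhds_iff_ball.1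
    (((hga b' hb'V).continuousAt.eventually_mem (isOpen_ball.mem_nhds (mem_ball_self hR))).and
      (isOpen_ball.eventually_mem hb'V))
  -- continuations near a point
  have hext : ∀ t ∈ S, ∃ h r G, IsExt F c h r G ∧ c ≤ h ∧ t.im < h := by
    intro t ht
    rcases lt_or_ge t.im c with h1 | h1
    · exact ⟨c, c, F, ⟨hc0, le_rfl, hD.an, fun _ _ => rfl⟩, le_rfl, h1⟩
    · obtain ⟨h, h2, h3⟩ := exists_between ht.2
      obtain ⟨r, hr0, hrc, G, hGa, hGF⟩ := hE h h3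
      exact ⟨h, r, G, ⟨hr0, hrc, hGa, hGF⟩, by linarith, h2⟩
  have hkey : ∀ t ∈ ball b' δ₀, t ∈ S → ∀ h r G, IsExt F c h r G → c ≤ h → t.im < h →
      AnalyticAt ℂ G (t, 0) ∧ (∀ᶠ s in 𝓝 t, G (s, 0) = g s) ∧
      deriv (fun s => G (s, 0)) t ≠ 0 ∧ AnalyticAt ℂ k (G (t, 0)) ∧
      ∀ᶠ p in 𝓝 ((t, 0) : ℂ × ℂ), p.2 ≠ 0 →
        (G (p.1 + p.2, p.2) - G p)⁻¹ + (G (p.1 - p.2, p.2) - G p)⁻¹ = k (G p) := by
    intro t ht htS h r G hG hch hth
    have htSh : t ∈ St (-c) h := ⟨htS.1, hth⟩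
    have hGa : AnalyticAt ℂ G (t, 0) := hG.an _ ⟨htSh, mem_ball_self hG.r0⟩
    -- `G (·, 0) = f` on the common strip
    set M := St (-c) (min h h₁) with hM
    have hA1 : AnalyticOnNhd ℂ (fun s : ℂ => G (s, 0)) M := by
      intro s hs
      exact AnalyticAt.fun_comp (g := G) (f := fun s : ℂ => ((s, 0) : ℂ × ℂ))
        (hG.an (s, 0) ⟨⟨hs.1, lt_of_lt_of_le hs.2 (min_le_left _ _)⟩, mem_ball_self hG.r0⟩)
        (analyticAt_id.prod analyticAt_const)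
    have hA2 : AnalyticOnNhd ℂ f M := by
      intro s hs
      exact hf s ⟨hs.1, lt_of_lt_of_le hs.2 (min_le_right _ _)⟩
    have h0M : (0:ℂ) ∈ M := ⟨by simpa using hc0, by simpa using lt_min (by linarith) (by linarith)⟩
    have hev0 : (fun s : ℂ => G (s, 0)) =ᶠ[𝓝 (0:ℂ)] f := by
      filter_upwards [hS₀o.mem_nhds h00] with s hs
      rw [hfF hs]
      exact hG.eq ⟨hs, mem_ball_self hG.r0⟩
    have hG0 : EqOn (fun s => G (s, 0)) f M :=
      hA1.eqOn_of_preconnected_of_eventuallyEq hA2 (convex_St _ _).isPreconnected h0M hev0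
    have htM : t ∈ M := ⟨htS.1, lt_min hth htS.2⟩
    have htU : t ∈ U := ⟨(hδb t ht).2, htS.2⟩
    have hev : ∀ᶠ s in 𝓝 t, G (s, 0) = g s := by
      filter_upwards [(isOpen_St _ _ : IsOpen M).mem_nhds htM, hUo.mem_nhds htU] with s h1 h2
      rw [hgU h2]
      exact hG0 h1
    have hkt : AnalyticAt ℂ k (g t) := hkR' _ (hδb t ht).1
    have heq : G (t, 0) = g t := hev.self_of_nhds
    have hdt : deriv (fun s => G (s, 0)) t ≠ 0 := by
      have hev' : (fun s => G (s, 0)) =ᶠ[𝓝 t] g := hev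
      rw [hev'.deriv_eq]
      exact (hodeg t htU.1 hkt).1
    have hkG : AnalyticAt ℂ k (G (t, 0)) := by
      rw [heq]
      exact hkt
    exact ⟨hGa, hev, hdt, hkG, NonCont.ext_fe hA hk hD hG hch htSh hkG hdt⟩
  -- `k` is good at `g b'`
  have hgood : Good k (g b') := by
    obtain ⟨t, htb, htS, -⟩ := hpt b' δ₀ hb'i hδ₀
    obtain ⟨h, r, G, hG, hch, hth⟩ := hext t htS
    obtain ⟨h1, h2, h3, h4, h5⟩ := hkey t htb htS h r G hG hch hth
    have hgt := good_of_family h1 h3 h4 h5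
    rw [h2.self_of_nhds] at hgt
    exact propag k (g b') R hkR' (g t) (hδb t htb).1 hgt (g b') (mem_ball_self hR)
  have hb'δ : b' ∈ ball b' δ₀ := mem_ball_self hδ₀
  obtain ⟨δ, hδ, hfam⟩ := family_of_good hgood (hga b' hb'V) (hodeg b' hb'V hkb).1
  -- the point `t₁` and the family `G'`
  obtain ⟨t₁, ht₁b, ht₁S, -⟩ := hpt b' (min δ δ₀) hb'i (lt_min hδ hδ₀)
  have ht₁δ : t₁ ∈ ball b' δ := ball_subset_ball (min_le_left _ _) ht₁b
  have ht₁δ₀ : t₁ ∈ ball b' δ₀ := ball_subset_ball (min_le_right _ _) ht₁b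
  obtain ⟨h, r, G, hG, hch, hth⟩ := hext t₁ ht₁S
  obtain ⟨h1, h2, h3, h4, h5⟩ := hkey t₁ ht₁δ₀ ht₁S h r G hG hch hth
  obtain ⟨G', hG'a, -, hG'G⟩ := hfam G t₁ ht₁δ h1 h2 h5
  obtain ⟨η, hη, hηb⟩ := Metric.eventually_nhds_iff_ball.1 (hG'a b' (mem_ball_self hδ)).eventually_analyticAt
  obtain ⟨t₂, ht₂b, ht₂S, -⟩ := hpt b' (min η δ) hb'i (lt_min hη hδ)
  refine ⟨b', η, G', t₂, hb'i, hη, ?_, ball_subset_ball (min_le_left _ _) ht₂b, ht₂S, ?_⟩
  · intro p hp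
    apply hηb
    rw [← ball_prod_same]
    exact hp
  intro h' r' G'' hG'' hth'
  -- a continuation `G₂` above `t₁` and `t₂`
  obtain ⟨h₂, r₂, G₂, hG₂, hch₂, hth₂⟩ := hext (if t₁.im ≤ t₂.im then t₂ else t₁)
    (by split_ifs; exacts [ht₂S, ht₁S])
  have hth21 : t₁.im < h₂ := by
    split_ifs at hth₂ with hle
    · linarith
    · exact hth₂
  have hth22 : t₂.im < h₂ := by
    split_ifs at hth₂ with hle
    · exact hth₂
    · linarith
  -- two continuations agree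
  have huniq : ∀ (t : ℂ), t ∈ S → ∀ h r G h' r' G', IsExt F c h r G → IsExt F c h' r' G' →
      t.im < h → t.im < h' → G =ᶠ[𝓝 (t, 0)] G' := by
    intro t htS h r G h' r' G' hG hG' h1 h2
    rcases lt_or_ge t.im c with h3 | h3
    · have hmem : ((t, 0) : ℂ × ℂ) ∈ S₀ ×ˢ ball (0:ℂ) (min r r') :=
        ⟨⟨htS.1, h3⟩, mem_ball_self (lt_min hG.r0 hG'.r0)⟩
      filter_upwards [(hS₀o.prod isOpen_ball).mem_nhds hmem] with p hp
      rw [hG.eq ⟨hp.1, ball_subset_ball (min_le_left _ _) hp.2⟩,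
        hG'.eq ⟨hp.1, ball_subset_ball (min_le_right _ _) hp.2⟩]
    · rcases le_total h h' with h4 | h4
      · have := IsExt.unique (by linarith : c ≤ h) h4 hG hG'
        exact this.eventuallyEq_of_mem (((isOpen_St _ _).prod isOpen_ball).mem_nhds
          ⟨⟨htS.1, h1⟩, mem_ball_self (lt_min hG.r0 hG'.r0)⟩)
      · have := IsExt.unique (by linarith : c ≤ h') h4 hG' hG
        exact (this.eventuallyEq_of_mem (((isOpen_St _ _).prod isOpen_ball).mem_nhds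
          ⟨⟨htS.1, h2⟩, mem_ball_self (lt_min hG'.r0 hG.r0)⟩)).symm
  have e1 : G₂ =ᶠ[𝓝 (t₁, 0)] G' :=
    (huniq t₁ ht₁S h₂ r₂ G₂ h r G hG₂ hG hth21 hth).trans hG'G.symm
  have ht₂δ : t₂ ∈ ball b' δ := ball_subset_ball (min_le_right _ _) ht₂b
  have e2 : G₂ =ᶠ[𝓝 (t₂, 0)] G' := by
    refine NonCont.germ_eq (fun t ht => ?_) (fun t ht => ?_) e1
    · exact hG₂.an _ ⟨(convex_St (-c) h₂).segment_subset ⟨ht₁S.1, hth21⟩ ⟨ht₂S.1, hth22⟩ ht,
        mem_ball_self hG₂.r0⟩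
    · exact hG'a t ((convex_ball b' δ).segment_subset ht₁δ ht₂δ ht)
  exact (huniq t₂ ht₂S h' r' G'' h₂ r₂ G₂ hG'' hG₂ hth' hth22).trans e2

end Pool.Agent.MP_ae5b4e_an_MERO
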