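import Mathlib
import Pool.Agent.Lib.MP_ae5b4e_an_MERO.Defs
import Pool.Agent.Lib.MP_ae5b4e_an_MERO.ExtBasic
import Pool.Agent.Lib.MP_ae5b4e_an_MERO.NonCont
import Pool.Agent.Lib.MP_ae5b4e_an_MERO.ExtBeyond

/-!
# MERO, module TE: the upper end of the strip
-/

noncomputable section

namespace Pool.Agent.MP_ae5b4e_an_MERO

open Complex Set Filter Topology Metric

namespace TopEnd

lemma isExt_self {k : ℂ → ℂ} {F : ℂ × ℂ → ℂ} {c : ℝ} (hD : Dat k F c) : IsExt F c c c F :=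
  ⟨hD.pos, le_refl c, hD.an, fun _ _ => rfl⟩

lemma ext_iff {F : ℂ × ℂ → ℂ} {c h : ℝ} : Ext F c h ↔ ∃ r G, IsExt F c h r G := by
  constructor
  · rintro ⟨r, h0, hr, G, h1, h2⟩
    exact ⟨r, G, h0, hr, h1, h2⟩
  · rintro ⟨r, G, h0, hr, h1, h2⟩
    exact ⟨r, h0, hr, G, h1, h2⟩

lemma St_mono {a b b' : ℝ} (h : b ≤ b') : St a b ⊆ St a b' :=
  fun _ ht => ⟨ht.1, ht.2.trans_le h⟩

lemma ext_mono {F : ℂ × ℂ → ℂ} {c h h' : ℝ} (hh : h' ≤ h) (hE : Ext F c h) : Ext F c h' := by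
  obtain ⟨r, h0, hr, G, h1, h2⟩ := hE
  exact ⟨r, h0, hr, G, h1.mono (prod_mono (St_mono hh) le_rfl), h2⟩

/-- all the continuations glue to one function at `ρ = 0` -/
lemma glue (F : ℂ × ℂ → ℂ) (c : ℝ) : ∃ f : ℂ → ℂ, ∀ h r G, c ≤ h → IsExt F c h r G →
    ∀ t ∈ St (-c) h, f t = G (t, 0) := by
  classical
  refine ⟨fun t => if ht : ∃ p : ℝ × ℝ × (ℂ × ℂ → ℂ), c ≤ p.1 ∧ t.im < p.1 ∧
    IsExt F c p.1 p.2.1 p.2.2 then (Classical.choose ht).2.2 (t, 0) else 0, ?_⟩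
  intro h r G hch hG t ht
  have hex : ∃ p : ℝ × ℝ × (ℂ × ℂ → ℂ), c ≤ p.1 ∧ t.im < p.1 ∧ IsExt F c p.1 p.2.1 p.2.2 :=
    ⟨(h, r, G), hch, ht.2, hG⟩
  simp only [dif_pos hex]
  obtain ⟨h1, h2, h3⟩ := Classical.choose_spec hex
  set p := Classical.choose hex with hp
  have h0 : (0:ℂ) ∈ ball (0:ℂ) (min r p.2.1) := by
    exact mem_ball_self (lt_min hG.r0 h3.r0)
  have h0' : (0:ℂ) ∈ ball (0:ℂ) (min p.2.1 r) := by
    exact mem_ball_self (lt_min h3.r0 hG.r0)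
  rcases le_total h p.1 with hle | hle
  · exact (IsExt.unique hch hle hG h3 (mk_mem_prod ht h0)).symm
  · exact IsExt.unique h1 hle h3 hG (mk_mem_prod (show t ∈ St (-c) p.1 from ⟨ht.1, h2⟩) h0')

lemma analyticAt_glue {F : ℂ × ℂ → ℂ} {c : ℝ} {f : ℂ → ℂ}
    (hf : ∀ h r G, c ≤ h → IsExt F c h r G → ∀ t ∈ St (-c) h, f t = G (t, 0))
    {h : ℝ} (hch : c ≤ h) (hE : Ext F c h) {t : ℂ} (ht : t ∈ St (-c) h) : AnalyticAt ℂ f t := by
  obtain ⟨r, G, hG⟩ := ext_iff.1 hE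
  have h1 : AnalyticAt ℂ G (t, 0) := hG.an (t, 0) (mk_mem_prod ht (mem_ball_self hG.r0))
  have h2 : AnalyticAt ℂ (fun s : ℂ => G (s, 0)) t :=
    AnalyticAt.comp (g := G) (f := fun s : ℂ => ((s, 0) : ℂ × ℂ)) h1
      (AnalyticAt.prod analyticAt_id analyticAt_const)
  refine h2.congr ?_
  filter_upwards [(isOpen_St (-c) h).mem_nhds ht] with s hs
  exact (hf h r G hch hG s hs).symm

end TopEnd

open TopEnd in
theorem top_end {k : ℂ → ℂ} (hA : CSing k) (hk : Nrm k) (hinf : SingInf k) {F : ℂ × ℂ → ℂ}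
    {c : ℝ} (hD : Dat k F c) :
    (∃ f : ℂ → ℂ, AnalyticOnNhd ℂ f {t | -c < t.im} ∧ EqOn f (fun t => F (t, 0)) (St (-c) c)) ∨
    ∃ h₁, c ≤ h₁ ∧ ∃ f : ℂ → ℂ, AnalyticOnNhd ℂ f (St (-c) h₁) ∧
      EqOn f (fun t => F (t, 0)) (St (-c) c) ∧
      ∀ b : ℂ, b.im = h₁ → ∀ g : ℂ → ℂ, AnalyticAt ℂ g b →
        ¬ ∀ᶠ t in 𝓝 b, t.im < h₁ → g t = f t := by
  obtain ⟨f, hf⟩ := glue F c
  have hself := isExt_self hD
  have hc0 : Ext F c c := ext_iff.2 ⟨c, F, hself⟩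
  have hfF : EqOn f (fun t => F (t, 0)) (St (-c) c) := fun t ht => hf c c F le_rfl hself t ht
  -- every height below a continuation height
  have key : ∀ t : ℂ, -c < t.im → (∃ h, t.im < h ∧ Ext F c h) → AnalyticAt ℂ f t := by
    rintro t ht ⟨h, h1, h2⟩
    rcases le_total c h with hch | hch
    · exact analyticAt_glue hf hch h2 ⟨ht, h1⟩
    · exact analyticAt_glue hf le_rfl hc0 ⟨ht, h1.trans_le hch⟩
  by_cases hB : BddAbove {h | Ext F c h}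
  · right
    have hcle : c ≤ sSup {h | Ext F c h} := le_csSup hB hc0
    have hE : ∀ h < sSup {h | Ext F c h}, Ext F c h := by
      intro h hh
      obtain ⟨h', h1, h2⟩ := exists_lt_of_lt_csSup ⟨c, hc0⟩ hh
      exact ext_mono h2.le h1
    have hfan : AnalyticOnNhd ℂ f (St (-c) (sSup {h | Ext F c h})) := by
      intro t ht
      obtain ⟨h', h1, h2⟩ := exists_lt_of_lt_csSup ⟨c, hc0⟩ ht.2
      exact key t ht.1 ⟨h', h2, h1⟩
    refine ⟨sSup {h | Ext F c h}, hcle, f, hfan, hfF, ?_⟩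
    intro b hb g hg hgf
    have hR : RegB F c (sSup {h | Ext F c h}) :=
      noncont hA hk hD hcle hE hfan hfF hb hg hgf
    obtain ⟨h, h1, h2⟩ := ext_beyond hA hk hinf hD hcle hE hR
    exact absurd (le_csSup hB h2) (not_le.2 h1)
  · left
    refine ⟨f, ?_, hfF⟩
    intro t ht
    rw [not_bddAbove_iff] at hB
    obtain ⟨h, h1, h2⟩ := hB t.im
    exact key t ht ⟨h, h2, h1⟩

end Pool.Agent.MP_ae5b4e_an_MERO
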