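import Mathlib
import Pool.Agent.Lib.MP_ae5b4e_an_MERO.Defs
import Pool.Agent.Lib.MP_ae5b4e_an_MERO.ExtBasic
import Pool.Agent.Lib.MP_ae5b4e_an_MERO.TopEnd
import Pool.Agent.Lib.MP_ae5b4e_an_MERO.EndA

/-!
# MERO, module CO: the core
-/

noncomputable section

namespace Pool.Agent.MP_ae5b4e_an_MERO

open Complex Set Filter Topology Metric

namespace CoreCO

lemma neg_mem {c : ℝ} {t : ℂ} (h : t ∈ St (-c) c) : -t ∈ St (-c) c := by
  obtain ⟨h1, h2⟩ := h
  constructor
  · rw [neg_im]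
    linarith
  · rw [neg_im]
    linarith

lemma neg_mem_prod {c : ℝ} {p : ℂ × ℂ} (h : p ∈ St (-c) c ×ˢ ball (0:ℂ) c) :
    (-p.1, p.2) ∈ St (-c) c ×ˢ ball (0:ℂ) c := ⟨neg_mem h.1, h.2⟩

end CoreCO

open CoreCO in
theorem Dat.neg {k : ℂ → ℂ} {F : ℂ × ℂ → ℂ} {c : ℝ} (hD : Dat k F c) :
    Dat k (fun p => F (-p.1, p.2)) c := by
  constructor
  · exact hD.pos
  · intro p hp
    have h1 : AnalyticAt ℂ (fun q : ℂ × ℂ => ((-q.1, q.2) : ℂ × ℂ)) p :=
      analyticAt_fst.neg.prod analyticAt_snd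
    have h2 : AnalyticAt ℂ F ((fun q : ℂ × ℂ => ((-q.1, q.2) : ℂ × ℂ)) p) :=
      hD.an _ (neg_mem_prod hp)
    exact AnalyticAt.fun_comp (g := F) h2 h1
  · intro p hp
    have h1 : (-p.1 - 1, p.2) ∈ St (-c) c ×ˢ ball (0:ℂ) c := by
      have h2 := neg_mem hp.1
      refine ⟨⟨?_, ?_⟩, hp.2⟩
      · simpa using h2.1
      · simpa using h2.2
    have h3 := hD.per _ h1
    show F (-(p.1 + 1), p.2) = F (-p.1, p.2)
    have h4 : (-p.1 - 1 + 1 : ℂ) = -p.1 := by ring
    have h5 : (-(p.1 + 1) : ℂ) = -p.1 - 1 := by ring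
    rw [h5]
    simp only [h4] at h3
    exact h3.symm
  · intro s t hst
    have h1 : F (((-s : ℝ) : ℂ), 0) = F (((-t : ℝ) : ℂ), 0) := by
      push_cast
      exact hst
    obtain ⟨n, hn⟩ := hD.inj _ _ h1
    refine ⟨-n, ?_⟩
    push_cast
    linarith
  · intro p hp
    exact hD.reg _ (neg_mem_prod hp)
  · intro p hp hp2 hpp
    have h1 : (-(p.1 + p.2), p.2) ∈ St (-c) c ×ˢ ball (0:ℂ) c := ⟨neg_mem hpp, hp.2⟩
    have h2 : (-(p.1 + p.2) + p.2 : ℂ) = -p.1 := by ring
    have h3 := hD.sep _ h1 hp2 (by simpa only [h2] using neg_mem hp.1)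
    simp only [h2] at h3
    exact h3.symm
  · intro p hp hp2 h1 h2
    have e1 : (-p.1 + p.2 : ℂ) = -(p.1 - p.2) := by ring
    have e2 : (-p.1 - p.2 : ℂ) = -(p.1 + p.2) := by ring
    have h3 := hD.fe _ (neg_mem_prod hp) hp2 (by simpa only [e1] using neg_mem h2)
      (by simpa only [e2] using neg_mem h1)
    simp only [e1, e2] at h3
    rw [add_comm] at h3
    exact h3

namespace CoreCO

lemma top {k : ℂ → ℂ} (hA : CSing k) (hk : Nrm k) (hinf : SingInf k) {F : ℂ × ℂ → ℂ}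
    {c : ℝ} (hD : Dat k F c) : ∃ U : Set ℝ, IsOpen U ∧ U.OrdConnected ∧ Iio c ⊆ U ∧
      ∃ f : ℂ → ℂ, (∀ t : ℂ, -c < t.im → t.im ∈ U → AnalyticAt ℂ f t) ∧
        EqOn f (fun t => F (t, 0)) (St (-c) c) ∧
        ∀ b : ℂ, b.im ∈ frontier U → ∀ g : ℂ → ℂ, AnalyticAt ℂ g b →
          ¬ ∀ᶠ t in 𝓝 b, t.im ∈ U → g t = f t := by
  rcases top_end hA hk hinf hD with ⟨f, hf, hfF⟩ | ⟨h₁, hc, f, hf, hfF, hn⟩
  · refine ⟨univ, isOpen_univ, ordConnected_univ, subset_univ _, f, fun t ht _ => hf t ht, hfF, ?_⟩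
    intro b hb
    rw [frontier_univ] at hb
    exact absurd hb (notMem_empty _)
  · refine ⟨Iio h₁, isOpen_Iio, ordConnected_Iio, Iio_subset_Iio hc, f,
      fun t ht ht' => hf t ⟨ht, ht'⟩, hfF, ?_⟩
    intro b hb g hg
    rw [frontier_Iio] at hb
    exact hn b hb g hg

end CoreCO

open CoreCO in
theorem core {k : ℂ → ℂ} (hA : CSing k) (hk : Nrm k) (hinf : SingInf k) {F : ℂ × ℂ → ℂ}
    {c : ℝ} (hD : Dat k F c) : False := by
  obtain ⟨U, hUo, hUc, hUs, f₁, han₁, hf₁, hn₁⟩ := top hA hk hinf hD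
  obtain ⟨U₂, hU₂o, hU₂c, hU₂s, f₂, han₂, hf₂, hn₂⟩ := top hA hk hinf hD.neg
  have hc := hD.pos
  set D : Set ℝ := Neg.neg ⁻¹' U₂ with hDdef
  have hDo : IsOpen D := hU₂o.preimage continuous_neg
  have hDc : D.OrdConnected := by
    constructor
    intro x hx y hy z hz
    show -z ∈ U₂
    exact hU₂c.out hy hx ⟨neg_le_neg hz.2, neg_le_neg hz.1⟩
  have hDs : Ioi (-c) ⊆ D := by
    intro y hy
    show -y ∈ U₂
    refine hU₂s ?_
    show -y < c
    have : -c < y := hy
    linarith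
  have hfrD : ∀ y : ℝ, y ∈ frontier D → -y ∈ frontier U₂ := by
    intro y hy
    have h1 : (Homeomorph.neg ℝ) ⁻¹' frontier U₂ = frontier D :=
      (Homeomorph.neg ℝ).preimage_frontier U₂
    rw [← h1] at hy
    exact hy
  set I : Set ℝ := U ∩ D with hIdef
  have hIo : IsOpen I := hUo.inter hDo
  have hIc : I.OrdConnected := hUc.inter hDc
  have hIs : Ioo (-c) c ⊆ I := fun y hy => ⟨hUs hy.2, hDs hy.1⟩
  have h0I : (0:ℝ) ∈ I := hIs ⟨by linarith, hc⟩
  -- the glued function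
  let f : ℂ → ℂ := fun t => if -c < t.im then f₁ t else f₂ (-t)
  have hf1 : ∀ t : ℂ, -c < t.im → f t = f₁ t := fun t ht => if_pos ht
  have hf2 : ∀ t : ℂ, t.im < c → f t = f₂ (-t) := by
    intro t ht
    by_cases h : -c < t.im
    · rw [hf1 t h, hf₁ ⟨h, ht⟩, hf₂ (neg_mem ⟨h, ht⟩)]
      simp
    · exact if_neg h
  have hf0 : EqOn f (fun t => F (t, 0)) (St (-c) c) := fun t ht => (hf1 t ht.1).trans (hf₁ ht)
  have hup : ∀ t : ℂ, -c < t.im → f =ᶠ[𝓝 t] f₁ := by
    intro t ht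
    filter_upwards [(isOpen_lt continuous_const continuous_im).mem_nhds ht] with s hs
    exact hf1 s hs
  have hlo : ∀ t : ℂ, t.im < c → f =ᶠ[𝓝 t] fun s => f₂ (-s) := by
    intro t ht
    filter_upwards [(isOpen_lt continuous_im continuous_const).mem_nhds ht] with s hs
    exact hf2 s hs
  have hfan : AnalyticOnNhd ℂ f (im ⁻¹' I) := by
    intro t ht
    by_cases h : -c < t.im
    · exact (han₁ t h ht.1).congr (hup t h).symm
    · have h1 : t.im < c := by linarith [not_lt.1 h]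
      have h2 : AnalyticAt ℂ f₂ (-t) := by
        refine han₂ (-t) ?_ ?_
        · rw [neg_im]
          linarith
        · rw [neg_im]
          exact ht.2
      exact (h2.comp (analyticAt_id.neg : AnalyticAt ℂ (fun s : ℂ => -s) t)).congr (hlo t h1).symm
  have hVo : IsOpen (im ⁻¹' I) := hIo.preimage continuous_im
  have hVc : Convex ℝ (im ⁻¹' I) :=
    hIc.convex.is_linear_preimage (f := im) ⟨fun _ _ => rfl, by simp⟩
  have hSV : St (-c) c ⊆ im ⁻¹' I := fun t ht => hIs ht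
  have h0S : (0:ℂ) ∈ St (-c) c := by
    constructor
    · rw [zero_im]
      linarith
    · rw [zero_im]
      exact hc
  have hreal : ∀ s : ℝ, (s : ℂ) ∈ St (-c) c := by
    intro s
    constructor
    · rw [ofReal_im]
      linarith
    · rw [ofReal_im]
      exact hc
  have hball : (0:ℂ) ∈ ball (0:ℂ) c := mem_ball_self hc
  have hper : ∀ t : ℂ, t.im ∈ I → f (t + 1) = f t := by
    have h1 : AnalyticOnNhd ℂ (fun t => f (t + 1)) (im ⁻¹' I) := by
      intro t ht
      have h2 : AnalyticAt ℂ f (t + 1) := hfan _ (by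
        show (t + 1).im ∈ I
        rw [add_im, one_im, add_zero]
        exact ht)
      exact AnalyticAt.fun_comp (g := f) (f := fun s : ℂ => s + 1) h2
        (analyticAt_id.add analyticAt_const)
    have h2 : (fun t => f (t + 1)) =ᶠ[𝓝 0] f := by
      filter_upwards [(isOpen_St (-c) c).mem_nhds h0S] with t ht
      have ht' : t + 1 ∈ St (-c) c := by
        refine ⟨?_, ?_⟩
        · simpa using ht.1
        · simpa using ht.2
      show f (t + 1) = f t
      rw [hf0 ht', hf0 ht]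
      exact hD.per (t, 0) ⟨ht, hball⟩
    intro t ht
    exact h1.eqOn_of_preconnected_of_eventuallyEq hfan hVc.isPreconnected (hSV h0S) h2 ht
  have hinj : ∀ s t : ℝ, f s = f t → ∃ n : ℤ, s = t + n := by
    intro s t hst
    rw [hf0 (hreal s), hf0 (hreal t)] at hst
    exact hD.inj s t hst
  have hode : ∀ t : ℂ, t.im ∈ I → MeromorphicNFAt k (f t) ∧ (AnalyticAt ℂ k (f t) →
      deriv f t ≠ 0 ∧ k (f t) = -(deriv (deriv f) t) / (deriv f t) ^ 2) := by
    have h1 := ode_strip (k := k) (f := f) hA hk (V := im ⁻¹' I) (U := St (-c) c) (Z₀ := ∅) hVo hVc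
      hfan (isOpen_St _ _) hSV ?_ countable_empty ?_
    · exact fun t ht => ⟨h1.1 t ht, h1.2 t ht⟩
    · intro a
      by_contra hcon
      push Not at hcon
      have h2 := hcon _ (hreal 0)
      have h3 := hcon _ (hreal (1/2))
      obtain ⟨n, hn⟩ := hinj 0 (1/2) (h2.trans h3.symm)
      have h4 : (2 * n : ℝ) = -1 := by linarith
      have h5 : (2 * n : ℤ) = -1 := by exact_mod_cast h4
      omega
    · intro t ht _
      have h2 : f =ᶠ[𝓝 t] fun s => F (s, 0) := by
        filter_upwards [(isOpen_St (-c) c).mem_nhds ht] with s hs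
        exact hf0 hs
      have h3 := hD.ode ht
      rw [hf0 ht, h2.deriv_eq, h2.deriv.deriv_eq]
      exact ⟨hD.reg (t, 0) ⟨ht, hball⟩, h3.2⟩
  refine end_contra hIo hIc h0I hA hk hinf hfan hper hode hinj ?_
  intro b hb g hg hev
  rcases frontier_inter_subset U D hb with ⟨h1, _⟩ | ⟨_, h1⟩
  · -- upper end
    have hbc : c ≤ b.im := by
      by_contra hlt
      have h2 : b.im ∈ U := hUs (not_le.1 hlt)
      rw [hUo.frontier_eq] at h1
      exact h1.2 h2
    refine hn₁ b h1 g hg ?_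
    have hbm : -c < b.im := by linarith
    filter_upwards [hev, (isOpen_lt continuous_const continuous_im).mem_nhds hbm] with t ht ht' htU
    rw [ht ⟨htU, hDs ht'⟩, hf1 t ht']
  · -- lower end
    have hb2 := hfrD _ h1
    have hbc : b.im ≤ -c := by
      by_contra hlt
      have h2 : b.im ∈ D := hDs (not_le.1 hlt)
      rw [hDo.frontier_eq] at h1
      exact h1.2 h2
    have hbm : b.im < c := by linarith
    have hg' : AnalyticAt ℂ (fun t => g (-t)) (-b) := by
      have h2 : AnalyticAt ℂ g (-(-b)) := by rwa [neg_neg]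
      exact h2.comp (analyticAt_id.neg : AnalyticAt ℂ (fun s : ℂ => -s) (-b))
    refine hn₂ (-b) (by rwa [neg_im]) _ hg' ?_
    have htend : Tendsto (fun s : ℂ => -s) (𝓝 (-b)) (𝓝 b) := by
      have h2 := (continuous_neg (G := ℂ)).tendsto (-b)
      rwa [neg_neg] at h2
    have hev2 := htend.eventually
      (hev.and ((isOpen_lt continuous_im continuous_const).mem_nhds hbm))
    filter_upwards [hev2] with t ht htU
    obtain ⟨ht1, ht2⟩ := ht
    have ht3 : (-t).im < c := ht2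
    have ht4 : (-t).im ∈ I := by
      refine ⟨hUs ht3, ?_⟩
      show -(-t).im ∈ U₂
      rwa [neg_im, neg_neg]
    rw [ht1 ht4, hf2 _ ht3, neg_neg]

end Pool.Agent.MP_ae5b4e_an_MERO
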