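import Mathlib
import Pool.Agent.Lib.SCV.Osgood
import Pool.Agent.Lib.MP_ae5b4e_an_SM.Defs
import Pool.Agent.Lib.MP_ae5b4e_an_SM.Conic
import Pool.Agent.Lib.MP_ae5b4e_an_MERO.Defs

/-!
# MP_ae5b4e_an, project MERO: the family of polygons in the coordinate `z = exp (i θ)`
-/

noncomputable section

namespace Pool.Agent.MP_ae5b4e_an_MERO

open Complex Set Filter Topology Metric
open Pool.Agent.MP_ae5b4e_an_SM (Psi GF Dm Rq elc dt isOpen_Dm)

namespace DA

lemma inv_exp_sub_one {d : ℂ} (h : exp (I * d) ≠ 1) :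
    (exp (I * d) - 1)⁻¹ = (cot (d / 2) - I) / (2 * I) := by
  have e1 : exp (I * d) = exp (d / 2 * I) * exp (d / 2 * I) := by
    rw [← exp_add]
    congr 1
    ring
  have hs : sin (d / 2) ≠ 0 := by
    intro h0
    apply h
    rw [e1, exp_mul_I, h0]
    have := cos_sq_add_sin_sq (d / 2)
    rw [h0] at this
    linear_combination this
  have e2 : exp (I * d) - 1 = 2 * I * sin (d / 2) * (cos (d / 2) + sin (d / 2) * I) := by
    rw [e1, exp_mul_I]
    have := cos_sq_add_sin_sq (d / 2)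
    linear_combination this - sin (d/2) ^ 2 * I_sq
  have e3 : (cos (d / 2) + sin (d / 2) * I) * (cos (d / 2) - sin (d / 2) * I) = 1 := by
    have := cos_sq_add_sin_sq (d / 2)
    linear_combination this - sin (d/2) ^ 2 * I_sq
  have h4 : (cos (d / 2) + sin (d / 2) * I) ≠ 0 := left_ne_zero_of_mul_eq_one e3
  rw [e2, cot_eq_cos_div_sin, mul_inv, inv_eq_of_mul_eq_one_right e3]
  have hI : (I : ℂ) ≠ 0 := I_ne_zero
  field_simp

/-- an open `1`-periodic set which contains the real line contains a strip -/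
lemma strip_of_open {G : Set ℂ} (hG : IsOpen G) (hr : ∀ t : ℝ, (t : ℂ) ∈ G)
    (hper : ∀ t ∈ G, t + 1 ∈ G) (hper' : ∀ t ∈ G, t - 1 ∈ G) :
    ∃ ε > 0, ∀ t : ℂ, |t.im| < ε → t ∈ G := by
  have hK : IsCompact ((fun x : ℝ => (x : ℂ)) '' Icc 0 1) :=
    isCompact_Icc.image continuous_ofReal
  obtain ⟨ε, hε, hsub⟩ := hK.exists_thickening_subset_open hG (by
    rintro _ ⟨x, _, rfl⟩
    exact hr x)
  have hn : ∀ n : ℕ, ∀ t, t ∈ G → t + n ∈ G := by
    intro n
    induction n with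
    | zero => intro t ht; simpa using ht
    | succ n ih =>
      intro t ht
      have := hper _ (ih t ht)
      push_cast
      rwa [← add_assoc]
  have hn' : ∀ n : ℕ, ∀ t, t ∈ G → t - n ∈ G := by
    intro n
    induction n with
    | zero => intro t ht; simpa using ht
    | succ n ih =>
      intro t ht
      have := hper' _ (ih t ht)
      push_cast
      rwa [← sub_sub]
  have hz : ∀ n : ℤ, ∀ t, t ∈ G → t + n ∈ G := by
    intro n t ht
    obtain ⟨m, rfl | rfl⟩ := n.eq_nat_or_neg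
    · exact_mod_cast hn m t ht
    · have := hn' m t ht
      push_cast
      rwa [← sub_eq_add_neg]
  refine ⟨ε, hε, fun t ht => ?_⟩
  have h1 : t - ⌊t.re⌋ ∈ G := by
    apply hsub
    rw [mem_thickening_iff]
    refine ⟨((Int.fract t.re : ℝ) : ℂ), ⟨Int.fract t.re, ⟨Int.fract_nonneg _,
      (Int.fract_lt_one _).le⟩, rfl⟩, ?_⟩
    rw [dist_eq]
    have e : t - ⌊t.re⌋ - ((Int.fract t.re : ℝ) : ℂ) = t.im * I := by
      apply Complex.ext
      · simp
      · simp
    rw [e, norm_mul, norm_I, mul_one, norm_real, Real.norm_eq_abs]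
    exact ht
  have h2 := hz ⌊t.re⌋ _ h1
  simpa using h2

/-- the same for sets of pairs -/
lemma strip_of_open2 {G : Set (ℂ × ℂ)} (hG : IsOpen G) (hr : ∀ t : ℝ, ((t : ℂ), (0:ℂ)) ∈ G)
    (hper : ∀ p ∈ G, (p.1 + 1, p.2) ∈ G) (hper' : ∀ p ∈ G, (p.1 - 1, p.2) ∈ G) :
    ∃ ε > 0, ∀ p : ℂ × ℂ, |p.1.im| < ε → ‖p.2‖ < ε → p ∈ G := by
  have hK : IsCompact ((fun x : ℝ => ((x : ℂ), (0:ℂ))) '' Icc 0 1) :=
    isCompact_Icc.image (continuous_ofReal.prodMk continuous_const)
  obtain ⟨ε, hε, hsub⟩ := hK.exists_thickening_subset_open hG (by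
    rintro _ ⟨x, _, rfl⟩
    exact hr x)
  have hn : ∀ n : ℕ, ∀ p : ℂ × ℂ, p ∈ G → (p.1 + n, p.2) ∈ G := by
    intro n
    induction n with
    | zero => intro t ht; simpa using ht
    | succ n ih =>
      intro p ht
      have := hper _ (ih p ht)
      push_cast
      rwa [← add_assoc]
  have hn' : ∀ n : ℕ, ∀ p : ℂ × ℂ, p ∈ G → (p.1 - n, p.2) ∈ G := by
    intro n
    induction n with
    | zero => intro t ht; simpa using ht
    | succ n ih =>
      intro p ht
      have := hper' _ (ih p ht)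
      push_cast
      rwa [← sub_sub]
  have hz : ∀ n : ℤ, ∀ p : ℂ × ℂ, p ∈ G → (p.1 + n, p.2) ∈ G := by
    intro n t ht
    obtain ⟨m, rfl | rfl⟩ := n.eq_nat_or_neg
    · exact_mod_cast hn m t ht
    · have := hn' m t ht
      push_cast
      rwa [← sub_eq_add_neg]
  refine ⟨ε, hε, fun p ht hp => ?_⟩
  have h1 : (p.1 - ⌊p.1.re⌋, p.2) ∈ G := by
    apply hsub
    rw [mem_thickening_iff]
    refine ⟨(((Int.fract p.1.re : ℝ) : ℂ), 0), ⟨Int.fract p.1.re, ⟨Int.fract_nonneg _,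
      (Int.fract_lt_one _).le⟩, rfl⟩, ?_⟩
    rw [Prod.dist_eq, max_lt_iff]
    constructor
    · simp only
      rw [dist_eq]
      have e : p.1 - ⌊p.1.re⌋ - ((Int.fract p.1.re : ℝ) : ℂ) = p.1.im * I := by
        apply Complex.ext
        · simp
        · simp
      rw [e, norm_mul, norm_I, mul_one, norm_real, Real.norm_eq_abs]
      exact ht
    · simpa using hp
  have h2 := hz ⌊p.1.re⌋ _ h1
  simpa using h2

/-- functions with positive real part of the derivative are injective on convex sets -/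
lemma injOn_of_re_deriv_pos {f : ℂ → ℂ} {U : Set ℂ} (hU : IsOpen U) (hc : Convex ℝ U)
    (hf : DifferentiableOn ℂ f U) (hp : ∀ z ∈ U, 0 < (deriv f z).re) : InjOn f U := by
  intro z hz w hw h
  by_contra hne
  have hd : w - z ≠ 0 := sub_ne_zero.2 (Ne.symm hne)
  have hseg : ∀ s ∈ Icc (0:ℝ) 1, z + s * (w - z) ∈ U := by
    intro s hs
    have := hc hz hw (sub_nonneg.2 hs.2) hs.1 (by ring)
    convert this using 1
    simp only [real_smul]
    push_cast
    ring
  set g : ℝ → ℝ := fun s => (f (z + s * (w - z)) / (w - z)).re with hg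
  have hgd : ∀ s ∈ Icc (0:ℝ) 1, HasDerivAt g ((deriv f (z + s * (w - z))).re) s := by
    intro s hs
    have h1 := ((hf _ (hseg s hs)).differentiableAt (hU.mem_nhds (hseg s hs))).hasDerivAt
    have h2 : HasDerivAt (fun s : ℂ => z + s * (w - z)) (w - z) (s : ℂ) := by
      simpa using ((hasDerivAt_id (s : ℂ)).mul_const (w - z)).const_add z
    have h3 : HasDerivAt (fun s : ℂ => f (z + s * (w - z)) / (w - z))
        (deriv f (z + s * (w - z))) (s : ℂ) := by
      refine ((h1.comp (s : ℂ) h2).div_const (w - z)).congr_deriv ?_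
      field_simp
    exact h3.real_of_complex
  have h01 : g 0 < g 1 := by
    have hcont : ContinuousOn g (Icc 0 1) := fun s hs => (hgd s hs).continuousAt.continuousWithinAt
    refine (strictMonoOn_of_deriv_pos (convex_Icc (0:ℝ) 1) hcont ?_) (left_mem_Icc.2 zero_le_one)
      (right_mem_Icc.2 zero_le_one) one_pos
    intro s hs
    rw [interior_Icc] at hs
    rw [(hgd s (Ioo_subset_Icc_self hs)).deriv]
    exact hp _ (hseg s (Ioo_subset_Icc_self hs))
  simp only [hg, ofReal_zero, zero_mul, add_zero, ofReal_one, one_mul, add_sub_cancel] at h01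
  rw [h] at h01
  exact lt_irrefl _ h01

lemma mem_Dm0 {c r : ℝ} {p : ℂ × ℂ} :
    p ∈ Dm {0} c r ↔ |p.1.im| < c ∧ |p.2.re| < r ∧ |p.2.im| < r := by
  simp [Dm, Rq]

section

variable {κ : ℝ → ℝ} {b c r : ℝ} {ψ : ℂ → ℂ} {F : ℂ × ℂ → ℂ}

lemma psi_an (hψ : Psi κ b ψ) {w : ℂ} (hw : |w.im| < b) : AnalyticAt ℂ ψ w := by
  have hop : IsOpen {t : ℂ | |t.im| < b} :=
    isOpen_lt (continuous_abs.comp continuous_im) continuous_const
  exact hψ.diff.analyticOnNhd hop w hw

lemma psi_int (hψ : Psi κ b ψ) (n : ℤ) {w : ℂ} (hw : |w.im| < b) :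
    ψ (w + n) = ψ w + n * (2 * Real.pi) := by
  have hn : ∀ n : ℕ, ∀ w : ℂ, |w.im| < b → ψ (w + n) = ψ w + n * (2 * Real.pi) := by
    intro n
    induction n with
    | zero => intro w _; simp
    | succ n ih =>
      intro w hw
      have h1 : |(w + n).im| < b := by simpa using hw
      push_cast
      rw [← add_assoc, hψ.per _ h1, ih w hw]
      ring
  obtain ⟨m, rfl | rfl⟩ := n.eq_nat_or_neg
  · exact_mod_cast hn m w hw
  · have h1 : |(w - m).im| < b := by simpa using hw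
    have h2 := hn m (w - m) h1
    rw [sub_add_cancel] at h2
    push_cast
    rw [← sub_eq_add_neg, h2]
    ring

lemma F_an (hF : GF c r (1 / 16) F) : AnalyticOnNhd ℂ F (Dm {0} c r) := by
  have h1 := Pool.Agent.SCV.differentiableOn_analyticOnNhd _ (isOpen_Dm _ _ _) _ hF.ap.diff
  intro p hp
  have h2 := (h1 p hp).add (analyticAt_fst (𝕜 := ℂ) (p := p))
  refine h2.congr (Eventually.of_forall fun q => ?_)
  simp

lemma F_per (hF : GF c r (1 / 16) F) {p : ℂ × ℂ} (hp : p ∈ Dm {0} c r) :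
    F (p.1 + 1, p.2) = F p + 1 := by
  have h := hF.ap.per p hp
  simp only at h
  linear_combination h

lemma F_per' (hF : GF c r (1 / 16) F) {p : ℂ × ℂ} (hp : p ∈ Dm {0} c r) :
    F (p.1 - 1, p.2) = F p - 1 := by
  have hq : ((p.1 - 1, p.2) : ℂ × ℂ) ∈ Dm {0} c r := by
    rw [mem_Dm0] at hp ⊢
    simpa using hp
  have h := F_per hF hq
  simp only [sub_add_cancel] at h
  linear_combination -h

lemma F_int (hF : GF c r (1 / 16) F) (n : ℤ) {p : ℂ × ℂ} (hp : p ∈ Dm {0} c r) :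
    F (p.1 + n, p.2) = F p + n := by
  have hn : ∀ n : ℕ, ∀ p : ℂ × ℂ, p ∈ Dm {0} c r → F (p.1 + n, p.2) = F p + n := by
    intro n
    induction n with
    | zero => intro w _; simp
    | succ n ih =>
      intro p hp
      have h1 : ((p.1 + n, p.2) : ℂ × ℂ) ∈ Dm {0} c r := by
        rw [mem_Dm0] at hp ⊢
        simpa using hp
      push_cast
      rw [← add_assoc, F_per hF h1, ih p hp]
      ring
  obtain ⟨m, rfl | rfl⟩ := n.eq_nat_or_neg
  · exact_mod_cast hn m p hp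
  · have h1 : ((p.1 - m, p.2) : ℂ × ℂ) ∈ Dm {0} c r := by
      rw [mem_Dm0] at hp ⊢
      simpa using hp
    have h2 := hn m _ h1
    simp only [sub_add_cancel] at h2
    push_cast
    rw [← sub_eq_add_neg, h2]
    ring

lemma F_lip (hF : GF c r (1 / 16) F) {t t' ρ : ℂ} (h : ((t, ρ) : ℂ × ℂ) ∈ Dm {0} c r)
    (h' : ((t', ρ) : ℂ × ℂ) ∈ Dm {0} c r) :
    ‖F (t', ρ) - F (t, ρ) - (t' - t)‖ ≤ 1 / 16 * ‖t' - t‖ := by
  have hc : Convex ℝ {s : ℂ | |s.im| < c} := by
    have e : {s : ℂ | |s.im| < c} = im ⁻¹' Ioo (-c) c := by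
      ext z
      simp [abs_lt]
    rw [e]
    exact (convex_Ioo _ _).is_linear_preimage (f := im) ⟨fun _ _ => rfl, by simp⟩
  rw [mem_Dm0] at h h'
  have hd : ∀ s ∈ {s : ℂ | |s.im| < c}, HasDerivAt (fun s => F (s, ρ) - s)
      (dt F (s, ρ) - 1) s := by
    intro s hs
    have h1 : AnalyticAt ℂ F (s, ρ) := F_an hF _ (mem_Dm0.2 ⟨hs, h.2⟩)
    have h2 : DifferentiableAt ℂ (fun s => F (s, ρ)) s :=
      DifferentiableAt.comp s (g := F) (f := fun s : ℂ => (s, ρ)) h1.differentiableAt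
        (by fun_prop)
    exact h2.hasDerivAt.sub (hasDerivAt_id s)
  have h3 := hc.norm_image_sub_le_of_norm_hasDerivWithin_le
    (f := fun s => F (s, ρ) - s) (f' := fun s => dt F (s, ρ) - 1) (C := 1 / 16)
    (fun s hs => (hd s hs).hasDerivWithinAt)
    (fun s hs => hF.dt1 _ (mem_Dm0.2 ⟨hs, h.2⟩)) h.1 h'.1
  calc ‖F (t', ρ) - F (t, ρ) - (t' - t)‖ = ‖(F (t', ρ) - t') - (F (t, ρ) - t)‖ := by
        congr 1; ring
    _ ≤ _ := h3

end

end DA

open DA in
/-- the family of polygons in the coordinate `z = exp (i θ)` -/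
theorem dat_of_smooth {κ : ℝ → ℝ} {b c r : ℝ} {ψ : ℂ → ℂ} {F : ℂ × ℂ → ℂ} (hψ : Psi κ b ψ)
    (hc : 0 < c) (hr : 0 < r) (hF : GF c r (1 / 16) F)
    (hel : ∀ p ∈ Dm {-1, 0, 1} c r, p.2 ≠ 0 →
      elc ψ (F (p.1 - p.2, p.2)) (F p) (F (p.1 + p.2, p.2)) = 0)
    {K : ℂ → ℂ} (hK : ∀ θ : ℝ, AnalyticAt ℂ K (exp (θ * I)))
    (hκ : ∀ θ : ℝ, (κ θ : ℂ) = K (exp (θ * I))) {k : ℂ → ℂ}
    (hk : ∀ z, z ≠ 0 → AnalyticAt ℂ K z → k =ᶠ[𝓝 z] fun w => -w⁻¹ + K w / (2 * I * w)) :
    ∃ (c' : ℝ) (Z : ℂ × ℂ → ℂ), Dat k Z c' := by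
  -- the strip for `ψ`
  have hopb : IsOpen {t : ℂ | |t.im| < b} :=
    isOpen_lt (continuous_abs.comp continuous_im) continuous_const
  have hEan : ∀ w : ℂ, |w.im| < b → AnalyticAt ℂ (fun w => exp (I * ψ w)) w := fun w hw =>
    (analyticAt_const.mul (psi_an hψ hw)).cexp
  set G₁ : Set ℂ := {t | |t.im| < b ∧ 0 < (deriv ψ t).re ∧ AnalyticAt ℂ K (exp (I * ψ t))} with hG₁
  have hG₁o : IsOpen G₁ := by
    rw [isOpen_iff_mem_nhds]
    rintro t ⟨h1, h2, h3⟩
    have e1 := hopb.mem_nhds h1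
    have e2 : ContinuousAt (fun t => (deriv ψ t).re) t :=
      continuous_re.continuousAt.comp (psi_an hψ h1).deriv.continuousAt
    have e2' : ∀ᶠ s in 𝓝 t, 0 < (deriv ψ s).re := e2.eventually (lt_mem_nhds h2)
    have e4 : ∀ᶠ s in 𝓝 t, AnalyticAt ℂ K (exp (I * ψ s)) :=
      (hEan t h1).continuousAt.eventually h3.eventually_analyticAt
    filter_upwards [e1, e2', e4] with s a b c
    exact ⟨a, b, c⟩
  have hdper : ∀ t : ℂ, |t.im| < b → deriv ψ (t + 1) = deriv ψ t := by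
    intro t ht
    have h1 : (fun s => ψ (s + 1)) =ᶠ[𝓝 t] fun s => ψ s + 2 * Real.pi := by
      filter_upwards [hopb.mem_nhds ht] with s hs
      exact hψ.per s hs
    have h2 := h1.deriv_eq
    rw [deriv_comp_add_const, deriv_add_const] at h2
    exact h2
  have hEper : ∀ t : ℂ, |t.im| < b → exp (I * ψ (t + 1)) = exp (I * ψ t) := by
    intro t ht
    rw [hψ.per t ht, mul_add, exp_add]
    have : exp (I * (2 * Real.pi)) = 1 := by
      rw [mul_comm]
      exact exp_two_pi_mul_I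
    rw [this, mul_one]
  have hper1 : ∀ t ∈ G₁, t + 1 ∈ G₁ := by
    rintro t ⟨h1, h2, h3⟩
    refine ⟨by simpa using h1, ?_, ?_⟩
    · rwa [hdper t h1]
    · rwa [hEper t h1]
  have hper1' : ∀ t ∈ G₁, t - 1 ∈ G₁ := by
    rintro t ⟨h1, h2, h3⟩
    have h1' : |(t - 1).im| < b := by simpa using h1
    have e1 := hdper _ h1'
    have e2 := hEper _ h1'
    rw [sub_add_cancel] at e1 e2
    exact ⟨h1', by rwa [← e1], by rwa [← e2]⟩
  have hreal : ∀ t : ℝ, ψ t = ((ψ t).re : ℂ) := by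
    intro t
    apply Complex.ext
    · simp
    · simpa using hψ.real t
  have hG₁r : ∀ t : ℝ, (t : ℂ) ∈ G₁ := by
    intro t
    refine ⟨by simpa using hψ.b0, hψ.pos t, ?_⟩
    rw [mul_comm, hreal t]
    exact hK _
  obtain ⟨ε₁, hε₁, hsub₁⟩ := strip_of_open hG₁o hG₁r hper1 hper1'
  have hcst : Convex ℝ {s : ℂ | |s.im| < ε₁} := by
    have e : {s : ℂ | |s.im| < ε₁} = im ⁻¹' Ioo (-ε₁) ε₁ := by
      ext z
      simp [abs_lt]
    rw [e]
    exact (convex_Ioo _ _).is_linear_preimage (f := im) ⟨fun _ _ => rfl, by simp⟩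
  have hopε : IsOpen {s : ℂ | |s.im| < ε₁} :=
    isOpen_lt (continuous_abs.comp continuous_im) continuous_const
  have hinjψ : InjOn ψ {s : ℂ | |s.im| < ε₁} :=
    injOn_of_re_deriv_pos hopε hcst
      (fun s hs => (psi_an hψ (hsub₁ s hs).1).differentiableAt.differentiableWithinAt)
      fun s hs => (hsub₁ s hs).2.1
  -- the identity `-2 ψ'' / ψ'^2 = K (exp (i ψ))`
  have hident : ∀ y : ℂ, |y.im| < ε₁ →
      -2 * deriv (deriv ψ) y / deriv ψ y ^ 2 = K (exp (I * ψ y)) := by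
    have han1 : AnalyticOnNhd ℂ (fun y => -2 * deriv (deriv ψ) y / deriv ψ y ^ 2)
        {s : ℂ | |s.im| < ε₁} := by
      intro y hy
      have h1 := psi_an hψ (hsub₁ y hy).1
      have h2 : deriv ψ y ≠ 0 := by
        intro h0
        have := (hsub₁ y hy).2.1
        rw [h0] at this
        simp at this
      exact (analyticAt_const.mul h1.deriv.deriv).div (h1.deriv.pow 2) (pow_ne_zero 2 h2)
    have han2 : AnalyticOnNhd ℂ (fun y => K (exp (I * ψ y))) {s : ℂ | |s.im| < ε₁} := by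
      intro y hy
      exact (hsub₁ y hy).2.2.comp (f := fun y => exp (I * ψ y)) (hEan y (hsub₁ y hy).1)
    have hfr : ∃ᶠ y in 𝓝[≠] (0:ℂ), -2 * deriv (deriv ψ) y / deriv ψ y ^ 2 =
        K (exp (I * ψ y)) := by
      have h1 : Tendsto (fun x : ℝ => (x : ℂ)) (𝓝[≠] 0) (𝓝[≠] (0:ℂ)) := by
        refine tendsto_nhdsWithin_iff.2 ⟨?_, ?_⟩
        · exact (continuous_ofReal.tendsto' 0 0 ofReal_zero).mono_left nhdsWithin_le_nhds
        · filter_upwards [self_mem_nhdsWithin] with x hx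
          simpa using hx
      refine h1.frequently (Frequently.of_forall fun x => ?_)
      have h2 := hψ.ode x
      have h3 : deriv ψ (x : ℂ) ≠ 0 := by
        intro h0
        have := hψ.pos x
        rw [h0] at this
        simp at this
      rw [← h2, mul_div_cancel_right₀ _ (pow_ne_zero 2 h3), hκ, mul_comm I, ← hreal]
    have := han1.eqOn_of_preconnected_of_frequently_eq han2 hcst.isPreconnected
      (show (0:ℂ) ∈ {s : ℂ | |s.im| < ε₁} by simpa using hε₁) hfr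
    intro y hy
    exact this hy
  -- the strip for `F`
  set W : Set (ℂ × ℂ) := {p | p ∈ Dm {0} c r ∧ |(F p).im| < ε₁} with hW
  have hWo : IsOpen W := by
    rw [isOpen_iff_mem_nhds]
    rintro p ⟨h1, h2⟩
    have e1 := (isOpen_Dm {0} c r).mem_nhds h1
    have e2 : ContinuousAt (fun p => |(F p).im|) p :=
      continuous_abs.continuousAt.comp (continuous_im.continuousAt.comp (F_an hF p h1).continuousAt)
    have e3 : ∀ᶠ q in 𝓝 p, |(F q).im| < ε₁ := e2.eventually (gt_mem_nhds h2)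
    filter_upwards [e1, e3] with q a b
    exact ⟨a, b⟩
  have hWr : ∀ t : ℝ, ((t : ℂ), (0:ℂ)) ∈ W := by
    intro t
    have h0 : ((t : ℂ), (0:ℂ)) ∈ Dm {0} c r := by
      rw [mem_Dm0]
      simpa using ⟨hc, hr⟩
    refine ⟨h0, ?_⟩
    have h1 := hF.ap.real _ h0 (by simp) (by simp)
    have h2 : (F ((t : ℂ), (0:ℂ))).im = 0 := by simpa using h1
    rw [h2]
    simpa using hε₁
  have hWp : ∀ p ∈ W, (p.1 + 1, p.2) ∈ W := by
    rintro p ⟨h1, h2⟩
    refine ⟨?_, ?_⟩
    · rw [mem_Dm0] at h1 ⊢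
      simpa using h1
    · rw [F_per hF h1]
      simpa using h2
  have hWp' : ∀ p ∈ W, (p.1 - 1, p.2) ∈ W := by
    rintro p ⟨h1, h2⟩
    refine ⟨?_, ?_⟩
    · rw [mem_Dm0] at h1 ⊢
      simpa using h1
    · rw [F_per' hF h1]
      simpa using h2
  obtain ⟨ε₂, hε₂, hsub₂⟩ := strip_of_open2 hWo hWr hWp hWp'
  set c' := min ε₂ (1 / 4) with hc'
  have hc'0 : 0 < c' := lt_min hε₂ (by norm_num)
  have hmem : ∀ p ∈ St (-c') c' ×ˢ ball (0:ℂ) c', p ∈ W := by
    rintro p ⟨⟨h1, h2⟩, h3⟩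
    apply hsub₂
    · rw [abs_lt]
      have := min_le_left ε₂ (1 / 4)
      constructor <;> linarith
    · rw [mem_ball_zero_iff] at h3
      exact h3.trans_le (min_le_left _ _)
  set Z : ℂ × ℂ → ℂ := fun p => exp (I * ψ (F p)) with hZ
  -- equality of values of `Z`
  have hZeq : ∀ p q : ℂ × ℂ, p ∈ W → q ∈ W → Z p = Z q → ∃ n : ℤ, F p = F q + n := by
    intro p q hp hq h
    obtain ⟨n, hn⟩ := exp_eq_exp_iff_exists_int.1 h
    have h1 : ψ (F p) = ψ (F q) + n * (2 * Real.pi) := by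
      have hI : (I : ℂ) ≠ 0 := I_ne_zero
      apply mul_left_cancel₀ hI
      rw [hn]
      ring
    rw [← psi_int hψ n (hsub₁ _ hq.2).1] at h1
    refine ⟨n, hinjψ hp.2 ?_ h1⟩
    show |(F q + n).im| < ε₁
    simpa using hq.2
  have hsep : ∀ p ∈ St (-c') c' ×ˢ ball (0:ℂ) c', p.2 ≠ 0 → (p.1 + p.2) ∈ St (-c') c' →
      Z (p.1 + p.2, p.2) ≠ Z p := by
    intro p hp hp2 hp3 h
    have h1 := hmem p hp
    have h2 := hmem (p.1 + p.2, p.2) ⟨hp3, hp.2⟩
    obtain ⟨n, hn⟩ := hZeq _ _ h2 h1 h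
    have h3 := F_lip hF (t := p.1) (t' := p.1 + p.2) (ρ := p.2) h1.1 h2.1
    have h4 : F (p.1, p.2) = F p := rfl
    rw [h4, hn, add_sub_cancel_left, add_sub_cancel_left] at h3
    have h5 : ‖p.2‖ < c' := by simpa using hp.2
    have h6 : c' ≤ 1 / 4 := min_le_right _ _
    have h7 : ‖(n : ℂ)‖ < 1 := by
      calc ‖(n : ℂ)‖ = ‖((n : ℂ) - p.2) + p.2‖ := by rw [sub_add_cancel]
        _ ≤ ‖(n : ℂ) - p.2‖ + ‖p.2‖ := norm_add_le _ _
        _ ≤ 1 / 16 * ‖p.2‖ + ‖p.2‖ := by linarith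
        _ < 1 := by linarith
    have h8 : n = 0 := by
      rw [norm_intCast] at h7
      have : |n| < 1 := by exact_mod_cast h7
      rwa [Int.abs_lt_one_iff] at this
    rw [h8] at h3
    simp only [Int.cast_zero, zero_sub, norm_neg] at h3
    have : 0 < ‖p.2‖ := norm_pos_iff.2 hp2
    linarith
  refine ⟨c', Z, ?_⟩
  have hZan : ∀ p ∈ W, AnalyticAt ℂ Z p := by
    intro p hp
    exact (hEan (F p) (hsub₁ _ hp.2).1).comp (F_an hF p hp.1)
  have hkk : ∀ p ∈ W, k =ᶠ[𝓝 (Z p)] fun w => -w⁻¹ + K w / (2 * I * w) := by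
    intro p hp
    exact hk _ (exp_ne_zero _) (hsub₁ _ hp.2).2.2
  refine ⟨hc'0, fun p hp => hZan p (hmem p hp), ?_, ?_, ?_, hsep, ?_⟩
  · intro p hp
    have h1 := hmem p hp
    simp only [hZ]
    rw [F_per hF h1.1, hEper _ (hsub₁ _ h1.2).1]
  · intro s t h
    have hs := hWr s
    have ht := hWr t
    obtain ⟨n, hn⟩ := hZeq _ _ hs ht h
    refine ⟨n, ?_⟩
    rw [← F_int hF n ht.1] at hn
    have ht' : (((t : ℂ) + n, (0:ℂ)) : ℂ × ℂ) ∈ Dm {0} c r := by
      have := ht.1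
      rw [mem_Dm0] at this ⊢
      simpa using this
    have h3 := F_lip hF ht' hs.1
    simp only at hn
    rw [hn, sub_self, zero_sub, norm_neg] at h3
    have h4 : ‖(s : ℂ) - (t + n)‖ ≤ 0 := by linarith [norm_nonneg ((s : ℂ) - (t + n))]
    have h5 : (s : ℂ) - (t + n) = 0 := norm_le_zero_iff.1 h4
    have h6 : (s : ℂ) = ((t + n : ℝ) : ℂ) := by
      push_cast
      linear_combination h5
    exact_mod_cast h6
  · intro p hp
    have h1 := hmem p hp
    have h2 : AnalyticAt ℂ (fun w => -w⁻¹ + K w / (2 * I * w)) (Z p) := by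
      have h0 : Z p ≠ 0 := exp_ne_zero _
      have h3 : AnalyticAt ℂ K (Z p) := (hsub₁ _ h1.2).2.2
      refine ((analyticAt_id.inv h0).neg).add (h3.div (analyticAt_const.mul analyticAt_id) ?_)
      simpa using h0
    exact h2.congr (hkk p h1).symm
  · intro p hp hp2 hp3 hp4
    have h1 := hmem p hp
    have h2 := hmem (p.1 + p.2, p.2) ⟨hp3, hp.2⟩
    have h3 := hmem (p.1 - p.2, p.2) ⟨hp4, hp.2⟩
    have s1 := hsep p hp hp2 hp3
    have s2 : Z (p.1 - p.2, p.2) ≠ Z p := by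
      have := hsep (p.1 - p.2, p.2) ⟨hp4, hp.2⟩ hp2 (by simpa using hp.1)
      simp only [sub_add_cancel] at this
      exact fun h => this h.symm
    have hdm : p ∈ Dm {-1, 0, 1} c r := by
      have a1 := h1.1
      have a2 := h2.1
      have a3 := h3.1
      rw [mem_Dm0] at a1 a2 a3
      refine ⟨?_, a1.2⟩
      intro s hs
      simp only [Finset.mem_insert, Finset.mem_singleton] at hs
      rcases hs with rfl | rfl | rfl
      · have := a3.1
        simpa [sub_eq_add_neg] using this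
      · simpa using a1.1
      · have := a2.1
        simpa using this
    have hel' := hel p hdm hp2
    set x := F (p.1 - p.2, p.2) with hx
    set y := F p with hy
    set z := F (p.1 + p.2, p.2) with hz
    have hyG := hsub₁ _ h1.2
    have hd0 : deriv ψ y ≠ 0 := by
      intro h0
      have := hyG.2.1
      rw [h0] at this
      simp at this
    have hcot : cot ((ψ z - ψ y) / 2) - cot ((ψ y - ψ x) / 2) = K (exp (I * ψ y)) := by
      rw [← hident y h1.2]
      unfold elc at hel'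
      field_simp at hel' ⊢
      linear_combination hel'
    have hZy : Z p = exp (I * ψ y) := rfl
    have hZz : Z (p.1 + p.2, p.2) = exp (I * ψ y) * exp (I * (ψ z - ψ y)) := by
      rw [← exp_add]
      simp only [hZ]
      rw [← hz]
      congr 1
      ring
    have hZx : Z (p.1 - p.2, p.2) = exp (I * ψ y) * exp (I * (ψ x - ψ y)) := by
      rw [← exp_add]
      simp only [hZ]
      rw [← hx]
      congr 1
      ring
    have n1 : exp (I * (ψ z - ψ y)) ≠ 1 := by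
      intro h
      rw [hZz, hZy, h, mul_one] at s1
      exact s1 rfl
    have n2 : exp (I * (ψ x - ψ y)) ≠ 1 := by
      intro h
      rw [hZx, hZy, h, mul_one] at s2
      exact s2 rfl
    have hE0 : exp (I * ψ y) ≠ 0 := exp_ne_zero _
    have hkv := (hkk p h1).self_of_nhds
    rw [hkv, hZz, hZx, hZy]
    beta_reduce
    rw [← hcot]
    have e1 : exp (I * ψ y) * exp (I * (ψ z - ψ y)) - exp (I * ψ y) =
        exp (I * ψ y) * (exp (I * (ψ z - ψ y)) - 1) := by ring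
    have e2 : exp (I * ψ y) * exp (I * (ψ x - ψ y)) - exp (I * ψ y) =
        exp (I * ψ y) * (exp (I * (ψ x - ψ y)) - 1) := by ring
    rw [e1, e2, mul_inv, mul_inv, inv_exp_sub_one n1, inv_exp_sub_one n2]
    have e3 : (ψ x - ψ y) / 2 = -((ψ y - ψ x) / 2) := by ring
    have e4 : cot ((ψ x - ψ y) / 2) = -cot ((ψ y - ψ x) / 2) := by
      rw [e3, cot_eq_cos_div_sin, cot_eq_cos_div_sin, cos_neg, sin_neg, div_neg]
    rw [e4]
    have hI : (I : ℂ) ≠ 0 := I_ne_zero
    field_simp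
    ring

end Pool.Agent.MP_ae5b4e_an_MERO
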