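import Mathlib
import Pool.Agent.Lib.MP_ae5b4e_an_MERO.Defs

/-!
# MP_ae5b4e_an, project MERO: functions meromorphic on the sphere are rational

`rational_of_meromorphic`: a function meromorphic at every point of the plane and at infinity is
rational.  `alg_of_rational`: a real function which is rational on the unit circle is algebraic in
the coordinate `tan (θ / 2)`.
-/

noncomputable section

namespace Pool.Agent.MP_ae5b4e_an_MERO

open Complex Set Filter Topology Metric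

namespace MeroRat

/-- an entire function of polynomial growth is a polynomial -/
lemma poly_of_growth (n : ℕ) : ∀ g : ℂ → ℂ, Differentiable ℂ g →
    (∃ C R : ℝ, ∀ z, R ≤ ‖z‖ → ‖g z‖ ≤ C * ‖z‖ ^ n) → ∃ P : Polynomial ℂ, ∀ z, g z = P.eval z := by
  induction n with
  | zero =>
    intro g hg ⟨C, R, h⟩
    have hb : Bornology.IsBounded (range g) := by
      have hc : IsCompact (closedBall (0:ℂ) R) := isCompact_closedBall 0 R
      have h1 : Bornology.IsBounded (g '' closedBall (0:ℂ) R) :=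
        (hc.image hg.continuous).isBounded
      have h2 : Bornology.IsBounded (closedBall (0:ℂ) C) := isBounded_closedBall
      refine (h1.union h2).subset ?_
      rintro _ ⟨z, rfl⟩
      rcases le_total ‖z‖ R with hz | hz
      · left
        exact ⟨z, by simpa using hz, rfl⟩
      · right
        have := h z hz
        simpa using this
    obtain ⟨c, hc⟩ := hg.exists_const_forall_eq_of_bounded hb
    exact ⟨Polynomial.C c, fun z => by simp [hc z]⟩
  | succ n ih =>
    intro g hg ⟨C, R, h⟩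
    have hd : Differentiable ℂ (dslope g 0) := by
      rw [← differentiableOn_univ] at hg ⊢
      exact (Complex.differentiableOn_dslope (by simp)).2 hg
    obtain ⟨P, hP⟩ := ih (dslope g 0) hd ⟨|C| + ‖g 0‖, max R 1, by
      intro z hz
      have hz1 : 1 ≤ ‖z‖ := le_trans (le_max_right _ _) hz
      have hz0 : z ≠ 0 := by
        rintro rfl
        simp at hz1
        linarith
      have h1 := h z (le_trans (le_max_left _ _) hz)
      have h2 : dslope g 0 z = (g z - g 0) / z := by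
        rw [dslope_of_ne _ hz0, slope_def_field]
        simp
      rw [h2, norm_div, div_le_iff₀ (by linarith)]
      calc ‖g z - g 0‖ ≤ ‖g z‖ + ‖g 0‖ := norm_sub_le _ _
        _ ≤ |C| * ‖z‖ ^ (n + 1) + ‖g 0‖ * ‖z‖ ^ (n + 1) := by
            have h3 : C * ‖z‖ ^ (n + 1) ≤ |C| * ‖z‖ ^ (n + 1) :=
              mul_le_mul_of_nonneg_right (le_abs_self C) (by positivity)
            have h4 : 1 ≤ ‖z‖ ^ (n + 1) := one_le_pow₀ hz1
            nlinarith [norm_nonneg (g 0)]
        _ = (|C| + ‖g 0‖) * ‖z‖ ^ n * ‖z‖ := by ring⟩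
    refine ⟨Polynomial.C (g 0) + Polynomial.X * P, fun z => ?_⟩
    rcases eq_or_ne z 0 with rfl | hz0
    · simp
    · have h2 : dslope g 0 z = (g z - g 0) / z := by
        rw [dslope_of_ne _ hz0, slope_def_field]
        simp
      have h3 := hP z
      rw [h2, div_eq_iff hz0] at h3
      simp only [Polynomial.eval_add, Polynomial.eval_C, Polynomial.eval_mul, Polynomial.eval_X]
      linear_combination h3

/-- polynomial growth at a point at infinity where the function is meromorphic -/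
lemma growth {g : ℂ → ℂ} (hinf : MeromorphicAt (fun w => g w⁻¹) 0) :
    ∃ (n : ℕ) (C R : ℝ), ∀ z, R ≤ ‖z‖ → ‖g z‖ ≤ C * ‖z‖ ^ n := by
  obtain ⟨n, hn⟩ := hinf
  have h1 : ∃ C : ℝ, ∀ᶠ w in 𝓝 (0:ℂ), ‖(w - 0) ^ n • g w⁻¹‖ ≤ C := by
    have h2 := hn.continuousAt.norm
    refine ⟨_, (h2.eventually_lt_const (lt_add_one _)).mono fun w hw => hw.le⟩
  obtain ⟨C, hC⟩ := h1
  obtain ⟨δ, hδ, hδC⟩ := Metric.eventually_nhds_iff.1 hC
  refine ⟨n, C, δ⁻¹ + 1, fun z hz => ?_⟩
  have hz0 : 0 < ‖z‖ := by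
    have := inv_pos.2 hδ
    linarith
  have h3 := hδC (y := z⁻¹) (by
    rw [dist_zero_right, norm_inv]
    have : δ⁻¹ < ‖z‖ := by linarith
    exact inv_lt_of_inv_lt₀ hδ this)
  simp only [sub_zero, inv_inv, smul_eq_mul, norm_mul, norm_pow, norm_inv] at h3
  have h4 : ‖g z‖ = ‖z‖ ^ n * (‖z‖⁻¹ ^ n * ‖g z‖) := by
    rw [← mul_assoc, ← mul_pow, mul_inv_cancel₀ hz0.ne', one_pow, one_mul]
  rw [h4, mul_comm C]
  exact mul_le_mul_of_nonneg_left h3 (by positivity)

/-- no singularities near infinity -/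
lemma analytic_large {k : ℂ → ℂ} (hinf : MeromorphicAt (fun w => k w⁻¹) 0) :
    ∃ R : ℝ, ∀ z, R ≤ ‖z‖ → AnalyticAt ℂ k z := by
  have h1 := hinf.eventually_analyticAt
  rw [eventually_nhdsWithin_iff] at h1
  obtain ⟨δ, hδ, h2⟩ := Metric.eventually_nhds_iff.1 h1
  refine ⟨δ⁻¹ + 1, fun z hz => ?_⟩
  have hz0 : 0 < ‖z‖ := by
    have := inv_pos.2 hδ
    linarith
  have hzne : z ≠ 0 := norm_pos_iff.1 hz0
  have h3 := h2 (y := z⁻¹) (by
    rw [dist_zero_right, norm_inv]
    have : δ⁻¹ < ‖z‖ := by linarith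
    exact inv_lt_of_inv_lt₀ hδ this) (by simpa using hzne)
  have h4 : AnalyticAt ℂ (fun z : ℂ => z⁻¹) z := analyticAt_inv hzne
  have h5 := h3.fun_comp_of_eq h4 rfl
  simpa using h5

end MeroRat

open MeroRat

theorem rational_of_meromorphic {k : ℂ → ℂ} (h : ∀ z, MeromorphicAt k z)
    (hinf : MeromorphicAt (fun w => k w⁻¹) 0) :
    ∃ P Q : Polynomial ℂ, Q ≠ 0 ∧ ∀ z, AnalyticAt ℂ k z → k z * Q.eval z = P.eval z := by
  classical
  obtain ⟨R, hR⟩ := analytic_large hinf
  have hfin : {z | ¬ AnalyticAt ℂ k z}.Finite := by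
    by_contra hinfi
    have hsub : {z | ¬ AnalyticAt ℂ k z} ⊆ closedBall (0:ℂ) R := by
      intro z hz
      by_contra hz2
      exact hz (hR z (by simpa using (not_le.1 (by simpa using hz2)).le))
    obtain ⟨x, -, hx⟩ := Set.Infinite.exists_accPt_of_subset_isCompact hinfi
      (isCompact_closedBall 0 R) hsub
    have h1 := (h x).eventually_analyticAt
    rw [accPt_iff_frequently_nhdsNE] at hx
    exact hx (h1.mono fun y hy hy2 => hy2 hy)
  choose n hn using h
  set S := hfin.toFinset with hS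
  set Q : Polynomial ℂ := ∏ s ∈ S, (Polynomial.X - Polynomial.C s) ^ n s with hQ
  have hQ0 : Q ≠ 0 := by
    rw [hQ, Finset.prod_ne_zero_iff]
    intro s _
    exact pow_ne_zero _ (Polynomial.X_sub_C_ne_zero s)
  have han : ∀ P : Polynomial ℂ, ∀ z, AnalyticAt ℂ (fun z => P.eval z) z := by
    intro P z
    exact P.differentiable.analyticAt z
  have hdiff : Differentiable ℂ (fun z => Q.eval z * k z) := by
    intro z
    apply AnalyticAt.differentiableAt
    by_cases hz : AnalyticAt ℂ k z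
    · exact (han Q z).mul hz
    · have hzS : z ∈ S := by
        simpa [hS] using hz
      have h1 : Q = (∏ s ∈ S.erase z, (Polynomial.X - Polynomial.C s) ^ n s) *
          (Polynomial.X - Polynomial.C z) ^ n z := by
        rw [hQ, Finset.prod_erase_mul _ _ hzS]
      have h2 := (han (∏ s ∈ S.erase z, (Polynomial.X - Polynomial.C s) ^ n s) z).mul (hn z)
      refine h2.congr (Eventually.of_forall fun w => ?_)
      rw [h1]
      simp only [Polynomial.eval_mul, Polynomial.eval_pow, Polynomial.eval_sub, Polynomial.eval_X,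
        Polynomial.eval_C, smul_eq_mul, Pi.mul_apply]
      ring
  have hm : MeromorphicAt (fun w : ℂ => Q.eval w⁻¹ * k w⁻¹) 0 := by
    refine MeromorphicAt.mul ?_ hinf
    have h1 : MeromorphicAt (fun w : ℂ => w⁻¹) 0 := (MeromorphicAt.id 0).inv
    simp only [Polynomial.eval_eq_sum_range]
    refine MeromorphicAt.fun_sum ?_
    intro i _
    exact (MeromorphicAt.const _ _).mul (h1.pow i)
  obtain ⟨m, C, R', hg⟩ := growth (g := fun z => Q.eval z * k z) hm
  obtain ⟨P, hP⟩ := poly_of_growth m _ hdiff ⟨C, R', hg⟩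
  exact ⟨P, Q, hQ0, fun z _ => by rw [← hP z]; ring⟩

namespace MeroRat

/-- the real part of a polynomial -/
def reP (p : Polynomial ℂ) : Polynomial ℝ :=
  ∑ j ∈ Finset.range (p.natDegree + 1), Polynomial.C (p.coeff j).re * Polynomial.X ^ j

/-- the imaginary part of a polynomial -/
def imP (p : Polynomial ℂ) : Polynomial ℝ :=
  ∑ j ∈ Finset.range (p.natDegree + 1), Polynomial.C (p.coeff j).im * Polynomial.X ^ j

lemma eval_reP (p : Polynomial ℂ) (x : ℝ) : (reP p).eval x = (p.eval (x:ℂ)).re := by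
  rw [Polynomial.eval_eq_sum_range (x := (x:ℂ)), reP, Polynomial.eval_finsetSum, Complex.re_sum]
  refine Finset.sum_congr rfl fun j _ => ?_
  rw [← ofReal_pow, re_mul_ofReal]
  simp

lemma eval_imP (p : Polynomial ℂ) (x : ℝ) : (imP p).eval x = (p.eval (x:ℂ)).im := by
  rw [Polynomial.eval_eq_sum_range (x := (x:ℂ)), imP, Polynomial.eval_finsetSum, Complex.im_sum]
  refine Finset.sum_congr rfl fun j _ => ?_
  rw [← ofReal_pow, im_mul_ofReal]
  simp

/-- the polynomial `(1 - i x) ^ N p ((1 + i x) / (1 - i x))` -/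
def hom (N : ℕ) (p : Polynomial ℂ) : Polynomial ℂ :=
  ∑ j ∈ Finset.range (N + 1), Polynomial.C (p.coeff j) *
    (1 + Polynomial.C I * Polynomial.X) ^ j * (1 - Polynomial.C I * Polynomial.X) ^ (N - j)

lemma eval_hom {N : ℕ} {p : Polynomial ℂ} (hp : p.natDegree ≤ N) {x : ℝ} {e : ℂ}
    (he : e * (1 - I * x) = 1 + I * x) :
    (hom N p).eval (x:ℂ) = (1 - I * x) ^ N * p.eval e := by
  rw [Polynomial.eval_eq_sum_range' (Nat.lt_succ_of_le hp), hom, Polynomial.eval_finsetSum,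
    Finset.mul_sum]
  refine Finset.sum_congr rfl fun j hj => ?_
  have hj' : j ≤ N := Nat.lt_succ_iff.1 (Finset.mem_range.1 hj)
  simp only [Polynomial.eval_mul, Polynomial.eval_C, Polynomial.eval_pow, Polynomial.eval_add,
    Polynomial.eval_one, Polynomial.eval_X, Polynomial.eval_sub]
  rw [← he, mul_pow]
  have h1 : (1 - I * (x:ℂ)) ^ N = (1 - I * (x:ℂ)) ^ j * (1 - I * (x:ℂ)) ^ (N - j) := by
    rw [← pow_add, Nat.add_sub_cancel' hj']
  rw [h1]
  ring

lemma exp_tan {θ : ℝ} (hθ : Real.cos (θ / 2) ≠ 0) :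
    exp (θ * I) * (1 - I * (Real.tan (θ / 2) : ℝ)) = 1 + I * (Real.tan (θ / 2) : ℝ) := by
  have hc : (cos ((θ:ℂ) / 2)) ≠ 0 := by
    have : ((Real.cos (θ / 2) : ℝ) : ℂ) ≠ 0 := by exact_mod_cast hθ
    simpa using this
  have h1 : ((Real.tan (θ / 2) : ℝ) : ℂ) = sin ((θ:ℂ) / 2) / cos ((θ:ℂ) / 2) := by
    rw [ofReal_tan, Complex.tan_eq_sin_div_cos]
    simp
  have h2 : exp (θ * I) = (cos ((θ:ℂ) / 2) + sin ((θ:ℂ) / 2) * I) ^ 2 := by
    rw [← Complex.exp_mul_I, ← Complex.exp_nat_mul]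
    congr 1
    push_cast
    ring
  have h3 := Complex.sin_sq_add_cos_sq ((θ:ℂ) / 2)
  rw [h1, h2]
  field_simp
  linear_combination (cos ((θ:ℂ) / 2) + sin ((θ:ℂ) / 2) * I) * h3 - (cos ((θ:ℂ) / 2) *
    sin ((θ:ℂ) / 2) ^ 2 + sin ((θ:ℂ) / 2) ^ 3 * I) * I_sq

lemma infinite_circle : {z : ℂ | ∃ θ : ℝ, Real.cos (θ / 2) ≠ 0 ∧ exp (θ * I) = z}.Infinite := by
  have h1 : (Ioo (0:ℝ) 1).Infinite := Ioo_infinite one_pos
  have h2 : InjOn (fun θ : ℝ => exp (θ * I)) (Ioo (0:ℝ) 1) := by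
    intro s hs t ht hst
    have h3 : Real.cos s = Real.cos t := by
      have := congrArg Complex.re hst
      simpa [Complex.exp_ofReal_mul_I_re] using this
    have hpi := Real.pi_gt_three
    exact Real.injOn_cos ⟨hs.1.le, by linarith [hs.2]⟩ ⟨ht.1.le, by linarith [ht.2]⟩ h3
  refine (h1.image h2).mono ?_
  rintro _ ⟨θ, hθ, rfl⟩
  refine ⟨θ, ?_, rfl⟩
  have hpi := Real.pi_gt_three
  exact (Real.cos_pos_of_mem_Ioo ⟨by linarith [hθ.1], by linarith [hθ.2]⟩).ne'

lemma one_sub_ne (x : ℝ) : (1 - I * (x:ℂ)) ≠ 0 := by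
  intro h
  have := congrArg Complex.re h
  simp at this

lemma graph_ne {A B : Polynomial ℝ} (hA : A ≠ 0) :
    (Polynomial.C A * Polynomial.X - Polynomial.C B : Polynomial (Polynomial ℝ)) ≠ 0 := by
  intro h
  have := congrArg (fun q => Polynomial.coeff q 1) h
  simp [Polynomial.coeff_C] at this
  exact hA this

end MeroRat

theorem rat_of_rational {κ : ℝ → ℝ} {P Q : Polynomial ℂ} (hQ : Q ≠ 0)
    (h : ∀ θ : ℝ, (κ θ : ℂ) * Q.eval (exp (θ * I)) = P.eval (exp (θ * I))) :
    ∃ A B : Polynomial ℝ, B ≠ 0 ∧ ∀ θ : ℝ, Real.cos (θ / 2) ≠ 0 →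
      κ θ * B.eval (Real.tan (θ / 2)) = A.eval (Real.tan (θ / 2)) := by
  set N := max P.natDegree Q.natDegree with hN
  have key : ∀ θ : ℝ, Real.cos (θ / 2) ≠ 0 →
      (κ θ : ℂ) * (hom N Q).eval ((Real.tan (θ / 2) : ℝ) : ℂ) =
        (hom N P).eval ((Real.tan (θ / 2) : ℝ) : ℂ) := by
    intro θ hθ
    rw [eval_hom (le_max_right _ _) (exp_tan hθ), eval_hom (le_max_left _ _) (exp_tan hθ), ← h θ]
    ring
  have hne : reP (hom N Q) ≠ 0 ∨ imP (hom N Q) ≠ 0 := by
    by_contra hcon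
    push Not at hcon
    apply hQ
    apply Polynomial.eq_zero_of_infinite_isRoot
    refine infinite_circle.mono ?_
    rintro z ⟨θ, hθ, rfl⟩
    have h1 : (hom N Q).eval ((Real.tan (θ / 2) : ℝ) : ℂ) = 0 := by
      apply Complex.ext
      · rw [← eval_reP, hcon.1]
        simp
      · rw [← eval_imP, hcon.2]
        simp
    rw [eval_hom (le_max_right _ _) (exp_tan hθ)] at h1
    exact (mul_eq_zero.1 h1).resolve_left (pow_ne_zero _ (one_sub_ne _))
  rcases hne with hne | hne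
  · refine ⟨reP (hom N P), reP (hom N Q), hne, fun θ hθ => ?_⟩
    have h1 := congrArg Complex.re (key θ hθ)
    rw [re_ofReal_mul, ← eval_reP, ← eval_reP] at h1
    exact h1
  · refine ⟨imP (hom N P), imP (hom N Q), hne, fun θ hθ => ?_⟩
    have h1 := congrArg Complex.im (key θ hθ)
    rw [im_ofReal_mul, ← eval_imP, ← eval_imP] at h1
    exact h1

theorem alg_of_rational {κ : ℝ → ℝ} {P Q : Polynomial ℂ} (hQ : Q ≠ 0)
    (h : ∀ θ : ℝ, (κ θ : ℂ) * Q.eval (exp (θ * I)) = P.eval (exp (θ * I))) :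
    ∃ G : Polynomial (Polynomial ℝ), G ≠ 0 ∧
      ∀ θ : ℝ, Real.cos (θ / 2) ≠ 0 → Polynomial.evalEval (Real.tan (θ / 2)) (κ θ) G = 0 := by
  obtain ⟨A, B, hB, hAB⟩ := rat_of_rational hQ h
  refine ⟨Polynomial.C B * Polynomial.X - Polynomial.C A, graph_ne hB, fun θ hθ => ?_⟩
  have h1 := hAB θ hθ
  simp only [Polynomial.evalEval, Polynomial.eval_sub, Polynomial.eval_mul, Polynomial.eval_C,
    Polynomial.eval_X]
  linarith

end Pool.Agent.MP_ae5b4e_an_MERO
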