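import Mathlib
import Pool.Agent.Lib.MP_ae5b4e_an_rat.Rational
import Pool.Agent.Lib.MP_ae5b4e_an_SM.Export
import Pool.Agent.Lib.MP_ae5b4e_an_MERO.DatSmooth
import Pool.Agent.Lib.MP_ae5b4e_an_MERO.Core
import Pool.Agent.Lib.MP_ae5b4e_an_MERO.Chart
import Pool.Agent.Lib.MP_ae5b4e_an_MERO.MeroRat

noncomputable section

namespace Pool.Agent.MP_ae5b4e_an_MERO

open Complex Set Filter Topology Metric
open Pool.Agent.MP_ae5b4e_an_SM (Psi GF Dm Rq elc dt isOpen_Dm smooth_conic)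
open Pool.Agent.MP_ae5b4e_an_rat (LFam)

/-- A field of involutions which is analytic outside a closed countable set and admits a local
foliation is rational. -/
theorem rational_of_csing {U : ℝ → ℝ → ℝ} {κ : ℝ → ℝ} (hU : LFam U κ) {K : ℂ → ℂ}
    (hK : {z | ¬ AnalyticAt ℂ K z}.Countable) (hKc : ∀ θ : ℝ, AnalyticAt ℂ K (exp (θ * I)))
    (hκ : ∀ θ : ℝ, (κ θ : ℂ) = K (exp (θ * I))) :
    ∃ A B : Polynomial ℝ, B ≠ 0 ∧ ∀ θ : ℝ, Real.cos (θ / 2) ≠ 0 →
      κ θ * B.eval (Real.tan (θ / 2)) = A.eval (Real.tan (θ / 2)) := by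
  -- `κ` is real-analytic
  have hκa : ∀ x, AnalyticAt ℝ κ x := by
    intro x
    have h1 : AnalyticAt ℂ (fun w : ℂ => K (exp (w * I))) (x : ℂ) :=
      (hKc x).comp (f := fun w : ℂ => exp (w * I)) (by fun_prop)
    have h2 : AnalyticAt ℝ (fun w : ℂ => K (exp (w * I))) (x : ℂ) := h1.restrictScalars
    have h3 : AnalyticAt ℝ (fun θ : ℝ => (θ : ℂ)) x := ofRealCLM.analyticAt x
    have h4 : AnalyticAt ℝ (fun θ : ℝ => K (exp ((θ : ℂ) * I))) x :=
      AnalyticAt.comp (g := fun w : ℂ => K (exp (w * I))) (f := fun θ : ℝ => (θ : ℂ)) h2 h3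
    have h5 : AnalyticAt ℝ (fun θ : ℝ => (K (exp ((θ : ℂ) * I))).re) x :=
      (reCLM.analyticAt _).comp h4
    refine h5.congr (Eventually.of_forall fun θ => ?_)
    simp only
    rw [← hκ, ofReal_re]
  obtain ⟨b, c, r, ψ, F, hψ, hc, hr, -, hF, -, hel⟩ := smooth_conic hU hκa
  -- the kernel in the coordinate `z`
  set k₀ : ℂ → ℂ := fun w => -w⁻¹ + K w / (2 * I * w) with hk₀
  have hk₀a : ∀ z, z ≠ 0 → AnalyticAt ℂ K z → AnalyticAt ℂ k₀ z := by
    intro z hz hKz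
    refine ((analyticAt_id.inv hz).neg).add (hKz.div (analyticAt_const.mul analyticAt_id) ?_)
    simpa using hz
  have hA₀ : CSing k₀ := by
    refine (hK.union (countable_singleton (0:ℂ))).mono ?_
    intro z hz
    by_contra h
    simp only [mem_union, mem_ofPred_eq, mem_singleton_iff, not_or, not_not] at h
    exact hz (hk₀a z h.2 h.1)
  obtain ⟨k, hN, hA, hkk⟩ := exists_nrm hA₀
  obtain ⟨c', Z, hD⟩ := dat_of_smooth hψ hc hr hF hel hKc hκ (k := k)
    (fun z hz hKz => hkk z (hk₀a z hz hKz))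
  by_cases hE : ∃ e, ¬ MeromorphicAt k e
  · obtain ⟨e, he⟩ := hE
    obtain ⟨k', F', h1, h2, h3, h4⟩ := chart hA hN hD he
    exact (core h1 h2 h3 h4).elim
  push Not at hE
  by_cases hinf : SingInf k
  · exact (core hA hN hinf hD).elim
  unfold SingInf at hinf
  push Not at hinf
  obtain ⟨P, Q, hQ, hPQ⟩ := rational_of_meromorphic hE hinf
  refine rat_of_rational (P := Polynomial.C (2 * I) * (Polynomial.X * P + Q)) hQ fun θ => ?_
  have h0 : exp ((θ : ℂ) * I) ≠ 0 := exp_ne_zero _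
  have h1 := hkk _ (hk₀a _ h0 (hKc θ))
  have h2 : AnalyticAt ℂ k (exp ((θ : ℂ) * I)) := (hk₀a _ h0 (hKc θ)).congr h1.symm
  have h3 := hPQ _ h2
  rw [h1.self_of_nhds] at h3
  simp only [hk₀] at h3
  rw [← hκ] at h3
  simp only [Polynomial.eval_mul, Polynomial.eval_C, Polynomial.eval_add, Polynomial.eval_X]
  have hI : (I : ℂ) ≠ 0 := I_ne_zero
  rw [← h3]
  field_simp
  ring

end Pool.Agent.MP_ae5b4e_an_MERO

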